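import Pool.Agent.Helper90.CX.CT2

/-!
Row K9 of MP_c75db0 (plan W), version 2: interpolation at the nodes `0`, `1/2`, `1`. `Vt D`: nodes
(index `0, 1, 2` of a direction: `t = 0, 1/2, 1`) or controls.
-/

set_option autoImplicit false
noncomputable section
namespace Pool.Agent.Helper17.N9

open Pool.Agent.Helper90.C75 (Vt avg wtT)
open Pool.Agent.Helper90.KMT (DL NN PT)
open Finset

/-- Lagrange polynomials of the nodes `0`, `1/2`, `1` -/
def nlg (i : ℕ) (t : ℝ) : ℝ :=
  if i = 0 then (1 - t) * (1 - 2 * t) else if i = 1 then 4 * t * (1 - t) else t * (2 * t - 1)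

/-- weights of the nodes -/
def ndw : (D : ℕ) → (ℕ → ℝ) → Vt D → ℝ
  | 0, _ => fun _ => 1
  | D + 1, t => fun u => ndw D t u.1 * nlg (u.2 : ℕ) (t D)

/-- `2 ^ D` times the controls of the function with the node values `G` -/
def cnI {V : Type} [AddCommGroup V] : (D : ℕ) → (Vt D → V) → Vt D → V
  | 0, G => G
  | D + 1, G => fun u => (![(2 : ℤ) • cnI D (fun w => G (w, 0)) u.1,
      (4 : ℤ) • cnI D (fun w => G (w, 1)) u.1 -
        (cnI D (fun w => G (w, 0)) u.1 + cnI D (fun w => G (w, 2)) u.1),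
      (2 : ℤ) • cnI D (fun w => G (w, 2)) u.1] : Fin 3 → V) u.2

/-- the first control -/
def vt0 : (D : ℕ) → Vt D
  | 0 => ()
  | D + 1 => (vt0 D, 0)

/-- error of the interpolation of a product (the lists: as in `DL`) -/
def ern : List (ℝ × ℝ) → List (ℝ × ℝ) → ℝ
  | (D, F) :: l, (D', F') :: l' => 3 * (D * F' + F * D') / 31 + F * F' / 16 + 5 / 4 * ern l l'
  | _, _ => 0

end Pool.Agent.Helper17.N9
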