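import Pool.Agent.Helper17.N9.N9T
import Pool.Agent.Helper12.CW.NF0
import Pool.Agent.Helper17.N9.N9I

/-!
Row K9 of MP_c75db0 (plan W), version 2: the real forms of the tables. The form of a table is the
hermitian matrix with the entries `(field - 2 ^ 23) / 2 ^ 23`; a form of kind `q` is the tensor
quadratic interpolation of its `27` nodes.
-/

set_option autoImplicit false
noncomputable section
namespace Pool.Agent.Helper17.N9

open Pool.Agent.Helper6.MONO.W2 (Mt)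
open Matrix Finset

/-- the number in the field `p` -/
def frl (T p : ℕ) : ℝ := (u24 T (24 * p) : ℝ) / 2 ^ 23 - 1

/-- the hermitian matrix of a table -/
def tabM (T : ℕ) : Mt :=
  !![(⟨frl T 0, 0⟩ : ℂ), ⟨frl T 3, frl T 4⟩, ⟨frl T 5, frl T 6⟩;
    ⟨frl T 3, -frl T 4⟩, ⟨frl T 1, 0⟩, ⟨frl T 7, frl T 8⟩;
    ⟨frl T 5, -frl T 6⟩, ⟨frl T 7, -frl T 8⟩, ⟨frl T 2, 0⟩]



/-- the table of the node `(i0, i1, i2)` -/
def ndT (k i0 i1 i2 : ℕ) : ℕ := Nat.shiftRight k (216 * (i0 + 3 * i1 + 9 * i2))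

/-- THE REAL FORM -/
def KfM : Kf → (ℕ → ℝ) → Mt
  | .c k, _ => tabM k
  | .q k, t => ∑ i2 ∈ range 3, ∑ i1 ∈ range 3, ∑ i0 ∈ range 3,
      ((nlg i2 (t 2) * nlg i1 (t 1) * nlg i0 (t 0) : ℝ) : ℂ) • tabM (ndT k i0 i1 i2)

theorem KfM_c (k : ℕ) (t : ℕ → ℝ) : KfM (.c k) t = tabM k := rfl
theorem KfM_q (k : ℕ) (t : ℕ → ℝ) : KfM (.q k) t =
    ∑ i2 ∈ range 3, ∑ i1 ∈ range 3, ∑ i0 ∈ range 3,
      ((nlg i2 (t 2) * nlg i1 (t 1) * nlg i0 (t 0) : ℝ) : ℂ) • tabM (ndT k i0 i1 i2) := rfl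

/-- the form depends on the parameters `0`, `1`, `2` only -/
theorem KfM_congr (k : Kf) {t t' : ℕ → ℝ} (h : ∀ j < 3, t j = t' j) : KfM k t = KfM k t' := by
  cases k with
  | c k => rfl
  | q k => rw [KfM_q, KfM_q, h 0 (by norm_num), h 1 (by norm_num), h 2 (by norm_num)]

end Pool.Agent.Helper17.N9
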