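import Pool.Agent.Helper17.N9.N9Z
import Pool.Agent.Helper26.TM.TR

/-!
Row K9 of MP_c75db0 (plan W), version 2, part Y: the laws of the test record.
-/

set_option autoImplicit false
noncomputable section
namespace Pool.Agent.Helper17.N9

open Pool.Agent.Helper86.CX (Cx)
open Pool.Agent.Helper86.CT (N3)
open Pool.Agent.Helper90.C75 (Vt avg)
open Pool.Agent.Helper90.KMO (cz)
open Pool.Agent.Helper90.KMT (nlf lf0 PT)
open Pool.Agent.Helper21.SW (T3 T4 lf3 lf4 TKL)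

theorem cz_clf {α : Type} {D : ℕ} {l : α → Vt D → Cx} {l' : α → Vt D → ℂ}
    (h : ∀ x v, cz (l x v) = l' x v) (x : N3 α) (v : Vt (D + 1)) : cz (clf l x v) = nlf l' x v := by
  obtain ⟨u, i⟩ := v
  cases x with
  | k x => exact h x u
  | q a c b =>
    fin_cases i
    · exact h a u
    · exact h c u
    · exact h b u

theorem cz_lc0 (x : Cx) (v : Vt 0) : cz (lc0 x v) = lf0 x v := rfl

theorem cz_lC3 (x : T3) (v : Vt 3) : cz (lC3 x v) = lf3 x v := cz_clf (cz_clf (cz_clf cz_lc0)) x v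
theorem cz_lC4 (x : T4) (v : Vt 4) : cz (lC4 x v) = lf4 x v := cz_clf cz_lC3 x v

/-- THE LAWS OF THE TEST RECORD -/
theorem Tr_ok : TKL KfM Pool.Agent.Helper26.TR.Tr where
  t3 {_ _ _ _ _ _ _ _} h hP hM hX :=
    tBk_ok Mn3_ok DlL_3 (by norm_num) cz_lC3 hP (fun _ => rfl) hM hX h
  t4 {_ _ _ _ _ t _ _} h hP hM hX :=
    tBk_ok Mn4_ok DlL_4 (le_refl 4) cz_lC4 hP (fun G => ndw_k 3 t G) hM hX h
  km hP := Pool.Agent.Helper51.FR.HK_kmK hP _
  up := Pool.Agent.Helper51.FR.KfM_tu _ _ _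

end Pool.Agent.Helper17.N9
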