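import Pool.Agent.Helper17.N9.N9I

/-!
Row K9 of MP_c75db0 (plan W), version 2: laws of the interpolation at the nodes.
-/

set_option autoImplicit false
noncomputable section
namespace Pool.Agent.Helper17.N9

open Pool.Agent.Helper90.C75 (Vt avg wtT)
open Pool.Agent.Helper90.KMT (DL NN PT)
open Finset

/-! ### recursion equations -/

theorem cnI_s0 {V : Type} [AddCommGroup V] (D : ℕ) (G : Vt (D + 1) → V) (u : Vt D) :
    cnI (D + 1) G (u, 0) = (2 : ℤ) • cnI D (fun w => G (w, 0)) u := rfl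
theorem cnI_s1 {V : Type} [AddCommGroup V] (D : ℕ) (G : Vt (D + 1) → V) (u : Vt D) :
    cnI (D + 1) G (u, 1) = (4 : ℤ) • cnI D (fun w => G (w, 1)) u -
      (cnI D (fun w => G (w, 0)) u + cnI D (fun w => G (w, 2)) u) := rfl
theorem cnI_s2 {V : Type} [AddCommGroup V] (D : ℕ) (G : Vt (D + 1) → V) (u : Vt D) :
    cnI (D + 1) G (u, 2) = (2 : ℤ) • cnI D (fun w => G (w, 2)) u := rfl

theorem nlg_0 (t : ℝ) : nlg 0 t = (1 - t) * (1 - 2 * t) := rfl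
theorem nlg_1 (t : ℝ) : nlg 1 t = 4 * t * (1 - t) := rfl
theorem nlg_2 (t : ℝ) : nlg 2 t = t * (2 * t - 1) := rfl

/-- additive maps commute with `cnI` -/
theorem cnI_map {V W : Type} [AddCommGroup V] [AddCommGroup W] (Φ : V →+ W) (D : ℕ)
    (G : Vt D → V) (u : Vt D) : Φ (cnI D G u) = cnI D (fun w => Φ (G w)) u := by
  induction D with
  | zero => rfl
  | succ D ih =>
    obtain ⟨v, i⟩ := u
    have h0 := ih (fun w => G (w, 0)) v
    have h1 := ih (fun w => G (w, 1)) v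
    have h2 := ih (fun w => G (w, 2)) v
    fin_cases i
    · show Φ (cnI (D + 1) G (v, 0)) = cnI (D + 1) (fun w => Φ (G w)) (v, 0)
      rw [cnI_s0, cnI_s0, map_zsmul, h0]
    · show Φ (cnI (D + 1) G (v, 1)) = cnI (D + 1) (fun w => Φ (G w)) (v, 1)
      rw [cnI_s1, cnI_s1, map_sub, map_add, map_zsmul, h0, h1, h2]
    · show Φ (cnI (D + 1) G (v, 2)) = cnI (D + 1) (fun w => Φ (G w)) (v, 2)
      rw [cnI_s2, cnI_s2, map_zsmul, h2]

/-- one more direction of the nodes -/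
theorem avg_ndw_succ (D : ℕ) (t : ℕ → ℝ) (G : Vt (D + 1) → ℂ) :
    avg (ndw (D + 1) t) G = (nlg 0 (t D) : ℂ) * avg (ndw D t) (fun v => G (v, 0)) +
      (nlg 1 (t D) : ℂ) * avg (ndw D t) (fun v => G (v, 1)) +
      (nlg 2 (t D) : ℂ) * avg (ndw D t) (fun v => G (v, 2)) := by
  unfold avg
  rw [Pool.Agent.Helper90.C75.sum_Vt_succ, Finset.mul_sum, Finset.mul_sum, Finset.mul_sum,
    ← Finset.sum_add_distrib, ← Finset.sum_add_distrib]
  refine Finset.sum_congr rfl fun v _ => ?_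
  rw [Fin.sum_univ_three]
  have e0 : ndw (D + 1) t (v, 0) = ndw D t v * nlg 0 (t D) := rfl
  have e1 : ndw (D + 1) t (v, 1) = ndw D t v * nlg 1 (t D) := rfl
  have e2 : ndw (D + 1) t (v, 2) = ndw D t v * nlg 2 (t D) := rfl
  rw [e0, e1, e2]
  push_cast
  ring

theorem avg_wt_succ (D : ℕ) (t : ℕ → ℝ) (F : Vt (D + 1) → ℂ) :
    avg (wtT (D + 1) t) F = ((1 - t D) ^ 2 : ℂ) * avg (wtT D t) (fun v => F (v, 0)) +
      (2 * t D * (1 - t D) : ℂ) * avg (wtT D t) (fun v => F (v, 1)) +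
      ((t D) ^ 2 : ℂ) * avg (wtT D t) (fun v => F (v, 2)) := by
  rw [Pool.Agent.Helper90.C75.avg_T_succ]
  generalize hA : (fun i : Fin 3 => avg (wtT D t) (fun v => F (v, i))) = A
  have h0 : avg (wtT D t) (fun v => F (v, 0)) = A 0 := by rw [← hA]
  have h1 : avg (wtT D t) (fun v => F (v, 1)) = A 1 := by rw [← hA]
  have h2 : avg (wtT D t) (fun v => F (v, 2)) = A 2 := by rw [← hA]
  rw [h0, h1, h2]
  unfold avg
  rw [Fin.sum_univ_three]
  simp only [Pool.Agent.Helper90.C75.bt, Matrix.cons_val_zero, Matrix.cons_val_one,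
    Matrix.cons_val]
  push_cast
  ring

theorem avg_zero_dir (w : Vt 0 → ℝ) (F : Vt 0 → ℂ) : avg w F = (w () : ℂ) * F () := by
  show ∑ v : Unit, _ = _
  exact Finset.sum_singleton _ _

/-- average of the controls = interpolation of the nodes, complex and real -/
theorem cn_avg (D : ℕ) (t : ℕ → ℝ) (G : Vt D → ℂ) :
    avg (wtT D t) (cnI D G) = 2 ^ D * avg (ndw D t) G := by
  induction D with
  | zero =>
    rw [avg_zero_dir, avg_zero_dir]
    show ((1 : ℝ) : ℂ) * G () = 2 ^ 0 * (((1 : ℝ) : ℂ) * G ())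
    simp
  | succ D ih =>
    rw [avg_wt_succ, avg_ndw_succ]
    have h0 := ih (fun w => G (w, 0))
    have h1 := ih (fun w => G (w, 1))
    have h2 := ih (fun w => G (w, 2))
    have e0 : avg (wtT D t) (fun v => cnI (D + 1) G (v, 0))
        = 2 * avg (wtT D t) (cnI D (fun w => G (w, 0))) := by
      rw [← Pool.Agent.Helper90.C75.avg_smul]
      congr 1
      funext v
      rw [cnI_s0, zsmul_eq_mul]
      norm_num
    have e2 : avg (wtT D t) (fun v => cnI (D + 1) G (v, 2))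
        = 2 * avg (wtT D t) (cnI D (fun w => G (w, 2))) := by
      rw [← Pool.Agent.Helper90.C75.avg_smul]
      congr 1
      funext v
      rw [cnI_s2, zsmul_eq_mul]
      norm_num
    have e1 : avg (wtT D t) (fun v => cnI (D + 1) G (v, 1))
        = 4 * avg (wtT D t) (cnI D (fun w => G (w, 1)))
          - (avg (wtT D t) (cnI D (fun w => G (w, 0))) + avg (wtT D t) (cnI D (fun w => G (w, 2)))) := by
      rw [← Pool.Agent.Helper90.C75.avg_smul, ← Pool.Agent.Helper90.C75.avg_add,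
        ← Pool.Agent.Helper90.C75.avg_sub]
      congr 1
      funext v
      rw [cnI_s1, zsmul_eq_mul]
      norm_num
    rw [e0, e1, e2, h0, h1, h2, nlg_0, nlg_1, nlg_2]
    push_cast
    ring

theorem cn_avgR (D : ℕ) (t : ℕ → ℝ) (G : Vt D → ℝ) :
    ∑ u, wtT D t u * cnI D G u = 2 ^ D * ∑ u, ndw D t u * G u := by
  have h := cn_avg D t (fun u => ((G u : ℝ) : ℂ))
  have e : cnI D (fun u => ((G u : ℝ) : ℂ)) = fun u => ((cnI D G u : ℝ) : ℂ) := by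
    funext u
    exact (cnI_map Complex.ofRealHom.toAddMonoidHom D G u).symm
  rw [e] at h
  unfold avg at h
  have h2 : (((∑ u, wtT D t u * cnI D G u : ℝ)) : ℂ) = ((2 ^ D * ∑ u, ndw D t u * G u : ℝ) : ℂ) := by
    push_cast
    exact h
  exact_mod_cast h2

/-- a direction with constant values -/
theorem ndw_k (D : ℕ) (t : ℕ → ℝ) (G : Vt D → ℂ) :
    avg (ndw (D + 1) t) (fun u => G u.1) = avg (ndw D t) G := by
  rw [avg_ndw_succ, nlg_0, nlg_1, nlg_2]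
  show _ * avg (ndw D t) (fun v => G v) + _ * avg (ndw D t) (fun v => G v)
    + _ * avg (ndw D t) (fun v => G v) = _
  push_cast
  ring

theorem ndw_sum (D : ℕ) (t : ℕ → ℝ) : ∑ u, ndw D t u = 1 := by
  induction D with
  | zero =>
    show ∑ _v : Unit, (1 : ℝ) = 1
    simp
  | succ D ih =>
    rw [Pool.Agent.Helper90.C75.sum_Vt_succ]
    have : ∀ v : Vt D, ∑ i : Fin 3, ndw (D + 1) t (v, i) = ndw D t v := by
      intro v
      rw [Fin.sum_univ_three]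
      have e0 : ndw (D + 1) t (v, 0) = ndw D t v * nlg 0 (t D) := rfl
      have e1 : ndw (D + 1) t (v, 1) = ndw D t v * nlg 1 (t D) := rfl
      have e2 : ndw (D + 1) t (v, 2) = ndw D t v * nlg 2 (t D) := rfl
      rw [e0, e1, e2, nlg_0, nlg_1, nlg_2]
      ring
    rw [← ih]
    exact Finset.sum_congr rfl fun v _ => this v

/-- Lebesgue constant of one direction -/
theorem nlg_leb {t : ℝ} (h0 : 0 ≤ t) (h1 : t ≤ 1) : |nlg 0 t| + |nlg 1 t| + |nlg 2 t| ≤ 5 / 4 := by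
  rw [nlg_0, nlg_1, nlg_2]
  have e1 : |4 * t * (1 - t)| = 4 * t * (1 - t) := abs_of_nonneg (by nlinarith)
  rw [e1, abs_mul, abs_mul, abs_of_nonneg h0, abs_of_nonneg (by linarith : (0 : ℝ) ≤ 1 - t)]
  rcases le_total t (1 / 2) with h | h
  · rw [abs_of_nonneg (by linarith : (0 : ℝ) ≤ 1 - 2 * t),
      abs_of_nonpos (by linarith : 2 * t - 1 ≤ 0)]
    nlinarith [sq_nonneg (t - 1 / 4)]
  · rw [abs_of_nonpos (by linarith : (1 : ℝ) - 2 * t ≤ 0),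
      abs_of_nonneg (by linarith : 0 ≤ 2 * t - 1)]
    nlinarith [sq_nonneg (t - 3 / 4)]

/-- Lebesgue constant -/
theorem ndw_leb {D : ℕ} {t : ℕ → ℝ} (h : PT D t) : ∑ u, |ndw D t u| ≤ (5 / 4) ^ D := by
  have h0 := h.h0
  have h1 := h.h1
  clear h
  induction D with
  | zero =>
    show ∑ _v : Unit, |(1 : ℝ)| ≤ _
    simp
  | succ D ih =>
    have hi := ih (fun j hj => h0 j (by omega)) (fun j hj => h1 j (by omega))
    rw [Pool.Agent.Helper90.C75.sum_Vt_succ]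
    have : ∀ v : Vt D, ∑ i : Fin 3, |ndw (D + 1) t (v, i)| ≤ |ndw D t v| * (5 / 4) := by
      intro v
      rw [Fin.sum_univ_three]
      have e0 : ndw (D + 1) t (v, 0) = ndw D t v * nlg 0 (t D) := rfl
      have e1 : ndw (D + 1) t (v, 1) = ndw D t v * nlg 1 (t D) := rfl
      have e2 : ndw (D + 1) t (v, 2) = ndw D t v * nlg 2 (t D) := rfl
      rw [e0, e1, e2, abs_mul, abs_mul, abs_mul, ← mul_add, ← mul_add]
      exact mul_le_mul_of_nonneg_left (nlg_leb (h0 D (by omega)) (h1 D (by omega))) (abs_nonneg _)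
    calc ∑ v : Vt D, ∑ i : Fin 3, |ndw (D + 1) t (v, i)| ≤ ∑ v : Vt D, |ndw D t v| * (5 / 4) :=
          Finset.sum_le_sum fun v _ => this v
      _ = (∑ v : Vt D, |ndw D t v|) * (5 / 4) := by rw [Finset.sum_mul]
      _ ≤ (5 / 4) ^ D * (5 / 4) := mul_le_mul_of_nonneg_right hi (by norm_num)
      _ = (5 / 4) ^ (D + 1) := by rw [pow_succ]

theorem norm_ndw_le {D : ℕ} {t : ℕ → ℝ} (h : PT D t) {G : Vt D → ℂ} {b : ℝ}
    (hG : ∀ u, ‖G u‖ ≤ b) : ‖avg (ndw D t) G‖ ≤ (5 / 4) ^ D * b := by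
  have hb : 0 ≤ b := (norm_nonneg _).trans (hG (vt0 D))
  calc ‖avg (ndw D t) G‖ ≤ ∑ v, ‖(ndw D t v : ℂ) * G v‖ := norm_sum_le _ _
    _ ≤ ∑ v, |ndw D t v| * b := by
        apply Finset.sum_le_sum
        intro v _
        rw [norm_mul, Complex.norm_real, Real.norm_eq_abs]
        exact mul_le_mul_of_nonneg_left (hG v) (abs_nonneg _)
    _ = (∑ v, |ndw D t v|) * b := by rw [Finset.sum_mul]
    _ ≤ _ := mul_le_mul_of_nonneg_right (ndw_leb h) hb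

/-- all values of a function in terms of the first one -/
theorem DL_bd : ∀ {D : ℕ} {F : Vt D → ℂ} {l : List (ℝ × ℝ)}, DL D F l → NN l → l.length = D →
    ∀ v, ‖F v‖ ≤ ‖F (vt0 D)‖ + (l.map (fun x => x.1 + 2 * x.2)).sum
  | 0, F, [], _, _, _, v => by
    cases v
    show ‖F ()‖ ≤ ‖F ()‖ + ([] : List ℝ).sum
    simp
  | 0, _, _ :: _, _, _, hl, _ => by cases hl
  | _ + 1, _, [], hF, _, _, _ => hF.elim
  | D + 1, F, (d, φ) :: l, hF, hn, hl, v => by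
    obtain ⟨a1, a2, a3⟩ := hF
    have m0 := hn (d, φ) (List.mem_cons_self ..)
    have hd : 0 ≤ d := m0.1
    have hφ : 0 ≤ φ := m0.2
    have hl1 : l.length = D := by simpa using hl
    obtain ⟨u, i⟩ := v
    have h0 := DL_bd (a3 0) hn.tail hl1 u
    have h0' : ‖F (u, 0)‖ ≤ ‖F (vt0 (D + 1))‖ + (l.map (fun x => x.1 + 2 * x.2)).sum := h0
    have b1 := a1 u
    have b2 := a2 u
    rw [List.map_cons, List.sum_cons]
    show ‖F (u, i)‖ ≤ ‖F (vt0 (D + 1))‖ + ((d + 2 * φ) + (l.map (fun x => x.1 + 2 * x.2)).sum)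
    have k2 : ‖F (u, 2)‖ ≤ ‖F (u, 0)‖ + d := by
      have : F (u, 2) = F (u, 0) + (F (u, 2) - F (u, 0)) := by ring
      rw [this]
      exact (norm_add_le _ _).trans (by linarith)
    have k1 : ‖F (u, 1)‖ ≤ ‖F (u, 0)‖ + (d + φ) := by
      have : F (u, 1) = F (u, 0) + ((F (u, 1) - (F (u, 0) + F (u, 2)) / 2)
          + (F (u, 2) - F (u, 0)) / 2) := by ring
      have n1 : ‖(F (u, 2) - F (u, 0)) / 2‖ ≤ d / 2 := by
        rw [norm_div]
        have : ‖(2 : ℂ)‖ = 2 := by norm_num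
        rw [this]
        linarith
      rw [this]
      refine (norm_add_le _ _).trans ?_
      have := norm_add_le (F (u, 1) - (F (u, 0) + F (u, 2)) / 2) ((F (u, 2) - F (u, 0)) / 2)
      linarith
    fin_cases i
    · show ‖F (u, 0)‖ ≤ _
      linarith
    · show ‖F (u, 1)‖ ≤ _
      linarith
    · show ‖F (u, 2)‖ ≤ _
      linarith

/-- bound of a function -/
theorem nd_bd {D : ℕ} {t : ℕ → ℝ} (h : PT D t) {G : Vt D → ℂ} {l : List (ℝ × ℝ)}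
    (hl : DL D (cnI D G) l) (hn : NN l) (hlen : l.length = D) :
    2 ^ D * ‖avg (ndw D t) G‖ ≤ ‖cnI D G (vt0 D)‖ + (l.map (fun x => x.1 + 2 * x.2)).sum := by
  have h1 : ‖avg (wtT D t) (cnI D G)‖ ≤ _ :=
    Pool.Agent.Helper90.C75.norm_avg_le h.w (DL_bd hl hn hlen)
  rw [cn_avg, norm_mul, norm_pow] at h1
  have : ‖(2 : ℂ)‖ = 2 := by norm_num
  rw [this] at h1
  exact h1

/-! ### the product -/

/-- half of the bounds -/
def hf (x : ℝ × ℝ) : ℝ × ℝ := (x.1 / 2, x.2 / 2)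

theorem NN_hf {l : List (ℝ × ℝ)} (h : NN l) : NN (l.map hf) := by
  intro x hx
  rw [List.mem_map] at hx
  obtain ⟨y, hy, rfl⟩ := hx
  have := h y hy
  exact ⟨by show 0 ≤ y.1 / 2; linarith [this.1], by show 0 ≤ y.2 / 2; linarith [this.2]⟩

theorem ern_hf : ∀ l l' : List (ℝ × ℝ), ern (l.map hf) (l'.map hf) = ern l l' / 4
  | [], _ => by simp [ern]
  | _ :: _, [] => by simp [ern]
  | (D, F) :: l, (D', F') :: l' => by
    have ih := ern_hf l l'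
    show ern ((D / 2, F / 2) :: l.map hf) ((D' / 2, F' / 2) :: l'.map hf) = _
    simp only [ern]
    rw [ih]
    ring

theorem ern_nonneg : ∀ {l l' : List (ℝ × ℝ)}, NN l → NN l' → 0 ≤ ern l l'
  | [], _, _, _ => by simp [ern]
  | _ :: _, [], _, _ => by simp [ern]
  | (D, F) :: l, (D', F') :: l', h, h' => by
    have h1 := h (D, F) (List.mem_cons_self ..)
    have h2 := h' (D', F') (List.mem_cons_self ..)
    have h3 := ern_nonneg h.tail h'.tail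
    have a1 : 0 ≤ D := h1.1
    have a2 : 0 ≤ F := h1.2
    have a3 : 0 ≤ D' := h2.1
    have a4 : 0 ≤ F' := h2.2
    simp only [ern]
    have : 0 ≤ 3 * (D * F' + F * D') / 31 + F * F' / 16 := by positivity
    linarith

/-- half of a function -/
theorem DL_half : ∀ {D : ℕ} {F H : Vt D → ℂ} {l : List (ℝ × ℝ)}, DL D F l →
    (∀ v, H v = F v / 2) → DL D H (l.map hf)
  | 0, _, _, _, _, _ => trivial
  | _ + 1, _, _, [], hF, _ => hF.elim
  | D + 1, F, H, (d, φ) :: l, hF, hH => by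
    obtain ⟨a1, a2, a3⟩ := hF
    have n2 : ‖(2 : ℂ)‖ = 2 := by norm_num
    refine ⟨fun v => ?_, fun v => ?_, fun i => DL_half (a3 i) (fun v => hH (v, i))⟩
    · have e : H (v, 2) - H (v, 0) = (F (v, 2) - F (v, 0)) / 2 := by
        linear_combination hH (v, 2) - hH (v, 0)
      rw [e, norm_div, n2]
      show _ ≤ d / 2
      linarith [a1 v]
    · have e : H (v, 1) - (H (v, 0) + H (v, 2)) / 2
          = (F (v, 1) - (F (v, 0) + F (v, 2)) / 2) / 2 := by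
        linear_combination hH (v, 1) - (hH (v, 0) + hH (v, 2)) / 2
      rw [e, norm_div, n2]
      show _ ≤ φ / 2
      linarith [a2 v]

/-- convex combination of three functions with the same bounds -/
theorem DL_mid : ∀ {D : ℕ} {A B C H : Vt D → ℂ} {l : List (ℝ × ℝ)}, DL D A l → DL D B l →
    DL D C l → (∀ v, H v = A v / 4 + B v / 8 + C v / 8) → DL D H (l.map hf)
  | 0, _, _, _, _, _, _, _, _, _ => trivial
  | _ + 1, _, _, _, _, [], hF, _, _, _ => hF.elim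
  | D + 1, A, B, C, H, (d, φ) :: l, hA, hB, hC, hH => by
    obtain ⟨a1, a2, a3⟩ := hA
    obtain ⟨b1, b2, b3⟩ := hB
    obtain ⟨c1, c2, c3⟩ := hC
    have n4 : ‖(4 : ℂ)‖ = 4 := by norm_num
    have n8 : ‖(8 : ℂ)‖ = 8 := by norm_num
    have tri : ∀ {x y z : ℂ} {r : ℝ}, ‖x‖ ≤ r → ‖y‖ ≤ r → ‖z‖ ≤ r →
        ‖x / 4 + y / 8 + z / 8‖ ≤ r / 2 := by
      intro x y z r hx hy hz
      refine (norm_add_le _ _).trans ?_
      have h1 := norm_add_le (x / 4) (y / 8)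
      have h2 : ‖x / 4‖ = ‖x‖ / 4 := by rw [norm_div, n4]
      have h3 : ‖y / 8‖ = ‖y‖ / 8 := by rw [norm_div, n8]
      have h4 : ‖z / 8‖ = ‖z‖ / 8 := by rw [norm_div, n8]
      linarith
    refine ⟨fun v => ?_, fun v => ?_, fun i => DL_mid (a3 i) (b3 i) (c3 i) (fun v => hH (v, i))⟩
    · have e : H (v, 2) - H (v, 0) = (A (v, 2) - A (v, 0)) / 4 + (B (v, 2) - B (v, 0)) / 8
          + (C (v, 2) - C (v, 0)) / 8 := by
        linear_combination hH (v, 2) - hH (v, 0)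
      rw [e]
      exact tri (a1 v) (b1 v) (c1 v)
    · have e : H (v, 1) - (H (v, 0) + H (v, 2)) / 2
          = (A (v, 1) - (A (v, 0) + A (v, 2)) / 2) / 4
            + (B (v, 1) - (B (v, 0) + B (v, 2)) / 2) / 8
            + (C (v, 1) - (C (v, 0) + C (v, 2)) / 2) / 8 := by
        linear_combination hH (v, 1) - (hH (v, 0) + hH (v, 2)) / 2
      rw [e]
      exact tri (a2 v) (b2 v) (c2 v)

/-- the slices of the nodes -/
theorem DL_slice {D : ℕ} {G : Vt (D + 1) → ℂ} {l : List (ℝ × ℝ)}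
    (h : ∀ i : Fin 3, DL D (fun v => cnI (D + 1) G (v, i)) l) (i : Fin 3) :
    DL D (cnI D (fun w => G (w, i))) (l.map hf) := by
  fin_cases i
  · refine DL_half (h 0) fun v => ?_
    show _ = cnI (D + 1) G (v, 0) / 2
    rw [cnI_s0, zsmul_eq_mul]
    push_cast
    show cnI D (fun w => G (w, 0)) v = _
    ring
  · refine DL_mid (h 1) (h 0) (h 2) fun v => ?_
    show _ = cnI (D + 1) G (v, 1) / 4 + cnI (D + 1) G (v, 0) / 8 + cnI (D + 1) G (v, 2) / 8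
    rw [cnI_s0, cnI_s1, cnI_s2, zsmul_eq_mul, zsmul_eq_mul, zsmul_eq_mul]
    push_cast
    show cnI D (fun w => G (w, 1)) v = _
    ring
  · refine DL_half (h 2) fun v => ?_
    show _ = cnI (D + 1) G (v, 2) / 2
    rw [cnI_s2, zsmul_eq_mul]
    push_cast
    show cnI D (fun w => G (w, 2)) v = _
    ring

/-- the cubic error -/
theorem cub_le {t : ℝ} (h0 : 0 ≤ t) (h1 : t ≤ 1) : |t * (1 - t) * (1 - 2 * t)| ≤ 3 / 31 := by
  refine abs_le_of_sq_le_sq ?_ (by norm_num)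
  have h2 : 0 ≤ t * (1 - t) := mul_nonneg h0 (by linarith)
  have e : (t * (1 - t) * (1 - 2 * t)) ^ 2 = (t * (1 - t)) ^ 2 * (1 - 4 * (t * (1 - t))) := by ring
  rw [e]
  set s := t * (1 - t)
  have h3 : s ≤ 1 / 4 := by
    show t * (1 - t) ≤ 1 / 4
    nlinarith [sq_nonneg (t - 1 / 2)]
  have h4 : 1 / 108 - s ^ 2 * (1 - 4 * s) = (6 * s - 1) ^ 2 * (12 * s + 1) / 108 := by ring
  have h5 : 0 ≤ (6 * s - 1) ^ 2 * (12 * s + 1) / 108 := by positivity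
  nlinarith

theorem qua_le {t : ℝ} (h0 : 0 ≤ t) (h1 : t ≤ 1) :
    |4 * (t * (1 - t)) * (t * (1 - t) - 1 / 4)| ≤ 1 / 16 := by
  have h2 : 0 ≤ t * (1 - t) := mul_nonneg h0 (by linarith)
  have h3 : t * (1 - t) ≤ 1 / 4 := by nlinarith [sq_nonneg (t - 1 / 2)]
  rw [abs_le]
  constructor
  · nlinarith [sq_nonneg (t * (1 - t) - 1 / 8)]
  · nlinarith [mul_nonneg h2 (by linarith : 0 ≤ 1 / 4 - t * (1 - t))]

/-- the error of one direction -/
theorem nd_err {t : ℝ} (h0 : 0 ≤ t) (h1 : t ≤ 1) (f0 f1 f2 g0 g1 g2 : ℂ) {df dg φf φg : ℝ}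
    (hdf : 2 * ‖f2 - f0‖ ≤ df) (hdg : 2 * ‖g2 - g0‖ ≤ dg)
    (hφf : ‖4 * f1 - 2 * (f0 + f2)‖ ≤ φf) (hφg : ‖4 * g1 - 2 * (g0 + g2)‖ ≤ φg) :
    4 * ‖((nlg 0 t : ℂ) * f0 + (nlg 1 t : ℂ) * f1 + (nlg 2 t : ℂ) * f2)
        * ((nlg 0 t : ℂ) * g0 + (nlg 1 t : ℂ) * g1 + (nlg 2 t : ℂ) * g2)
      - ((nlg 0 t : ℂ) * (f0 * g0) + (nlg 1 t : ℂ) * (f1 * g1) + (nlg 2 t : ℂ) * (f2 * g2))‖
      ≤ 3 * (df * φg + φf * dg) / 31 + φf * φg / 16 := by
  set a := 4 * f1 - 2 * (f0 + f2) with ha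
  set b := 4 * g1 - 2 * (g0 + g2) with hb
  have hf1 : f1 = a / 4 + (f0 + f2) / 2 := by rw [ha]; ring
  have hg1 : g1 = b / 4 + (g0 + g2) / 2 := by rw [hb]; ring
  have e : ((nlg 0 t : ℂ) * f0 + (nlg 1 t : ℂ) * f1 + (nlg 2 t : ℂ) * f2)
        * ((nlg 0 t : ℂ) * g0 + (nlg 1 t : ℂ) * g1 + (nlg 2 t : ℂ) * g2)
      - ((nlg 0 t : ℂ) * (f0 * g0) + (nlg 1 t : ℂ) * (f1 * g1) + (nlg 2 t : ℂ) * (f2 * g2))
      = ((-(t * (1 - t) * (1 - 2 * t)) : ℝ) : ℂ) * ((f2 - f0) * b / 2 * 1)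
        + ((-(t * (1 - t) * (1 - 2 * t)) : ℝ) : ℂ) * (a * (g2 - g0) / 2)
        + ((4 * (t * (1 - t)) * (t * (1 - t) - 1 / 4) : ℝ) : ℂ) * (a * b / 4) := by
    rw [nlg_0, nlg_1, nlg_2, hf1, hg1]
    push_cast
    ring
  rw [e]
  have n2 : ‖(2 : ℂ)‖ = 2 := by norm_num
  have n4 : ‖(4 : ℂ)‖ = 4 := by norm_num
  have c1 := cub_le h0 h1
  have c2 := qua_le h0 h1
  have p0 : 0 ≤ df := (by positivity : (0 : ℝ) ≤ 2 * ‖f2 - f0‖).trans hdf
  have p1 : 0 ≤ dg := (by positivity : (0 : ℝ) ≤ 2 * ‖g2 - g0‖).trans hdg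
  have p2 : 0 ≤ φf := (norm_nonneg _).trans hφf
  have p3 : 0 ≤ φg := (norm_nonneg _).trans hφg
  have m1 : ‖((-(t * (1 - t) * (1 - 2 * t)) : ℝ) : ℂ) * ((f2 - f0) * b / 2 * 1)‖
      ≤ 3 / 31 * (df * φg / 4) := by
    rw [norm_mul, Complex.norm_real, Real.norm_eq_abs, abs_neg, mul_one, norm_div, norm_mul, n2]
    refine mul_le_mul c1 ?_ (by positivity) (by norm_num)
    have := mul_le_mul hdf hφg (norm_nonneg _) p0
    linarith
  have m2 : ‖((-(t * (1 - t) * (1 - 2 * t)) : ℝ) : ℂ) * (a * (g2 - g0) / 2)‖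
      ≤ 3 / 31 * (φf * dg / 4) := by
    rw [norm_mul, Complex.norm_real, Real.norm_eq_abs, abs_neg, norm_div, norm_mul, n2]
    refine mul_le_mul c1 ?_ (by positivity) (by norm_num)
    have := mul_le_mul hφf hdg (by positivity) p2
    linarith
  have m3 : ‖((4 * (t * (1 - t)) * (t * (1 - t) - 1 / 4) : ℝ) : ℂ) * (a * b / 4)‖
      ≤ 1 / 16 * (φf * φg / 4) := by
    rw [norm_mul, Complex.norm_real, Real.norm_eq_abs, norm_div, norm_mul, n4]
    refine mul_le_mul c2 ?_ (by positivity) (by norm_num)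
    have := mul_le_mul hφf hφg (norm_nonneg _) p2
    linarith
  refine (mul_le_mul_of_nonneg_left ((norm_add_le _ _).trans (add_le_add (norm_add_le _ _) le_rfl))
    (by norm_num : (0 : ℝ) ≤ 4)).trans ?_
  linarith

/-- one more direction of the product -/
theorem prod_step {D : ℕ} {t : ℕ → ℝ} (h0 : ∀ j < D + 1, 0 ≤ t j) (h1 : ∀ j < D + 1, t j ≤ 1)
    {G H : Vt (D + 1) → ℂ} {d φ d' φ' ε : ℝ}
    (a1 : ∀ v : Vt D, ‖cnI (D + 1) G (v, 2) - cnI (D + 1) G (v, 0)‖ ≤ d)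
    (a2 : ∀ v : Vt D, ‖cnI (D + 1) G (v, 1) - (cnI (D + 1) G (v, 0) + cnI (D + 1) G (v, 2)) / 2‖
      ≤ φ)
    (b1 : ∀ v : Vt D, ‖cnI (D + 1) H (v, 2) - cnI (D + 1) H (v, 0)‖ ≤ d')
    (b2 : ∀ v : Vt D, ‖cnI (D + 1) H (v, 1) - (cnI (D + 1) H (v, 0) + cnI (D + 1) H (v, 2)) / 2‖
      ≤ φ')
    (q : ∀ i : Fin 3, 4 ^ D * ‖avg (ndw D t) (fun u => G (u, i)) * avg (ndw D t) (fun u => H (u, i))
      - avg (ndw D t) (fun u => G (u, i) * H (u, i))‖ ≤ ε / 4) :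
    4 ^ (D + 1) * ‖avg (ndw (D + 1) t) G * avg (ndw (D + 1) t) H
      - avg (ndw (D + 1) t) (fun u => G u * H u)‖ ≤
      3 * (d * φ' + φ * d') / 31 + φ * φ' / 16 + 5 / 4 * ε := by
  have t0 := h0 D (by omega)
  have t1 := h1 D (by omega)
  have hw : Pool.Agent.Helper90.C75.Wts (wtT D t) :=
    Pool.Agent.Helper90.C75.Wts.T (fun j hj => h0 j (by omega)) (fun j hj => h1 j (by omega))
  rw [avg_ndw_succ, avg_ndw_succ, avg_ndw_succ]
  have key : ∀ (F : Vt (D + 1) → ℂ) (x y : ℝ),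
      (∀ v : Vt D, ‖cnI (D + 1) F (v, 2) - cnI (D + 1) F (v, 0)‖ ≤ x) →
      (∀ v : Vt D, ‖cnI (D + 1) F (v, 1) - (cnI (D + 1) F (v, 0) + cnI (D + 1) F (v, 2)) / 2‖
        ≤ y) →
      2 * ‖2 ^ D * avg (ndw D t) (fun v => F (v, 2)) - 2 ^ D * avg (ndw D t) (fun v => F (v, 0))‖
        ≤ x ∧
      ‖4 * (2 ^ D * avg (ndw D t) (fun v => F (v, 1)))
        - 2 * (2 ^ D * avg (ndw D t) (fun v => F (v, 0))
          + 2 ^ D * avg (ndw D t) (fun v => F (v, 2)))‖ ≤ y := by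
    intro F x y hx hy
    have r0 := cn_avg D t (fun w => F (w, 0))
    have r1 := cn_avg D t (fun w => F (w, 1))
    have r2 := cn_avg D t (fun w => F (w, 2))
    have k0 := Pool.Agent.Helper90.C75.norm_avg_le hw hx
    have k1 := Pool.Agent.Helper90.C75.norm_avg_le hw hy
    rw [← r0, ← r1, ← r2]
    have s0 : (fun v => cnI (D + 1) F (v, 2) - cnI (D + 1) F (v, 0))
        = fun v => 2 * (cnI D (fun w => F (w, 2)) v - cnI D (fun w => F (w, 0)) v) := by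
      funext v
      rw [cnI_s0, cnI_s2, zsmul_eq_mul, zsmul_eq_mul]
      push_cast
      ring
    have s1 : (fun v => cnI (D + 1) F (v, 1) - (cnI (D + 1) F (v, 0) + cnI (D + 1) F (v, 2)) / 2)
        = fun v => 4 * cnI D (fun w => F (w, 1)) v
          - 2 * (cnI D (fun w => F (w, 0)) v + cnI D (fun w => F (w, 2)) v) := by
      funext v
      rw [cnI_s0, cnI_s1, cnI_s2, zsmul_eq_mul, zsmul_eq_mul, zsmul_eq_mul]
      push_cast
      ring
    have n2 : ‖(2 : ℂ)‖ = 2 := by norm_num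
    constructor
    · rw [s0, Pool.Agent.Helper90.C75.avg_smul, Pool.Agent.Helper90.C75.avg_sub, norm_mul, n2] at k0
      exact k0
    · rw [s1, Pool.Agent.Helper90.C75.avg_sub, Pool.Agent.Helper90.C75.avg_smul,
        Pool.Agent.Helper90.C75.avg_smul, Pool.Agent.Helper90.C75.avg_add] at k1
      exact k1
  obtain ⟨kG1, kG2⟩ := key G d φ a1 a2
  obtain ⟨kH1, kH2⟩ := key H d' φ' b1 b2
  have q0 := q 0
  have q1 := q 1
  have q2 := q 2
  generalize avg (ndw D t) (fun v => G (v, 0)) = A0 at *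
  generalize avg (ndw D t) (fun v => G (v, 1)) = A1 at *
  generalize avg (ndw D t) (fun v => G (v, 2)) = A2 at *
  generalize avg (ndw D t) (fun v => H (v, 0)) = B0 at *
  generalize avg (ndw D t) (fun v => H (v, 1)) = B1 at *
  generalize avg (ndw D t) (fun v => H (v, 2)) = B2 at *
  generalize avg (ndw D t) (fun v => G (v, 0) * H (v, 0)) = P0 at *
  generalize avg (ndw D t) (fun v => G (v, 1) * H (v, 1)) = P1 at *
  generalize avg (ndw D t) (fun v => G (v, 2) * H (v, 2)) = P2 at *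
  have e1 := nd_err t0 t1 _ _ _ _ _ _ kG1 kH1 kG2 kH2
  have n2 : ‖(2 : ℂ)‖ = 2 := by norm_num
  have g4 : (4 : ℝ) ^ D = 2 ^ D * 2 ^ D := by rw [← mul_pow]; norm_num
  have hE : (((nlg 0 (t D) : ℝ) : ℂ) * (2 ^ D * A0) + ((nlg 1 (t D) : ℝ) : ℂ) * (2 ^ D * A1)
        + ((nlg 2 (t D) : ℝ) : ℂ) * (2 ^ D * A2))
      * (((nlg 0 (t D) : ℝ) : ℂ) * (2 ^ D * B0) + ((nlg 1 (t D) : ℝ) : ℂ) * (2 ^ D * B1)
        + ((nlg 2 (t D) : ℝ) : ℂ) * (2 ^ D * B2))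
      - (((nlg 0 (t D) : ℝ) : ℂ) * ((2 ^ D * A0) * (2 ^ D * B0))
        + ((nlg 1 (t D) : ℝ) : ℂ) * ((2 ^ D * A1) * (2 ^ D * B1))
        + ((nlg 2 (t D) : ℝ) : ℂ) * ((2 ^ D * A2) * (2 ^ D * B2)))
      = (2 ^ D * 2 ^ D) * ((((nlg 0 (t D) : ℝ) : ℂ) * A0 + ((nlg 1 (t D) : ℝ) : ℂ) * A1
        + ((nlg 2 (t D) : ℝ) : ℂ) * A2)
      * (((nlg 0 (t D) : ℝ) : ℂ) * B0 + ((nlg 1 (t D) : ℝ) : ℂ) * B1
        + ((nlg 2 (t D) : ℝ) : ℂ) * B2)
      - (((nlg 0 (t D) : ℝ) : ℂ) * (A0 * B0)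
        + ((nlg 1 (t D) : ℝ) : ℂ) * (A1 * B1)
        + ((nlg 2 (t D) : ℝ) : ℂ) * (A2 * B2))) := by ring
  rw [hE, norm_mul, norm_mul, norm_pow, n2] at e1
  set X := (((nlg 0 (t D) : ℝ) : ℂ) * A0 + ((nlg 1 (t D) : ℝ) : ℂ) * A1
        + ((nlg 2 (t D) : ℝ) : ℂ) * A2)
      * (((nlg 0 (t D) : ℝ) : ℂ) * B0 + ((nlg 1 (t D) : ℝ) : ℂ) * B1
        + ((nlg 2 (t D) : ℝ) : ℂ) * B2)
      - (((nlg 0 (t D) : ℝ) : ℂ) * (A0 * B0)
        + ((nlg 1 (t D) : ℝ) : ℂ) * (A1 * B1)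
        + ((nlg 2 (t D) : ℝ) : ℂ) * (A2 * B2)) with hX
  have hsplit : (((nlg 0 (t D) : ℝ) : ℂ) * A0 + ((nlg 1 (t D) : ℝ) : ℂ) * A1
        + ((nlg 2 (t D) : ℝ) : ℂ) * A2)
      * (((nlg 0 (t D) : ℝ) : ℂ) * B0 + ((nlg 1 (t D) : ℝ) : ℂ) * B1
        + ((nlg 2 (t D) : ℝ) : ℂ) * B2)
      - (((nlg 0 (t D) : ℝ) : ℂ) * P0 + ((nlg 1 (t D) : ℝ) : ℂ) * P1
        + ((nlg 2 (t D) : ℝ) : ℂ) * P2)
      = X + (((nlg 0 (t D) : ℝ) : ℂ) * (A0 * B0 - P0) + ((nlg 1 (t D) : ℝ) : ℂ) * (A1 * B1 - P1)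
        + ((nlg 2 (t D) : ℝ) : ℂ) * (A2 * B2 - P2)) := by
    rw [hX]; ring
  rw [hsplit]
  have hY : 4 ^ D * ‖((nlg 0 (t D) : ℝ) : ℂ) * (A0 * B0 - P0)
      + ((nlg 1 (t D) : ℝ) : ℂ) * (A1 * B1 - P1)
      + ((nlg 2 (t D) : ℝ) : ℂ) * (A2 * B2 - P2)‖ ≤ 5 / 4 * (ε / 4) := by
    have hlb := nlg_leb t0 t1
    have hε : 0 ≤ ε / 4 := (by positivity : (0 : ℝ) ≤ 4 ^ D * ‖A0 * B0 - P0‖).trans q0
    have m0 : 4 ^ D * ‖((nlg 0 (t D) : ℝ) : ℂ) * (A0 * B0 - P0)‖ ≤ |nlg 0 (t D)| * (ε / 4) := by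
      rw [norm_mul, Complex.norm_real, Real.norm_eq_abs]
      have := mul_le_mul_of_nonneg_left q0 (abs_nonneg (nlg 0 (t D)))
      calc _ = |nlg 0 (t D)| * (4 ^ D * ‖A0 * B0 - P0‖) := by ring
        _ ≤ _ := this
    have m1 : 4 ^ D * ‖((nlg 1 (t D) : ℝ) : ℂ) * (A1 * B1 - P1)‖ ≤ |nlg 1 (t D)| * (ε / 4) := by
      rw [norm_mul, Complex.norm_real, Real.norm_eq_abs]
      have := mul_le_mul_of_nonneg_left q1 (abs_nonneg (nlg 1 (t D)))
      calc _ = |nlg 1 (t D)| * (4 ^ D * ‖A1 * B1 - P1‖) := by ring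
        _ ≤ _ := this
    have m2 : 4 ^ D * ‖((nlg 2 (t D) : ℝ) : ℂ) * (A2 * B2 - P2)‖ ≤ |nlg 2 (t D)| * (ε / 4) := by
      rw [norm_mul, Complex.norm_real, Real.norm_eq_abs]
      have := mul_le_mul_of_nonneg_left q2 (abs_nonneg (nlg 2 (t D)))
      calc _ = |nlg 2 (t D)| * (4 ^ D * ‖A2 * B2 - P2‖) := by ring
        _ ≤ _ := this
    have tri := (norm_add_le (((nlg 0 (t D) : ℝ) : ℂ) * (A0 * B0 - P0)
      + ((nlg 1 (t D) : ℝ) : ℂ) * (A1 * B1 - P1)) (((nlg 2 (t D) : ℝ) : ℂ) * (A2 * B2 - P2))).trans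
      (add_le_add (norm_add_le _ _) le_rfl)
    have tri2 := mul_le_mul_of_nonneg_left tri (by positivity : (0 : ℝ) ≤ 4 ^ D)
    refine tri2.trans ?_
    have := mul_le_mul_of_nonneg_right hlb hε
    nlinarith
  have tri := mul_le_mul_of_nonneg_left (norm_add_le X (((nlg 0 (t D) : ℝ) : ℂ) * (A0 * B0 - P0)
      + ((nlg 1 (t D) : ℝ) : ℂ) * (A1 * B1 - P1)
      + ((nlg 2 (t D) : ℝ) : ℂ) * (A2 * B2 - P2))) (by positivity : (0 : ℝ) ≤ 4 ^ (D + 1))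
  refine tri.trans ?_
  have e2 : (4 : ℝ) ^ (D + 1) = 4 * (2 ^ D * 2 ^ D) := by rw [pow_succ, g4]; ring
  have e3 : (4 : ℝ) ^ (D + 1) * ‖X‖ = 4 * (2 ^ D * 2 ^ D * ‖X‖) := by rw [e2]; ring
  rw [mul_add, e3, pow_succ]
  linarith

/-- THE ERROR OF THE INTERPOLATION OF A PRODUCT, general form -/
theorem prod_ern' : ∀ {D : ℕ} {t : ℕ → ℝ}, (∀ j < D, 0 ≤ t j) → (∀ j < D, t j ≤ 1) →
    ∀ {G H : Vt D → ℂ} {l l' : List (ℝ × ℝ)}, DL D (cnI D G) l → DL D (cnI D H) l' → NN l →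
    NN l' → l.length = D → l'.length = D →
    4 ^ D * ‖avg (ndw D t) G * avg (ndw D t) H - avg (ndw D t) (fun u => G u * H u)‖ ≤ ern l l'
  | 0, t, _, _, G, H, [], [], _, _, _, _, _, _ => by
    rw [avg_zero_dir, avg_zero_dir, avg_zero_dir]
    show 4 ^ 0 * ‖((1 : ℝ) : ℂ) * G () * (((1 : ℝ) : ℂ) * H ()) - ((1 : ℝ) : ℂ) * (G () * H ())‖
      ≤ ern [] []
    simp [ern]
  | D + 1, t, h0, h1, G, H, (d, φ) :: l, (d', φ') :: l', hG, hH, hn, hn', hl, hl' => by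
    obtain ⟨a1, a2, a3⟩ := hG
    obtain ⟨b1, b2, b3⟩ := hH
    have hl1 : l.length = D := by simpa using hl
    have hl1' : l'.length = D := by simpa using hl'
    have q : ∀ i : Fin 3, 4 ^ D * ‖avg (ndw D t) (fun u => G (u, i))
        * avg (ndw D t) (fun u => H (u, i)) - avg (ndw D t) (fun u => G (u, i) * H (u, i))‖
        ≤ ern l l' / 4 := by
      intro i
      have := prod_ern' (fun j hj => h0 j (by omega)) (fun j hj => h1 j (by omega))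
        (DL_slice a3 i) (DL_slice b3 i) (NN_hf hn.tail) (NN_hf hn'.tail)
        (by rw [List.length_map, hl1]) (by rw [List.length_map, hl1'])
      rw [ern_hf] at this
      exact this
    exact prod_step h0 h1 a1 a2 b1 b2 q
  | 0, _, _, _, _, _, _ :: _, _, _, _, _, _, hl, _ => by cases hl
  | 0, _, _, _, _, _, [], _ :: _, _, _, _, _, _, hl' => by cases hl'
  | _ + 1, _, _, _, _, _, [], _, hF, _, _, _, _, _ => hF.elim
  | _ + 1, _, _, _, _, _, _ :: _, [], _, hG, _, _, _, _ => hG.elim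

/-- THE ERROR OF THE INTERPOLATION OF A PRODUCT -/
theorem prod_ern {D : ℕ} {t : ℕ → ℝ} (h : PT D t) {G H : Vt D → ℂ} {l l' : List (ℝ × ℝ)}
    (hl : DL D (cnI D G) l) (hl' : DL D (cnI D H) l') (hn : NN l) (hn' : NN l')
    (hlen : l.length = D) (hlen' : l'.length = D) :
    4 ^ D * ‖avg (ndw D t) G * avg (ndw D t) H - avg (ndw D t) (fun u => G u * H u)‖ ≤
      ern l l' :=
  prod_ern' h.h0 h.h1 hl hl' hn hn' hlen hlen'

end Pool.Agent.Helper17.N9
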