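import Pool.Agent.Helper17.N9.N9B

/-!
Row K9 of MP_c75db0 (plan W), version 2, row P: the packed matrix at a node.
-/

set_option autoImplicit false
set_option exponentiation.threshold 60000
noncomputable section
namespace Pool.Agent.Helper17.N9

open Pool.Agent.Helper86.C75 (Z)
open Pool.Agent.Helper86.CX (Cx andB)
open Pool.Agent.Helper86.CT (N3 Mo)
open Pool.Agent.Helper90.C75 (Vt avg wtT)
open Pool.Agent.Helper90.KMO (zv cz UU zv_br zv_add zv_sub zv_mul zv_p)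
open Pool.Agent.Helper90.KMT (nlf lf0 TOK PT DL NN)
open Pool.Agent.Helper90.K9 (G pk pz pk_cast pk_congr pz_congr pk_add pk_smul pz_sub pz_smul)
open Pool.Agent.Helper17.K9 (V9)
open Pool.Agent.Helper62.TVM (TV)
open Pool.Agent.Helper6.MONO (V3)
open Pool.Agent.Helper6.MONO.W2 (Mt hr hv J1 NT)
open Finset Matrix

/-! ### the literals -/

theorem M0q_pk : M0q = pk (2 ^ 128) 27 (fun k => if k % 3 = 0 then 2 ^ 128 - 1 else 0) := by
  decide +kernel
theorem M1q_pk : M1q = pk (2 ^ 128) 27 (fun k => if k % 3 = 1 then 2 ^ 128 - 1 else 0) := by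
  decide +kernel
theorem CJ_pk : CJ = pk (2 ^ 128) 27 (fun k => if k % 3 = 1 then 2 ^ 101 else 0) := by
  decide +kernel
theorem COMB_pk : COMB = pk ((2 ^ 128) ^ 27) 9 (fun _ => 1) := by
  decide +kernel
theorem MP_pk : MP = pk (2 ^ 128) 270 (fun k => if k % 30 < 2 then 2 ^ 128 - 1 else 0) := by
  decide +kernel
theorem OP_pk : OP = pk (2 ^ 128) 270 (fun k => if k % 30 < 2 then 2 ^ 100 else 0) := by
  decide +kernel
theorem OQ_pk : OQ = pk (2 ^ 128) 27 (fun k => if k % 3 < 2 then 2 ^ 100 else 0) := by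
  decide +kernel

theorem BBc : ((2 ^ 128 : ℕ) : ℤ) = BB := by
  rw [BB_eq]
  norm_num

/-! ### sums of the digits -/

/-- digits of a vector, no offset -/
def qe (I : VA) (k : ℕ) : ℤ := if k % 3 = 0 then I (k / 3) 0 else if k % 3 = 1 then I (k / 3) 1 else 0

theorem QA_pz (I : VA) : QA I = pz BB 27 (qe I) := by
  rw [pz_sum, show (27 : ℕ) = 3 * 9 from rfl, sum_nest]
  unfold QA
  refine sum_congr rfl fun K _ => ?_
  have e0 : qe I (3 * K + 0) = I K 0 := by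
    unfold qe
    rw [if_pos (by omega), show (3 * K + 0) / 3 = K by omega]
  have e1 : qe I (3 * K + 1) = I K 1 := by
    unfold qe
    rw [if_neg (by omega), if_pos (by omega), show (3 * K + 1) / 3 = K by omega]
  have e2 : qe I (3 * K + 2) = 0 := by
    unfold qe
    rw [if_neg (by omega), if_neg (by omega)]
  rw [sum_range_succ, sum_range_succ, sum_range_succ, sum_range_zero, e0, e1, e2,
    pow_add BB (3 * K) 0, pow_add BB (3 * K) 1, pow_mul, pow_zero, pow_one]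
  ring

theorem q1_ok {y : ℕ} {I : VA} (hy : (y : ℤ) = pz BB 27 (qd I)) : zv (q1 y) = QA I := by
  have h1 : zv (q1 y) = (y : ℤ) - (OQ : ℤ) := zv_br _ _
  rw [h1, hy, OQ_pk, pk_cast, BBc, pz_sub, QA_pz]
  refine pz_congr _ _ _ _ fun k _ => ?_
  unfold qd qe
  have h3 : k % 3 < 3 := Nat.mod_lt _ (by norm_num)
  by_cases h : k % 3 = 0
  · rw [if_pos h, if_pos h, if_pos (by omega)]
    push_cast
    ring
  · by_cases h' : k % 3 = 1
    · rw [if_neg h, if_pos h', if_neg h, if_pos h', if_pos (by omega)]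
      push_cast
      ring
    · rw [if_neg h, if_neg h', if_neg h, if_neg h', if_neg (by omega)]
      rfl

/-! ### the conjugate vector -/

/-- digits of the vector as natural numbers -/
def qn (I : VA) (k : ℕ) : ℕ := (qd I k).toNat

theorem qd_nn {I : VA} (hI : ∀ K < 9, ∀ e, |I K e| ≤ 2 ^ 84) {k : ℕ} (hk : k < 27) :
    0 ≤ qd I k ∧ qd I k ≤ 2 ^ 101 := by
  have hK : k / 3 < 9 := by omega
  have h0 := abs_le.mp (hI _ hK 0)
  have h1 := abs_le.mp (hI _ hK 1)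
  have p1 : (2 : ℤ) ^ 84 ≤ 2 ^ 100 := by norm_num
  have p2 : (2 : ℤ) ^ 101 = 2 ^ 100 + 2 ^ 100 := by norm_num
  unfold qd
  by_cases h : k % 3 = 0
  · rw [if_pos h]
    constructor <;> linarith [h0.1, h0.2]
  · by_cases h' : k % 3 = 1
    · rw [if_neg h, if_pos h']
      constructor <;> linarith [h1.1, h1.2]
    · rw [if_neg h, if_neg h']
      constructor <;> norm_num

theorem qn_cast {I : VA} (hI : ∀ K < 9, ∀ e, |I K e| ≤ 2 ^ 84) {k : ℕ} (hk : k < 27) :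
    ((qn I k : ℕ) : ℤ) = qd I k := Int.toNat_of_nonneg (qd_nn hI hk).1

theorem qn_le {I : VA} (hI : ∀ K < 9, ∀ e, |I K e| ≤ 2 ^ 84) {k : ℕ} (hk : k < 27) :
    qn I k ≤ 2 ^ 101 := by
  have h : ((qn I k : ℕ) : ℤ) ≤ ((2 ^ 101 : ℕ) : ℤ) := by
    rw [qn_cast hI hk]
    push_cast
    exact (qd_nn hI hk).2
  exact_mod_cast h

theorem qn_lt {I : VA} (hI : ∀ K < 9, ∀ e, |I K e| ≤ 2 ^ 84) {k : ℕ} (hk : k < 27) :
    qn I k < 2 ^ 128 := lt_of_le_of_lt (qn_le hI hk) (by norm_num)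

theorem y_pk {y : ℕ} {I : VA} (hy : (y : ℤ) = pz BB 27 (qd I))
    (hI : ∀ K < 9, ∀ e, |I K e| ≤ 2 ^ 84) : y = pk (2 ^ 128) 27 (qn I) := by
  have h : (y : ℤ) = ((pk (2 ^ 128) 27 (qn I) : ℕ) : ℤ) := by
    rw [hy, pk_cast, BBc]
    exact pz_congr _ _ _ _ fun k hk => (qn_cast hI hk).symm
  exact_mod_cast h

/-- digits of the conjugate vector -/
def gn (I : VA) (k : ℕ) : ℕ := if k % 3 = 0 then qn I k else if k % 3 = 1 then 2 ^ 101 - qn I k else 0

theorem gn_le {I : VA} (hI : ∀ K < 9, ∀ e, |I K e| ≤ 2 ^ 84) {k : ℕ} (hk : k < 27) :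
    gn I k ≤ 2 ^ 101 := by
  unfold gn
  split_ifs
  · exact qn_le hI hk
  · exact Nat.sub_le _ _
  · exact Nat.zero_le _

theorem g_pk {y : ℕ} {I : VA} (hy : (y : ℤ) = pz BB 27 (qd I))
    (hI : ∀ K < 9, ∀ e, |I K e| ≤ 2 ^ 84) :
    (y &&& M0q) + (CJ - (y &&& M1q)) = pk (2 ^ 128) 27 (gn I) := by
  have h0 : y &&& M0q = pk (2 ^ 128) 27 (fun k => if k % 3 = 0 then qn I k else 0) := by
    rw [y_pk hy hI, M0q_pk]
    exact Pool.Agent.Helper90.DG.land_sel 27 _ (fun k => k % 3 = 0) (fun k hk => qn_lt hI hk)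
  have h1 : y &&& M1q = pk (2 ^ 128) 27 (fun k => if k % 3 = 1 then qn I k else 0) := by
    rw [y_pk hy hI, M1q_pk]
    exact Pool.Agent.Helper90.DG.land_sel 27 _ (fun k => k % 3 = 1) (fun k hk => qn_lt hI hk)
  have h2 : CJ = pk (2 ^ 128) 27 (fun k => if k % 3 = 1 then 2 ^ 101 - qn I k else 0) +
      pk (2 ^ 128) 27 (fun k => if k % 3 = 1 then qn I k else 0) := by
    rw [CJ_pk, pk_add]
    refine pk_congr _ _ _ _ fun k hk => ?_
    have h3 := qn_le hI hk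
    by_cases h : k % 3 = 1
    · rw [if_pos h, if_pos h, if_pos h]
      omega
    · rw [if_neg h, if_neg h, if_neg h]
  have h3 : CJ - pk (2 ^ 128) 27 (fun k => if k % 3 = 1 then qn I k else 0) =
      pk (2 ^ 128) 27 (fun k => if k % 3 = 1 then 2 ^ 101 - qn I k else 0) := by
    rw [h2]
    exact Nat.add_sub_cancel _ _
  rw [h0, h1, h3, pk_add]
  refine pk_congr _ _ _ _ fun k _ => ?_
  unfold gn
  by_cases h : k % 3 = 0
  · rw [if_pos h, if_pos h, if_neg (by omega), Nat.add_zero]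
  · rw [if_neg h, if_neg h, Nat.zero_add]

/-- digits of the column, no offset -/
def ge (I : VA) (k : ℕ) : ℤ :=
  if k % 30 = 0 then I (k / 30) 0 else if k % 30 = 1 then -I (k / 30) 1 else 0

theorem sum30' (f : ℕ → ℤ) (h : ∀ s, 2 ≤ s → s < 30 → f s = 0) :
    ∑ s ∈ range 30, f s = f 0 + f 1 := by
  have e : (30 : ℕ) = 2 + 28 := rfl
  have e3 : ∑ s ∈ range 28, f (2 + s) = 0 := sum_eq_zero fun s hs => by
    have h1 := mem_range.1 hs
    exact h _ (by omega) (by omega)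
  rw [e, sum_range_add, e3, add_zero, sum_range_succ, sum_range_succ, sum_range_zero, zero_add]

theorem PA_pz (I : VA) : PA I = pz BB 270 (ge I) := by
  rw [pz_sum, show (270 : ℕ) = 30 * 9 from rfl, sum_nest]
  unfold PA
  refine sum_congr rfl fun K _ => ?_
  rw [sum30' _ (fun s h h' => by
    have e : ge I (30 * K + s) = 0 := by
      unfold ge
      rw [if_neg (by omega), if_neg (by omega)]
    rw [e, zero_mul])]
  have e0 : ge I (30 * K + 0) = I K 0 := by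
    unfold ge
    rw [if_pos (by omega), show (30 * K + 0) / 30 = K by omega]
  have e1 : ge I (30 * K + 1) = -I K 1 := by
    unfold ge
    rw [if_neg (by omega), if_pos (by omega), show (30 * K + 1) / 30 = K by omega]
  rw [e0, e1, pow_add BB (30 * K) 0, pow_add BB (30 * K) 1, pow_mul, pow_zero, pow_one]
  ring

/-- the conjugate vector in the slots `30 K` (use helper90's `DG.spread`) -/
theorem p1_ok {j y : ℕ} {I : VA} (hj : j ≤ 4) (hy : (y : ℤ) = pz BB 27 (qd I))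
    (hI : ∀ K < 9, ∀ e, |I K e| ≤ 2 ^ 84) : zv (p1 j y) = 2 ^ j * PA I := by
  have h1 : zv (p1 j y) = (((((y &&& M0q) + (CJ - (y &&& M1q))) <<< j * COMB) &&& MP : ℕ) : ℤ) -
      ((OP <<< j : ℕ) : ℤ) := zv_br _ _
  have hj2 : 2 ^ j ≤ 2 ^ 4 := Nat.pow_le_pow_right (by norm_num) hj
  have hx : ((y &&& M0q) + (CJ - (y &&& M1q))) <<< j = pk (2 ^ 128) 27 (fun k => 2 ^ j * gn I k) := by
    rw [g_pk hy hI, Nat.shiftLeft_eq, Nat.mul_comm, pk_smul]
  have hb : ∀ k < 27, 2 ^ j * gn I k < 2 ^ 128 := fun k hk => by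
    have h2 : 2 ^ j * gn I k ≤ 2 ^ 4 * 2 ^ 101 := Nat.mul_le_mul hj2 (gn_le hI hk)
    exact lt_of_le_of_lt h2 (by norm_num)
  have hs := Pool.Agent.Helper90.DG.spread (x := ((y &&& M0q) + (CJ - (y &&& M1q))) <<< j) hx hb
    COMB_pk MP_pk
  have ho : OP <<< j = pk (2 ^ 128) 270 (fun k => 2 ^ j * (if k % 30 < 2 then 2 ^ 100 else 0)) := by
    rw [OP_pk, Nat.shiftLeft_eq, Nat.mul_comm, pk_smul]
  rw [h1, hs, ho, pk_cast, pk_cast, BBc, pz_sub, PA_pz, pz_smul]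
  refine pz_congr _ _ _ _ fun k hk => ?_
  have hK : 3 * (k / 30) < 27 := by omega
  have hK' : 3 * (k / 30) + 1 < 27 := by omega
  unfold ge
  by_cases h : k % 30 = 0
  · rw [if_pos (by omega), if_pos (by omega), if_pos h, h, Nat.add_zero]
    have e : gn I (3 * (k / 30)) = qn I (3 * (k / 30)) := by
      unfold gn
      rw [if_pos (by omega)]
    have e2 : qd I (3 * (k / 30)) = 2 ^ 100 + I (k / 30) 0 := by
      unfold qd
      rw [if_pos (by omega), show 3 * (k / 30) / 3 = k / 30 by omega]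
    rw [e, Nat.cast_mul, qn_cast hI hK, e2]
    push_cast
    ring
  · by_cases h' : k % 30 = 1
    · rw [if_pos (by omega), if_pos (by omega), if_neg h, if_pos h', h']
      have e : gn I (3 * (k / 30) + 1) = 2 ^ 101 - qn I (3 * (k / 30) + 1) := by
        unfold gn
        rw [if_neg (by omega), if_pos (by omega)]
      have e2 : qd I (3 * (k / 30) + 1) = 2 ^ 100 + I (k / 30) 1 := by
        unfold qd
        rw [if_neg (by omega), if_pos (by omega), show (3 * (k / 30) + 1) / 3 = k / 30 by omega]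
      rw [e, Nat.cast_mul, Nat.cast_sub (qn_le hI hK'), qn_cast hI hK', e2]
      push_cast
      ring
    · rw [if_neg (by omega), if_neg (by omega), if_neg h, if_neg h', mul_zero]
      push_cast
      ring

/-! ### the matrix -/

/-- the digits of the constant part -/
def sV (pq cs : ℕ) (A B Ju Jw : VF) : VC :=
  (2 ^ u8 cs 0 : ℤ) • mk2 (tD pq) A + (2 ^ u8 cs 8 : ℤ) • mk2 B (tD (Nat.shiftRight pq 144)) +
    ((2 ^ u8 cs 16 : ℤ) • mk2 Jw (tD (Nat.shiftRight pq 288)) +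
      (2 ^ u8 cs 24 : ℤ) • mk2 (tD (Nat.shiftRight pq 432)) Ju)

theorem zv_sN (P Q J : Z) (k1 k2 : ℕ) : zv (sN (sc1 P Q J) k1 k2) =
    zv P * k1 + k2 * zv Q + (zv J - zv P * (OC1 : ℤ) - (OC3 : ℤ) * zv Q) := by
  unfold sN sc1
  rw [zv_add, zv_add, zv_mul, zv_mul, zv_sub, zv_sub, zv_mul, zv_mul, zv_p, zv_p, zv_p, zv_p]

theorem sN_ok {k1 k2 pq cs : ℕ} {A B Ju Jw : VF} {ju jw : Z}
    (h1 : (k1 : ℤ) = (OC1 : ℤ) + PF 1 A) (h2 : (k2 : ℤ) = (OC3 : ℤ) + PF 3 B)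
    (hu : RF 1 ju Ju) (hw : RF 3 jw Jw) :
    RC (sN (mkSc pq cs ju jw) k1 k2) (sV pq cs A B Ju Jw) := by
  have hP : zv (sh (u8 cs 0) (hat 3 pq)) = 2 ^ u8 cs 0 * PF 3 (tD pq) := by
    rw [zv_sh]
    exact congrArg _ (hat_ok 3 pq)
  have hQ : zv (sh (u8 cs 8) (hat 1 (Nat.shiftRight pq 144))) =
      2 ^ u8 cs 8 * PF 1 (tD (Nat.shiftRight pq 144)) := by
    rw [zv_sh]
    exact congrArg _ (hat_ok 1 _)
  have hJ : RC (Z.add (sh (u8 cs 16) (Z.mul jw (hat 1 (Nat.shiftRight pq 288))))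
      (sh (u8 cs 24) (Z.mul (hat 3 (Nat.shiftRight pq 432)) ju)))
      ((2 ^ u8 cs 16 : ℤ) • mk2 Jw (tD (Nat.shiftRight pq 288)) +
      (2 ^ u8 cs 24 : ℤ) • mk2 (tD (Nat.shiftRight pq 432)) Ju) :=
    RC.add (RC.sh _ (RF.mul hw (hat_ok 1 _))) (RC.sh _ (RF.mul (hat_ok 3 _) hu))
  set sP := sh (u8 cs 0) (hat 3 pq) with hsP
  set sQ := sh (u8 cs 8) (hat 1 (Nat.shiftRight pq 144)) with hsQ
  set sJ := Z.add (sh (u8 cs 16) (Z.mul jw (hat 1 (Nat.shiftRight pq 288))))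
      (sh (u8 cs 24) (Z.mul (hat 3 (Nat.shiftRight pq 432)) ju)) with hsJ
  have e1 : mkSc pq cs ju jw = sc1 sP sQ sJ := rfl
  show zv _ = PC _
  unfold sV
  rw [e1, zv_sN, hP, hQ, hJ, h1, h2, PC_add (_ + _), PC_add ((2 ^ u8 cs 0 : ℤ) • _), PC_smul, PC_smul,
    PC_mk2, PC_mk2]
  ring

/-- THE MATRIX AT A NODE -/
theorem ndN_ok {j x y k1 k2 pq cs : ℕ} {I J : VA} {A B Ju Jw : VF} {ju jw : Z} (hj : j ≤ 4)
    (hx : (x : ℤ) = pz BB 27 (qd I)) (hy : (y : ℤ) = pz BB 27 (qd J))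
    (hI : ∀ K < 9, ∀ e, |I K e| ≤ 2 ^ 84) (hJ : ∀ K < 9, ∀ e, |J K e| ≤ 2 ^ 84)
    (h1 : (k1 : ℤ) = (OC1 : ℤ) + PF 1 A) (h2 : (k2 : ℤ) = (OC3 : ℤ) + PF 3 B)
    (hu : RF 1 ju Ju) (hw : RF 3 jw Jw) :
    RC (ndN j (mkSc pq cs ju jw) k1 k2 x y) ((2 ^ j : ℤ) • mw I J - sV pq cs A B Ju Jw) := by
  refine RC.sub ?_ (sN_ok h1 h2 hu hw)
  show zv _ = PC _
  rw [zv_add, zv_mul, zv_mul, p1_ok hj hx hI, p1_ok hj hy hJ, q1_ok hx, q1_ok hy, PC_smul, PC_mw]
  ring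

end Pool.Agent.Helper17.N9
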