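import Pool.Agent.Helper17.N9.N9B
import Pool.Agent.Helper17.C75.Kp1
import Pool.Agent.Helper17.C75.Kp5

/-!
Row K9 of MP_c75db0 (plan W), version 2, row S: side conditions of a test.
-/

set_option autoImplicit false
set_option exponentiation.threshold 60000
noncomputable section
namespace Pool.Agent.Helper17.N9

open Pool.Agent.Helper86.C75 (Z)
open Pool.Agent.Helper86.CX (Cx andB)
open Pool.Agent.Helper86.CT (N3 Mo)
open Pool.Agent.Helper90.C75 (Vt avg wtT)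
open Pool.Agent.Helper90.KMO (zv cz UU)
open Pool.Agent.Helper90.KMT (nlf lf0 TOK PT DL NN)
open Pool.Agent.Helper90.K9 (G pk pz)
open Pool.Agent.Helper17.K9 (V9)
open Pool.Agent.Helper62.TVM (TV)
open Pool.Agent.Helper6.MONO (V3)
open Pool.Agent.Helper6.MONO.W2 (Mt hr hv J1 NT)
open Finset Matrix

/-! ### the hermitian matrix of nine real numbers -/

/-- the hermitian matrix of nine real numbers -/
def hM (a b c x x' y y' w w' : ℝ) : Mt :=
  !![(⟨a, 0⟩ : ℂ), ⟨x, x'⟩, ⟨y, y'⟩; ⟨x, -x'⟩, ⟨b, 0⟩, ⟨w, w'⟩; ⟨y, -y'⟩, ⟨w, -w'⟩, ⟨c, 0⟩]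

theorem star_mkS (a b : ℝ) : star (⟨a, b⟩ : ℂ) = ⟨a, -b⟩ := rfl
theorem star_mkS' (a b : ℝ) : star (⟨a, -b⟩ : ℂ) = ⟨a, b⟩ := by
  rw [star_mkS, neg_neg]
theorem star_mk0S (a : ℝ) : star (⟨a, 0⟩ : ℂ) = ⟨a, 0⟩ := by
  rw [star_mkS, neg_zero]

theorem hM_herm (a b c x x' y y' w w' : ℝ) : (hM a b c x x' y y' w w').IsHermitian := by
  refine Matrix.IsHermitian.ext fun i j => ?_
  fin_cases i <;> fin_cases j
  · exact star_mk0S a
  · exact star_mkS' x x'
  · exact star_mkS' y y'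
  · exact star_mkS x x'
  · exact star_mk0S b
  · exact star_mkS' w w'
  · exact star_mkS y y'
  · exact star_mkS w w'
  · exact star_mk0S c

theorem mI_tD (T : ℕ) : mI (tD T) = hM (fl T 0) (fl T 1) (fl T 2) (fl T 3) (fl T 4) (fl T 5) (fl T 6)
    (fl T 7) (fl T 8) := by
  ext i j
  fin_cases i <;> fin_cases j
  · exact congrArg (Complex.mk _) Int.cast_zero
  · rfl
  · rfl
  · exact congrArg (Complex.mk _) (Int.cast_neg _)
  · exact congrArg (Complex.mk _) Int.cast_zero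
  · rfl
  · exact congrArg (Complex.mk _) (Int.cast_neg _)
  · exact congrArg (Complex.mk _) (Int.cast_neg _)
  · exact congrArg (Complex.mk _) Int.cast_zero

/-- the hermitian matrix of a table of 16 bits -/
theorem tD_herm (T : ℕ) : (mI (tD T)).IsHermitian := by
  rw [mI_tD]
  exact hM_herm _ _ _ _ _ _ _ _ _

/-! ### positivity -/

theorem mul_mkS (a b c d : ℝ) : (⟨a, b⟩ : ℂ) * ⟨c, d⟩ = ⟨a * c - b * d, a * d + b * c⟩ := rfl

theorem hr_hM (a b c x x' y y' w w' : ℝ) (v : V3) :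
    hr (hM a b c x x' y y' w w') v = Pool.Agent.Helper86.CX.ev ⟨a, b, c, x, x', y, y', w, w'⟩ v := by
  simp only [hr, hv, hM, Pool.Agent.Helper86.CX.ev, Fin.sum_univ_three]
  simp [Complex.normSq_apply, Complex.add_re, Complex.mul_re, Complex.mul_im]
  ring

theorem fl_abs (T k : ℕ) : |fl T k| ≤ 2 ^ 15 := by
  have h : u16 T (16 * k) < 65536 := Nat.mod_lt _ (by norm_num)
  unfold fl
  rw [abs_le]
  constructor <;> [norm_num; skip] <;> omega

theorem qq_rep (T k : ℕ) : Pool.Agent.Helper17.PAK.Rep Pool.Agent.Helper86.CX.M2 (qq T k)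
    ((u16 T k : ℤ) - 2 ^ 15) := by
  have h1 : Pool.Agent.Helper17.PAK.Rep Pool.Agent.Helper86.CX.M2
      (u16 T k + Pool.Agent.Helper86.CX.M2) (u16 T k : ℤ) := by
    show ((u16 T k + Pool.Agent.Helper86.CX.M2 : ℕ) : ℤ) ≡ (u16 T k : ℤ)
      [ZMOD (Pool.Agent.Helper86.CX.M2 : ℤ)]
    rw [Nat.cast_add]
    exact Int.add_modEq_right
  have h2 : Pool.Agent.Helper17.PAK.Rep Pool.Agent.Helper86.CX.M2 H15 (2 ^ 15 : ℤ) :=
    Pool.Agent.Helper17.PAK.Rep.nat _ _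
  have h3 : H15 ≤ u16 T k + Pool.Agent.Helper86.CX.M2 := by
    refine le_trans ?_ (Nat.le_add_left _ _)
    decide +kernel
  exact h1.sub h2 h3

theorem psd3_ok {T : ℕ} (h : psd3 T = true) : ∀ w : V3, 0 ≤ hr (mI (tD T)) w := by
  intro w
  have h1 := Pool.Agent.Helper17.PAK.psd1_sound
    (N := ⟨fl T 0, fl T 1, fl T 2, fl T 3, fl T 4, fl T 5, fl T 6, fl T 7, fl T 8⟩)
    (qq_rep T 0) (qq_rep T 16) (qq_rep T 32) (qq_rep T 48) (qq_rep T 64) (qq_rep T 80)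
    (qq_rep T 96) (qq_rep T 112) (qq_rep T 128) ?_ h
  · have h2 := Pool.Agent.Helper17.PAK.PDz_ev h1 w
    rw [mI_tD, hr_hM]
    simpa only [Pool.Agent.Helper17.PAK.sc, div_one] using h2
  · have h3 : ∀ k, |fl T k| ≤ 2 ^ 256 := fun k => (fl_abs T k).trans (by norm_num)
    exact ⟨h3 0, h3 1, h3 2, h3 3, h3 4, h3 5, h3 6, h3 7, h3 8⟩

/-! ### determinant -/

theorem cz_xml (a b : Cx) : cz (xml a b) = cz a * cz b := by
  unfold cz xml
  simp only [Pool.Agent.Helper90.KMO.zv_sub, Pool.Agent.Helper90.KMO.zv_add,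
    Pool.Agent.Helper90.KMO.zv_mul]
  rw [mul_mkS]
  push_cast
  rfl
theorem cz_xsb (a b : Cx) : cz (xsb a b) = cz a - cz b := by
  unfold cz xsb
  simp only [Pool.Agent.Helper90.KMO.zv_sub]
  push_cast
  rfl
theorem cz_xad (a b : Cx) : cz (xad a b) = cz a + cz b := by
  unfold cz xad
  simp only [Pool.Agent.Helper90.KMO.zv_add]
  push_cast
  rfl
theorem cz_det1 (a b c d e f g h i : Cx) : cz (det1 a b c d e f g h i) =
    cz a * (cz e * cz i - cz f * cz h) + (cz b * (cz f * cz g - cz d * cz i) +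
      cz c * (cz d * cz h - cz e * cz g)) := by
  unfold det1
  simp only [cz_xml, cz_xsb, cz_xad]

theorem cz_ae (T k k' : ℕ) : cz (ae T k k') =
    (⟨(((u20 T k : ℤ) - 2 ^ 19 : ℤ) : ℝ), (((u20 T k' : ℤ) - 2 ^ 19 : ℤ) : ℝ)⟩ : ℂ) := by
  unfold cz ae
  rw [show ∀ a b : ℕ, zv (Z.sub' a b) = (a : ℤ) - b from Pool.Agent.Helper90.KMO.zv_br,
    show ∀ a b : ℕ, zv (Z.sub' a b) = (a : ℤ) - b from Pool.Agent.Helper90.KMO.zv_br]
  rfl

theorem cz_det (T : ℕ) : cz (det T) = (mI (AI T)).det := by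
  rw [Matrix.det_fin_three]
  unfold det
  rw [cz_det1]
  simp only [cz_ae]
  have e : ∀ i j : Fin 3, mI (AI T) i j =
      (⟨(((u20 T (40 * (3 * (i : ℕ) + j)) : ℤ) - 2 ^ 19 : ℤ) : ℝ),
        (((u20 T (40 * (3 * (i : ℕ) + j) + 20) : ℤ) - 2 ^ 19 : ℤ) : ℝ)⟩ : ℂ) := fun i j => rfl
  have e00 := e 0 0
  have e01 := e 0 1
  have e02 := e 0 2
  have e10 := e 1 0
  have e11 := e 1 1
  have e12 := e 1 2
  have e20 := e 2 0
  have e21 := e 2 1
  have e22 := e 2 2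
  simp only [Fin.val_zero, Fin.val_one, Fin.val_two, mul_zero, mul_one, add_zero, zero_add,
    Nat.reduceMul, Nat.reduceAdd] at e00 e01 e02 e10 e11 e12 e20 e21 e22
  rw [e00, e01, e02, e10, e11, e12, e20, e21, e22]
  ring

theorem nzZ_ok {x : Z} (h : nzZ x = true) : zv x ≠ 0 := by
  cases x with
  | p n =>
    have h1 : 1 ≤ n := Nat.le_of_ble_eq_true h
    show (n : ℤ) ≠ 0
    omega
  | m n =>
    have h1 : 1 ≤ n := Nat.le_of_ble_eq_true h
    show -(n : ℤ) ≠ 0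
    omega

theorem orB_okS {x y : Bool} (h : orB x y = true) : x = true ∨ y = true := by
  cases x
  · exact Or.inr h
  · exact Or.inl rfl

theorem nz_ok {x : Cx} (h : nz x = true) : cz x ≠ 0 := by
  intro h0
  rcases orB_okS h with h1 | h1
  · have h2 : ((zv x.re : ℤ) : ℝ) = 0 := congrArg Complex.re h0
    exact nzZ_ok h1 (by exact_mod_cast h2)
  · have h2 : ((zv x.im : ℤ) : ℝ) = 0 := congrArg Complex.im h0
    exact nzZ_ok h1 (by exact_mod_cast h2)

theorem det_ok {T : ℕ} (h : nz (det T) = true) : (mI (AI T)).det ≠ 0 := by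
  rw [← cz_det]
  exact nz_ok h

/-! ### bounds -/

theorem tD_bd (T : ℕ) : BF (2 ^ 15) (tD T) := by
  have h0 : |(0 : ℤ)| ≤ 2 ^ 15 := by norm_num
  have hn : ∀ k, |-fl T k| ≤ 2 ^ 15 := fun k => by rw [abs_neg]; exact fl_abs T k
  intro i hi j hj e
  interval_cases i <;> interval_cases j <;> fin_cases e
  all_goals first
    | exact h0
    | exact fl_abs T _
    | exact hn _

theorem okX_ok {a e : ℕ} (h : okX a e = true) : (a : ℝ) ^ 2 * 2 ^ e ≤ 2 ^ 122 := by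
  have h1 : Nat.shiftLeft (a * a) e ≤ 2 ^ 122 := Nat.le_of_ble_eq_true h
  have h2 : a * a * 2 ^ e ≤ 2 ^ 122 := by
    rw [← Nat.shiftLeft_eq]
    exact h1
  have h3 : ((a * a * 2 ^ e : ℕ) : ℝ) ≤ ((2 ^ 122 : ℕ) : ℝ) := Nat.cast_le.2 h2
  rw [Nat.cast_mul, Nat.cast_mul, Nat.cast_pow, Nat.cast_pow, Nat.cast_ofNat] at h3
  rw [pow_two]
  exact h3

/-! ### forms -/

theorem tabM_hM (T : ℕ) : tabM T = hM (frl T 0) (frl T 1) (frl T 2) (frl T 3) (frl T 4) (frl T 5)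
    (frl T 6) (frl T 7) (frl T 8) := rfl

theorem tabM_herm (T : ℕ) : (tabM T).IsHermitian := by
  rw [tabM_hM]
  exact hM_herm _ _ _ _ _ _ _ _ _

theorem real_smul_hermS {A : Mt} (r : ℝ) (h : A.IsHermitian) : ((r : ℂ) • A).IsHermitian := by
  unfold Matrix.IsHermitian at *
  rw [Matrix.conjTranspose_smul, h]
  congr 1
  exact Complex.conj_ofReal r

theorem kap_herm (T : ℕ) : (kap T).IsHermitian := by
  have h := real_smul_hermS (2 ^ 23) (tabM_herm T)
  unfold kap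
  push_cast at h
  exact h

theorem sum_hermS {ι : Type} (s : Finset ι) (f : ι → Mt) (h : ∀ i ∈ s, (f i).IsHermitian) :
    (∑ i ∈ s, f i).IsHermitian := by
  unfold Matrix.IsHermitian at *
  rw [Matrix.conjTranspose_sum]
  exact Finset.sum_congr rfl h

theorem KfM_herm (K : Kf) (t : ℕ → ℝ) : (KfM K t).IsHermitian := by
  cases K with
  | c k => exact tabM_herm k
  | q k =>
    rw [KfM_q]
    exact sum_hermS _ _ fun i2 _ => sum_hermS _ _ fun i1 _ => sum_hermS _ _ fun i0 _ =>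
      real_smul_hermS _ (tabM_herm _)

end Pool.Agent.Helper17.N9
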