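import Pool.Agent.Helper17.N9.N9B

/-!
Row K9 of MP_c75db0 (plan W), version 2, row V: from the matrix of order nine to the test.
-/

set_option autoImplicit false
set_option exponentiation.threshold 60000
noncomputable section
namespace Pool.Agent.Helper17.N9

open Pool.Agent.Helper86.C75 (Z)
open Pool.Agent.Helper86.CX (Cx andB)
open Pool.Agent.Helper86.CT (N3 Mo)
open Pool.Agent.Helper90.C75 (Vt avg wtT)
open Pool.Agent.Helper90.KMO (zv cz UU)
open Pool.Agent.Helper90.KMT (nlf lf0 TOK PT DL NN)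
open Pool.Agent.Helper90.K9 (G pk pz G_succ)
open Pool.Agent.Helper17.K9 (V9)
open Pool.Agent.Helper62.TVM (TV)
open Pool.Agent.Helper6.MONO (V3)
open Pool.Agent.Helper6.MONO.W2 (Mt hr hv J1 NT NZ brJ tf lt RV RV_herm NTG NTG_tf NTG_frame')
open Finset Matrix

/-- entry number `K` of `W^t M U` -/
def mwu (W U M : Mt) (K : ℕ) : ℂ := en (W.transpose * M * U) (K / 3) (K % 3)

/-- entry of the Kronecker product -/
def kr (A B : Mt) (K L : ℕ) : ℂ := en A (K / 3) (L / 3) * en B (K % 3) (L % 3)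

/-- the matrix of the test -/
def tM (W U P Q H1 H2 K1 K2 X M : Mt) (K L : ℕ) : ℂ :=
  star (mwu W U M K) * mwu W U X L + star (mwu W U X K) * mwu W U M L -
    (kr P (U.conjTranspose * K1 * U) K L + kr (W.conjTranspose * cvM K2 * W) Q K L +
      kr (W.conjTranspose * J1 * W) H1 K L + kr H2 (U.conjTranspose * J1 * U) K L)

/-! ### the form of a hermitian matrix -/

/-- the form from all entries -/
theorem G_full : ∀ (n : ℕ) (M : ℕ → ℕ → ℂ) (v : ℕ → ℂ), (∀ i < n, ∀ j < n, M j i = star (M i j)) →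
    G n M v = (∑ i ∈ range n, ∑ j ∈ range n, star (v i) * M i j * v j).re
  | 0, _, _, _ => by
    show (0 : ℝ) = _
    simp
  | n + 1, M, v, h => by
    rw [G_succ, G_full n (fun i j => M (i + 1) (j + 1)) (fun i => v (i + 1))
      (fun i hi j hj => h (i + 1) (Nat.succ_lt_succ hi) (j + 1) (Nat.succ_lt_succ hj)),
      Finset.sum_range_succ']
    have e1 : ∀ i, ∑ j ∈ range (n + 1), star (v i) * M i j * v j =
        (∑ j ∈ range n, star (v i) * M i (j + 1) * v (j + 1)) + star (v i) * M i 0 * v 0 :=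
      fun i => Finset.sum_range_succ' _ _
    rw [e1 0, Finset.sum_congr rfl (fun i _ => e1 (i + 1)), Finset.sum_add_distrib]
    have e2 : (∑ i ∈ range n, star (v (i + 1)) * M (i + 1) 0 * v 0) =
        star (star (v 0) * ∑ j ∈ range n, M 0 (j + 1) * v (j + 1)) := by
      rw [star_mul', star_star, star_sum, Finset.mul_sum]
      refine Finset.sum_congr rfl fun i hi => ?_
      rw [h 0 (Nat.succ_pos n) (i + 1) (Nat.succ_lt_succ (Finset.mem_range.mp hi)), star_mul']
      ring
    have e3 : (∑ j ∈ range n, star (v 0) * M 0 (j + 1) * v (j + 1)) =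
        star (v 0) * ∑ j ∈ range n, M 0 (j + 1) * v (j + 1) := by
      rw [Finset.mul_sum]
      exact Finset.sum_congr rfl fun i _ => by ring
    have e4 : (star (v 0) * M 0 0 * v 0).re = (M 0 0).re * ‖v 0‖ ^ 2 := by
      have : star (v 0) * M 0 0 * v 0 = M 0 0 * ((‖v 0‖ ^ 2 : ℝ) : ℂ) := by
        have h1 : star (v 0) * v 0 = ((‖v 0‖ ^ 2 : ℝ) : ℂ) := by
          have := Complex.conj_mul' (v 0)
          push_cast
          exact this
        rw [← h1]
        ring
      rw [this, Complex.re_mul_ofReal]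
    have e5 : (star (star (v 0) * ∑ j ∈ range n, M 0 (j + 1) * v (j + 1))).re =
        (star (v 0) * ∑ j ∈ range n, M 0 (j + 1) * v (j + 1)).re := Complex.conj_re _
    rw [e2, e3, Complex.add_re, Complex.add_re, Complex.add_re, e4, e5]
    ring

/-! ### sums over nine numbers -/

theorem sum9 (f : ℕ → ℂ) : ∑ K ∈ range 9, f K = ∑ i : Fin 3, ∑ j : Fin 3, f (3 * i.1 + j.1) := by
  have e0 : ((0 : Fin 3) : ℕ) = 0 := rfl
  have e1 : ((1 : Fin 3) : ℕ) = 1 := rfl
  have e2 : ((2 : Fin 3) : ℕ) = 2 := rfl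
  simp only [Finset.sum_range_succ, Finset.sum_range_zero, Fin.sum_univ_three, e0, e1, e2,
    Nat.mul_zero, Nat.mul_one, Nat.zero_add, Nat.add_zero]
  norm_num
  ring

theorem ofn (i : Fin 3) : Fin.ofNat 3 i.1 = i := Fin.ext (Nat.mod_eq_of_lt i.2)

theorem en_fin (A : Mt) (i j : Fin 3) : en A i.1 j.1 = A i j := by
  unfold en
  rw [ofn, ofn]

/-- the tensor as a vector -/
def vt9 (t : Fin 3 → Fin 3 → ℂ) (K : ℕ) : ℂ := t (Fin.ofNat 3 (K / 3)) (Fin.ofNat 3 (K % 3))

theorem dv3 (i j : Fin 3) : (3 * i.1 + j.1) / 3 = i.1 := by omega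
theorem dm3 (i j : Fin 3) : (3 * i.1 + j.1) % 3 = j.1 := by omega

theorem vt9_at (t : Fin 3 → Fin 3 → ℂ) (i j : Fin 3) : vt9 t (3 * i.1 + j.1) = t i j := by
  unfold vt9
  rw [dv3, dm3, ofn, ofn]

theorem lt_sum (W U X : Mt) (t : Fin 3 → Fin 3 → ℂ) :
    ∑ K ∈ range 9, mwu W U X K * vt9 t K = lt (W.transpose * X * U) t := by
  rw [sum9]
  unfold lt
  refine Finset.sum_congr rfl fun i _ => Finset.sum_congr rfl fun j _ => ?_
  rw [vt9_at]
  unfold mwu
  rw [dv3, dm3, en_fin]

theorem tf_sum (A B : Mt) (t : Fin 3 → Fin 3 → ℂ) :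
    ∑ K ∈ range 9, ∑ L ∈ range 9, star (vt9 t K) * kr A B K L * vt9 t L = tf A B t := by
  rw [sum9]
  unfold tf
  refine Finset.sum_congr rfl fun i _ => ?_
  rw [Finset.sum_comm]
  have e : ∀ j : Fin 3, ∑ L ∈ range 9, star (vt9 t (3 * i.1 + j.1)) * kr A B (3 * i.1 + j.1) L *
      vt9 t L = ∑ i' : Fin 3, ∑ j' : Fin 3, star (t i j) * (A i i' * B j j') * t i' j' := by
    intro j
    rw [sum9]
    refine Finset.sum_congr rfl fun i' _ => Finset.sum_congr rfl fun j' _ => ?_
    rw [vt9_at, vt9_at]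
    unfold kr
    rw [dv3, dm3, dv3, dm3, en_fin, en_fin]
  rw [Finset.sum_comm]
  rw [Finset.sum_congr rfl fun j _ => e j, Finset.sum_comm]

/-! ### hermitian -/

theorem en_herm {A : Mt} (h : A.IsHermitian) (i j : ℕ) : en A j i = star (en A i j) :=
  (h.apply _ _).symm

theorem kr_herm {A B : Mt} (h : A.IsHermitian) (k : B.IsHermitian) (K L : ℕ) :
    kr A B L K = star (kr A B K L) := by
  unfold kr
  rw [star_mul', en_herm h (K / 3) (L / 3), en_herm k (K % 3) (L % 3)]

theorem J1_herm : J1.IsHermitian := by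
  ext i j
  fin_cases i <;> fin_cases j <;> simp [J1, Matrix.conjTranspose_apply]

theorem J1_sq : J1 * J1 = 1 := by
  ext i j
  fin_cases i <;> fin_cases j <;> simp [J1, Matrix.mul_apply, Fin.sum_univ_three]

theorem cvM_herm {K : Mt} (h : K.IsHermitian) : (cvM K).IsHermitian := by
  have h1 : K.transpose.IsHermitian := h.transpose
  unfold cvM Matrix.IsHermitian
  rw [Matrix.conjTranspose_mul, Matrix.conjTranspose_mul, J1_herm.eq, h1.eq, Matrix.mul_assoc]

theorem cong_herm {K : Mt} (h : K.IsHermitian) (A : Mt) : (A.conjTranspose * K * A).IsHermitian := by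
  unfold Matrix.IsHermitian
  rw [Matrix.conjTranspose_mul, Matrix.conjTranspose_mul, Matrix.conjTranspose_conjTranspose, h.eq,
    Matrix.mul_assoc]

theorem tM_herm {W U P Q H1 H2 K1 K2 X M : Mt} (rP : P.IsHermitian)
    (rQ : Q.IsHermitian) (r1 : H1.IsHermitian) (r2 : H2.IsHermitian) (k1 : K1.IsHermitian)
    (k2 : K2.IsHermitian) (K L : ℕ) :
    tM W U P Q H1 H2 K1 K2 X M L K = star (tM W U P Q H1 H2 K1 K2 X M K L) := by
  unfold tM
  rw [star_sub, star_add, star_add, star_add, star_add, star_mul', star_mul', star_star, star_star,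
    ← kr_herm rP (cong_herm k1 U), ← kr_herm (cong_herm (cvM_herm k2) W) rQ,
    ← kr_herm (cong_herm J1_herm W) r1, ← kr_herm r2 (cong_herm J1_herm U)]
  ring

/-- the value of the form of the test on a tensor -/
theorem G_tM {W U P Q H1 H2 K1 K2 X M : Mt} (rP : P.IsHermitian)
    (rQ : Q.IsHermitian) (r1 : H1.IsHermitian) (r2 : H2.IsHermitian) (k1 : K1.IsHermitian)
    (k2 : K2.IsHermitian) (t : Fin 3 → Fin 3 → ℂ) :
    G 9 (tM W U P Q H1 H2 K1 K2 X M) (vt9 t) =
      2 * (lt (W.transpose * X * U) t * star (lt (W.transpose * M * U) t)).re -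
      ((tf P (U.conjTranspose * K1 * U) t).re + (tf (W.conjTranspose * cvM K2 * W) Q t).re +
        (tf (W.conjTranspose * J1 * W) H1 t).re + (tf H2 (U.conjTranspose * J1 * U) t).re) := by
  rw [G_full 9 _ _ fun i _ j _ => tM_herm rP rQ r1 r2 k1 k2 i j]
  have e : ∑ K ∈ range 9, ∑ L ∈ range 9, star (vt9 t K) * tM W U P Q H1 H2 K1 K2 X M K L * vt9 t L =
      (star (lt (W.transpose * M * U) t) * lt (W.transpose * X * U) t +
        star (lt (W.transpose * X * U) t) * lt (W.transpose * M * U) t) -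
      (tf P (U.conjTranspose * K1 * U) t + tf (W.conjTranspose * cvM K2 * W) Q t +
        tf (W.conjTranspose * J1 * W) H1 t + tf H2 (U.conjTranspose * J1 * U) t) := by
    rw [← lt_sum W U X t, ← lt_sum W U M t, ← tf_sum P, ← tf_sum _ Q, ← tf_sum _ H1, ← tf_sum H2,
      star_sum, star_sum, Finset.sum_mul_sum, Finset.sum_mul_sum, ← Finset.sum_add_distrib,
      ← Finset.sum_add_distrib, ← Finset.sum_add_distrib, ← Finset.sum_add_distrib,
      ← Finset.sum_sub_distrib]
    refine Finset.sum_congr rfl fun K _ => ?_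
    rw [← Finset.sum_add_distrib, ← Finset.sum_add_distrib, ← Finset.sum_add_distrib,
      ← Finset.sum_add_distrib, ← Finset.sum_sub_distrib]
    refine Finset.sum_congr rfl fun L _ => ?_
    unfold tM
    rw [star_mul', star_mul']
    ring
  have e2 : (star (lt (W.transpose * X * U) t) * lt (W.transpose * M * U) t).re =
      (lt (W.transpose * X * U) t * star (lt (W.transpose * M * U) t)).re := by
    have : star (lt (W.transpose * X * U) t) * lt (W.transpose * M * U) t =
        star (lt (W.transpose * X * U) t * star (lt (W.transpose * M * U) t)) := by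
      rw [star_mul', star_star]
    rw [this]
    exact Complex.conj_re _
  rw [e, Complex.sub_re, Complex.add_re, Complex.add_re, Complex.add_re, Complex.add_re, e2,
    mul_comm (star (lt (W.transpose * M * U) t))]
  ring

theorem tf_half_l (A B : Mt) (t : Fin 3 → Fin 3 → ℂ) :
    (tf ((1 / 2 : ℝ) • A) B t).re = 1 / 2 * (tf A B t).re := by
  have e : tf ((1 / 2 : ℝ) • A) B t = ((1 / 2 : ℝ) : ℂ) * tf A B t := by
    simp only [tf, Finset.mul_sum, Matrix.smul_apply, Complex.real_smul]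
    refine Finset.sum_congr rfl fun i _ => Finset.sum_congr rfl fun i' _ =>
      Finset.sum_congr rfl fun j _ => Finset.sum_congr rfl fun j' _ => ?_
    ring
  rw [e, Complex.re_ofReal_mul]

theorem tf_half_r (A B : Mt) (t : Fin 3 → Fin 3 → ℂ) :
    (tf A ((1 / 2 : ℝ) • B) t).re = 1 / 2 * (tf A B t).re := by
  have e : tf A ((1 / 2 : ℝ) • B) t = ((1 / 2 : ℝ) : ℂ) * tf A B t := by
    simp only [tf, Finset.mul_sum, Matrix.smul_apply, Complex.real_smul]
    refine Finset.sum_congr rfl fun i _ => Finset.sum_congr rfl fun i' _ =>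
      Finset.sum_congr rfl fun j _ => Finset.sum_congr rfl fun j' _ => ?_
    ring
  rw [e, Complex.re_ofReal_mul]

theorem hv_rsmul (c : ℝ) (K : Mt) (v : V3) : hv (c • K) v = (c : ℂ) * hv K v := by
  simp only [hv, Finset.mul_sum, Matrix.smul_apply, Complex.real_smul]
  refine Finset.sum_congr rfl fun i _ => Finset.sum_congr rfl fun j _ => ?_
  ring

theorem hr_rsmul (c : ℝ) (K : Mt) (v : V3) : hr (c • K) v = c * hr K v := by
  unfold hr
  rw [hv_rsmul, Complex.re_ofReal_mul]

theorem RV_rsmul (c : ℝ) {K : Mt} (h : RV K) : RV (c • K) := by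
  intro v
  rw [hv_rsmul, Complex.im_ofReal_mul, h v, mul_zero]

theorem RV_of {K : Mt} (h : K.IsHermitian) : RV K := RV_herm fun i j => (h.apply j i).symm

/-- THE CONCLUSION (frames `U` of the vectors, `B = J conj W` of the covectors; helper82's
`NTG_frame'` and `NTG_tf`, with `c = 0` and half of `P`, `Q`, `H1`, `H2`) -/
theorem fin_ok {W U P Q H1 H2 K1 K2 X M : Mt} (dW : W.det ≠ 0) (dU : U.det ≠ 0)
    (hP : ∀ w : V3, 0 ≤ hr P w) (hQ : ∀ w : V3, 0 ≤ hr Q w) (rP : P.IsHermitian)
    (rQ : Q.IsHermitian) (r1 : H1.IsHermitian) (r2 : H2.IsHermitian) (k1 : K1.IsHermitian)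
    (k2 : K2.IsHermitian) (h : ∀ v : ℕ → ℂ, 0 ≤ G 9 (tM W U P Q H1 H2 K1 K2 X M) v) :
    NT K1 K2 X M := by
  have dJ : J1.det ≠ 0 := by
    intro h0
    have := congrArg Matrix.det J1_sq
    rw [Matrix.det_mul, h0, Matrix.det_one, mul_zero] at this
    exact zero_ne_one this
  set B : Mt := (W.transpose * J1).conjTranspose with hB
  have hBs : B.conjTranspose = W.transpose * J1 := Matrix.conjTranspose_conjTranspose _
  have dB : B.det ≠ 0 := by
    rw [hB, Matrix.det_conjTranspose, Matrix.det_mul, Matrix.det_transpose]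
    exact star_ne_zero.2 (mul_ne_zero dW dJ)
  have hBt : B.transpose = W.conjTranspose * J1 := by
    rw [hB, Matrix.conjTranspose_mul, Matrix.transpose_mul, J1_herm.eq]
    have e1 : W.transpose.conjTranspose.transpose = W.conjTranspose := by
      ext i j
      rfl
    have e2 : J1.transpose = J1 := by
      ext i j
      fin_cases i <;> fin_cases j <;> rfl
    rw [e1, e2]
  have hBst : B.conjTranspose.transpose = J1 * W := by
    rw [hBs, Matrix.transpose_mul, Matrix.transpose_transpose]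
    have e2 : J1.transpose = J1 := by
      ext i j
      fin_cases i <;> fin_cases j <;> rfl
    rw [e2]
  have hX : ∀ Y : Mt, B.conjTranspose * J1 * Y * U = W.transpose * Y * U := by
    intro Y
    rw [hBs, Matrix.mul_assoc W.transpose, J1_sq, Matrix.mul_one]
  have hK2 : (B.conjTranspose * K2 * B).transpose = W.conjTranspose * cvM K2 * W := by
    rw [Matrix.transpose_mul, Matrix.transpose_mul, hBt, hBst]
    unfold cvM
    simp only [Matrix.mul_assoc]
  have hJy : (B.conjTranspose * J1 * B).transpose = W.conjTranspose * J1 * W := by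
    rw [Matrix.transpose_mul, Matrix.transpose_mul, hBt, hBst]
    have e2 : J1.transpose = J1 := by
      ext i j
      fin_cases i <;> fin_cases j <;> rfl
    rw [e2, ← Matrix.mul_assoc J1 J1 W, J1_sq, Matrix.one_mul]
  refine NTG_frame' dU dB ?_
  rw [hX, hX]
  refine NTG_tf (P := (1 / 2 : ℝ) • P) (Q := (1 / 2 : ℝ) • Q) (H1 := (1 / 2 : ℝ) • H1)
    (H2 := (1 / 2 : ℝ) • H2) (c := 0) le_rfl (RV_of (cong_herm k1 U)) (RV_rsmul _ (RV_of rQ))
    (RV_rsmul _ (RV_of r1)) (RV_of (cong_herm J1_herm U)) ?_ ?_ ?_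
  · intro w
    rw [hr_rsmul]
    exact mul_nonneg (by norm_num) (hP w)
  · intro w
    rw [hr_rsmul]
    exact mul_nonneg (by norm_num) (hQ w)
  · intro t
    have h1 := h (vt9 t)
    rw [G_tM rP rQ r1 r2 k1 k2 t] at h1
    rw [hK2, hJy, tf_half_l, tf_half_r, tf_half_r, tf_half_l, zero_mul]
    linarith

/-- positive factors -/
theorem NT_smul {K1 K2 X M : Mt} {a b c : ℝ} (ha : 0 < a) (hb : 0 < b) (hc : 0 < c)
    (h : NT ((a : ℂ) • K1) ((b : ℂ) • K2) ((c : ℂ) • X) ((c : ℂ) • M)) : NT K1 K2 X M := by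
  have sm : ∀ (s : ℝ) (K : Mt) (v : V3), hr ((s : ℂ) • K) v = s * hr K v := by
    intro s K v
    have e : hv ((s : ℂ) • K) v = (s : ℂ) * hv K v := by
      simp only [hv, Finset.mul_sum, Matrix.smul_apply, smul_eq_mul]
      refine Finset.sum_congr rfl fun i _ => Finset.sum_congr rfl fun j _ => ?_
      ring
    unfold hr
    rw [e, Complex.re_ofReal_mul]
  intro u hu y hy
  have h1 := h u ⟨by rw [sm]; exact mul_nonneg ha.le hu.1, hu.2⟩ y
    ⟨by rw [sm]; exact mul_nonneg hb.le hy.1, hy.2⟩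
  have key : ∀ Y : Mt, brJ 1 (((c : ℂ) • Y).mulVec u) y = (c : ℂ) * brJ 1 (Y.mulVec u) y := by
    intro Y
    rw [Matrix.smul_mulVec]
    simp only [brJ, Pi.smul_apply, smul_eq_mul]
    ring
  rw [key, key] at h1
  have e : (c : ℂ) * brJ 1 (X.mulVec u) y * star ((c : ℂ) * brJ 1 (M.mulVec u) y) =
      ((c ^ 2 : ℝ) : ℂ) * (brJ 1 (X.mulVec u) y * star (brJ 1 (M.mulVec u) y)) := by
    have hs : star (c : ℂ) = (c : ℂ) := Complex.conj_ofReal c
    rw [star_mul', hs]
    push_cast
    ring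
  rw [e, Complex.re_ofReal_mul] at h1
  exact nonneg_of_mul_nonneg_right h1 (by positivity)

end Pool.Agent.Helper17.N9
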