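import Pool.Agent.Helper17.N9.N9C
import Pool.Agent.Helper17.N9.N9V
import Pool.Agent.Helper17.N9.N9S
import Pool.Agent.Helper17.N9.N9P

/-!
Row K9 of MP_c75db0 (plan W), version 2, part E: from the test of the matrices at the nodes to the
inequality of a block.
-/

set_option autoImplicit false
set_option exponentiation.threshold 60000
noncomputable section
namespace Pool.Agent.Helper17.N9

open Pool.Agent.Helper90.C75 (Vt avg wtT avg_sub avg_add avg_smul)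
open Pool.Agent.Helper90.KMT (PT)
open Pool.Agent.Helper90.K9 (G G_congr G_add)
open Pool.Agent.Helper6.MONO (V3)
open Pool.Agent.Helper6.MONO.W2 (Mt hr hv J1 NT)
open Finset Matrix

/-! ### linear maps and averages -/

/-- average of matrices -/
def AV {ι : Type} [Fintype ι] (w : ι → ℝ) (F : ι → Mt) : Mt := ∑ u, (w u : ℂ) • F u

theorem AV_apply {ι : Type} [Fintype ι] (w : ι → ℝ) (F : ι → Mt) (i j : Fin 3) :
    AV w F i j = avg w (fun u => F u i j) := by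
  unfold AV avg
  rw [Matrix.sum_apply]
  rfl

theorem avg_lin {ι : Type} [Fintype ι] (w : ι → ℝ) (F : ι → Mt) (Φ : Mt →ₗ[ℂ] ℂ) :
    avg w (fun u => Φ (F u)) = Φ (AV w F) := by
  unfold AV avg
  rw [map_sum]
  exact sum_congr rfl fun u _ => (by rw [map_smul, smul_eq_mul])

theorem en_add (A B : Mt) (i j : ℕ) : en (A + B) i j = en A i j + en B i j := rfl
theorem en_smul (c : ℂ) (A : Mt) (i j : ℕ) : en (c • A) i j = c * en A i j := rfl

/-- entry of `U^* K U` -/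
def F1 (U : Mt) (i j : ℕ) : Mt →ₗ[ℂ] ℂ where
  toFun K := en (U.conjTranspose * K * U) i j
  map_add' K L := by rw [Matrix.mul_add, Matrix.add_mul, en_add]
  map_smul' c K := by rw [Matrix.mul_smul, Matrix.smul_mul, en_smul]; rfl

theorem cvM_add (K L : Mt) : cvM (K + L) = cvM K + cvM L := by
  unfold cvM
  rw [Matrix.transpose_add, Matrix.mul_add, Matrix.add_mul]
theorem cvM_smul (c : ℂ) (K : Mt) : cvM (c • K) = c • cvM K := by
  unfold cvM
  rw [Matrix.transpose_smul, Matrix.mul_smul, Matrix.smul_mul]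

/-- entry of `W^* J K^t J W` -/
def F2 (W : Mt) (i j : ℕ) : Mt →ₗ[ℂ] ℂ where
  toFun K := en (W.conjTranspose * cvM K * W) i j
  map_add' K L := by rw [cvM_add, Matrix.mul_add, Matrix.add_mul, en_add]
  map_smul' c K := by rw [cvM_smul, Matrix.mul_smul, Matrix.smul_mul, en_smul]; rfl

theorem F1_apply (U K : Mt) (i j : ℕ) : F1 U i j K = en (U.conjTranspose * K * U) i j := rfl
theorem F2_apply (W K : Mt) (i j : ℕ) : F2 W i j K = en (W.conjTranspose * cvM K * W) i j := rfl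

theorem en_mI (X : VF) {i j : ℕ} (hi : i < 3) (hj : j < 3) : en (mI X) i j = ef i j X := by
  show ef ((Fin.ofNat 3 i : Fin 3) : ℕ) ((Fin.ofNat 3 j : Fin 3) : ℕ) X = _
  have h1 : ((Fin.ofNat 3 i : Fin 3) : ℕ) = i := Nat.mod_eq_of_lt hi
  have h2 : ((Fin.ofNat 3 j : Fin 3) : ℕ) = j := Nat.mod_eq_of_lt hj
  rw [h1, h2]

/-- the form in the frame, interpolated -/
theorem form_avg {D : ℕ} {t : ℕ → ℝ} {rr : Vt D → Vt 3}
    (hr : ∀ G : Vt 3 → ℂ, avg (ndw D t) (fun u => G (rr u)) = avg (ndw 3 t) G) {K : Mt}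
    {T : Vt 3 → ℕ} (h : ∀ i j, K i j = avg (ndw 3 t) (fun u => tabM (T u) i j)) {A : Vt 3 → VF}
    (Φ : ℕ → ℕ → Mt →ₗ[ℂ] ℂ)
    (hA : ∀ u i j, i < 3 → j < 3 → ef i j (A u) = Φ i j (kap (T u))) {i j : ℕ} (hi : i < 3)
    (hj : j < 3) : avg (ndw D t) (fun u => ef i j (A (rr u))) = Φ i j ((2 ^ 23 : ℂ) • K) := by
  rw [hr (fun u => ef i j (A u))]
  have e : (fun u => ef i j (A u)) = fun u => (2 ^ 23 : ℂ) * Φ i j (tabM (T u)) := by
    funext u
    rw [hA u i j hi hj]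
    show Φ i j ((2 ^ 23 : ℂ) • tabM (T u)) = _
    rw [map_smul, smul_eq_mul]
  rw [e, avg_smul, map_smul, smul_eq_mul, avg_lin]
  congr 2
  ext a b
  rw [AV_apply, h]

/-! ### the constant part -/

theorem avg_const' {D : ℕ} (t : ℕ → ℝ) (c : ℂ) : avg (ndw D t) (fun _ => c) = c := by
  unfold avg
  rw [← sum_mul, ← Complex.ofReal_sum, ndw_sum, Complex.ofReal_one, one_mul]

theorem S_avg {D : ℕ} {t : ℕ → ℝ} (pq cs : ℕ) (A B : Vt D → VF) (Ju Jw : VF) (K L : ℕ) :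
    avg (ndw D t) (fun u => fv K L (sV pq cs (A u) (B u) Ju Jw)) =
      (2 ^ u8 cs 0 : ℂ) * (ef (K / 3) (L / 3) (tD pq) * avg (ndw D t) (fun u => ef (K % 3) (L % 3) (A u))) +
      (2 ^ u8 cs 8 : ℂ) * (avg (ndw D t) (fun u => ef (K / 3) (L / 3) (B u)) *
        ef (K % 3) (L % 3) (tD (Nat.shiftRight pq 144))) +
      ((2 ^ u8 cs 16 : ℂ) * (ef (K / 3) (L / 3) Jw * ef (K % 3) (L % 3) (tD (Nat.shiftRight pq 288))) +
      (2 ^ u8 cs 24 : ℂ) * (ef (K / 3) (L / 3) (tD (Nat.shiftRight pq 432)) * ef (K % 3) (L % 3) Ju)) := by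
  have e : (fun u => fv K L (sV pq cs (A u) (B u) Ju Jw)) = fun u =>
      ((2 ^ u8 cs 0 : ℂ) * ef (K / 3) (L / 3) (tD pq)) * ef (K % 3) (L % 3) (A u) +
      ((2 ^ u8 cs 8 : ℂ) * ef (K % 3) (L % 3) (tD (Nat.shiftRight pq 144))) * ef (K / 3) (L / 3) (B u) +
      ((2 ^ u8 cs 16 : ℂ) * (ef (K / 3) (L / 3) Jw * ef (K % 3) (L % 3) (tD (Nat.shiftRight pq 288))) +
      (2 ^ u8 cs 24 : ℂ) * (ef (K / 3) (L / 3) (tD (Nat.shiftRight pq 432)) * ef (K % 3) (L % 3) Ju)) := by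
    funext u
    unfold sV
    rw [map_add, map_add, map_add, fv_smul, fv_smul, fv_smul, fv_smul, fv_mk2, fv_mk2, fv_mk2, fv_mk2]
    push_cast
    ring
  rw [e, avg_add, avg_add, avg_smul, avg_smul, avg_const']
  ring

theorem smul_herm {M : Mt} (h : M.IsHermitian) (c : ℝ) : ((c : ℂ) • M).IsHermitian := by
  unfold Matrix.IsHermitian at *
  rw [Matrix.conjTranspose_smul, h]
  congr 1
  exact Complex.conj_ofReal c

theorem hr_sm (c : ℝ) (T : Mt) (w : V3) : hr ((c : ℂ) • T) w = c * hr T w := by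
  unfold hr Pool.Agent.Helper6.MONO.W2.hv
  rw [← Complex.re_ofReal_mul]
  congr 1
  rw [mul_sum]
  refine sum_congr rfl fun i _ => ?_
  rw [mul_sum]
  refine sum_congr rfl fun j _ => ?_
  rw [Matrix.smul_apply, smul_eq_mul]
  ring

/-- THE INEQUALITY OF A BLOCK -/
theorem final_ok {D : ℕ} (hD : D ≤ 4) {t : ℕ → ℝ} (hP : PT D t) {rr : Vt D → Vt 3}
    (hrr : ∀ G : Vt 3 → ℂ, avg (ndw D t) (fun u => G (rr u)) = avg (ndw 3 t) G)
    {fr fu pq cs : ℕ} {k1 k2 : Kf} {T1 T2 : Vt 3 → ℕ}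
    (h1 : ∀ i j, KfM k1 t i j = avg (ndw 3 t) (fun u => tabM (T1 u) i j))
    (h2 : ∀ i j, KfM k2 t i j = avg (ndw 3 t) (fun u => tabM (T2 u) i j)) {A B : Vt 3 → VF}
    {Ju Jw : VF}
    (hA : ∀ u, mI (A u) = (mI (AI fu)).conjTranspose * kap (T1 u) * mI (AI fu))
    (hB : ∀ u, mI (B u) = (mI (AI fr)).conjTranspose * cvM (kap (T2 u)) * mI (AI fr))
    (hu : mI Ju = (mI (AI fu)).conjTranspose * J1 * mI (AI fu))
    (hw : mI Jw = (mI (AI fr)).conjTranspose * J1 * mI (AI fr))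
    {QM QX : Vt D → VA} {Mr Xr : W9} {k : ℕ} {M X : Mt}
    (hM : ∀ K < 9, RwL D t (fun u => ev K (QM u))
      (mwu (mI (AI fr)) (mI (AI fu)) ((2 ^ 28 / 2 ^ k : ℂ) • M) K) (Mr.at K))
    (hX : ∀ K < 9, RwL D t (fun u => ev K (QX u))
      (mwu (mI (AI fr)) (mI (AI fu)) ((2 ^ 28 / 2 ^ k : ℂ) • X) K) (Xr.at K)) {R : ℕ → ℕ}
    (hR : ∀ K < 9, ∑ L ∈ range 9, (rrR (Mr.at K) (Xr.at L) + rrR (Xr.at K) (Mr.at L)) ≤
      2 ^ (72 + 2 * D) * ((R K : ℝ) - 1241))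
    (h : ∀ v : ℕ → ℂ, ∑ K ∈ range 9, ((R K : ℝ) - 1238) * ‖v K‖ ^ 2 ≤ 2 ^ D / 2 ^ 76 *
      G 9 (fun K L => avg (ndw D t) (fun u => fv K L
        ((2 ^ (4 - D) : ℤ) • mw (QM u) (QX u) - sV pq cs (A (rr u)) (B (rr u)) Ju Jw))) v)
    (p1 : psd3 pq = true) (p2 : psd3 (Nat.shiftRight pq 144) = true)
    (d1 : nz (det fr) = true) (d2 : nz (det fu) = true) : NT (KfM k1 t) (KfM k2 t) X M := by
  set W := mI (AI fr) with hW
  set U := mI (AI fu) with hU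
  set j := 4 - D with hj
  have pj : (0 : ℝ) < 2 ^ j := by positivity
  set cP : ℝ := 2 ^ u8 cs 0 / 2 ^ j with hcP
  set cQ : ℝ := 2 ^ u8 cs 8 / 2 ^ j with hcQ
  set c1 : ℝ := 2 ^ u8 cs 16 / 2 ^ j with hc1
  set c2 : ℝ := 2 ^ u8 cs 24 / 2 ^ j with hc2
  have e23 : (2 ^ 23 : ℂ) = ((2 ^ 23 : ℝ) : ℂ) := by push_cast; rfl
  have e28 : (2 ^ 28 / 2 ^ k : ℂ) = ((2 ^ 28 / 2 ^ k : ℝ) : ℂ) := by push_cast; rfl
  have Kherm : ∀ K : Kf, ((2 ^ 23 : ℂ) • KfM K t).IsHermitian := fun K => by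
    rw [e23]
    exact smul_herm (KfM_herm K t) _
  have fin := fin_ok (W := W) (U := U) (P := (cP : ℂ) • mI (tD pq))
    (Q := (cQ : ℂ) • mI (tD (Nat.shiftRight pq 144)))
    (H1 := (c1 : ℂ) • mI (tD (Nat.shiftRight pq 288)))
    (H2 := (c2 : ℂ) • mI (tD (Nat.shiftRight pq 432)))
    (K1 := (2 ^ 23 : ℂ) • KfM k1 t) (K2 := (2 ^ 23 : ℂ) • KfM k2 t)
    (X := (2 ^ 28 / 2 ^ k : ℂ) • X) (M := (2 ^ 28 / 2 ^ k : ℂ) • M) (det_ok d1) (det_ok d2)
    (fun w => by rw [hr_sm]; exact mul_nonneg (by positivity) (psd3_ok p1 w))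
    (fun w => by rw [hr_sm]; exact mul_nonneg (by positivity) (psd3_ok p2 w))
    (smul_herm (tD_herm _) _) (smul_herm (tD_herm _) _) (smul_herm (tD_herm _) _)
    (smul_herm (tD_herm _) _) (Kherm _) (Kherm _) ?_
  · rw [e23, e28] at fin
    exact NT_smul (by positivity) (by positivity) (by positivity) fin
  intro v
  have core := core_ok hD hP hM hX hR v (h v)
  have a1 : ∀ i < 3, ∀ l < 3, avg (ndw D t) (fun u => ef i l (A (rr u))) =
      en (U.conjTranspose * ((2 ^ 23 : ℂ) • KfM k1 t) * U) i l := fun i hi l hl =>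
    form_avg hrr h1 (F1 U) (fun u i j hi hj => by
      rw [F1_apply, ← hA u, en_mI _ hi hj]) hi hl
  have a2 : ∀ i < 3, ∀ l < 3, avg (ndw D t) (fun u => ef i l (B (rr u))) =
      en (W.conjTranspose * cvM ((2 ^ 23 : ℂ) • KfM k2 t) * W) i l := fun i hi l hl =>
    form_avg hrr h2 (F2 W) (fun u i j hi hj => by
      rw [F2_apply, ← hB u, en_mI _ hi hj]) hi hl
  have key : G 9 (fun K L => (2 ^ j : ℂ) * (star (mwu W U ((2 ^ 28 / 2 ^ k : ℂ) • M) K) *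
      mwu W U ((2 ^ 28 / 2 ^ k : ℂ) • X) L + star (mwu W U ((2 ^ 28 / 2 ^ k : ℂ) • X) K) *
      mwu W U ((2 ^ 28 / 2 ^ k : ℂ) • M) L) -
      avg (ndw D t) (fun u => fv K L (sV pq cs (A (rr u)) (B (rr u)) Ju Jw))) v =
      2 ^ j * G 9 (tM W U ((cP : ℂ) • mI (tD pq)) ((cQ : ℂ) • mI (tD (Nat.shiftRight pq 144)))
        ((c1 : ℂ) • mI (tD (Nat.shiftRight pq 288))) ((c2 : ℂ) • mI (tD (Nat.shiftRight pq 432)))
        ((2 ^ 23 : ℂ) • KfM k1 t) ((2 ^ 23 : ℂ) • KfM k2 t)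
        ((2 ^ 28 / 2 ^ k : ℂ) • X) ((2 ^ 28 / 2 ^ k : ℂ) • M)) v := by
    rw [← G_smul]
    refine G_congr 9 _ _ v fun K hK L hL _ => ?_
    have k1' : K / 3 < 3 := by omega
    have k2' : K % 3 < 3 := by omega
    have l1' : L / 3 < 3 := by omega
    have l2' : L % 3 < 3 := by omega
    rw [S_avg pq cs (fun u => A (rr u)) (fun u => B (rr u)) Ju Jw K L, a1 _ k2' _ l2', a2 _ k1' _ l1']
    unfold tM kr
    rw [en_smul, en_smul, en_smul, en_smul, ← hu, ← hw, en_mI _ k1' l1', en_mI _ k2' l2',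
      en_mI _ k2' l2', en_mI _ k1' l1', en_mI _ k1' l1', en_mI _ k2' l2']
    have pj' : (2 ^ j : ℂ) ≠ 0 := by
      have : ((2 ^ j : ℝ) : ℂ) ≠ 0 := by exact_mod_cast pj.ne'
      push_cast at this
      exact this
    rw [hcP, hcQ, hc1, hc2]
    push_cast
    field_simp
    ring
  rw [key] at core
  have := (mul_nonneg_iff_of_pos_left pj).1 core
  exact this

end Pool.Agent.Helper17.N9
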