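import Pool.Agent.Helper17.N9.N9F0
import Pool.Agent.Helper90.C9.DG

/-!
Row K9 of MP_c75db0 (plan W), version 2, row F: decoding of packed forms, sums of the basis forms
(both layouts). The parts on `P3`, `cm`, `dV`, `d3`, `d2` are helper78's.
-/

set_option autoImplicit false
set_option exponentiation.threshold 60000
noncomputable section
namespace Pool.Agent.Helper17.N9

open Pool.Agent.Helper86.C75 (Z)
open Pool.Agent.Helper90.KMO (zv zv_add zv_sub zv_mul zv_p zv_m zv_br)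
open Pool.Agent.Helper90.K9 (pk pz pk_cast pz_last pz_succ pz_congr pk_congr pz_add pz_sub pz_smul)
open Finset

/-! ### numbers with offset -/

theorem zoff_cast {o : ℕ} {x : Z} (h : 0 ≤ (o : ℤ) + zv x) :
    ((zoff o x : ℕ) : ℤ) = (o : ℤ) + zv x := by
  cases x with
  | p n =>
    show ((o + n : ℕ) : ℤ) = _
    rw [Nat.cast_add]
    rfl
  | m n =>
    have h2 : (0 : ℤ) ≤ (o : ℤ) + -(n : ℤ) := h
    have h1 : n ≤ o := by
      have h3 : (n : ℤ) ≤ (o : ℤ) := by linarith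
      exact_mod_cast h3
    show ((o - n : ℕ) : ℤ) = _
    rw [Nat.cast_sub h1]
    rfl

theorem zv_zng (x : Z) : zv (zng x) = - zv x := by
  cases x with
  | p n => rfl
  | m n =>
    show (n : ℤ) = - -(n : ℤ)
    rw [neg_neg]

/-- times `i` -/
def iv (a : VA) : VA := fun l => ![-(a l 1), a l 0]

theorem ri_iv (m : ℕ) (a : VA) : ri m a = rq m (iv a) := rfl

/-- three digits per entry -/
def P3 (m : ℕ) (Y : VC) : ℤ := ∑ j ∈ range 3, ∑ l ∈ range 3,
  (Y j l 0 + Y j l 1 * BB + Y j l 2 * BB ^ 2) * ((BB ^ (30 * m)) ^ j * (BB ^ (3 * m)) ^ l)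

theorem P3_add (m : ℕ) (X Y : VC) : P3 m (X + Y) = P3 m X + P3 m Y := by
  unfold P3
  rw [← sum_add_distrib]
  refine sum_congr rfl fun j _ => ?_
  rw [← sum_add_distrib]
  refine sum_congr rfl fun l _ => ?_
  show ((X j l 0 + Y j l 0) + (X j l 1 + Y j l 1) * BB + (X j l 2 + Y j l 2) * BB ^ 2) *
    ((BB ^ (30 * m)) ^ j * (BB ^ (3 * m)) ^ l) = _
  ring

theorem P3_sub (m : ℕ) (X Y : VC) : P3 m (X - Y) = P3 m X - P3 m Y := by
  unfold P3
  rw [← sum_sub_distrib]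
  refine sum_congr rfl fun j _ => ?_
  rw [← sum_sub_distrib]
  refine sum_congr rfl fun l _ => ?_
  show ((X j l 0 - Y j l 0) + (X j l 1 - Y j l 1) * BB + (X j l 2 - Y j l 2) * BB ^ 2) *
    ((BB ^ (30 * m)) ^ j * (BB ^ (3 * m)) ^ l) = _
  ring

theorem P3_neg (m : ℕ) (X : VC) : P3 m (-X) = -P3 m X := by
  have h := P3_sub m 0 X
  have h0 : P3 m 0 = 0 := by
    have := P3_sub m 0 0
    rw [sub_self, sub_self] at this
    exact this
  rw [h0, zero_sub, zero_sub] at h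
  exact h

/-- `conj a_j b_l` -/
def cm (a b : VA) : VC := fun j l =>
  ![a j 0 * b l 0, a j 0 * b l 1 - a j 1 * b l 0, -(a j 1 * b l 1)]

theorem P3_cm (m : ℕ) (a b : VA) : P3 m (cm a b) = rp30 m a * rq m b := by
  unfold P3 rp30 rq
  rw [sum_mul_sum]
  refine sum_congr rfl fun j _ => sum_congr rfl fun l _ => ?_
  show (a j 0 * b l 0 + (a j 0 * b l 1 - a j 1 * b l 0) * BB + -(a j 1 * b l 1) * BB ^ 2) *
    ((BB ^ (30 * m)) ^ j * (BB ^ (3 * m)) ^ l) = _
  ring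

/-- two digits from three -/
def dV (Y : VC) : VF := fun j l => ![Y j l 0 - Y j l 2, Y j l 1]

theorem ef_cm (j l : ℕ) (a b : VA) : ef j l (dV (cm a b)) = evc j a * ev l b := by
  rw [ef_apply, evc_apply, ev_apply]
  apply Complex.ext
  · show ((a j 0 * b l 0 - -(a j 1 * b l 1) : ℤ) : ℝ) = (a j 0 : ℝ) * b l 0 - -(a j 1 : ℝ) * b l 1
    push_cast
    ring
  · show ((a j 0 * b l 1 - a j 1 * b l 0 : ℤ) : ℝ) = (a j 0 : ℝ) * b l 1 + -(a j 1 : ℝ) * b l 0
    rw [Int.cast_sub, Int.cast_mul, Int.cast_mul]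
    ring

theorem dV_add (X Y : VC) : dV (X + Y) = dV X + dV Y := by
  funext j l e
  fin_cases e
  · show (X j l 0 + Y j l 0) - (X j l 2 + Y j l 2) = (X j l 0 - X j l 2) + (Y j l 0 - Y j l 2)
    ring
  · rfl

theorem dV_sub (X Y : VC) : dV (X - Y) = dV X - dV Y := by
  funext j l e
  fin_cases e
  · show (X j l 0 - Y j l 0) - (X j l 2 - Y j l 2) = (X j l 0 - X j l 2) - (Y j l 0 - Y j l 2)
    ring
  · rfl

theorem dV_neg (X : VC) : dV (-X) = -dV X := by
  funext j l e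
  fin_cases e
  · show -X j l 0 - -X j l 2 = -(X j l 0 - X j l 2)
    ring
  · rfl

theorem ev_iv (l : ℕ) (b : VA) : ev l (iv b) = Complex.I * ev l b := by
  rw [ev_apply, ev_apply]
  apply Complex.ext
  · show ((-(b l 1) : ℤ) : ℝ) = 0 * (b l 0 : ℝ) - 1 * (b l 1 : ℝ)
    push_cast
    ring
  · show ((b l 0 : ℤ) : ℝ) = 0 * (b l 1 : ℝ) + 1 * (b l 0 : ℝ)
    ring

/-! ### digits -/

/-- the digit `k` is in use -/
def us (m k : ℕ) : Bool := decide (k % (30 * m) / (3 * m) < 3) && decide (k % (3 * m) < 3)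
def us0 (m k : ℕ) : Bool := decide (k % (30 * m) / (3 * m) < 3) && decide (k % (3 * m) = 0)
def us1 (m k : ℕ) : Bool := decide (k % (30 * m) / (3 * m) < 3) && decide (k % (3 * m) = 1)

/-- digit numbers -/
def g3 (r : ℕ) : Fin 3 := if r = 0 then 0 else if r = 1 then 1 else 2
def g2 (r : ℕ) : Fin 2 := if r = 0 then 0 else 1

def d3 (m : ℕ) (Y : VC) (k : ℕ) : ℤ :=
  if us m k = true then Y (k / (30 * m)) (k % (30 * m) / (3 * m)) (g3 (k % (3 * m))) else 0
def d2 (m : ℕ) (X : VF) (k : ℕ) : ℤ :=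
  if us0 m k = true ∨ us1 m k = true then
    X (k / (30 * m)) (k % (30 * m) / (3 * m)) (g2 (k % (3 * m))) else 0

theorem sum_cut (f : ℕ → ℤ) (a b : ℕ) (h : ∀ i, a ≤ i → i < a + b → f i = 0) :
    ∑ i ∈ range (a + b), f i = ∑ i ∈ range a, f i := by
  rw [sum_range_add, sum_eq_zero (s := range b), add_zero]
  intro i hi
  exact h _ (by omega) (by have := mem_range.1 hi; omega)

theorem P3_pz {m : ℕ} (hm : 1 ≤ m) (Y : VC) : P3 m Y = pz BB (90 * m) (d3 m Y) := by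
  obtain ⟨m', rfl⟩ : ∃ m', m = m' + 1 := ⟨m - 1, by omega⟩
  set m := m' + 1 with hm'
  rw [pz_sum, show 90 * m = 30 * m * 3 by ring, sum_nest]
  unfold P3
  refine sum_congr rfl fun j _ => ?_
  rw [show 30 * m = 3 * m * 10 by ring, sum_nest]
  have h10 : ∀ l, 3 ≤ l → l < 3 + 7 → (∑ b ∈ range (3 * m), d3 m Y (3 * m * 10 * j + (3 * m * l + b)) *
      BB ^ (3 * m * 10 * j + (3 * m * l + b))) = 0 := by
    intro l hl hl'
    refine sum_eq_zero fun b hb => ?_
    have hb' := mem_range.1 hb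
    have h1 : (3 * m * 10 * j + (3 * m * l + b)) % (30 * m) / (3 * m) = l := by
      have e1 : (3 * m * 10 * j + (3 * m * l + b)) = (3 * m * l + b) + 30 * m * j := by ring
      have h2 : 3 * m * l + b < 30 * m := by
        have : 3 * m * l + 3 * m ≤ 3 * m * 10 := by
          have := Nat.mul_le_mul_left (3 * m) (show l + 1 ≤ 10 by omega)
          linarith
        omega
      rw [e1, Nat.add_mul_mod_self_left, Nat.mod_eq_of_lt h2, Nat.mul_add_div (by omega),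
        Nat.div_eq_of_lt hb', Nat.add_zero]
    unfold d3 us
    rw [h1, if_neg (by
      intro hh
      rw [Bool.and_eq_true, decide_eq_true_eq] at hh
      omega), zero_mul]
  rw [show range 10 = range (3 + 7) from rfl, sum_cut _ 3 7 h10]
  refine sum_congr rfl fun l hl => ?_
  have hl3 := mem_range.1 hl
  have hpos : ∀ b, b < 3 * m → (3 * m * 10 * j + (3 * m * l + b)) / (30 * m) = j ∧
      (3 * m * 10 * j + (3 * m * l + b)) % (30 * m) / (3 * m) = l ∧
      (3 * m * 10 * j + (3 * m * l + b)) % (3 * m) = b := by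
    intro b hb'
    have e1 : (3 * m * 10 * j + (3 * m * l + b)) = (3 * m * l + b) + 30 * m * j := by ring
    have h2 : 3 * m * l + b < 30 * m := by
      have : 3 * m * l + 3 * m ≤ 3 * m * 10 := by
        have := Nat.mul_le_mul_left (3 * m) (show l + 1 ≤ 10 by omega)
        linarith
      omega
    refine ⟨?_, ?_, ?_⟩
    · rw [e1, Nat.add_mul_div_left _ _ (by omega), Nat.div_eq_of_lt h2, Nat.zero_add]
    · rw [e1, Nat.add_mul_mod_self_left, Nat.mod_eq_of_lt h2, Nat.mul_add_div (by omega),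
        Nat.div_eq_of_lt hb', Nat.add_zero]
    · rw [show (3 * m * 10 * j + (3 * m * l + b)) = b + 3 * m * (10 * j + l) by ring,
        Nat.add_mul_mod_self_left, Nat.mod_eq_of_lt hb']
  have hcut : ∀ b, 3 ≤ b → b < 3 + 3 * m' → d3 m Y (3 * m * 10 * j + (3 * m * l + b)) *
      BB ^ (3 * m * 10 * j + (3 * m * l + b)) = 0 := by
    intro b hb hb'
    obtain ⟨h1, h2, h3⟩ := hpos b (by omega)
    unfold d3 us
    rw [h3, if_neg (by
      intro hh
      rw [Bool.and_eq_true, decide_eq_true_eq, decide_eq_true_eq] at hh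
      omega), zero_mul]
  rw [show range (3 * m) = range (3 + 3 * m') by congr 1; omega, sum_cut _ 3 (3 * m') hcut]
  have hd : ∀ b, b < 3 → d3 m Y (3 * m * 10 * j + (3 * m * l + b)) = Y j l (g3 b) := by
    intro b hb
    obtain ⟨h1, h2, h3⟩ := hpos b (by omega)
    unfold d3 us
    rw [h1, h2, h3, if_pos (by
      rw [Bool.and_eq_true, decide_eq_true_eq, decide_eq_true_eq]
      exact ⟨hl3, hb⟩)]
  rw [sum_range_succ, sum_range_succ, sum_range_succ, sum_range_zero, zero_add,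
    hd 0 (by norm_num), hd 1 (by norm_num), hd 2 (by norm_num)]
  have g0 : g3 0 = 0 := rfl
  have g1 : g3 1 = 1 := rfl
  have g2' : g3 2 = 2 := rfl
  rw [g0, g1, g2']
  have ep : ∀ b, BB ^ (3 * m * 10 * j + (3 * m * l + b)) =
      (BB ^ (30 * m)) ^ j * (BB ^ (3 * m)) ^ l * BB ^ b := by
    intro b
    rw [← pow_mul, ← pow_mul, ← pow_add, ← pow_add]
    congr 1
    ring
  rw [ep, ep, ep, pow_zero, pow_one, show 3 * m * 10 = 30 * m by ring]
  ring

theorem PF_P3 (m : ℕ) (X : VF) : PF m X = P3 m (fun j l => ![X j l 0, X j l 1, 0]) := by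
  unfold PF P3
  refine sum_congr rfl fun j _ => sum_congr rfl fun l _ => ?_
  show _ = (X j l 0 + X j l 1 * BB + 0 * BB ^ 2) * ((BB ^ (30 * m)) ^ j * (BB ^ (3 * m)) ^ l)
  ring

theorem us_iff {m k : ℕ} : us m k = true ↔ k % (30 * m) / (3 * m) < 3 ∧ k % (3 * m) < 3 := by
  unfold us
  rw [Bool.and_eq_true, decide_eq_true_eq, decide_eq_true_eq]
theorem us0_iff {m k : ℕ} : us0 m k = true ↔ k % (30 * m) / (3 * m) < 3 ∧ k % (3 * m) = 0 := by
  unfold us0
  rw [Bool.and_eq_true, decide_eq_true_eq, decide_eq_true_eq]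
theorem us1_iff {m k : ℕ} : us1 m k = true ↔ k % (30 * m) / (3 * m) < 3 ∧ k % (3 * m) = 1 := by
  unfold us1
  rw [Bool.and_eq_true, decide_eq_true_eq, decide_eq_true_eq]

theorem us_of {m k : ℕ} (h : us0 m k = true ∨ us1 m k = true) : us m k = true := by
  rw [us_iff]
  rcases h with h | h
  · rw [us0_iff] at h
    exact ⟨h.1, by omega⟩
  · rw [us1_iff] at h
    exact ⟨h.1, by omega⟩

theorem us_two {m k : ℕ} (h : us m k = true) (h' : ¬ (us0 m k = true ∨ us1 m k = true)) :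
    k % (3 * m) = 2 := by
  rw [us_iff] at h
  rw [us0_iff, us1_iff] at h'
  by_contra hc
  apply h'
  have : k % (3 * m) = 0 ∨ k % (3 * m) = 1 := by omega
  rcases this with h3 | h3
  · exact Or.inl ⟨h.1, h3⟩
  · exact Or.inr ⟨h.1, h3⟩

theorem PF_pz {m : ℕ} (hm : 1 ≤ m) (X : VF) : PF m X = pz BB (90 * m) (d2 m X) := by
  rw [PF_P3, P3_pz hm]
  refine pz_congr _ _ _ _ fun k _ => ?_
  unfold d3 d2
  by_cases h : us0 m k = true ∨ us1 m k = true
  · rw [if_pos h, if_pos (us_of h)]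
    rcases h with h | h
    · rw [(us0_iff.1 h).2]
      rfl
    · rw [(us1_iff.1 h).2]
      rfl
  · rw [if_neg h]
    by_cases h' : us m k = true
    · rw [if_pos h', us_two h' h]
      rfl
    · rw [if_neg h']


/-! ### the constants of a layout -/

structure LcL (m : ℕ) (L : Lc) : Prop where
  hm : 1 ≤ m
  OF : L.OF = pk (2 ^ 128) (90 * m) (fun k => if us m k = true then 2 ^ 44 else 0)
  MF : L.MF = pk (2 ^ 128) (90 * m)
    (fun k => if us0 m k = true ∨ us1 m k = true then 2 ^ 128 - 1 else 0)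
  MG : L.MG = pk (2 ^ 128) (90 * m) (fun k => if us0 m k = true then 2 ^ 128 - 1 else 0)
  CF : L.CF = pk (2 ^ 128) (90 * m) (fun k => if us0 m k = true then 2 ^ 44 else 0)
  OG : L.OG = pk (2 ^ 128) (90 * m)
    (fun k => if us0 m k = true ∨ us1 m k = true then 2 ^ 44 else 0)
  OC : L.OC = pk (2 ^ 128) (90 * m)
    (fun k => if us0 m k = true ∨ us1 m k = true then 2 ^ 100 + 2 ^ 52 else 0)

theorem LcL1 : LcL 1 Lc1 := by
  constructor
  · norm_num
  all_goals decide +kernel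

theorem LcL3 : LcL 3 Lc3 := by
  constructor
  · norm_num
  all_goals decide +kernel

theorem LcL.OGz {m : ℕ} {L : Lc} (h : LcL m L) : (L.OG : ℤ) =
    pz BB (90 * m) (fun k => if us0 m k = true ∨ us1 m k = true then 2 ^ 44 else 0) := by
  rw [h.OG, pk_cast]
  have e : (((2 : ℕ) ^ 128 : ℕ) : ℤ) = BB := by rw [BB_eq]; push_cast
  rw [e]
  refine pz_congr _ _ _ _ fun k _ => ?_
  by_cases h : us0 m k = true ∨ us1 m k = true
  · rw [if_pos h, if_pos h]; push_cast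
  · rw [if_neg h, if_neg h]; rfl

theorem LcL.OCz {m : ℕ} {L : Lc} (h : LcL m L) : (L.OC : ℤ) =
    pz BB (90 * m) (fun k => if us0 m k = true ∨ us1 m k = true then 2 ^ 100 + 2 ^ 52 else 0) := by
  rw [h.OC, pk_cast]
  have e : (((2 : ℕ) ^ 128 : ℕ) : ℤ) = BB := by rw [BB_eq]; push_cast
  rw [e]
  refine pz_congr _ _ _ _ fun k _ => ?_
  by_cases h : us0 m k = true ∨ us1 m k = true
  · rw [if_pos h, if_pos h]; push_cast
  · rw [if_neg h, if_neg h]; rfl

theorem pz_nonneg {b : ℤ} (hb : 0 ≤ b) : ∀ (n : ℕ) (f : ℕ → ℤ), (∀ k < n, 0 ≤ f k) → 0 ≤ pz b n f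
  | 0, _, _ => le_rfl
  | n + 1, f, h => by
    rw [pz_succ]
    have h1 := pz_nonneg hb n (fun i => f (i + 1)) (fun k hk => h (k + 1) (by omega))
    have h0 := h 0 (by omega)
    have := mul_nonneg hb h1
    linarith

theorem BB_nonneg : (0 : ℤ) ≤ BB := by rw [BB_eq]; positivity

/-- digits in use of the number `k` -/
theorem us_jl {m k : ℕ} (hm : 1 ≤ m) (hk : k < 90 * m) (h : us m k = true) :
    k / (30 * m) < 3 ∧ k % (30 * m) / (3 * m) < 3 := by
  refine ⟨?_, (us_iff.1 h).1⟩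
  rw [Nat.div_lt_iff_lt_mul (by omega)]
  have : 3 * (30 * m) = 90 * m := by ring
  omega

/-- DECODING -/
theorem bP_ok {m : ℕ} {L : Lc} (h : LcL m L) {x : Z} {Y : VC} (hx : zv x = P3 m Y)
    (hY : ∀ j < 3, ∀ l < 3, ∀ e, |Y j l e| ≤ 2 ^ 43) :
    ((bP L x : ℕ) : ℤ) = (L.OG : ℤ) + PF m (dV Y) := by
  have hm := h.hm
  have n44 : (2 : ℤ) ^ 44 = 2 ^ 43 + 2 ^ 43 := by norm_num
  have eB : (((2 : ℕ) ^ 128 : ℕ) : ℤ) = BB := by rw [BB_eq]; push_cast
  -- digits of `Y`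
  have hd : ∀ k < 90 * m, us m k = true → |d3 m Y k| ≤ 2 ^ 43 := by
    intro k hk hu
    obtain ⟨h1, h2⟩ := us_jl hm hk hu
    unfold d3
    rw [if_pos hu]
    exact hY _ h1 _ h2 _
  -- the natural digits
  set f : ℕ → ℕ := fun k => if us m k = true then (2 ^ 44 + d3 m Y k).toNat else 0 with hf
  have fz : ∀ k < 90 * m, us m k = true → ((f k : ℕ) : ℤ) = 2 ^ 44 + d3 m Y k := by
    intro k hk hu
    have h1 := abs_le.1 (hd k hk hu)
    show (((if us m k = true then (2 ^ 44 + d3 m Y k).toNat else 0) : ℕ) : ℤ) = _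
    rw [if_pos hu, Int.toNat_of_nonneg (by linarith [h1.1])]
  have f0 : ∀ k, ¬ us m k = true → f k = 0 := fun k hu => if_neg hu
  have fle : ∀ k < 90 * m, f k ≤ 2 ^ 44 + 2 ^ 43 := by
    intro k hk
    by_cases hu : us m k = true
    · have h1 := abs_le.1 (hd k hk hu)
      have h2 := fz k hk hu
      have h3 : ((f k : ℕ) : ℤ) ≤ 2 ^ 44 + 2 ^ 43 := by rw [h2]; linarith [h1.2]
      exact_mod_cast h3
    · rw [f0 k hu]; positivity
  have hzf : (zoff L.OF x : ℕ) = pk (2 ^ 128) (90 * m) f := by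
    have e1 : (L.OF : ℤ) = pz BB (90 * m) (fun k => if us m k = true then 2 ^ 44 else 0) := by
      rw [h.OF, pk_cast, eB]
      refine pz_congr _ _ _ _ fun k _ => ?_
      by_cases h : us m k = true
      · rw [if_pos h, if_pos h]; push_cast
      · rw [if_neg h, if_neg h]; rfl
    have e2 : (L.OF : ℤ) + zv x = ((pk (2 ^ 128) (90 * m) f : ℕ) : ℤ) := by
      rw [e1, hx, P3_pz hm, pz_add, pk_cast, eB]
      refine pz_congr _ _ _ _ fun k hk => ?_
      by_cases hu : us m k = true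
      · rw [if_pos hu, fz k hk hu]
      · rw [if_neg hu, f0 k hu]
        unfold d3
        rw [if_neg hu]
        rfl
    have e3 : ((zoff L.OF x : ℕ) : ℤ) = (L.OF : ℤ) + zv x :=
      zoff_cast (by rw [e2]; exact Int.natCast_nonneg _)
    rw [e2] at e3
    exact_mod_cast e3
  -- positions of the digits
  have pos : ∀ k < 90 * m, us0 m k = true → k + 2 < 90 * m ∧ us m (k + 2) = true ∧
      (k + 2) / (30 * m) = k / (30 * m) ∧
      (k + 2) % (30 * m) / (3 * m) = k % (30 * m) / (3 * m) ∧ (k + 2) % (3 * m) = 2 := by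
    intro k hk hu
    obtain ⟨h1, h2⟩ := us0_iff.1 hu
    -- `k = 30 m j + 3 m l`
    have e1 := Nat.div_add_mod k (30 * m)
    set j := k / (30 * m) with hj
    set r := k % (30 * m) with hr
    have hr30 : r < 30 * m := Nat.mod_lt _ (by omega)
    have e2 : r % (3 * m) = 0 := by
      have : k % (3 * m) = r % (3 * m) := by
        rw [hr, show 30 * m = 3 * m * 10 by ring, Nat.mod_mul_right_mod]
      omega
    have e3 := Nat.div_add_mod r (3 * m)
    rw [e2, Nat.add_zero] at e3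
    set l := r / (3 * m) with hl
    have hj3 : j < 3 := by
      rw [hj, Nat.div_lt_iff_lt_mul (by omega)]
      have : 3 * (30 * m) = 90 * m := by ring
      omega
    have hlr : 3 * m * l ≤ 6 * m := by
      have := Nat.mul_le_mul_left (3 * m) (show l ≤ 2 by omega)
      have e : 3 * m * 2 = 6 * m := by ring
      omega
    have hr2 : r + 2 < 30 * m := by omega
    have k1 : (k + 2) / (30 * m) = j := by
      have : k + 2 = (r + 2) + 30 * m * j := by omega
      rw [this, Nat.add_mul_div_left _ _ (by omega), Nat.div_eq_of_lt hr2, Nat.zero_add]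
    have k2 : (k + 2) % (30 * m) = r + 2 := by
      have : k + 2 = (r + 2) + 30 * m * j := by omega
      rw [this, Nat.add_mul_mod_self_left, Nat.mod_eq_of_lt hr2]
    have k3 : (r + 2) / (3 * m) = l := by
      rw [show r + 2 = 2 + 3 * m * l by omega, Nat.add_mul_div_left _ _ (by omega),
        Nat.div_eq_of_lt (by omega), Nat.zero_add]
    have k4 : (k + 2) % (3 * m) = 2 := by
      have : k + 2 = 2 + 3 * m * (10 * j + l) := by
        have : 3 * m * (10 * j + l) = 30 * m * j + 3 * m * l := by ring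
        omega
      rw [this, Nat.add_mul_mod_self_left, Nat.mod_eq_of_lt (by omega)]
    refine ⟨?_, ?_, k1, by rw [k2, k3], k4⟩
    · have : 30 * m * j ≤ 60 * m := by
        have := Nat.mul_le_mul_left (30 * m) (show j ≤ 2 by omega)
        have e : 30 * m * 2 = 60 * m := by ring
        omega
      omega
    · rw [us_iff, k2, k3, k4]
      exact ⟨h1, by norm_num⟩
  have dec1 := Pool.Agent.Helper90.DG.decode (n := 90 * m) (f := f)
    (c := fun k => if us0 m k = true then 2 ^ 44 else 0) (e0 := us0 m) (e1 := us1 m)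
    hzf h.MF h.MG h.CF
    (fun k _ hu => if_neg (fun h2 => hu (Or.inl h2)))
    (fun k hk => lt_of_le_of_lt (fle k hk) (by norm_num))
    (fun k hk hu => (pos k hk hu).1)
    (fun k hk hu => by
      obtain ⟨p1, p2, _⟩ := pos k hk hu
      have a1 := fle (k + 2) p1
      have u0 : us m k = true := us_of (Or.inl hu)
      have a2 := fz k hk u0
      have a3 := abs_le.1 (hd k hk u0)
      have a4 : (2 : ℤ) ^ 43 ≤ (f k : ℤ) := by rw [a2]; linarith [a3.1]
      have a5 : 2 ^ 43 ≤ f k := by exact_mod_cast a4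
      show f (k + 2) ≤ f k + (if us0 m k = true then 2 ^ 44 else 0)
      rw [if_pos hu]
      omega)
  have e4 : (bP L x : ℕ) = pk (2 ^ 128) (90 * m) (fun k => if us0 m k = true then
      f k + (if us0 m k = true then 2 ^ 44 else 0) - f (k + 2)
        else if us1 m k = true then f k + (if us0 m k = true then 2 ^ 44 else 0) else 0) := dec1
  rw [e4, pk_cast, eB, h.OGz, PF_pz hm, pz_add]
  refine pz_congr _ _ _ _ fun k hk => ?_
  by_cases h0 : us0 m k = true
  · have u0 : us m k = true := us_of (Or.inl h0)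
    obtain ⟨p1, p2, p3, p4, p5⟩ := pos k hk h0
    rw [if_pos h0, if_pos h0, if_pos (Or.inl h0)]
    have a2 := fz k hk u0
    have a2' := fz (k + 2) p1 p2
    have a3 := abs_le.1 (hd k hk u0)
    have a4 := abs_le.1 (hd (k + 2) p1 p2)
    have hle : f (k + 2) ≤ f k + 2 ^ 44 := by
      have : ((f (k + 2) : ℕ) : ℤ) ≤ ((f k + 2 ^ 44 : ℕ) : ℤ) := by
        push_cast
        rw [a2, a2']
        linarith [a3.1, a4.2]
      exact_mod_cast this
    rw [Nat.cast_sub hle]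
    push_cast
    rw [a2, a2']
    unfold d2 d3
    rw [if_pos u0, if_pos p2, if_pos (Or.inl h0), p3, p4, p5, (us0_iff.1 h0).2]
    show 2 ^ 44 + Y _ _ 0 + 2 ^ 44 - (2 ^ 44 + Y _ _ 2) = 2 ^ 44 + (Y _ _ 0 - Y _ _ 2)
    ring
  · by_cases h1 : us1 m k = true
    · have u0 : us m k = true := us_of (Or.inr h1)
      rw [if_neg h0, if_pos h1, if_neg h0, if_pos (Or.inr h1), Nat.add_zero, fz k hk u0]
      unfold d2 d3
      rw [if_pos u0, if_pos (Or.inr h1), (us1_iff.1 h1).2]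
      rfl
    · have hn : ¬ (us0 m k = true ∨ us1 m k = true) := by
        intro h2
        rcases h2 with h2 | h2
        · exact h0 h2
        · exact h1 h2
      rw [if_neg h0, if_neg h1, if_neg hn]
      unfold d2
      rw [if_neg hn]
      rfl

/-! ### linear combinations -/

theorem PF_add (m : ℕ) (X Y : VF) : PF m (X + Y) = PF m X + PF m Y := by
  unfold PF
  rw [← sum_add_distrib]
  refine sum_congr rfl fun j _ => ?_
  rw [← sum_add_distrib]
  refine sum_congr rfl fun l _ => ?_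
  show ((X j l 0 + Y j l 0) + (X j l 1 + Y j l 1) * BB) *
    ((BB ^ (30 * m)) ^ j * (BB ^ (3 * m)) ^ l) = _
  ring

theorem PF_smul (m : ℕ) (c : ℤ) (X : VF) : PF m (c • X) = c * PF m X := by
  unfold PF
  rw [mul_sum]
  refine sum_congr rfl fun j _ => ?_
  rw [mul_sum]
  refine sum_congr rfl fun l _ => ?_
  show ((c * X j l 0) + (c * X j l 1) * BB) * ((BB ^ (30 * m)) ^ j * (BB ^ (3 * m)) ^ l) = _
  ring

/-- a form with small digits and the offset is not negative -/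
theorem OC_nonneg {m : ℕ} {L : Lc} (h : LcL m L) {X : VF}
    (hX : ∀ j < 3, ∀ l < 3, ∀ e, |X j l e| ≤ 2 ^ 80) : 0 ≤ (L.OC : ℤ) + PF m X := by
  rw [h.OCz, PF_pz h.hm, pz_add]
  refine pz_nonneg BB_nonneg _ _ fun k hk => ?_
  show 0 ≤ (if us0 m k = true ∨ us1 m k = true then (2 : ℤ) ^ 100 + 2 ^ 52 else 0) + d2 m X k
  unfold d2
  by_cases hu : us0 m k = true ∨ us1 m k = true
  · rw [if_pos hu, if_pos hu]
    obtain ⟨h1, h2⟩ := us_jl h.hm hk (us_of hu)
    have := abs_le.1 (hX _ h1 _ h2 (g2 (k % (3 * m))))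
    have e : (2 : ℤ) ^ 80 ≤ 2 ^ 100 + 2 ^ 52 := by norm_num
    linarith [this.1]
  · rw [if_neg hu, if_neg hu, add_zero]

/-- fields of a table of forms, centred -/
def fT (T : ℕ) (k : ℕ) : ℤ := (u24 T (24 * k) : ℤ) - 2 ^ 23

theorem fT_bd (T k : ℕ) : |fT T k| ≤ 2 ^ 23 := by
  have h1 : u24 T (24 * k) < 2 ^ 24 := Nat.mod_lt _ (by norm_num)
  have h2 : (u24 T (24 * k) : ℤ) < 2 ^ 24 := by exact_mod_cast h1
  have h3 : (0 : ℤ) ≤ u24 T (24 * k) := Int.natCast_nonneg _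
  have h4 : (2 : ℤ) ^ 24 = 2 ^ 23 + 2 ^ 23 := by norm_num
  unfold fT
  rw [abs_le]
  constructor <;> linarith

/-- the sum of the basis forms -/
def sY (T : ℕ) (Y : ℕ → VF) : VF := ∑ k ∈ range 9, fT T k • Y k

theorem PF_sum (m n : ℕ) (X : ℕ → VF) : PF m (∑ k ∈ range n, X k) = ∑ k ∈ range n, PF m (X k) := by
  induction n with
  | zero =>
    rw [sum_range_zero, sum_range_zero]
    unfold PF
    refine sum_eq_zero fun j _ => sum_eq_zero fun l _ => ?_
    show ((0 : ℤ) + 0 * BB) * _ = 0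
    ring
  | succ n ih => rw [sum_range_succ, sum_range_succ, PF_add, ih]

theorem VF_sum (n : ℕ) (X : ℕ → VF) (j l : ℕ) (e : Fin 2) :
    (∑ k ∈ range n, X k) j l e = ∑ k ∈ range n, X k j l e := by
  induction n with
  | zero => rw [sum_range_zero, sum_range_zero]; rfl
  | succ n ih => rw [sum_range_succ, sum_range_succ, ← ih]; rfl

theorem sY_bd {T : ℕ} {Y : ℕ → VF} (hY : ∀ k < 9, ∀ j < 3, ∀ l < 3, ∀ e, |Y k j l e| ≤ 2 ^ 42) :
    ∀ j < 3, ∀ l < 3, ∀ e, |sY T Y j l e| ≤ 2 ^ 80 := by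
  intro j hj l hl e
  unfold sY
  rw [VF_sum]
  refine (Finset.abs_sum_le_sum_abs _ _).trans ?_
  have h1 : ∀ k ∈ range 9, |(fT T k • Y k) j l e| ≤ 2 ^ 65 := by
    intro k hk
    show |fT T k * Y k j l e| ≤ _
    rw [abs_mul]
    calc |fT T k| * |Y k j l e| ≤ 2 ^ 23 * 2 ^ 42 :=
          mul_le_mul (fT_bd T k) (hY k (mem_range.1 hk) j hj l hl e) (abs_nonneg _) (by norm_num)
      _ = 2 ^ 65 := by norm_num
  refine (Finset.sum_le_sum h1).trans ?_
  rw [sum_const, card_range]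
  norm_num

/-- the kernel function -/
def kEc (L : Lc) (S : ℕ) : ℕ :=
  Nat.sub (Nat.add L.OC (Nat.mul (nat_lit 75497472) L.OG)) (Nat.shiftLeft S (nat_lit 23))

theorem kE_eq (L : Lc) (b0 b1 b2 b3 b4 b5 b6 b7 b8 T : ℕ) :
    kE L (bs1 L b0 b1 b2 b3 b4 b5 b6 b7 b8) (mkUt T) =
      Nat.sub (Nat.add (ad9 (Nat.mul (u24 T (nat_lit 0)) b0) (Nat.mul (u24 T (nat_lit 24)) b1)
        (Nat.mul (u24 T (nat_lit 48)) b2) (Nat.mul (u24 T (nat_lit 72)) b3)
        (Nat.mul (u24 T (nat_lit 96)) b4) (Nat.mul (u24 T (nat_lit 120)) b5)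
        (Nat.mul (u24 T (nat_lit 144)) b6) (Nat.mul (u24 T (nat_lit 168)) b7)
        (Nat.mul (u24 T (nat_lit 192)) b8)) (kEc L (ad9 b0 b1 b2 b3 b4 b5 b6 b7 b8)))
        (Nat.mul (ad9 (u24 T (nat_lit 0)) (u24 T (nat_lit 24)) (u24 T (nat_lit 48))
          (u24 T (nat_lit 72)) (u24 T (nat_lit 96)) (u24 T (nat_lit 120)) (u24 T (nat_lit 144))
          (u24 T (nat_lit 168)) (u24 T (nat_lit 192))) L.OG) := by
  dsimp only [kE, bs1, mkUt, ut1, kEc]

theorem ad9_z (a b c d e f g h i : ℕ) : ((ad9 a b c d e f g h i : ℕ) : ℤ) =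
    a + (b + (c + (d + (e + (f + (g + (h + i))))))) := by
  show (((a + (b + (c + (d + (e + (f + (g + (h + i)))))))) : ℕ) : ℤ) = _
  push_cast
  ring

theorem sub_z (p q : ℕ) (h : 0 ≤ (p : ℤ) - (q : ℤ)) : ((Nat.sub p q : ℕ) : ℤ) = (p : ℤ) - q := by
  have : q ≤ p := by
    have : (q : ℤ) ≤ p := by linarith
    exact_mod_cast this
  exact Nat.cast_sub this
theorem add_z (p q : ℕ) : ((Nat.add p q : ℕ) : ℤ) = (p : ℤ) + q := Nat.cast_add p q
theorem mul_z (p q : ℕ) : ((Nat.mul p q : ℕ) : ℤ) = (p : ℤ) * q := Nat.cast_mul p q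

theorem kEc_ok {m : ℕ} {L : Lc} (h : LcL m L) {S : ℕ} {X : VF}
    (hS : (S : ℤ) = 9 * (L.OG : ℤ) + PF m X)
    (hX : ∀ j < 3, ∀ l < 3, ∀ e, |X j l e| ≤ 9 * 2 ^ 42) :
    ((kEc L S : ℕ) : ℤ) = (L.OC : ℤ) - 2 ^ 23 * PF m X := by
  have c2 : 0 ≤ (L.OC : ℤ) + PF m ((-(2 ^ 23) : ℤ) • X) := by
    refine OC_nonneg h fun j hj l hl e => ?_
    show |(-(2 ^ 23) : ℤ) * X j l e| ≤ _
    have h2 : |(-(2 ^ 23) : ℤ)| = 2 ^ 23 := by norm_num
    rw [abs_mul, h2]
    calc (2 : ℤ) ^ 23 * |X j l e| ≤ 2 ^ 23 * (9 * 2 ^ 42) :=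
          mul_le_mul_of_nonneg_left (hX j hj l hl e) (by norm_num)
      _ ≤ 2 ^ 80 := by norm_num
  rw [PF_smul] at c2
  have e1 : ((Nat.shiftLeft S (nat_lit 23) : ℕ) : ℤ) = S * 2 ^ 23 := by
    show ((S <<< 23 : ℕ) : ℤ) = _
    rw [Nat.shiftLeft_eq]
    push_cast
    rfl
  have e2 : ((nat_lit 75497472 : ℕ) : ℤ) = 75497472 := rfl
  unfold kEc
  rw [sub_z, add_z, mul_z, e1, e2, hS]
  · ring
  · rw [add_z, mul_z, e1, e2, hS]
    linarith

/-- THE SUM OF THE BASIS FORMS -/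
theorem kE_ok {m : ℕ} {L : Lc} (h : LcL m L) (b : ℕ → ℕ) (Y : ℕ → VF)
    (hb : ∀ k < 9, ((b k : ℕ) : ℤ) = (L.OG : ℤ) + PF m (Y k))
    (hY : ∀ k < 9, ∀ j < 3, ∀ l < 3, ∀ e, |Y k j l e| ≤ 2 ^ 42) (T : ℕ) :
    ((kE L (bs1 L (b 0) (b 1) (b 2) (b 3) (b 4) (b 5) (b 6) (b 7) (b 8)) (mkUt T) : ℕ) : ℤ) =
      (L.OC : ℤ) + PF m (sY T Y) := by
  have b0 := hb 0 (by norm_num)
  have b1 := hb 1 (by norm_num)
  have b2 := hb 2 (by norm_num)
  have b3 := hb 3 (by norm_num)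
  have b4 := hb 4 (by norm_num)
  have b5 := hb 5 (by norm_num)
  have b6 := hb 6 (by norm_num)
  have b7 := hb 7 (by norm_num)
  have b8 := hb 8 (by norm_num)
  have e4 : PF m (sY T Y) = ∑ k ∈ range 9, fT T k * PF m (Y k) := by
    unfold sY
    rw [PF_sum]
    exact Finset.sum_congr rfl fun k _ => PF_smul _ _ _
  have x0 : (u24 T (nat_lit 0) : ℤ) = fT T 0 + 2 ^ 23 := by unfold fT; ring
  have x1 : (u24 T (nat_lit 24) : ℤ) = fT T 1 + 2 ^ 23 := by unfold fT; ring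
  have x2 : (u24 T (nat_lit 48) : ℤ) = fT T 2 + 2 ^ 23 := by unfold fT; ring
  have x3 : (u24 T (nat_lit 72) : ℤ) = fT T 3 + 2 ^ 23 := by unfold fT; ring
  have x4 : (u24 T (nat_lit 96) : ℤ) = fT T 4 + 2 ^ 23 := by unfold fT; ring
  have x5 : (u24 T (nat_lit 120) : ℤ) = fT T 5 + 2 ^ 23 := by unfold fT; ring
  have x6 : (u24 T (nat_lit 144) : ℤ) = fT T 6 + 2 ^ 23 := by unfold fT; ring
  have x7 : (u24 T (nat_lit 168) : ℤ) = fT T 7 + 2 ^ 23 := by unfold fT; ring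
  have x8 : (u24 T (nat_lit 192) : ℤ) = fT T 8 + 2 ^ 23 := by unfold fT; ring
  have hS : ((ad9 (b 0) (b 1) (b 2) (b 3) (b 4) (b 5) (b 6) (b 7) (b 8) : ℕ) : ℤ) =
      9 * (L.OG : ℤ) + PF m (∑ k ∈ range 9, Y k) := by
    rw [ad9_z, PF_sum]
    simp only [sum_range_succ, sum_range_zero]
    rw [b0, b1, b2, b3, b4, b5, b6, b7, b8]
    ring
  have hK := kEc_ok h hS (fun j hj l hl e => by
    rw [VF_sum]
    refine (Finset.abs_sum_le_sum_abs _ _).trans ?_
    refine (Finset.sum_le_sum (fun k hk => hY k (mem_range.1 hk) j hj l hl e)).trans ?_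
    rw [sum_const, card_range]
    norm_num)
  have e5 := OC_nonneg h (sY_bd (T := T) hY)
  have key : (((Nat.add (ad9 (Nat.mul (u24 T (nat_lit 0)) (b 0)) (Nat.mul (u24 T (nat_lit 24)) (b 1))
        (Nat.mul (u24 T (nat_lit 48)) (b 2)) (Nat.mul (u24 T (nat_lit 72)) (b 3))
        (Nat.mul (u24 T (nat_lit 96)) (b 4)) (Nat.mul (u24 T (nat_lit 120)) (b 5))
        (Nat.mul (u24 T (nat_lit 144)) (b 6)) (Nat.mul (u24 T (nat_lit 168)) (b 7))
        (Nat.mul (u24 T (nat_lit 192)) (b 8))) (kEc L (ad9 (b 0) (b 1) (b 2) (b 3) (b 4) (b 5) (b 6)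
          (b 7) (b 8))) : ℕ)) : ℤ) -
      ((Nat.mul (ad9 (u24 T (nat_lit 0)) (u24 T (nat_lit 24)) (u24 T (nat_lit 48))
          (u24 T (nat_lit 72)) (u24 T (nat_lit 96)) (u24 T (nat_lit 120)) (u24 T (nat_lit 144))
          (u24 T (nat_lit 168)) (u24 T (nat_lit 192))) L.OG : ℕ) : ℤ) =
      (L.OC : ℤ) + PF m (sY T Y) := by
    rw [add_z, mul_z, hK, e4, ad9_z, ad9_z, PF_sum]
    simp only [mul_z, x0, x1, x2, x3, x4, x5, x6, x7, x8, b0, b1, b2, b3, b4, b5, b6, b7, b8,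
      sum_range_succ, sum_range_zero]
    ring
  rw [kE_eq, sub_z, key]
  rw [key]
  exact e5

/-- the form `J` -/
theorem fmJ_ok {m : ℕ} {L : Lc} (b : ℕ → ℕ) (Y : ℕ → VF)
    (hb : ∀ k < 9, ((b k : ℕ) : ℤ) = (L.OG : ℤ) + PF m (Y k)) :
    RF m (fmJ L (bs1 L (b 0) (b 1) (b 2) (b 3) (b 4) (b 5) (b 6) (b 7) (b 8)))
      (Y 0 + Y 1 - Y 2) := by
  show zv (Z.sub' (b 0 + b 1) (b 2 + L.OG)) = _
  rw [zv_sub', PF_sub, PF_add]
  push_cast
  rw [hb 0 (by norm_num), hb 1 (by norm_num), hb 2 (by norm_num)]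
  ring

end Pool.Agent.Helper17.N9
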