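import Pool.Agent.Helper17.N9.N9F1
import Pool.Agent.Helper17.N9.N9FD

/-!
Row K9 of MP_c75db0 (plan W), version 2, row F: packed frames, forms in the frames.
-/

set_option autoImplicit false
set_option exponentiation.threshold 60000
noncomputable section
namespace Pool.Agent.Helper17.N9

open Pool.Agent.Helper86.C75 (Z)
open Pool.Agent.Helper90.KMO (zv)
open Pool.Agent.Helper90.K9 (pz pz_congr)
open Pool.Agent.Helper6.MONO.W2 (Mt J1)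
open Finset Matrix

theorem brg {m : ℕ} {L : Lc} (h : LcL m L) : F1.LcL m L where
  og := by
    rw [h.OGz, PF_pz h.hm]
    rfl
  oc := by
    rw [h.OCz, PF_pz h.hm]
    rfl
  bp := fun x Y hx hY => bP_ok h (x := x) (Y := Y) hx
    (fun j hj l hl e => (hY j hj l hl e).trans (by norm_num))

/-- A FORM OF VECTORS IN THE FRAME: `Y` = digits of `A^* K A` -/
theorem kU_ok (F T : ℕ) : ∃ Y : VF,
    ((kE Lc1 (bsU Lc1 (frU F)) (mkUt T) : ℕ) : ℤ) = (OC1 : ℤ) + PF 1 Y ∧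
    mI Y = (mI (AI F)).conjTranspose * kap T * mI (AI F) ∧
    ∀ i < 3, ∀ j < 3, ∀ e, |Y i j e| ≤ 2 ^ 80 :=
  F1.kU_gen (brg LcL1) (frU_ok F) (AI_bd F) T
/-- A FORM OF COVECTORS IN THE FRAME: `Y` = digits of `A^* J K^t J A` -/
theorem kW_ok (F T : ℕ) : ∃ Y : VF,
    ((kE Lc3 (bsW Lc3 (frW F)) (mkUt T) : ℕ) : ℤ) = (OC3 : ℤ) + PF 3 Y ∧
    mI Y = (mI (AI F)).conjTranspose * cvM (kap T) * mI (AI F) ∧
    ∀ i < 3, ∀ j < 3, ∀ e, |Y i j e| ≤ 2 ^ 80 :=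
  F1.kW_gen (brg LcL3) (frW_ok F) (AI_bd F) T
/-- the form `J` in the frames -/
theorem jU_ok (F : ℕ) : ∃ Y : VF, RF 1 (fmJ Lc1 (bsU Lc1 (frU F))) Y ∧
    mI Y = (mI (AI F)).conjTranspose * J1 * mI (AI F) ∧
    ∀ i < 3, ∀ j < 3, ‖ef i j Y‖ ≤ (sm9 (mkMa F) : ℝ) ^ 2 :=
  F1.jU_gen (brg LcL1) (frU_ok F) (AI_bd F) (mkMa F) (mkMa_ok F)
theorem jW_ok (F : ℕ) : ∃ Y : VF, RF 3 (fmJ Lc3 (bsW Lc3 (frW F))) Y ∧
    mI Y = (mI (AI F)).conjTranspose * J1 * mI (AI F) ∧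
    ∀ i < 3, ∀ j < 3, ‖ef i j Y‖ ≤ (sm9 (mkMa F) : ℝ) ^ 2 :=
  F1.jW_gen (brg LcL3) (frW_ok F) (AI_bd F) (mkMa F) (mkMa_ok F)

end Pool.Agent.Helper17.N9
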