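import Pool.Agent.Helper17.N9.N9B

/-!
Row K9 of MP_c75db0 (plan W), version 2, row G: range of the forms in the frames.
-/

set_option autoImplicit false
set_option exponentiation.threshold 60000
noncomputable section
namespace Pool.Agent.Helper17.N9

open Pool.Agent.Helper86.C75 (Z)
open Pool.Agent.Helper86.CX (Cx andB)
open Pool.Agent.Helper86.CT (N3 Mo)
open Pool.Agent.Helper90.C75 (Vt avg wtT)
open Pool.Agent.Helper90.KMO (zv cz UU)
open Pool.Agent.Helper90.KMT (nlf lf0 TOK PT DL NN)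
open Pool.Agent.Helper90.K9 (G pk pz pk_cast pk_congr pz_congr pz_add pk_inj land_split)
open Pool.Agent.Helper17.K9 (V9)
open Pool.Agent.Helper62.TVM (TV)
open Pool.Agent.Helper6.MONO (V3)
open Pool.Agent.Helper6.MONO.W2 (Mt hr hv J1 NT)
open Finset Matrix

namespace RG9

/-! ### digits of a form -/

/-- position of a real or imaginary part -/
def po (m k : ℕ) : Prop := k % (30 * m) / (3 * m) < 3 ∧ k % (3 * m) < 2

instance (m k : ℕ) : Decidable (po m k) := by unfold po; infer_instance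

/-- the digit number `k` of a form -/
def gF (m : ℕ) (X : VF) (k : ℕ) : ℤ :=
  if po m k then X (k / (30 * m)) (k % (30 * m) / (3 * m)) (if k % (3 * m) = 0 then 0 else 1) else 0

theorem ix {m i l s : ℕ} (hm : m = 1 ∨ m = 3) (hl : l < 10) (hs : s < 3 * m) :
    (30 * m * i + (3 * m * l + s)) / (30 * m) = i ∧
    (30 * m * i + (3 * m * l + s)) % (30 * m) / (3 * m) = l ∧
    (30 * m * i + (3 * m * l + s)) % (3 * m) = s := by
  rcases hm with rfl | rfl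
  · refine ⟨by omega, by omega, by omega⟩
  · refine ⟨by omega, by omega, by omega⟩

theorem gF_0 {m i l : ℕ} (hm : m = 1 ∨ m = 3) (hl : l < 3) (X : VF) :
    gF m X (30 * m * i + (3 * m * l + 0)) = X i l 0 := by
  have h0 : 0 < 3 * m := by rcases hm with rfl | rfl <;> norm_num
  obtain ⟨h1, h2, h3⟩ := ix (i := i) hm (show l < 10 by omega) h0
  have hp : po m (30 * m * i + (3 * m * l + 0)) := by
    unfold po
    rw [h2, h3]
    exact ⟨hl, by norm_num⟩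
  unfold gF
  rw [if_pos hp, h1, h2, h3, if_pos rfl]

theorem gF_1 {m i l : ℕ} (hm : m = 1 ∨ m = 3) (hl : l < 3) (X : VF) :
    gF m X (30 * m * i + (3 * m * l + 1)) = X i l 1 := by
  have h0 : 1 < 3 * m := by rcases hm with rfl | rfl <;> norm_num
  obtain ⟨h1, h2, h3⟩ := ix (i := i) hm (show l < 10 by omega) h0
  have hp : po m (30 * m * i + (3 * m * l + 1)) := by
    unfold po
    rw [h2, h3]
    exact ⟨hl, by norm_num⟩
  unfold gF
  rw [if_pos hp, h1, h2, h3, if_neg (by norm_num)]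

theorem gF_n {m i l s : ℕ} (hm : m = 1 ∨ m = 3) (hl : l < 10) (hs : s < 3 * m)
    (h : ¬ (l < 3 ∧ s < 2)) (X : VF) : gF m X (30 * m * i + (3 * m * l + s)) = 0 := by
  obtain ⟨_, h2, h3⟩ := ix (i := i) hm hl hs
  have hp : ¬ po m (30 * m * i + (3 * m * l + s)) := by
    unfold po
    rw [h2, h3]
    exact h
  unfold gF
  exact if_neg hp

theorem sum_low {n c : ℕ} (hc : c ≤ n) (f : ℕ → ℤ) (h : ∀ s, c ≤ s → s < n → f s = 0) :
    ∑ s ∈ range n, f s = ∑ s ∈ range c, f s := by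
  obtain ⟨d, rfl⟩ := Nat.exists_eq_add_of_le hc
  have e3 : ∑ s ∈ range d, f (c + s) = 0 := sum_eq_zero fun s hs => by
    have h1 := mem_range.1 hs
    exact h _ (by omega) (by omega)
  rw [sum_range_add, e3, add_zero]

theorem PF_pz {m : ℕ} (hm : m = 1 ∨ m = 3) (X : VF) : PF m X = pz BB (30 * m * 3) (gF m X) := by
  have h3m : 2 ≤ 3 * m := by rcases hm with rfl | rfl <;> norm_num
  rw [pz_sum, sum_nest]
  unfold PF
  refine sum_congr rfl fun i _ => ?_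
  rw [show 30 * m = 3 * m * 10 by ring, sum_nest,
    sum_low (show 3 ≤ 10 by norm_num) _ (fun l h h' => sum_eq_zero fun s hs => by
      have h1 := mem_range.1 hs
      have h2 := gF_n (i := i) hm h' h1 (by omega) X
      rw [show 30 * m = 3 * m * 10 by ring] at h2
      rw [h2, zero_mul])]
  refine sum_congr rfl fun l hl => ?_
  have hl' := mem_range.1 hl
  rw [sum_low h3m _ (fun s h h' => by
      have h2 := gF_n (i := i) hm (show l < 10 by omega) h' (by omega) X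
      rw [show 30 * m = 3 * m * 10 by ring] at h2
      rw [h2, zero_mul])]
  have e0 := gF_0 (i := i) hm hl' X
  have e1 := gF_1 (i := i) hm hl' X
  rw [show 30 * m = 3 * m * 10 by ring] at e0 e1
  rw [sum_range_succ, sum_range_succ, sum_range_zero, zero_add, e0, e1, pow_add, pow_add, pow_add,
    pow_add, ← pow_mul, ← pow_mul, pow_zero, pow_one]
  ring

/-! ### the union of the digits -/

/-- all bits of `a` are bits of `b` -/
def Sb (a b : ℕ) : Prop := a &&& b = a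

theorem Sb.trans {a b c : ℕ} (h : Sb a b) (h' : Sb b c) : Sb a c := by
  unfold Sb at *
  rw [← h, Nat.and_assoc, h']

theorem Sb_l (a b : ℕ) : Sb a (a ||| b) := by
  apply Nat.eq_of_testBit_eq
  intro i
  rw [Nat.testBit_and, Nat.testBit_or]
  cases a.testBit i <;> simp

theorem Sb_r (a b : ℕ) : Sb b (a ||| b) := by
  rw [Nat.or_comm]
  exact Sb_l b a

theorem Sb1 (x : Tr ℕ) (i : Fin 3) : Sb ((![x.a, x.c, x.b] : Fin 3 → ℕ) i) (or1 x) := by
  fin_cases i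
  · exact Sb_l _ _
  · exact (Sb_l x.c x.b).trans (Sb_r _ _)
  · exact (Sb_r x.c x.b).trans (Sb_r _ _)

theorem Sb2 (x : Tr (Tr ℕ)) (i : Fin 3) : Sb (or1 ((![x.a, x.c, x.b] : Fin 3 → Tr ℕ) i)) (or2 x) := by
  fin_cases i
  · exact Sb_l _ _
  · exact (Sb_l (or1 x.c) (or1 x.b)).trans (Sb_r _ _)
  · exact (Sb_r (or1 x.c) (or1 x.b)).trans (Sb_r _ _)

theorem Sb3 (x : Tr (Tr (Tr ℕ))) (i : Fin 3) :
    Sb (or2 ((![x.a, x.c, x.b] : Fin 3 → Tr (Tr ℕ)) i)) (or3 x) := by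
  fin_cases i
  · exact Sb_l _ _
  · exact (Sb_l (or2 x.c) (or2 x.b)).trans (Sb_r _ _)
  · exact (Sb_r (or2 x.c) (or2 x.b)).trans (Sb_r _ _)

theorem Sb_lv3 (x : Tr (Tr (Tr ℕ))) (u : Vt 3) : Sb (lv3 x u) (or3 x) :=
  ((Sb1 _ u.1.1.2).trans (Sb2 _ u.1.2)).trans (Sb3 x u.2)

/-! ### one digit -/

theorem dig {a : ℕ} (h : a < 2 ^ 128) (h2 : 2 ^ 99 ≤ a)
    (he : a &&& (2 ^ 128 - 2 ^ 53) = a &&& 2 ^ 100) : 2 ^ 100 ≤ a ∧ a < 2 ^ 100 + 2 ^ 53 := by
  have e1 : a = a % 2 ^ 53 + 2 ^ 53 * (a / 2 ^ 53) := (Nat.mod_add_div a (2 ^ 53)).symm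
  have hq : a / 2 ^ 53 < 2 ^ 75 := by
    rw [Nat.div_lt_iff_lt_mul (by positivity), ← pow_add]
    exact h
  have hr : a % 2 ^ 53 < 2 ^ 53 := Nat.mod_lt _ (by positivity)
  have e2 : a &&& (2 ^ 128 - 2 ^ 53) = 2 ^ 53 * (a / 2 ^ 53) := by
    have h3 := land_split 53 (a % 2 ^ 53) (a / 2 ^ 53) 0 (2 ^ 75 - 1) hr (by positivity)
    rw [← e1, Nat.and_zero, Nat.zero_add, Nat.zero_add, Nat.and_two_pow_sub_one_eq_mod,
      Nat.mod_eq_of_lt hq] at h3
    rw [← h3]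
    congr 1
  have e3 : a &&& 2 ^ 100 = (a.testBit 100).toNat * 2 ^ 100 := Nat.and_two_pow a 100
  rw [e2, e3] at he
  have p1 : (2 : ℕ) ^ 53 < 2 ^ 99 := by norm_num
  cases hb : a.testBit 100 with
  | true =>
    rw [hb] at he
    have h4 : (true.toNat : ℕ) * 2 ^ 100 = 2 ^ 100 := by rw [Bool.toNat_true, Nat.one_mul]
    omega
  | false =>
    rw [hb] at he
    have h4 : (false.toNat : ℕ) * 2 ^ 100 = 0 := by rw [Bool.toNat_false, Nat.zero_mul]
    omega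

/-! ### the range -/

/-- digits with offset -/
def fd (m : ℕ) (Y : VF) (k : ℕ) : ℤ := (if po m k then (2 ^ 100 + 2 ^ 52 : ℤ) else 0) + gF m Y k

theorem core {m : ℕ} (hm : m = 1 ∨ m = 3) {OC MH OH : ℕ}
    (hOC : OC = pk (2 ^ 128) (30 * m * 3) (fun k => if po m k then 2 ^ 100 + 2 ^ 52 else 0))
    (hMH : MH = pk (2 ^ 128) (30 * m * 3) (fun k => if po m k then 2 ^ 128 - 2 ^ 53 else 0))
    (hOH : OH = pk (2 ^ 128) (30 * m * 3) (fun k => if po m k then 2 ^ 100 else 0))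
    {x r : ℕ} (hs : Sb x r) (hr : r &&& MH = OH) {Y : VF} (hx : (x : ℤ) = (OC : ℤ) + PF m Y)
    (hb : ∀ i < 3, ∀ j < 3, ∀ e, |Y i j e| ≤ 2 ^ 80) : ∀ i < 3, ∀ j < 3, ∀ e, |Y i j e| ≤ 2 ^ 52 := by
  -- the digits
  have hgb : ∀ k < 30 * m * 3, |gF m Y k| ≤ 2 ^ 80 := by
    intro k hk
    unfold gF
    by_cases h : po m k
    · rw [if_pos h]
      refine hb _ ?_ _ h.1 _
      rcases hm with rfl | rfl <;> omega
    · rw [if_neg h, abs_zero]
      positivity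
  have hf0 : ∀ k < 30 * m * 3, 0 ≤ fd m Y k ∧ fd m Y k < 2 ^ 128 ∧
      (po m k → 2 ^ 99 ≤ fd m Y k) := by
    intro k hk
    have h1 := abs_le.mp (hgb k hk)
    have p1 : (2 : ℤ) ^ 80 ≤ 2 ^ 99 := by norm_num
    have p2 : (2 : ℤ) ^ 100 = 2 ^ 99 + 2 ^ 99 := by norm_num
    have p3 : (2 : ℤ) ^ 100 + 2 ^ 52 + 2 ^ 80 < 2 ^ 128 := by norm_num
    have p4 : (0 : ℤ) < 2 ^ 52 := by norm_num
    unfold fd
    by_cases h : po m k
    · rw [if_pos h]
      refine ⟨by linarith [h1.1], by linarith [h1.2], fun _ => by linarith [h1.1]⟩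
    · rw [if_neg h]
      have h2 : gF m Y k = 0 := by unfold gF; exact if_neg h
      rw [h2]
      exact ⟨by norm_num, by norm_num, fun h' => absurd h' h⟩
  set f : ℕ → ℕ := fun k => (fd m Y k).toNat with hf
  have hfc : ∀ k < 30 * m * 3, ((f k : ℕ) : ℤ) = fd m Y k := fun k hk =>
    Int.toNat_of_nonneg (hf0 k hk).1
  have hfl : ∀ k < 30 * m * 3, f k < 2 ^ 128 := fun k hk => by
    have h : ((f k : ℕ) : ℤ) < ((2 ^ 128 : ℕ) : ℤ) := by
      rw [hfc k hk]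
      push_cast
      exact (hf0 k hk).2.1
    exact_mod_cast h
  have hB : ((2 ^ 128 : ℕ) : ℤ) = BB := by rw [BB_eq]; norm_num
  have hxf : x = pk (2 ^ 128) (30 * m * 3) f := by
    have h : (x : ℤ) = ((pk (2 ^ 128) (30 * m * 3) f : ℕ) : ℤ) := by
      rw [hx, hOC, pk_cast, pk_cast, hB, PF_pz hm, pz_add]
      refine pz_congr _ _ _ _ fun k hk => ?_
      rw [hfc k hk]
      unfold fd
      by_cases h : po m k
      · rw [if_pos h, if_pos h]
        push_cast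
        ring
      · rw [if_neg h, if_neg h]
        push_cast
        ring
    exact_mod_cast h
  have h1 : x &&& MH = x &&& OH := by
    rw [← hr, ← Nat.and_assoc, hs]
  have hm1 : ∀ k < 30 * m * 3, (if po m k then 2 ^ 128 - 2 ^ 53 else 0) < 2 ^ 128 := fun k _ => by
    split_ifs <;> norm_num
  have hm2 : ∀ k < 30 * m * 3, (if po m k then 2 ^ 100 else 0) < 2 ^ 128 := fun k _ => by
    split_ifs <;> norm_num
  rw [hxf, hMH, hOH, Pool.Agent.Helper90.DG.land0 _ f _ hfl hm1,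
    Pool.Agent.Helper90.DG.land0 _ f _ hfl hm2] at h1
  have h2 := pk_inj (by positivity) _ _ _
    (fun k hk => lt_of_le_of_lt Nat.and_le_left (hfl k hk))
    (fun k hk => lt_of_le_of_lt Nat.and_le_left (hfl k hk)) h1
  have key : ∀ k < 30 * m * 3, po m k → |gF m Y k| ≤ 2 ^ 52 := by
    intro k hk hp
    have h3 := h2 k hk
    rw [if_pos hp, if_pos hp] at h3
    have h4 : 2 ^ 99 ≤ f k := by
      have h : ((2 ^ 99 : ℕ) : ℤ) ≤ ((f k : ℕ) : ℤ) := by
        rw [hfc k hk]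
        push_cast
        exact (hf0 k hk).2.2 hp
      exact_mod_cast h
    obtain ⟨h5, h6⟩ := dig (hfl k hk) h4 h3
    have h5' : ((2 ^ 100 : ℕ) : ℤ) ≤ ((f k : ℕ) : ℤ) := by exact_mod_cast h5
    have h6' : ((f k : ℕ) : ℤ) < ((2 ^ 100 + 2 ^ 53 : ℕ) : ℤ) := by exact_mod_cast h6
    rw [hfc k hk] at h5' h6'
    push_cast at h5' h6'
    unfold fd at h5' h6'
    rw [if_pos hp] at h5' h6'
    have p53 : (2 : ℤ) ^ 53 = 2 ^ 52 + 2 ^ 52 := by norm_num
    rw [abs_le]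
    constructor <;> linarith
  intro i hi j hj e
  have hi3 : 30 * m * i + (3 * m * j + 1) < 30 * m * 3 := by
    rcases hm with rfl | rfl <;> omega
  have hpo : ∀ s < 2, po m (30 * m * i + (3 * m * j + s)) := by
    intro s hs2
    have h0 : s < 3 * m := by rcases hm with rfl | rfl <;> omega
    obtain ⟨_, h2', h3'⟩ := ix (i := i) hm (show j < 10 by omega) h0
    unfold po
    rw [h2', h3']
    exact ⟨hj, hs2⟩
  fin_cases e
  · have h := key (30 * m * i + (3 * m * j + 0)) (by omega) (hpo 0 (by norm_num))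
    rw [gF_0 hm hj] at h
    exact h
  · have h := key (30 * m * i + (3 * m * j + 1)) hi3 (hpo 1 (by norm_num))
    rw [gF_1 hm hj] at h
    exact h

theorem OC1_pk : OC1 = pk (2 ^ 128) (30 * 1 * 3) (fun k => if po 1 k then 2 ^ 100 + 2 ^ 52 else 0) := by
  decide +kernel
theorem MH1_pk : MH1 = pk (2 ^ 128) (30 * 1 * 3) (fun k => if po 1 k then 2 ^ 128 - 2 ^ 53 else 0) := by
  decide +kernel
theorem OH1_pk : OH1 = pk (2 ^ 128) (30 * 1 * 3) (fun k => if po 1 k then 2 ^ 100 else 0) := by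
  decide +kernel
theorem OC3_pk : OC3 = pk (2 ^ 128) (30 * 3 * 3) (fun k => if po 3 k then 2 ^ 100 + 2 ^ 52 else 0) := by
  decide +kernel
theorem MH3_pk : MH3 = pk (2 ^ 128) (30 * 3 * 3) (fun k => if po 3 k then 2 ^ 128 - 2 ^ 53 else 0) := by
  decide +kernel
theorem OH3_pk : OH3 = pk (2 ^ 128) (30 * 3 * 3) (fun k => if po 3 k then 2 ^ 100 else 0) := by
  decide +kernel

end RG9

/-- the range test: digits between `-2 ^ 52` and `2 ^ 52` -/
theorem r52_U {x : Tr (Tr (Tr ℕ))} (h : r52 Lc1 x = true) {Y : Vt 3 → VF}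
    (hx : ∀ u, ((lv3 x u : ℕ) : ℤ) = (OC1 : ℤ) + PF 1 (Y u))
    (hb : ∀ u, ∀ i < 3, ∀ j < 3, ∀ e, |Y u i j e| ≤ 2 ^ 80) (u : Vt 3) :
    ∀ i < 3, ∀ j < 3, ∀ e, |Y u i j e| ≤ 2 ^ 52 := by
  have h1 : or3 x &&& MH1 = OH1 := Nat.eq_of_beq_eq_true h
  exact RG9.core (Or.inl rfl) RG9.OC1_pk RG9.MH1_pk RG9.OH1_pk (RG9.Sb_lv3 x u) h1 (hx u) (hb u)

theorem r52_W {x : Tr (Tr (Tr ℕ))} (h : r52 Lc3 x = true) {Y : Vt 3 → VF}
    (hx : ∀ u, ((lv3 x u : ℕ) : ℤ) = (OC3 : ℤ) + PF 3 (Y u))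
    (hb : ∀ u, ∀ i < 3, ∀ j < 3, ∀ e, |Y u i j e| ≤ 2 ^ 80) (u : Vt 3) :
    ∀ i < 3, ∀ j < 3, ∀ e, |Y u i j e| ≤ 2 ^ 52 := by
  have h1 : or3 x &&& MH3 = OH3 := Nat.eq_of_beq_eq_true h
  exact RG9.core (Or.inr rfl) RG9.OC3_pk RG9.MH3_pk RG9.OH3_pk (RG9.Sb_lv3 x u) h1 (hx u) (hb u)

end Pool.Agent.Helper17.N9
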