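import Pool.Agent.Helper17.N9.N9B
import Pool.Agent.Helper17.N9.N9J

/-!
Row K9 of MP_c75db0 (plan W), version 2, row M: the machines.
-/

set_option autoImplicit false
set_option exponentiation.threshold 60000
noncomputable section
namespace Pool.Agent.Helper17.N9

open Pool.Agent.Helper86.C75 (Z)
open Pool.Agent.Helper86.CX (Cx andB)
open Pool.Agent.Helper86.CT (N3 Mo fa fc fb)
open Pool.Agent.Helper90.C75 (Vt avg wtT)
open Pool.Agent.Helper90.KMO (zv cz UU)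
open Pool.Agent.Helper90.KMT (nlf lf0 TOK PT DL NN)
open Pool.Agent.Helper90.K9 (G pk pz)
open Pool.Agent.Helper17.K9 (V9)
open Pool.Agent.Helper62.TVM (TV)
open Pool.Agent.Helper6.MONO (V3)
open Pool.Agent.Helper6.MONO.W2 (Mt hr hv J1 NT)
open Finset Matrix

/-! ### values at the nodes -/

theorem ndI_s0 (D : ℕ) (C : Vt (D + 1) → ℤ) (u : Vt D) :
    ndI (D + 1) C (u, 0) = 4 * ndI D (fun w => C (w, 0)) u := rfl
theorem ndI_s1 (D : ℕ) (C : Vt (D + 1) → ℤ) (u : Vt D) :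
    ndI (D + 1) C (u, 1) = ndI D (fun w => C (w, 0)) u + ndI D (fun w => C (w, 2)) u +
      2 * ndI D (fun w => C (w, 1)) u := rfl
theorem ndI_s2 (D : ℕ) (C : Vt (D + 1) → ℤ) (u : Vt D) :
    ndI (D + 1) C (u, 2) = 4 * ndI D (fun w => C (w, 2)) u := rfl

theorem ndI_avg (D : ℕ) (t : ℕ → ℝ) (C : Vt D → ℤ) :
    avg (ndw D t) (fun u => ((ndI D C u : ℤ) : ℂ)) = 4 ^ D * avg (wtT D t) (fun u => ((C u : ℤ) : ℂ)) := by
  induction D with
  | zero =>
    rw [avg_zero_dir, avg_zero_dir]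
    show ((1 : ℝ) : ℂ) * ((C () : ℤ) : ℂ) = 4 ^ 0 * (((1 : ℝ) : ℂ) * ((C () : ℤ) : ℂ))
    simp
  | succ D ih =>
    rw [avg_wt_succ, avg_ndw_succ]
    have h0 := ih (fun w => C (w, 0))
    have h1 := ih (fun w => C (w, 1))
    have h2 := ih (fun w => C (w, 2))
    have e0 : avg (ndw D t) (fun v => ((ndI (D + 1) C (v, 0) : ℤ) : ℂ))
        = 4 * avg (ndw D t) (fun v => ((ndI D (fun w => C (w, 0)) v : ℤ) : ℂ)) := by
      rw [← Pool.Agent.Helper90.C75.avg_smul]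
      congr 1
      funext v
      rw [ndI_s0]
      push_cast
      rfl
    have e2 : avg (ndw D t) (fun v => ((ndI (D + 1) C (v, 2) : ℤ) : ℂ))
        = 4 * avg (ndw D t) (fun v => ((ndI D (fun w => C (w, 2)) v : ℤ) : ℂ)) := by
      rw [← Pool.Agent.Helper90.C75.avg_smul]
      congr 1
      funext v
      rw [ndI_s2]
      push_cast
      rfl
    have e1 : avg (ndw D t) (fun v => ((ndI (D + 1) C (v, 1) : ℤ) : ℂ))
        = avg (ndw D t) (fun v => ((ndI D (fun w => C (w, 0)) v : ℤ) : ℂ))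
          + avg (ndw D t) (fun v => ((ndI D (fun w => C (w, 2)) v : ℤ) : ℂ))
          + 2 * avg (ndw D t) (fun v => ((ndI D (fun w => C (w, 1)) v : ℤ) : ℂ)) := by
      rw [← Pool.Agent.Helper90.C75.avg_smul, ← Pool.Agent.Helper90.C75.avg_add,
        ← Pool.Agent.Helper90.C75.avg_add]
      congr 1
      funext v
      rw [ndI_s1]
      push_cast
      rfl
    rw [e0, e1, e2, h0, h1, h2, nlg_0, nlg_1, nlg_2]
    push_cast
    ring

theorem ndI_le (D : ℕ) (C : Vt D → ℤ) (b : ℤ) (h : ∀ v, |C v| ≤ b) (u : Vt D) :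
    |ndI D C u| ≤ 4 ^ D * b := by
  induction D with
  | zero =>
    show |C u| ≤ 4 ^ 0 * b
    rw [pow_zero, one_mul]
    exact h u
  | succ D ih =>
    obtain ⟨v, i⟩ := u
    have h0 := abs_le.1 (ih (fun w => C (w, 0)) (fun w => h (w, 0)) v)
    have h1 := abs_le.1 (ih (fun w => C (w, 1)) (fun w => h (w, 1)) v)
    have h2 := abs_le.1 (ih (fun w => C (w, 2)) (fun w => h (w, 2)) v)
    fin_cases i
    · show |ndI (D + 1) C (v, 0)| ≤ _
      rw [ndI_s0, pow_succ, abs_le]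
      constructor <;> linarith [h0.1, h0.2]
    · show |ndI (D + 1) C (v, 1)| ≤ _
      rw [ndI_s1, pow_succ, abs_le]
      constructor <;> linarith [h0.1, h0.2, h1.1, h1.2, h2.1, h2.2]
    · show |ndI (D + 1) C (v, 2)| ≤ _
      rw [ndI_s2, pow_succ, abs_le]
      constructor <;> linarith [h2.1, h2.2]

/-! ### zips of nine trees -/

theorem Zq0_ok : ZqL 0 lv0 lm0 Zq0 := ⟨fun _ _ _ _ _ _ _ _ _ _ _ _ => rfl, fun _ _ _ => rfl⟩

theorem nxZq_ok {ν μ : Type} {D : ℕ} {lv : ν → Vt D → ℕ} {lm : μ → Vt D → NL} {F : Zq ν μ}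
    (h : ZqL D lv lm F) : ZqL (D + 1) (tlf lv) (tlf lm) (nxZq F) := by
  constructor
  · intro s o a b c d e f g h' i u
    obtain ⟨v, k⟩ := u
    fin_cases k
    · exact h.z s o a.a b.a c.a d.a e.a f.a g.a h'.a i.a v
    · exact h.z s o a.c b.c c.c d.c e.c f.c g.c h'.c i.c v
    · exact h.z s o a.b b.b c.b d.b e.b f.b g.b h'.b i.b v
  · intro f x u
    obtain ⟨v, k⟩ := u
    fin_cases k
    · exact h.q f x.a v
    · exact h.q f x.c v
    · exact h.q f x.b v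

/-! ### packed values at the nodes -/

theorem zoff_le {o : ℕ} {x : Z} (h : |zv x| ≤ o) : ((zoff o x : ℕ) : ℤ) = o + zv x := by
  cases x with
  | p n =>
    show ((o + n : ℕ) : ℤ) = o + (n : ℤ)
    push_cast
    rfl
  | m n =>
    have h1 : n ≤ o := by
      have h2 : |(-(n : ℤ))| ≤ o := h
      rw [abs_neg, Nat.abs_cast] at h2
      exact_mod_cast h2
    show ((o - n : ℕ) : ℤ) = o + (-(n : ℤ))
    rw [Nat.cast_sub h1]
    ring

theorem Nd0_ok : NdL 0 lc0 lv0 Nd0 := by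
  intro x hx u
  obtain ⟨h1, h2⟩ := hx u
  have e1 : ((zoff 1152921504606846976 x.re : ℕ) : ℤ) = (1152921504606846976 : ℕ) + zv x.re :=
    zoff_le (h1.trans (by norm_num))
  have e2 : ((zoff 1152921504606846976 x.im : ℕ) : ℤ) = (1152921504606846976 : ℕ) + zv x.im :=
    zoff_le (h2.trans (by norm_num))
  show ((zoff 1152921504606846976 x.re + Nat.shiftLeft (zoff 1152921504606846976 x.im) 128 : ℕ) : ℤ) =
    (4 ^ 0 * 2 ^ 60 + zv x.re) + (4 ^ 0 * 2 ^ 60 + zv x.im) * BB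
  have e3 : Nat.shiftLeft (zoff 1152921504606846976 x.im) 128 =
      zoff 1152921504606846976 x.im * 2 ^ 128 := Nat.shiftLeft_eq _ _
  rw [e3, Nat.cast_add, Nat.cast_mul, e1, e2, BB_eq]
  norm_num

theorem fa_ct {α : Type} (x : N3 α) : ct3 x 0 = fa x := by cases x <;> rfl
theorem fc_ct {α : Type} (x : N3 α) : ct3 x 1 = fc x := by cases x <;> rfl
theorem fb_ct {α : Type} (x : N3 α) : ct3 x 2 = fb x := by cases x <;> rfl

theorem nxNd_ok {α ν ζ κ : Type} {D : ℕ} {lC : α → Vt D → Cx} {lv : ν → Vt D → ℕ}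
    {lz : ζ → Vt D → Z} {lk : κ → Vt D → ℕ} {T : Tl ν ζ κ} {N : Nd α ν}
    (hT : TlL D lv lz lk T) (hN : NdL D lC lv N) : NdL (D + 1) (clf lC) (tlf lv) (nxNd T N) := by
  intro x hx u
  obtain ⟨v, k⟩ := u
  have c0 : ∀ w, clf lC x (w, 0) = lC (fa x) w := fun w => by rw [← fa_ct]; rfl
  have c1 : ∀ w, clf lC x (w, 1) = lC (fc x) w := fun w => by rw [← fc_ct]; rfl
  have c2 : ∀ w, clf lC x (w, 2) = lC (fb x) w := fun w => by rw [← fb_ct]; rfl
  have h0 := hN (fa x) (fun w => by rw [← c0]; exact hx (w, 0)) v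
  have h1 := hN (fc x) (fun w => by rw [← c1]; exact hx (w, 1)) v
  have h2 := hN (fb x) (fun w => by rw [← c2]; exact hx (w, 2)) v
  have r0 : ndI D (fun w => zv (clf lC x (w, 0)).re) v = ndI D (fun w => zv (lC (fa x) w).re) v := by
    simp only [c0]
  have r1 : ndI D (fun w => zv (clf lC x (w, 1)).re) v = ndI D (fun w => zv (lC (fc x) w).re) v := by
    simp only [c1]
  have r2 : ndI D (fun w => zv (clf lC x (w, 2)).re) v = ndI D (fun w => zv (lC (fb x) w).re) v := by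
    simp only [c2]
  have i0 : ndI D (fun w => zv (clf lC x (w, 0)).im) v = ndI D (fun w => zv (lC (fa x) w).im) v := by
    simp only [c0]
  have i1 : ndI D (fun w => zv (clf lC x (w, 1)).im) v = ndI D (fun w => zv (lC (fc x) w).im) v := by
    simp only [c1]
  have i2 : ndI D (fun w => zv (clf lC x (w, 2)).im) v = ndI D (fun w => zv (lC (fb x) w).im) v := by
    simp only [c2]
  fin_cases k
  · show ((lv (T.sl 2 (N.nd (fa x))) v : ℕ) : ℤ) = (4 ^ (D + 1) * 2 ^ 60 +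
      ndI (D + 1) (fun w => zv (clf lC x w).re) (v, 0)) + (4 ^ (D + 1) * 2 ^ 60 +
      ndI (D + 1) (fun w => zv (clf lC x w).im) (v, 0)) * BB
    rw [hT.sl, Nat.cast_mul, h0, ndI_s0, ndI_s0, r0, i0]
    push_cast
    ring
  · show ((lv (T.ad (T.ad (N.nd (fa x)) (N.nd (fb x))) (T.sl 1 (N.nd (fc x)))) v : ℕ) : ℤ) =
      (4 ^ (D + 1) * 2 ^ 60 +
      ndI (D + 1) (fun w => zv (clf lC x w).re) (v, 1)) + (4 ^ (D + 1) * 2 ^ 60 +
      ndI (D + 1) (fun w => zv (clf lC x w).im) (v, 1)) * BB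
    rw [hT.ad, hT.ad, hT.sl, Nat.cast_add, Nat.cast_add, Nat.cast_mul, h0, h1, h2, ndI_s1, ndI_s1,
      r0, i0, r1, i1, r2, i2]
    push_cast
    ring
  · show ((lv (T.sl 2 (N.nd (fb x))) v : ℕ) : ℤ) = (4 ^ (D + 1) * 2 ^ 60 +
      ndI (D + 1) (fun w => zv (clf lC x w).re) (v, 2)) + (4 ^ (D + 1) * 2 ^ 60 +
      ndI (D + 1) (fun w => zv (clf lC x w).im) (v, 2)) * BB
    rw [hT.sl, Nat.cast_mul, h2, ndI_s2, ndI_s2, r2, i2]
    push_cast
    ring

/-! ### trees of numbers -/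

theorem andB_iffM {x y : Bool} : andB x y = true ↔ x = true ∧ y = true := by
  cases x <;> cases y <;> simp [andB]

theorem cnI_leM (D : ℕ) (F : Vt D → ℤ) (b : ℤ) (h : ∀ v, |F v| ≤ b) (u : Vt D) :
    |cnI D F u| ≤ 6 ^ D * b := by
  induction D with
  | zero =>
    show |F u| ≤ 6 ^ 0 * b
    rw [pow_zero, one_mul]
    exact h u
  | succ D ih =>
    obtain ⟨v, i⟩ := u
    have h0 := abs_le.1 (ih (fun w => F (w, 0)) (fun w => h (w, 0)) v)
    have h1 := abs_le.1 (ih (fun w => F (w, 1)) (fun w => h (w, 1)) v)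
    have h2 := abs_le.1 (ih (fun w => F (w, 2)) (fun w => h (w, 2)) v)
    have hb : 0 ≤ 6 ^ D * b := by
      have := (abs_nonneg _).trans (ih (fun w => F (w, 0)) (fun w => h (w, 0)) v)
      exact this
    fin_cases i
    · show |cnI (D + 1) F (v, 0)| ≤ _
      rw [cnI_s0, smul_eq_mul, pow_succ, abs_le]
      constructor <;> linarith [h0.1, h0.2]
    · show |cnI (D + 1) F (v, 1)| ≤ _
      rw [cnI_s1, smul_eq_mul, pow_succ, abs_le]
      constructor <;> linarith [h0.1, h0.2, h1.1, h1.2, h2.1, h2.2]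
    · show |cnI (D + 1) F (v, 2)| ≤ _
      rw [cnI_s2, smul_eq_mul, pow_succ, abs_le]
      constructor <;> linarith [h2.1, h2.2]

theorem Tl0_ok : TlL 0 lv0 lz0 (fun (k : ℕ) (_ : Vt 0) => k) Tl0 where
  ad _ _ _ := rfl
  sb _ _ _ := rfl
  sl _ _ _ := Nat.shiftLeft_eq _ _
  zc x y _ := by simp only [Tl0, lv0]
  nn _ _ _ _ _ _ := rfl
  az _ _ h _ := h
  mz _ _ _ := rfl
  al _ _ h _ := h
  ld _ := rfl
  cn x n o f h _ u := by
    rw [show lv0 (Tl0.cn x) u = lv0 x u from rfl, h u]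
    congr 1
    funext k
    show o k + f u k = 2 ^ 0 * o k + f u k
    ring

theorem nxTl_ok {ν ζ κ κ' : Type} {D : ℕ} {lv : ν → Vt D → ℕ} {lz : ζ → Vt D → Z}
    {lk : κ → Vt D → ℕ} {T : Tl ν ζ κ} (h : TlL D lv lz lk T) (ga gc gb : κ' → κ)
    (lk' : κ' → Vt (D + 1) → ℕ) (ea : ∀ k v, lk' k (v, 0) = lk (ga k) v)
    (ec : ∀ k v, lk' k (v, 1) = lk (gc k) v) (eb : ∀ k v, lk' k (v, 2) = lk (gb k) v) :
    TlL (D + 1) (tlf lv) (tlf lz) lk' (nxTl ga gc gb T) where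
  ad x y u := by
    obtain ⟨v, k⟩ := u
    fin_cases k
    · exact h.ad x.a y.a v
    · exact h.ad x.c y.c v
    · exact h.ad x.b y.b v
  sb x y u := by
    obtain ⟨v, k⟩ := u
    fin_cases k
    · exact h.sb x.a y.a v
    · exact h.sb x.c y.c v
    · exact h.sb x.b y.b v
  sl k x u := by
    obtain ⟨v, i⟩ := u
    fin_cases i
    · exact h.sl k x.a v
    · exact h.sl k x.c v
    · exact h.sl k x.b v
  zc x y u := by
    obtain ⟨v, k⟩ := u
    fin_cases k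
    · exact h.zc x.a y.a v
    · exact h.zc x.c y.c v
    · exact h.zc x.b y.b v
  nn f k l x y u := by
    obtain ⟨v, i⟩ := u
    fin_cases i
    · show lz (T.nn f (ga k) (ga l) x.a y.a) v = f (lk' k (v, 0)) (lk' l (v, 0)) (lv x.a v) (lv y.a v)
      rw [ea, ea]
      exact h.nn f (ga k) (ga l) x.a y.a v
    · show lz (T.nn f (gc k) (gc l) x.c y.c) v = f (lk' k (v, 1)) (lk' l (v, 1)) (lv x.c v) (lv y.c v)
      rw [ec, ec]
      exact h.nn f (gc k) (gc l) x.c y.c v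
    · show lz (T.nn f (gb k) (gb l) x.b y.b) v = f (lk' k (v, 2)) (lk' l (v, 2)) (lv x.b v) (lv y.b v)
      rw [eb, eb]
      exact h.nn f (gb k) (gb l) x.b y.b v
  az f x hx u := by
    have h1 : andB (T.az f x.a) (andB (T.az f x.c) (T.az f x.b)) = true := hx
    rw [andB_iffM, andB_iffM] at h1
    obtain ⟨v, k⟩ := u
    fin_cases k
    · exact h.az f x.a h1.1 v
    · exact h.az f x.c h1.2.1 v
    · exact h.az f x.b h1.2.2 v
  mz f x u := by
    obtain ⟨v, k⟩ := u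
    fin_cases k
    · exact h.mz f x.a v
    · exact h.mz f x.c v
    · exact h.mz f x.b v
  al f x hx u := by
    have h1 : andB (T.al f x.a) (andB (T.al f x.c) (T.al f x.b)) = true := hx
    rw [andB_iffM, andB_iffM] at h1
    obtain ⟨v, k⟩ := u
    fin_cases k
    · exact h.al f x.a h1.1 v
    · exact h.al f x.c h1.2.1 v
    · exact h.al f x.b h1.2.2 v
  ld x := h.ld x.a
  cn x n o f hx hf u := by
    have hf' : ∀ i : Fin 3, ∀ u, ∀ k < n, 3 ^ D * |f (u, i) k| ≤ o k := by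
      intro i u k hk
      have h1 := hf (u, i) k hk
      have h2 : (3 : ℤ) ^ D * |f (u, i) k| ≤ 3 ^ (D + 1) * |f (u, i) k| :=
        mul_le_mul_of_nonneg_right (pow_le_pow_right₀ (by norm_num) (Nat.le_succ D)) (abs_nonneg _)
      exact h2.trans h1
    have ha := h.cn x.a n o (fun w k => f (w, 0) k) (fun w => hx (w, 0)) (hf' 0)
    have hc := h.cn x.c n o (fun w k => f (w, 1) k) (fun w => hx (w, 1)) (hf' 1)
    have hb := h.cn x.b n o (fun w k => f (w, 2) k) (fun w => hx (w, 2)) (hf' 2)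
    obtain ⟨v, i⟩ := u
    have ha := ha v
    have hc := hc v
    have hb := hb v
    rw [pz_sum] at ha hc hb
    fin_cases i
    · show ((lv (T.sl 1 (T.cn x.a)) v : ℕ) : ℤ) =
        pz BB n (fun k => 2 ^ (D + 1) * o k + cnI (D + 1) (fun w => f w k) (v, 0))
      rw [h.sl, Nat.cast_mul, ha, pz_sum, Finset.sum_mul]
      refine Finset.sum_congr rfl fun k _ => ?_
      rw [cnI_s0, smul_eq_mul, pow_succ]
      push_cast
      ring
    · show ((lv (T.sb (T.sl 2 (T.cn x.c)) (T.ad (T.cn x.a) (T.cn x.b))) v : ℕ) : ℤ) =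
        pz BB n (fun k => 2 ^ (D + 1) * o k + cnI (D + 1) (fun w => f w k) (v, 1))
      have key : ((lv (T.cn x.c) v : ℕ) : ℤ) * 4 - ((lv (T.cn x.a) v : ℕ) + (lv (T.cn x.b) v : ℕ)) =
          pz BB n (fun k => 2 ^ (D + 1) * o k + cnI (D + 1) (fun w => f w k) (v, 1)) := by
        rw [ha, hb, hc, pz_sum, Finset.sum_mul, ← Finset.sum_add_distrib,
          ← Finset.sum_sub_distrib]
        refine Finset.sum_congr rfl fun k _ => ?_
        rw [cnI_s1, smul_eq_mul, pow_succ]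
        ring
      have hpos : 0 ≤ pz BB n (fun k => 2 ^ (D + 1) * o k + cnI (D + 1) (fun w => f w k) (v, 1)) := by
        rw [pz_sum]
        refine Finset.sum_nonneg fun k hk => ?_
        have hk' := Finset.mem_range.1 hk
        have h0 : (0 : ℤ) < 3 ^ (D + 1) := by positivity
        have h2 : 6 ^ (D + 1) * |f (v, 1) k| ≤ 2 ^ (D + 1) * o k := by
          have h1 := hf (v, 1) k hk'
          have e : (6 : ℤ) ^ (D + 1) = 2 ^ (D + 1) * 3 ^ (D + 1) := by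
            rw [← mul_pow]; norm_num
          rw [e, mul_assoc]
          exact mul_le_mul_of_nonneg_left h1 (by positivity)
        have h3 : |cnI (D + 1) (fun w => f w k) (v, 1)| ≤ 2 ^ (D + 1) * o k := by
          have h4 : ∀ w, 3 ^ (D + 1) * |f w k| ≤ o k := fun w => hf w k hk'
          have h5 : ∀ w, |f w k| ≤ o k / 3 ^ (D + 1) := fun w =>
            (Int.le_ediv_iff_mul_le h0).2 (by rw [mul_comm]; exact h4 w)
          refine (cnI_leM (D + 1) _ _ h5 (v, 1)).trans ?_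
          have e : (6 : ℤ) ^ (D + 1) = 2 ^ (D + 1) * 3 ^ (D + 1) := by
            rw [← mul_pow]; norm_num
          rw [e, mul_assoc]
          refine mul_le_mul_of_nonneg_left ?_ (by positivity)
          exact Int.mul_ediv_self_le (ne_of_gt h0)
        have h6 := (abs_le.1 h3).1
        exact mul_nonneg (by linarith) (pow_nonneg (by norm_num [BB_eq]) _)
      rw [← key] at hpos
      rw [← key, h.sb, h.sl, h.ad]
      have h7 : lv (T.cn x.a) v + lv (T.cn x.b) v ≤ lv (T.cn x.c) v * 2 ^ 2 := by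
        have : ((lv (T.cn x.a) v + lv (T.cn x.b) v : ℕ) : ℤ) ≤ ((lv (T.cn x.c) v * 2 ^ 2 : ℕ) : ℤ) := by
          push_cast
          linarith
        exact_mod_cast this
      rw [Nat.cast_sub h7]
      push_cast
      ring
    · show ((lv (T.sl 1 (T.cn x.b)) v : ℕ) : ℤ) =
        pz BB n (fun k => 2 ^ (D + 1) * o k + cnI (D + 1) (fun w => f w k) (v, 2))
      rw [h.sl, Nat.cast_mul, hb, pz_sum, Finset.sum_mul]
      refine Finset.sum_congr rfl fun k _ => ?_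
      rw [cnI_s2, smul_eq_mul, pow_succ]
      push_cast
      ring

theorem nxT_ok {ν ζ κ : Type} {D : ℕ} {lv : ν → Vt D → ℕ} {lz : ζ → Vt D → Z} {lk : κ → Vt D → ℕ}
    {T : Tl ν ζ κ} (h : TlL D lv lz lk T) : TlL (D + 1) (tlf lv) (tlf lz) (tlf lk) (nxT T) :=
  nxTl_ok h Tr.a Tr.c Tr.b (tlf lk) (fun _ _ => rfl) (fun _ _ => rfl) (fun _ _ => rfl)

theorem nxC_ok {ν ζ κ : Type} {D : ℕ} {lv : ν → Vt D → ℕ} {lz : ζ → Vt D → Z} {lk : κ → Vt D → ℕ}
    {T : Tl ν ζ κ} (h : TlL D lv lz lk T) :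
    TlL (D + 1) (tlf lv) (tlf lz) (fun k u => lk k u.1) (nxC T) :=
  nxTl_ok h (fun x => x) (fun x => x) (fun x => x) (fun k u => lk k u.1) (fun _ _ => rfl)
    (fun _ _ => rfl) (fun _ _ => rfl)

/-! ### the machines -/

theorem Tl3_ok : TlL 3 lv3 lz3 (fun k u => lv3 k u) Tl3 := nxT_ok (nxT_ok (nxT_ok Tl0_ok))

/-- THE MACHINES -/
theorem Mn3_ok : MnL 3 lC3 lv3 lz3 lm3 (fun u => u) Mn3 where
  d := rfl
  N := nxNd_ok (nxT_ok (nxT_ok Tl0_ok)) (nxNd_ok (nxT_ok Tl0_ok) (nxNd_ok Tl0_ok Nd0_ok))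
  Q := nxZq_ok (nxZq_ok (nxZq_ok Zq0_ok))
  T := nxT_ok (nxT_ok (nxT_ok Tl0_ok))
theorem Mn4_ok : MnL 4 lC4 lv4 lz4 lm4 (fun u => u.1) Mn4 where
  d := rfl
  N := nxNd_ok (nxT_ok (nxT_ok (nxT_ok Tl0_ok)))
    (nxNd_ok (nxT_ok (nxT_ok Tl0_ok)) (nxNd_ok (nxT_ok Tl0_ok) (nxNd_ok Tl0_ok Nd0_ok)))
  Q := nxZq_ok (nxZq_ok (nxZq_ok (nxZq_ok Zq0_ok)))
  T := nxC_ok (nxT_ok (nxT_ok (nxT_ok Tl0_ok)))

end Pool.Agent.Helper17.N9
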