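import Pool.Agent.Helper17.N9.N9B

/-!
Row K9 of MP_c75db0 (plan W), version 2, row L: packed differences of the controls.
-/

set_option autoImplicit false
set_option exponentiation.threshold 60000
noncomputable section
namespace Pool.Agent.Helper17.N9

open Pool.Agent.Helper86.C75 (Z)
open Pool.Agent.Helper86.CX (Cx andB)
open Pool.Agent.Helper86.CT (N3 Mo)
open Pool.Agent.Helper90.C75 (Vt avg wtT)
open Pool.Agent.Helper90.KMO (zv cz UU)
open Pool.Agent.Helper90.KMT (nlf lf0 TOK PT DL NN)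
open Pool.Agent.Helper90.K9 (G pk pz)
open Pool.Agent.Helper17.K9 (V9)
open Pool.Agent.Helper62.TVM (TV)
open Pool.Agent.Helper6.MONO (V3)
open Pool.Agent.Helper6.MONO.W2 (Mt hr hv J1 NT)
open Pool.Agent.Helper90.K9 (pk_zero pk_succ pk_congr pk_add pk_smul pk_split pk_lt)
open Pool.Agent.Helper90.DG (ad ad_lt le_ad abs_digits max_digits land_sel pk_extend lt128)
open Finset Matrix

/-! ### literals -/

theorem HZ_eq : HZ = pk (2 ^ 128) 108 (fun _ => 2 ^ 127) := by decide +kernel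
theorem LZ_eq : LZ = pk (2 ^ 128) 108 (fun _ => 2 ^ 127 - 1) := by decide +kernel
theorem MZ0_eq : MZ0 = pk (2 ^ 128) 108 (fun k => if k % 3 = 0 then 2 ^ 128 - 1 else 0) := by
  decide +kernel
theorem TWZ_eq : TWZ = pk (2 ^ 128) 108 (fun k => if k % 3 = 0 then 2 else 0) := by decide +kernel
theorem OQ2_eq : OQ2 = pk (2 ^ 128) 54 (fun k => if k % 3 < 2 then 2 ^ 100 else 0) := by
  decide +kernel

/-! ### operations on the digits -/

theorem absd_eq {f g : ℕ → ℕ} {x y : ℕ} (hf : ∀ k < 108, f k < 2 ^ 127)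
    (hg : ∀ k < 108, g k < 2 ^ 127) (hx : x = pk (2 ^ 128) 108 f) (hy : y = pk (2 ^ 128) 108 g) :
    absd HZ LZ x y = pk (2 ^ 128) 108 (fun k => ad (f k) (g k)) :=
  abs_digits hf hg hx hy HZ_eq LZ_eq rfl rfl rfl rfl

theorem pmax_eq {f g : ℕ → ℕ} {x y : ℕ} (hf : ∀ k < 108, f k < 2 ^ 127)
    (hg : ∀ k < 108, g k < 2 ^ 127) (hx : x = pk (2 ^ 128) 108 f) (hy : y = pk (2 ^ 128) 108 g) :
    pmax HZ x y = pk (2 ^ 128) 108 (fun k => max (f k) (g k)) :=
  max_digits hf hg hx hy HZ_eq rfl rfl rfl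

theorem two_128_54 : (2 : ℕ) ^ 6912 = (2 ^ 128) ^ 54 := by rw [← pow_mul]

/-- two blocks of 54 digits -/
theorem two_blocks (f g : ℕ → ℕ) :
    pk (2 ^ 128) 54 f + pk (2 ^ 128) 54 g * 2 ^ 6912 =
      pk (2 ^ 128) 108 (fun k => if k < 54 then f k else g (k - 54)) := by
  have e := pk_split (2 ^ 128) 54 54 (fun k => if k < 54 then f k else g (k - 54))
  have e1 : pk (2 ^ 128) 54 (fun k => if k < 54 then f k else g (k - 54)) = pk (2 ^ 128) 54 f :=
    pk_congr _ _ _ _ fun k hk => if_pos hk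
  have e2 : pk (2 ^ 128) 54 (fun i => (fun k => if k < 54 then f k else g (k - 54)) (54 + i)) =
      pk (2 ^ 128) 54 g := by
    refine pk_congr _ _ _ _ fun k hk => ?_
    show (if 54 + k < 54 then f (54 + k) else g (54 + k - 54)) = g k
    rw [if_neg (by omega), Nat.add_sub_cancel_left]
  rw [e1, e2, ← two_128_54, Nat.mul_comm] at e
  exact e.symm

/-- the digits of `dt0` -/
def dg0 (fa fc fb : ℕ → ℕ) (k : ℕ) : ℕ :=
  if k < 54 then ad (fb k) (fa k) else ad (2 * fc (k - 54)) (fa (k - 54) + fb (k - 54))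

theorem dt0_eq {fa fc fb : ℕ → ℕ} {a c b : ℕ} (ha : a = pk (2 ^ 128) 54 fa)
    (hc : c = pk (2 ^ 128) 54 fc) (hb : b = pk (2 ^ 128) 54 fb) (ba : ∀ k < 54, fa k < 2 ^ 123)
    (bc : ∀ k < 54, fc k < 2 ^ 123) (bb : ∀ k < 54, fb k < 2 ^ 123) :
    dt0 HZ LZ a c b = pk (2 ^ 128) 108 (dg0 fa fc fb) := by
  have p1 : (2 : ℕ) ^ 123 + 2 ^ 123 < 2 ^ 127 := by norm_num
  have e1 : Nat.add b (Nat.shiftLeft c (nat_lit 6913)) =
      pk (2 ^ 128) 108 (fun k => if k < 54 then fb k else 2 * fc (k - 54)) := by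
    show b + c <<< 6913 = _
    rw [Nat.shiftLeft_eq, show (2 : ℕ) ^ 6913 = 2 * 2 ^ 6912 from by rw [pow_succ]; ring,
      ← Nat.mul_assoc, Nat.mul_comm c 2, hc, pk_smul, hb]
    exact two_blocks fb (fun k => 2 * fc k)
  have e2 : Nat.add a (Nat.shiftLeft (Nat.add a b) (nat_lit 6912)) =
      pk (2 ^ 128) 108 (fun k => if k < 54 then fa k else fa (k - 54) + fb (k - 54)) := by
    show a + (a + b) <<< 6912 = _
    rw [Nat.shiftLeft_eq, ha, hb, pk_add]
    exact two_blocks fa (fun k => fa k + fb k)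
  have e3 := absd_eq (f := fun k => if k < 54 then fb k else 2 * fc (k - 54))
    (g := fun k => if k < 54 then fa k else fa (k - 54) + fb (k - 54))
    (fun k hk => by
      show (if k < 54 then fb k else 2 * fc (k - 54)) < 2 ^ 127
      split_ifs with h
      · have := bb k h; omega
      · have := bc (k - 54) (by omega); omega)
    (fun k hk => by
      show (if k < 54 then fa k else fa (k - 54) + fb (k - 54)) < 2 ^ 127
      split_ifs with h
      · have := ba k h; omega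
      · have := ba (k - 54) (by omega)
        have := bb (k - 54) (by omega)
        omega) e1 e2
  show absd HZ LZ _ _ = _
  rw [e3]
  refine pk_congr _ _ _ _ fun k hk => ?_
  unfold dg0
  by_cases h : k < 54
  · rw [if_pos h, if_pos h, if_pos h]
  · rw [if_neg h, if_neg h, if_neg h]

theorem ad_le {a b c : ℕ} (ha : a ≤ c) (hb : b ≤ c) : ad a b ≤ c := by
  unfold ad
  split_ifs <;> omega

theorem dg0_lt {fa fc fb : ℕ → ℕ} (ba : ∀ k < 54, fa k < 2 ^ 123)
    (bc : ∀ k < 54, fc k < 2 ^ 123) (bb : ∀ k < 54, fb k < 2 ^ 123) :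
    ∀ k < 108, dg0 fa fc fb k < 2 ^ 125 := by
  intro k hk
  unfold dg0
  split_ifs with h
  · refine lt_of_le_of_lt (ad_le (c := 2 ^ 123) (bb k h).le (ba k h).le) (by norm_num)
  · have h1 := bc (k - 54) (by omega)
    have h2 := ba (k - 54) (by omega)
    have h3 := bb (k - 54) (by omega)
    refine lt_of_le_of_lt (ad_le (c := 2 ^ 124) ?_ ?_) (by norm_num)
    · have : (2 : ℕ) ^ 124 = 2 * 2 ^ 123 := by norm_num
      omega
    · have : (2 : ℕ) ^ 124 = 2 * 2 ^ 123 := by norm_num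
      omega

/-! ### shifts -/

theorem pk_mod2 : ∀ (n : ℕ) (f : ℕ → ℕ), pk (2 ^ 128) n f % 2 = if 0 < n then f 0 % 2 else 0
  | 0, f => by rw [pk_zero]; rfl
  | n + 1, f => by
    rw [pk_succ, if_pos (Nat.succ_pos n)]
    have : (2 : ℕ) ^ 128 = 2 * 2 ^ 127 := by norm_num
    rw [this]
    generalize pk _ n _ = X
    omega

theorem shr1 : ∀ (n : ℕ) (f : ℕ → ℕ), pk (2 ^ 128) n f >>> 1 =
    pk (2 ^ 128) n (fun k => f k / 2 + 2 ^ 127 * (if k + 1 < n then f (k + 1) % 2 else 0))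
  | 0, f => by rw [pk_zero, pk_zero, Nat.zero_shiftRight]
  | n + 1, f => by
    have ih := shr1 n (fun i => f (i + 1))
    rw [Nat.shiftRight_one] at ih ⊢
    rw [pk_succ, pk_succ]
    have hm := pk_mod2 n (fun i => f (i + 1))
    have e1 : pk (2 ^ 128) n (fun i => f (i + 1) / 2 + 2 ^ 127 *
        (if i + 1 + 1 < n + 1 then f (i + 1 + 1) % 2 else 0)) =
        pk (2 ^ 128) n (fun i => f (i + 1) / 2 + 2 ^ 127 *
          (if i + 1 < n then f (i + 1 + 1) % 2 else 0)) := by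
      refine pk_congr _ _ _ _ fun k hk => ?_
      by_cases h : k + 1 < n
      · rw [if_pos h, if_pos (by omega)]
      · rw [if_neg h, if_neg (by omega)]
    rw [e1, ← ih]
    have e2 : (if 0 + 1 < n + 1 then f (0 + 1) % 2 else 0) =
        pk (2 ^ 128) n (fun i => f (i + 1)) % 2 := by
      rw [hm]
      by_cases h : 0 < n
      · rw [if_pos h, if_pos (by omega)]
      · rw [if_neg h, if_neg (by omega)]
    rw [e2]
    generalize pk (2 ^ 128) n (fun i => f (i + 1)) = X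
    have : (2 : ℕ) ^ 128 = 2 * 2 ^ 127 := by norm_num
    rw [this]
    have h1 := Nat.div_add_mod X 2
    generalize X / 2 = Y at *
    generalize X % 2 = r at *
    subst h1
    have : f 0 + 2 * 2 ^ 127 * (2 * Y + r) = f 0 + 2 * (2 ^ 127 * r + 2 * 2 ^ 127 * Y) := by ring
    rw [this, Nat.add_mul_div_left _ _ (by norm_num : 0 < 2)]
    ring

theorem shr128 (n : ℕ) (f : ℕ → ℕ) (h0 : f 0 < 2 ^ 128) :
    pk (2 ^ 128) (n + 1) f >>> 128 = pk (2 ^ 128) (n + 1) (fun k => if k < n then f (k + 1) else 0) := by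
  rw [Nat.shiftRight_eq_div_pow, pk_succ, Nat.add_mul_div_left _ _ (by positivity),
    Nat.div_eq_of_lt h0, Nat.zero_add,
    pk_extend (2 ^ 128) n 1 (fun k => if k < n then f (k + 1) else 0)
      (fun k h1 _ => if_neg (by omega))]
  exact pk_congr _ _ _ _ fun k hk => (if_pos hk).symm

/-- the digit at the bit `128 k` -/
theorem dgt_eq {n : ℕ} {f : ℕ → ℕ} (hf : ∀ k < n, f k < 2 ^ 128) {k : ℕ} (hk : k < n) {x : ℕ}
    (hx : x = pk (2 ^ 128) n f) {o : ℕ} (ho : o = 128 * k) : dgt x o = f k := by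
  show (x >>> o) % 2 ^ 128 = f k
  obtain ⟨m, rfl⟩ : ∃ m, n = k + (m + 1) := ⟨n - k - 1, by omega⟩
  rw [hx, ho, Nat.shiftRight_eq_div_pow, pow_mul, pk_split,
    Nat.add_mul_div_left _ _ (by positivity),
    Nat.div_eq_of_lt (pk_lt (by positivity) k f fun i hi => hf i (by omega)), Nat.zero_add, pk_succ,
    Nat.add_mul_mod_self_left, Nat.add_zero, Nat.mod_eq_of_lt (hf k hk)]

/-! ### moduli -/

def moN (x y : ℕ) : ℕ := max (x + y / 2) (y + x / 2) + 2

theorem pmo_eq {f : ℕ → ℕ} {y : ℕ} (hf : ∀ k < 108, f k < 2 ^ 125) (hy : y = pk (2 ^ 128) 108 f) :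
    pmo y = pk (2 ^ 128) 108 (fun k => if k % 3 = 0 then moN (f k) (f (k + 1)) else 0) := by
  have l1 : (2 : ℕ) ^ 125 < 2 ^ 128 := by norm_num
  have l2 : (2 : ℕ) ^ 128 = 2 * 2 ^ 127 := by norm_num
  have l3 : (2 : ℕ) ^ 127 = 4 * 2 ^ 125 := by norm_num
  have ea : y &&& MZ0 = pk (2 ^ 128) 108 (fun k => if k % 3 = 0 then f k else 0) := by
    rw [hy, MZ0_eq]
    exact land_sel 108 f (fun k => k % 3 = 0) (fun k hk => (hf k hk).trans l1)
  have eb : (y >>> 128) &&& MZ0 =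
      pk (2 ^ 128) 108 (fun k => if k % 3 = 0 then f (k + 1) else 0) := by
    rw [hy, MZ0_eq, show 108 = 107 + 1 from rfl, shr128 107 f ((hf 0 (by norm_num)).trans l1),
      land_sel (107 + 1) (fun k => if k < 107 then f (k + 1) else 0) (fun k => k % 3 = 0)
        (fun k hk => by
          show (if k < 107 then f (k + 1) else 0) < 2 ^ 128
          split_ifs with h
          · exact (hf _ (by omega)).trans l1
          · positivity)]
    refine pk_congr _ _ _ _ fun k hk => ?_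
    by_cases h : k % 3 = 0
    · rw [if_pos h, if_pos h, if_pos (by omega)]
    · rw [if_neg h, if_neg h]
  -- halves
  have half : ∀ g : ℕ → ℕ, (∀ k < 108, g k < 2 ^ 125) →
      (pk (2 ^ 128) 108 (fun k => if k % 3 = 0 then g k else 0) >>> 1) &&& MZ0 =
        pk (2 ^ 128) 108 (fun k => if k % 3 = 0 then g k / 2 else 0) := by
    intro g hg
    rw [shr1, MZ0_eq]
    rw [land_sel 108 _ (fun k => k % 3 = 0) (fun k hk => by
      show (if k % 3 = 0 then g k else 0) / 2 + 2 ^ 127 *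
        (if k + 1 < 108 then (if (k + 1) % 3 = 0 then g (k + 1) else 0) % 2 else 0) < 2 ^ 128
      have a1 : (if k % 3 = 0 then g k else 0) / 2 < 2 ^ 127 := by
        split_ifs with h
        · have := hg k hk
          omega
        · positivity
      have a2 : (if k + 1 < 108 then (if (k + 1) % 3 = 0 then g (k + 1) else 0) % 2 else 0) ≤ 1 := by
        split_ifs
        · omega
        · omega
        · omega
      have a3 := Nat.mul_le_mul_left (2 ^ 127) a2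
      omega)]
    refine pk_congr _ _ _ _ fun k hk => ?_
    by_cases h : k % 3 = 0
    · have h' : ¬ (k + 1) % 3 = 0 := by omega
      simp only [h, h', if_true, if_false, Nat.zero_mod, ite_self, Nat.mul_zero, Nat.add_zero]
    · rw [if_neg h, if_neg h]
  set g : ℕ → ℕ := fun k => if k < 107 then f (k + 1) else 0 with hgdef
  have hg : ∀ k < 108, g k < 2 ^ 125 := fun k hk => by
    show (if k < 107 then f (k + 1) else 0) < 2 ^ 125
    split_ifs with h
    · exact hf _ (by omega)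
    · positivity
  have eg : pk (2 ^ 128) 108 (fun k => if k % 3 = 0 then f (k + 1) else 0) =
      pk (2 ^ 128) 108 (fun k => if k % 3 = 0 then g k else 0) := by
    refine pk_congr _ _ _ _ fun k hk => ?_
    by_cases h : k % 3 = 0
    · rw [if_pos h, if_pos h]
      show _ = if k < 107 then f (k + 1) else 0
      rw [if_pos (by omega)]
    · rw [if_neg h, if_neg h]
  rw [eg] at eb
  show Nat.add (pmax HZ ((y &&& MZ0) + ((((y >>> 128) &&& MZ0) >>> 1) &&& MZ0))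
    (((y >>> 128) &&& MZ0) + (((y &&& MZ0) >>> 1) &&& MZ0))) TWZ = _
  rw [ea, eb, half f hf, half g hg, pk_add, pk_add]
  have b1 : ∀ k < 108, (if k % 3 = 0 then f k else 0) + (if k % 3 = 0 then g k / 2 else 0) < 2 ^ 127 := by
    intro k hk
    have h1 := hf k hk
    have h2 := hg k hk
    split_ifs <;> omega
  have b2 : ∀ k < 108, (if k % 3 = 0 then g k else 0) + (if k % 3 = 0 then f k / 2 else 0) < 2 ^ 127 := by
    intro k hk
    have h1 := hf k hk
    have h2 := hg k hk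
    split_ifs <;> omega
  have e5 := pmax_eq b1 b2 rfl rfl
  rw [e5, TWZ_eq]
  have e6 := pk_add (2 ^ 128) 108 (fun k => max
    ((if k % 3 = 0 then f k else 0) + (if k % 3 = 0 then g k / 2 else 0))
    ((if k % 3 = 0 then g k else 0) + (if k % 3 = 0 then f k / 2 else 0)))
    (fun k => if k % 3 = 0 then 2 else 0)
  refine e6.trans (pk_congr _ _ _ _ fun k hk => ?_)
  by_cases h : k % 3 = 0
  · rw [if_pos h, if_pos h, if_pos h, if_pos h, if_pos h, if_pos h]
    have : g k = f (k + 1) := if_pos (by omega)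
    rw [this]
    rfl
  · rw [if_neg h, if_neg h, if_neg h, if_neg h, if_neg h, if_neg h]
    rfl

theorem norm_le_mo {x y : ℝ} {a b : ℕ} (hx : |x| ≤ a + 1) (hy : |y| ≤ b + 1) :
    ‖(⟨x, y⟩ : ℂ)‖ ≤ (moN a b : ℝ) := by
  have h0 : (0 : ℝ) ≤ (moN a b : ℝ) := Nat.cast_nonneg _
  rw [Complex.norm_def, Complex.normSq_mk]
  refine Real.sqrt_le_iff.2 ⟨h0, ?_⟩
  have hx2 : x * x ≤ ((a : ℝ) + 1) ^ 2 := by
    have := mul_self_le_mul_self (abs_nonneg x) hx
    rw [abs_mul_abs_self] at this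
    linarith
  have hy2 : y * y ≤ ((b : ℝ) + 1) ^ 2 := by
    have := mul_self_le_mul_self (abs_nonneg y) hy
    rw [abs_mul_abs_self] at this
    linarith
  have ha : (0 : ℝ) ≤ a := Nat.cast_nonneg a
  have hb : (0 : ℝ) ≤ b := Nat.cast_nonneg b
  have hal : ((a : ℝ) - 1) / 2 ≤ ((a / 2 : ℕ) : ℝ) := by
    have : a ≤ 2 * (a / 2) + 1 := by omega
    have : (a : ℝ) ≤ 2 * ((a / 2 : ℕ) : ℝ) + 1 := by exact_mod_cast this
    linarith
  have hbl : ((b : ℝ) - 1) / 2 ≤ ((b / 2 : ℕ) : ℝ) := by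
    have : b ≤ 2 * (b / 2) + 1 := by omega
    have : (b : ℝ) ≤ 2 * ((b / 2 : ℕ) : ℝ) + 1 := by exact_mod_cast this
    linarith
  have m1 : (a : ℝ) + b / 2 + 3 / 2 ≤ (moN a b : ℝ) := by
    have : a + b / 2 + 2 ≤ moN a b := by
      unfold moN
      exact Nat.add_le_add_right (le_max_left _ _) 2
    have h2 : (a : ℝ) + ((b / 2 : ℕ) : ℝ) + 2 ≤ (moN a b : ℝ) := by exact_mod_cast this
    linarith
  have m2 : (b : ℝ) + a / 2 + 3 / 2 ≤ (moN a b : ℝ) := by
    have : b + a / 2 + 2 ≤ moN a b := by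
      unfold moN
      exact Nat.add_le_add_right (le_max_right _ _) 2
    have h2 : (b : ℝ) + ((a / 2 : ℕ) : ℝ) + 2 ≤ (moN a b : ℝ) := by exact_mod_cast this
    linarith
  rcases le_total (b : ℝ) a with h | h
  · have h3 : ((a : ℝ) + b / 2 + 3 / 2) ^ 2 ≤ (moN a b : ℝ) ^ 2 :=
      pow_le_pow_left₀ (by positivity) m1 2
    nlinarith [mul_nonneg hb (by linarith : 0 ≤ (a : ℝ) - b)]
  · have h3 : ((b : ℝ) + a / 2 + 3 / 2) ^ 2 ≤ (moN a b : ℝ) ^ 2 :=
      pow_le_pow_left₀ (by positivity) m2 2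
    nlinarith [mul_nonneg ha (by linarith : 0 ≤ (b : ℝ) - a)]

theorem ad_real {a b g : ℕ} (h : ad a b ≤ g) : |(a : ℝ) - b| ≤ g + 1 := by
  have h1 := le_ad a b
  have h2 : |((a : ℤ) - (b : ℤ) : ℤ)| ≤ (g : ℤ) + 1 := by
    have : (ad a b : ℤ) ≤ g := by exact_mod_cast h
    linarith
  have h3 : ((|((a : ℤ) - (b : ℤ) : ℤ)| : ℤ) : ℝ) ≤ (((g : ℤ) + 1 : ℤ) : ℝ) := by exact_mod_cast h2
  push_cast at h3
  exact h3

/-! ### lists -/

/-- a valid list -/
def LV : List ℕ → Prop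
  | [] => True
  | y :: l => (∃ g : ℕ → ℕ, y = pk (2 ^ 128) 108 g ∧ ∀ k < 108, g k < 2 ^ 125) ∧ LV l

/-- the list bounds the differences of the controls `c` -/
def LB : (D : ℕ) → (Vt D → ℕ → ℕ) → List ℕ → Prop
  | 0, _, l => l = []
  | _ + 1, _, [] => False
  | D + 1, c, y :: l => (∃ g : ℕ → ℕ, y = pk (2 ^ 128) 108 g ∧ (∀ k < 108, g k < 2 ^ 125) ∧
      ∀ u : Vt D, ∀ k < 108, dg0 (c (u, 0)) (c (u, 1)) (c (u, 2)) k ≤ g k) ∧
      ∀ i : Fin 3, LB D (fun u => c (u, i)) l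

theorem LB.len : ∀ {D : ℕ} {c : Vt D → ℕ → ℕ} {l : List ℕ}, LB D c l → l.length = D
  | 0, _, _, h => by rw [show _ = [] from h]; rfl
  | _ + 1, _, [], h => h.elim
  | D + 1, c, y :: l, h => by
    rw [List.length_cons, LB.len (h.2 0)]

theorem LB.lv : ∀ {D : ℕ} {c : Vt D → ℕ → ℕ} {l : List ℕ}, LB D c l → LV l
  | 0, _, _, h => by rw [show _ = [] from h]; trivial
  | _ + 1, _, [], h => h.elim
  | D + 1, c, y :: l, h => by
    obtain ⟨⟨g, h1, h2, _⟩, h4⟩ := h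
    exact ⟨⟨g, h1, h2⟩, LB.lv (h4 0)⟩

theorem mgL_cons (x : ℕ) (l : List ℕ) (y : ℕ) (l' : List ℕ) :
    mgL HZ (x :: l) (y :: l') = pmax HZ x y :: mgL HZ l l' := rfl
theorem mgL_nil (l' : List ℕ) : mgL HZ [] l' = [] := rfl

theorem LB.left : ∀ {D : ℕ} {c : Vt D → ℕ → ℕ} {l l' : List ℕ}, LB D c l → LV l' →
    l'.length = D → LB D c (mgL HZ l l')
  | 0, _, l, l', h, _, _ => by rw [show l = [] from h]; rfl
  | _ + 1, _, [], _, h, _, _ => h.elim
  | _ + 1, _, _ :: _, [], _, _, hl => by cases hl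
  | D + 1, c, x :: l, y :: l', h, hv, hl => by
    obtain ⟨⟨g, h1, h2, h3⟩, h4⟩ := h
    obtain ⟨⟨g', k1, k2⟩, k3⟩ := hv
    have l1 : (2 : ℕ) ^ 125 < 2 ^ 127 := by norm_num
    rw [mgL_cons]
    refine ⟨⟨fun k => max (g k) (g' k), pmax_eq (fun k hk => (h2 k hk).trans l1)
      (fun k hk => (k2 k hk).trans l1) h1 k1, fun k hk => max_lt (h2 k hk) (k2 k hk),
      fun u k hk => (h3 u k hk).trans (le_max_left _ _)⟩, fun i => ?_⟩
    exact LB.left (h4 i) k3 (by simpa using hl)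

theorem LB.right : ∀ {D : ℕ} {c : Vt D → ℕ → ℕ} {l l' : List ℕ}, LB D c l' → LV l →
    l.length = D → LB D c (mgL HZ l l')
  | 0, _, l, l', _, _, hl => by
    rw [List.length_eq_zero_iff] at hl
    rw [hl]
    rfl
  | _ + 1, _, _, [], h, _, _ => h.elim
  | _ + 1, _, [], _ :: _, _, _, hl => by cases hl
  | D + 1, c, x :: l, y :: l', h, hv, hl => by
    obtain ⟨⟨g, h1, h2, h3⟩, h4⟩ := h
    obtain ⟨⟨g', k1, k2⟩, k3⟩ := hv
    have l1 : (2 : ℕ) ^ 125 < 2 ^ 127 := by norm_num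
    rw [mgL_cons]
    refine ⟨⟨fun k => max (g' k) (g k), pmax_eq (fun k hk => (k2 k hk).trans l1)
      (fun k hk => (h2 k hk).trans l1) k1 h1, fun k hk => max_lt (k2 k hk) (h2 k hk),
      fun u k hk => (h3 u k hk).trans (le_max_right _ _)⟩, fun i => ?_⟩
    exact LB.right (h4 i) k3 (by simpa using hl)

theorem LV.mg : ∀ {l l' : List ℕ}, LV l → LV l' → l.length = l'.length →
    LV (mgL HZ l l') ∧ (mgL HZ l l').length = l.length
  | [], _, _, _, _ => ⟨trivial, rfl⟩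
  | _ :: _, [], _, _, hl => by cases hl
  | x :: l, y :: l', h, h', hl => by
    obtain ⟨⟨g, h1, h2⟩, h3⟩ := h
    obtain ⟨⟨g', k1, k2⟩, k3⟩ := h'
    have l1 : (2 : ℕ) ^ 125 < 2 ^ 127 := by norm_num
    obtain ⟨i1, i2⟩ := LV.mg h3 k3 (by simpa using hl)
    rw [mgL_cons]
    refine ⟨⟨⟨fun k => max (g k) (g' k), pmax_eq (fun k hk => (h2 k hk).trans l1)
      (fun k hk => (k2 k hk).trans l1) h1 k1, fun k hk => max_lt (h2 k hk) (k2 k hk)⟩, i1⟩, ?_⟩
    rw [List.length_cons, List.length_cons, i2]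

theorem pmL_cons (y : ℕ) (l : List ℕ) : pmL (y :: l) = pmo y :: pmL l := rfl
theorem mdL_cons (o p y : ℕ) (l : List ℕ) : mdL o p (y :: l) = ⟨dgt y o, dgt y p⟩ :: mdL o p l := rfl
theorem rlD_cons (x : DG) (l : List DG) : rlD (x :: l) = ((x.D : ℝ), (x.G : ℝ) / 2) :: rlD l := rfl

/-- the bounds of an entry -/
theorem DL_of_LB {K : ℕ} (hK : K < 18) : ∀ {D : ℕ} {c : Vt D → ℕ → ℕ} {l : List ℕ}, LB D c l →
    DL D (fun u => (⟨(c u (3 * K) : ℝ), (c u (3 * K + 1) : ℝ)⟩ : ℂ))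
      (rlD (mdL (384 * K) (384 * K + 6912) (pmL l)))
  | 0, _, _, _ => trivial
  | _ + 1, _, [], h => h.elim
  | D + 1, c, y :: l, h => by
    obtain ⟨⟨g, h1, h2, h3⟩, h4⟩ := h
    rw [pmL_cons, mdL_cons, rlD_cons]
    have hm := pmo_eq h2 h1
    have hb : ∀ k < 108, (if k % 3 = 0 then moN (g k) (g (k + 1)) else 0) < 2 ^ 128 := by
      intro k hk
      have l3 : (2 : ℕ) ^ 128 = 8 * 2 ^ 125 := by norm_num
      split_ifs with h
      · have a1 := h2 k hk
        have a2 := h2 (k + 1) (by omega)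
        unfold moN
        have : max (g k + g (k + 1) / 2) (g (k + 1) + g k / 2) ≤ 2 ^ 125 + 2 ^ 125 :=
          max_le (by omega) (by omega)
        omega
      · positivity
    have d1 : dgt (pmo y) (384 * K) = moN (g (3 * K)) (g (3 * K + 1)) := by
      rw [dgt_eq hb (k := 3 * K) (by omega) hm (by ring), if_pos (by omega)]
    have d2 : dgt (pmo y) (384 * K + 6912) = moN (g (54 + 3 * K)) (g (54 + 3 * K + 1)) := by
      rw [dgt_eq hb (k := 54 + 3 * K) (by omega) hm (by ring), if_pos (by omega)]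
    have dig : ∀ u : Vt D, ∀ k < 54, ad (c (u, 2) k) (c (u, 0) k) ≤ g k ∧
        ad (2 * c (u, 1) k) (c (u, 0) k + c (u, 2) k) ≤ g (54 + k) := by
      intro u k hk
      have e1 := h3 u k (by omega)
      have e2 := h3 u (54 + k) (by omega)
      unfold dg0 at e1 e2
      rw [if_pos hk] at e1
      rw [if_neg (by omega), Nat.add_sub_cancel_left] at e2
      exact ⟨e1, e2⟩
    refine ⟨fun u => ?_, fun u => ?_, fun i => DL_of_LB hK (h4 i)⟩
    · show ‖(⟨(c (u, 2) (3 * K) : ℝ), (c (u, 2) (3 * K + 1) : ℝ)⟩ : ℂ) -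
        ⟨(c (u, 0) (3 * K) : ℝ), (c (u, 0) (3 * K + 1) : ℝ)⟩‖ ≤ (dgt (pmo y) (384 * K) : ℝ)
      rw [d1]
      exact norm_le_mo (ad_real (dig u (3 * K) (by omega)).1)
        (ad_real (dig u (3 * K + 1) (by omega)).1)
    · show ‖(⟨(c (u, 1) (3 * K) : ℝ), (c (u, 1) (3 * K + 1) : ℝ)⟩ : ℂ) -
        ((⟨(c (u, 0) (3 * K) : ℝ), (c (u, 0) (3 * K + 1) : ℝ)⟩ : ℂ) +
          ⟨(c (u, 2) (3 * K) : ℝ), (c (u, 2) (3 * K + 1) : ℝ)⟩) / 2‖ ≤
        (dgt (pmo y) (384 * K + 6912) : ℝ) / 2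
      rw [d2]
      have n2 : ‖(2 : ℂ)‖ = 2 := by norm_num
      have e : (⟨(c (u, 1) (3 * K) : ℝ), (c (u, 1) (3 * K + 1) : ℝ)⟩ : ℂ) -
          ((⟨(c (u, 0) (3 * K) : ℝ), (c (u, 0) (3 * K + 1) : ℝ)⟩ : ℂ) +
            ⟨(c (u, 2) (3 * K) : ℝ), (c (u, 2) (3 * K + 1) : ℝ)⟩) / 2 =
          (⟨((2 * c (u, 1) (3 * K) : ℕ) : ℝ) - ((c (u, 0) (3 * K) + c (u, 2) (3 * K) : ℕ) : ℝ),
            ((2 * c (u, 1) (3 * K + 1) : ℕ) : ℝ) -
              ((c (u, 0) (3 * K + 1) + c (u, 2) (3 * K + 1) : ℕ) : ℝ)⟩ : ℂ) / 2 := by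
        rw [eq_div_iff (by norm_num : (2 : ℂ) ≠ 0), sub_mul, div_mul_cancel₀ _ (by norm_num)]
        apply Complex.ext
        · simp
          ring
        · simp
          ring
      rw [e, norm_div, n2]
      have := norm_le_mo (ad_real (dig u (3 * K) (by omega)).2)
        (ad_real (dig u (3 * K + 1) (by omega)).2)
      rw [← Nat.add_assoc] at this
      linarith

/-! ### the laws -/

/-- laws of the packed differences (54 digits) -/
structure DlL {ν ζ κ : Type} (D : ℕ) (lv : ν → Vt D → ℕ) (T : Tl ν ζ κ) : Prop where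
  len : ∀ x, (T.dl HZ LZ x).length = D
  dt : ∀ (a c b : ν) (ca cc cb : Vt D → ℕ → ℕ), (∀ u, lv a u = pk (2 ^ 128) 54 (ca u)) →
    (∀ u, lv c u = pk (2 ^ 128) 54 (cc u)) → (∀ u, lv b u = pk (2 ^ 128) 54 (cb u)) →
    (∀ u, ∀ k < 54, ca u k < 2 ^ 123) → (∀ u, ∀ k < 54, cc u k < 2 ^ 123) →
    (∀ u, ∀ k < 54, cb u k < 2 ^ 123) → ∃ g : ℕ → ℕ, T.dt HZ LZ a c b = pk (2 ^ 128) 108 g ∧
      (∀ k < 108, g k < 2 ^ 125) ∧ ∀ u, ∀ k < 108, dg0 (ca u) (cc u) (cb u) k ≤ g k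
  lb : ∀ (x : ν) (c : Vt D → ℕ → ℕ), (∀ u, lv x u = pk (2 ^ 128) 54 (c u)) →
    (∀ u, ∀ k < 54, c u k < 2 ^ 123) → LB D c (T.dl HZ LZ x)
  dl : ∀ (x : ν) (c : Vt D → ℕ → ℕ), (∀ u, lv x u = pk (2 ^ 128) 54 (c u)) →
    (∀ u, ∀ k < 54, c u k < 2 ^ 123) → (∀ u, ∀ k < 54, k % 3 = 2 → c u k = 0) → ∀ K < 18,
    DL D (fun u => (⟨(c u (3 * K) : ℝ), (c u (3 * K + 1) : ℝ)⟩ : ℂ))
      (rlD (mdL (384 * K) (384 * K + 6912) (pmL (T.dl HZ LZ x))))

theorem DlL0 : DlL 0 lv0 Tl0 where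
  len _ := rfl
  dt a c b ca cc cb ha hc hb ba bc bb :=
    ⟨dg0 (ca ()) (cc ()) (cb ()), dt0_eq (ha ()) (hc ()) (hb ()) (ba ()) (bc ()) (bb ()),
      dg0_lt (ba ()) (bc ()) (bb ()), fun _ _ _ => le_rfl⟩
  lb _ _ _ _ := rfl
  dl _ _ _ _ _ _ _ := trivial

theorem DlL_nx {ν ζ κ κ' : Type} {D : ℕ} {lv : ν → Vt D → ℕ} {T : Tl ν ζ κ} (h : DlL D lv T)
    (ga gc gb : κ' → κ) : DlL (D + 1) (tlf lv) (nxTl ga gc gb T) := by
  have len' : ∀ l l' l'' : List ℕ, l.length = D → l'.length = D → l''.length = D →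
      (mgL HZ l (mgL HZ l' l'')).length = D := by
    have aux : ∀ (n : ℕ) (l l' : List ℕ), l.length = n → l'.length = n →
        (mgL HZ l l').length = n := by
      intro n
      induction n with
      | zero =>
        intro l l' hl _
        rw [List.length_eq_zero_iff] at hl
        rw [hl]
        rfl
      | succ n ih =>
        intro l l' hl hl'
        cases l with
        | nil => cases hl
        | cons x l =>
          cases l' with
          | nil => cases hl'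
          | cons y l' =>
            rw [mgL_cons, List.length_cons, ih l l' (by simpa using hl) (by simpa using hl')]
    intro l l' l'' h1 h2 h3
    exact aux D _ _ h1 (aux D _ _ h2 h3)
  have hdt : ∀ (a c b : Tr ν) (ca cc cb : Vt (D + 1) → ℕ → ℕ),
      (∀ u, tlf lv a u = pk (2 ^ 128) 54 (ca u)) → (∀ u, tlf lv c u = pk (2 ^ 128) 54 (cc u)) →
      (∀ u, tlf lv b u = pk (2 ^ 128) 54 (cb u)) → (∀ u, ∀ k < 54, ca u k < 2 ^ 123) →
      (∀ u, ∀ k < 54, cc u k < 2 ^ 123) → (∀ u, ∀ k < 54, cb u k < 2 ^ 123) →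
      ∃ g : ℕ → ℕ, (nxTl ga gc gb T).dt HZ LZ a c b = pk (2 ^ 128) 108 g ∧
      (∀ k < 108, g k < 2 ^ 125) ∧ ∀ u, ∀ k < 108, dg0 (ca u) (cc u) (cb u) k ≤ g k := by
    intro a c b ca cc cb ha hc hb ba bc bb
    obtain ⟨g0, p0, q0, r0⟩ := h.dt a.a c.a b.a (fun u => ca (u, 0)) (fun u => cc (u, 0))
      (fun u => cb (u, 0)) (fun u => ha (u, 0)) (fun u => hc (u, 0)) (fun u => hb (u, 0))
      (fun u => ba (u, 0)) (fun u => bc (u, 0)) (fun u => bb (u, 0))
    obtain ⟨g1, p1, q1, r1⟩ := h.dt a.c c.c b.c (fun u => ca (u, 1)) (fun u => cc (u, 1))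
      (fun u => cb (u, 1)) (fun u => ha (u, 1)) (fun u => hc (u, 1)) (fun u => hb (u, 1))
      (fun u => ba (u, 1)) (fun u => bc (u, 1)) (fun u => bb (u, 1))
    obtain ⟨g2, p2, q2, r2⟩ := h.dt a.b c.b b.b (fun u => ca (u, 2)) (fun u => cc (u, 2))
      (fun u => cb (u, 2)) (fun u => ha (u, 2)) (fun u => hc (u, 2)) (fun u => hb (u, 2))
      (fun u => ba (u, 2)) (fun u => bc (u, 2)) (fun u => bb (u, 2))
    have l1 : (2 : ℕ) ^ 125 < 2 ^ 127 := by norm_num
    refine ⟨fun k => max (g0 k) (max (g1 k) (g2 k)), ?_, fun k hk =>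
      max_lt (q0 k hk) (max_lt (q1 k hk) (q2 k hk)), ?_⟩
    · show pmax HZ _ (pmax HZ _ _) = _
      exact pmax_eq (fun k hk => (q0 k hk).trans l1)
        (fun k hk => (max_lt (q1 k hk) (q2 k hk)).trans l1) p0
        (pmax_eq (fun k hk => (q1 k hk).trans l1) (fun k hk => (q2 k hk).trans l1) p1 p2)
    · rintro ⟨u, i⟩ k hk
      fin_cases i
      · exact (r0 u k hk).trans (le_max_left _ _)
      · exact (r1 u k hk).trans ((le_max_left _ _).trans (le_max_right _ _))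
      · exact (r2 u k hk).trans ((le_max_right _ _).trans (le_max_right _ _))
  have hlb : ∀ (x : Tr ν) (c : Vt (D + 1) → ℕ → ℕ), (∀ u, tlf lv x u = pk (2 ^ 128) 54 (c u)) →
      (∀ u, ∀ k < 54, c u k < 2 ^ 123) → LB (D + 1) c ((nxTl ga gc gb T).dl HZ LZ x) := by
    intro x c hx hc
    have b0 := h.lb x.a (fun u => c (u, 0)) (fun u => hx (u, 0)) (fun u => hc (u, 0))
    have b1 := h.lb x.c (fun u => c (u, 1)) (fun u => hx (u, 1)) (fun u => hc (u, 1))
    have b2 := h.lb x.b (fun u => c (u, 2)) (fun u => hx (u, 2)) (fun u => hc (u, 2))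
    obtain ⟨g, p, q, r⟩ := h.dt x.a x.c x.b (fun u => c (u, 0)) (fun u => c (u, 1))
      (fun u => c (u, 2)) (fun u => hx (u, 0)) (fun u => hx (u, 1)) (fun u => hx (u, 2))
      (fun u => hc (u, 0)) (fun u => hc (u, 1)) (fun u => hc (u, 2))
    have m12 := LV.mg b1.lv b2.lv (b1.len.trans b2.len.symm)
    have L12 : (mgL HZ (T.dl HZ LZ x.c) (T.dl HZ LZ x.b)).length = D := m12.2.trans b1.len
    refine ⟨⟨g, p, q, r⟩, fun i => ?_⟩
    show LB D (fun u => c (u, i))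
      (mgL HZ (T.dl HZ LZ x.a) (mgL HZ (T.dl HZ LZ x.c) (T.dl HZ LZ x.b)))
    fin_cases i
    · exact b0.left m12.1 L12
    · exact LB.right (b1.left b2.lv b2.len) b0.lv b0.len
    · exact LB.right (LB.right b2 b1.lv b1.len) b0.lv b0.len
  refine ⟨fun x => ?_, hdt, hlb, fun x c hx hc _ K hK => DL_of_LB hK (hlb x c hx hc)⟩
  show (T.dt HZ LZ x.a x.c x.b :: mgL HZ (T.dl HZ LZ x.a) (mgL HZ (T.dl HZ LZ x.c)
    (T.dl HZ LZ x.b))).length = D + 1
  rw [List.length_cons, len' _ _ _ (h.len _) (h.len _) (h.len _)]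

theorem DlL_3 : DlL 3 lv3 Tl3 := DlL_nx (DlL_nx (DlL_nx DlL0 _ _ _) _ _ _) _ _ _
theorem DlL_4 : DlL 4 lv4 Tl4 := DlL_nx DlL_3 _ _ _

/-- the first control -/
theorem p0_ok {D : ℕ} (hD : D ≤ 4) {z : ℕ} {c : ℕ → ℕ} (hz : z = pk (2 ^ 128) 54 c)
    (hc : ∀ k < 54, c k < 2 ^ 123) (h2 : ∀ k < 54, k % 3 = 2 → c k = 0) (K : ℕ) (hK : K < 18) :
    ‖(⟨(c (3 * K) : ℝ) - 2 ^ (100 + D), (c (3 * K + 1) : ℝ) - 2 ^ (100 + D)⟩ : ℂ)‖ ≤
      (dgt (pmo (absd HZ LZ z (Nat.shiftLeft OQ2 D))) (384 * K) : ℝ) := by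
  set f : ℕ → ℕ := fun k => if k < 54 then c k else 0 with hf
  set g : ℕ → ℕ := fun k => if k < 54 then (if k % 3 < 2 then 2 ^ (100 + D) else 0) else 0 with hg
  have pD : (2 : ℕ) ^ (100 + D) ≤ 2 ^ 104 := Nat.pow_le_pow_right (by norm_num) (by omega)
  have l1 : (2 : ℕ) ^ 104 < 2 ^ 123 := by norm_num
  have l2 : (2 : ℕ) ^ 123 < 2 ^ 127 := by norm_num
  have fb : ∀ k < 108, f k < 2 ^ 123 := fun k _ => by
    show (if k < 54 then c k else 0) < 2 ^ 123
    split_ifs with h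
    · exact hc k h
    · positivity
  have gb : ∀ k < 108, g k < 2 ^ 123 := fun k _ => by
    show (if k < 54 then (if k % 3 < 2 then 2 ^ (100 + D) else 0) else 0) < 2 ^ 123
    split_ifs with h
    · exact lt_of_le_of_lt pD l1
    · positivity
    · positivity
  have ex : z = pk (2 ^ 128) 108 f := by
    rw [hz, show 108 = 54 + 54 from rfl,
      pk_extend (2 ^ 128) 54 54 f (fun k h1 _ => if_neg (by omega))]
    exact pk_congr _ _ _ _ fun k hk => (if_pos hk).symm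
  have ey : Nat.shiftLeft OQ2 D = pk (2 ^ 128) 108 g := by
    show OQ2 <<< D = _
    rw [Nat.shiftLeft_eq, OQ2_eq, Nat.mul_comm, pk_smul, show 108 = 54 + 54 from rfl,
      pk_extend (2 ^ 128) 54 54 g (fun k h1 _ => if_neg (by omega))]
    refine pk_congr _ _ _ _ fun k hk => ?_
    show _ = if k < 54 then (if k % 3 < 2 then 2 ^ (100 + D) else 0) else 0
    rw [if_pos hk]
    by_cases h : k % 3 < 2
    · rw [if_pos h, if_pos h, pow_add]; ring
    · rw [if_neg h, if_neg h, Nat.mul_zero]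
  have ea := absd_eq (fun k hk => (fb k hk).trans l2) (fun k hk => (gb k hk).trans l2) ex ey
  have ab : ∀ k < 108, ad (f k) (g k) < 2 ^ 125 := fun k hk =>
    lt_of_le_of_lt (ad_le (fb k hk).le (gb k hk).le) (by norm_num)
  have hm := pmo_eq ab ea
  have hb : ∀ k < 108, (if k % 3 = 0 then moN (ad (f k) (g k)) (ad (f (k + 1)) (g (k + 1))) else 0) <
      2 ^ 128 := by
    intro k hk
    have l3 : (2 : ℕ) ^ 128 = 8 * 2 ^ 125 := by norm_num
    split_ifs with h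
    · have a1 := ab k hk
      have a2 := ab (k + 1) (by omega)
      unfold moN
      have : max (ad (f k) (g k) + ad (f (k + 1)) (g (k + 1)) / 2)
          (ad (f (k + 1)) (g (k + 1)) + ad (f k) (g k) / 2) ≤ 2 ^ 125 + 2 ^ 125 :=
        max_le (by omega) (by omega)
      omega
    · positivity
  rw [dgt_eq hb (k := 3 * K) (by omega) hm (by ring), if_pos (by omega)]
  have hk0 : f (3 * K) = c (3 * K) := if_pos (by omega)
  have hk1 : f (3 * K + 1) = c (3 * K + 1) := if_pos (by omega)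
  have hg0 : g (3 * K) = 2 ^ (100 + D) := by
    show (if 3 * K < 54 then (if 3 * K % 3 < 2 then 2 ^ (100 + D) else 0) else 0) = _
    rw [if_pos (by omega), if_pos (by omega)]
  have hg1 : g (3 * K + 1) = 2 ^ (100 + D) := by
    show (if 3 * K + 1 < 54 then (if (3 * K + 1) % 3 < 2 then 2 ^ (100 + D) else 0) else 0) = _
    rw [if_pos (by omega), if_pos (by omega)]
  rw [hk0, hk1, hg0, hg1]
  have r0 := ad_real (le_refl (ad (c (3 * K)) (2 ^ (100 + D))))
  have r1 := ad_real (le_refl (ad (c (3 * K + 1)) (2 ^ (100 + D))))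
  push_cast at r0 r1
  exact norm_le_mo r0 r1

end Pool.Agent.Helper17.N9
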