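import Pool.Agent.Helper17.N9.N9B

/-!
Row K9 of MP_c75db0 (plan W), version 2, row R: arithmetic of the radii.
-/

set_option autoImplicit false
set_option exponentiation.threshold 60000
noncomputable section
namespace Pool.Agent.Helper17.N9

open Pool.Agent.Helper86.C75 (Z)
open Pool.Agent.Helper86.CX (Cx andB)
open Pool.Agent.Helper86.CT (N3 Mo)
open Pool.Agent.Helper90.C75 (Vt avg wtT)
open Pool.Agent.Helper90.KMO (zv cz UU)
open Pool.Agent.Helper90.KMT (nlf lf0 TOK PT DL NN)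
open Pool.Agent.Helper90.K9 (G pk pz)
open Pool.Agent.Helper17.K9 (V9)
open Pool.Agent.Helper62.TVM (TV)
open Pool.Agent.Helper6.MONO (V3)
open Pool.Agent.Helper6.MONO.W2 (Mt hr hv J1 NT)
open Finset Matrix

namespace RowR

/-! ### lists -/

theorem adL_nil (l' : List DG) : adL [] l' = [] := rfl

theorem adL_cons_nil (x : DG) (l : List DG) : adL (x :: l) [] = [] := rfl

theorem adL_cons (x y : DG) (l t : List DG) :
    adL (x :: l) (y :: t) = ⟨Nat.add x.D y.D, Nat.add x.G y.G⟩ :: adL l t := rfl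

theorem adL_len : ∀ {l l' : List DG}, l.length = l'.length → (adL l l').length = l.length
  | [], _, _ => rfl
  | _ :: _, [], h => by cases h
  | x :: l, y :: t, h => by
    rw [adL_cons, List.length_cons, List.length_cons, adL_len (by simpa using h)]

theorem rlD_nil : rlD [] = [] := rfl

theorem rlD_cons (x : DG) (l : List DG) : rlD (x :: l) = ((x.D : ℝ), (x.G : ℝ) / 2) :: rlD l := rfl

theorem ern_nil (l : List (ℝ × ℝ)) : ern [] l = 0 := rfl

theorem ern_nil' (l : List (ℝ × ℝ)) : ern l [] = 0 := by cases l <;> rfl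

theorem ern_cons (a b a' b' : ℝ) (l l' : List (ℝ × ℝ)) : ern ((a, b) :: l) ((a', b') :: l') =
    3 * (a * b' + b * a') / 31 + b * b' / 16 + 5 / 4 * ern l l' := rfl

/-- the error is additive in the second factor -/
theorem ern_adL : ∀ (l : List (ℝ × ℝ)) {m m' : List DG}, m.length = m'.length →
    ern l (rlD (adL m m')) = ern l (rlD m) + ern l (rlD m')
  | [], _, _, _ => by rw [ern_nil, ern_nil, ern_nil, add_zero]
  | _ :: _, [], [], _ => by rw [adL_nil, rlD_nil, ern_nil', add_zero]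
  | _ :: _, [], _ :: _, h => by cases h
  | _ :: _, _ :: _, [], h => by cases h
  | (a, b) :: l, x :: m, y :: m', h => by
    have ih := ern_adL l (m := m) (m' := m') (by simpa using h)
    rw [adL_cons, rlD_cons, rlD_cons, rlD_cons, ern_cons, ern_cons, ern_cons, ih]
    have e1 : ((DG.mk (Nat.add x.D y.D) (Nat.add x.G y.G)).D : ℝ) = (x.D : ℝ) + y.D :=
      Nat.cast_add x.D y.D
    have e2 : ((DG.mk (Nat.add x.D y.D) (Nat.add x.G y.G)).G : ℝ) = (x.G : ℝ) + y.G :=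
      Nat.cast_add x.G y.G
    rw [e1, e2]
    ring

/-! ### the error of the kernel -/

theorem er_nil (l : List DG) : er [] l = 0 := rfl

theorem er_nil' (l : List DG) : er l [] = 0 := by cases l <;> rfl

theorem er_cons (x y : DG) (l t : List DG) : er (x :: l) (y :: t) = er1 x y (er l t) := rfl

theorem er1_eq (x y : DG) (e : ℕ) : er1 x y e = 3 * (x.D * y.G + x.G * y.D) / 62 +
    x.G * y.G / 2 ^ 6 + (e + e / 2 ^ 2 + 4) := by
  rw [← Nat.shiftRight_eq_div_pow, ← Nat.shiftRight_eq_div_pow]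
  rfl

/-- division of natural numbers from below -/
theorem div_ge (n k : ℕ) (hk : 0 < k) : (n : ℝ) / k ≤ ((n / k : ℕ) : ℝ) + 1 := by
  have h : n < k * (n / k + 1) := Nat.lt_mul_div_succ n hk
  have hk' : (0 : ℝ) < k := by exact_mod_cast hk
  rw [div_le_iff₀ hk']
  have : (n : ℝ) ≤ ((k * (n / k + 1) : ℕ) : ℝ) := by exact_mod_cast h.le
  rw [Nat.cast_mul, Nat.cast_add, Nat.cast_one] at this
  linarith

theorem er1_ge (x y : DG) (e : ℕ) : 3 * ((x.D : ℝ) * ((y.G : ℝ) / 2) + (x.G : ℝ) / 2 * y.D) / 31 +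
    (x.G : ℝ) / 2 * ((y.G : ℝ) / 2) / 16 + 5 / 4 * (e : ℝ) ≤ (er1 x y e : ℝ) := by
  rw [er1_eq]
  have h1 := div_ge (3 * (x.D * y.G + x.G * y.D)) 62 (by norm_num)
  have h2 := div_ge (x.G * y.G) (2 ^ 6) (by norm_num)
  have h3 := div_ge e (2 ^ 2) (by norm_num)
  generalize hq1 : (3 * (x.D * y.G + x.G * y.D)) / 62 = q1 at h1 ⊢
  generalize hq2 : x.G * y.G / 2 ^ 6 = q2 at h2 ⊢
  generalize hq3 : e / 2 ^ 2 = q3 at h3 ⊢
  push_cast at h1 h2 h3 ⊢
  nlinarith

/-- THE ERROR OF THE KERNEL IS AN UPPER BOUND -/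
theorem er_ge : ∀ l l' : List DG, ern (rlD l) (rlD l') ≤ (er l l' : ℝ)
  | [], l' => by rw [rlD_nil, ern_nil, er_nil, Nat.cast_zero]
  | _ :: _, [] => by rw [rlD_nil, ern_nil', er_nil', Nat.cast_zero]
  | x :: l, y :: l' => by
    have ih := er_ge l l'
    rw [rlD_cons, rlD_cons, ern_cons, er_cons]
    have h := er1_ge x y (er l l')
    linarith

/-! ### rows -/

theorem rwa_l (x y : Rw) : (rwa x y).l = adL x.l y.l := rfl

/-- the radius of a product is additive -/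
theorem rrR_rwa (a x y : Rw) (h : x.l.length = y.l.length) :
    rrR a (rwa x y) = rrR a x + rrR a y := by
  unfold rrR
  rw [rwa_l, ern_adL _ h]
  have e1 : ((rwa x y).B : ℝ) = (x.B : ℝ) + y.B := Nat.cast_add x.B y.B
  have e2 : ((rwa x y).r : ℝ) = (x.r : ℝ) + y.r := Nat.cast_add x.r y.r
  rw [e1, e2]
  ring

theorem rwa_len (x y : Rw) (h : x.l.length = y.l.length) : (rwa x y).l.length = x.l.length :=
  adL_len h

theorem rr2_ge (x y : Rw) : rrR x y ≤ (rr2 x y : ℝ) := by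
  have h := er_ge x.l y.l
  have e : rr2 x y = x.r * y.B + y.r * x.B + x.r * y.r + er x.l y.l := rfl
  unfold rrR
  rw [e]
  push_cast
  linarith

/-- the sum of the nine rows -/
theorem rrR_sW {D : ℕ} (a : Rw) {A : W9} (hA : ∀ K < 9, (A.at K).l.length = D) :
    ∑ L ∈ range 9, rrR a (A.at L) = rrR a (sW A) := by
  have h0 : A.a.l.length = D := hA 0 (by norm_num)
  have h1 : A.b.l.length = D := hA 1 (by norm_num)
  have h2 : A.c.l.length = D := hA 2 (by norm_num)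
  have h3 : A.d.l.length = D := hA 3 (by norm_num)
  have h4 : A.e.l.length = D := hA 4 (by norm_num)
  have h5 : A.f.l.length = D := hA 5 (by norm_num)
  have h6 : A.g.l.length = D := hA 6 (by norm_num)
  have h7 : A.h.l.length = D := hA 7 (by norm_num)
  have h8 : A.i.l.length = D := hA 8 (by norm_num)
  have k7 : (rwa A.h A.i).l.length = D := (rwa_len _ _ (h7.trans h8.symm)).trans h7
  have k6 : (rwa A.g (rwa A.h A.i)).l.length = D := (rwa_len _ _ (h6.trans k7.symm)).trans h6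
  have k5 : (rwa A.f (rwa A.g (rwa A.h A.i))).l.length = D :=
    (rwa_len _ _ (h5.trans k6.symm)).trans h5
  have k4 : (rwa A.e (rwa A.f (rwa A.g (rwa A.h A.i)))).l.length = D :=
    (rwa_len _ _ (h4.trans k5.symm)).trans h4
  have k3 : (rwa A.d (rwa A.e (rwa A.f (rwa A.g (rwa A.h A.i))))).l.length = D :=
    (rwa_len _ _ (h3.trans k4.symm)).trans h3
  have k2 : (rwa A.c (rwa A.d (rwa A.e (rwa A.f (rwa A.g (rwa A.h A.i)))))).l.length = D :=
    (rwa_len _ _ (h2.trans k3.symm)).trans h2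
  have k1 : (rwa A.b (rwa A.c (rwa A.d (rwa A.e (rwa A.f (rwa A.g (rwa A.h A.i))))))).l.length
      = D := (rwa_len _ _ (h1.trans k2.symm)).trans h1
  unfold sW
  rw [rrR_rwa _ _ _ (h0.trans k1.symm), rrR_rwa _ _ _ (h1.trans k2.symm),
    rrR_rwa _ _ _ (h2.trans k3.symm), rrR_rwa _ _ _ (h3.trans k4.symm),
    rrR_rwa _ _ _ (h4.trans k5.symm), rrR_rwa _ _ _ (h5.trans k6.symm),
    rrR_rwa _ _ _ (h6.trans k7.symm), rrR_rwa _ _ _ (h7.trans h8.symm)]
  simp only [Finset.sum_range_succ, Finset.sum_range_zero]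
  show 0 + rrR a A.a + rrR a A.b + rrR a A.c + rrR a A.d + rrR a A.e + rrR a A.f + rrR a A.g
    + rrR a A.h + rrR a A.i = _
  ring

theorem rk_eq (s : ℕ) (x y sx sy : Rw) :
    rk s x y sx sy = (rr2 x sy + rr2 y sx) / 2 ^ s + 1242 := by
  rw [← Nat.shiftRight_eq_div_pow]
  rfl

theorem mkR_at (s : ℕ) (M A : W9) (sM sA : Rw) (K : ℕ) (hK : K < 9) :
    (mkR s M A sM sA).at K = rk s (M.at K) (A.at K) sM sA := by
  interval_cases K <;> rfl

/-! ### packed radii -/

theorem rp_eq (x y : ℕ) : rp x y = x + y * ((2 ^ 128) ^ 33) := by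
  have h : rp x y = x + y <<< 4224 := rfl
  rw [h, Nat.shiftLeft_eq, ← pow_mul]

theorem andBt {x y : Bool} (h : andB x y = true) : x = true ∧ y = true := by
  cases x <;> cases y <;> first | exact ⟨rfl, rfl⟩ | (exact absurd h (by decide))

theorem le36_ok {x : ℕ} (h : le36 x = true) : x ≤ 2 ^ 36 := by
  have : x ≤ 68719476736 := Nat.le_of_ble_eq_true h
  norm_num
  exact this

theorem smL_sum : ∀ l : List DG, (smL l : ℝ) = ((rlD l).map (fun x => x.1 + 2 * x.2)).sum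
  | [] => by
    show ((0 : ℕ) : ℝ) = _
    rw [rlD_nil, List.map_nil, List.sum_nil, Nat.cast_zero]
  | x :: l => by
    have ih := smL_sum l
    have e : smL (x :: l) = x.D + x.G + smL l := rfl
    rw [e, rlD_cons, List.map_cons, List.sum_cons, ← ih]
    push_cast
    ring

end RowR
open RowR

/-! ### the statements -/

/-- THE RADIUS OF A ROW -/
theorem mkR_ok {s D : ℕ} {M A : W9} (hM : ∀ K < 9, (M.at K).l.length = D)
    (hA : ∀ K < 9, (A.at K).l.length = D) (K : ℕ) (hK : K < 9) :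
    ∑ L ∈ range 9, (rrR (M.at K) (A.at L) + rrR (A.at K) (M.at L)) ≤
      2 ^ s * (((mkR s M A (sW M) (sW A)).at K : ℝ) - 1241) := by
  rw [Finset.sum_add_distrib, rrR_sW _ hA, rrR_sW _ hM, mkR_at _ _ _ _ _ K hK, rk_eq]
  have h1 := rr2_ge (M.at K) (sW A)
  have h2 := rr2_ge (A.at K) (sW M)
  have hs : 0 < 2 ^ s := by positivity
  have h3 : rr2 (M.at K) (sW A) + rr2 (A.at K) (sW M) <
      2 ^ s * ((rr2 (M.at K) (sW A) + rr2 (A.at K) (sW M)) / 2 ^ s + 1) :=
    Nat.lt_mul_div_succ _ hs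
  generalize (rr2 (M.at K) (sW A) + rr2 (A.at K) (sW M)) / 2 ^ s = q at h3 ⊢
  have h4 : ((rr2 (M.at K) (sW A) + rr2 (A.at K) (sW M) : ℕ) : ℝ) ≤
      ((2 ^ s * (q + 1) : ℕ) : ℝ) := by exact_mod_cast h3.le
  push_cast at h4 ⊢
  have e : (2 : ℝ) ^ s * ((q : ℝ) + 1242 - 1241) = 2 ^ s * ((q : ℝ) + 1) := by ring
  rw [e]
  linarith

/-- the packed radii are the digits of helper90's `RdC` -/
theorem pkR_eq (R : R9) : pkR R = Pool.Agent.Helper90.C9.RdC R.at := by
  unfold pkR Pool.Agent.Helper90.C9.RdC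
  simp only [rp_eq, pow_mul, Finset.sum_range_succ, Finset.sum_range_zero]
  generalize ((2 ^ 128) ^ 33 : ℕ) = B
  show _ = 0 + R.a * B ^ 0 + R.b * B + R.c * B ^ 2 + R.d * B ^ 3 + R.e * B ^ 4 + R.f * B ^ 5
    + R.g * B ^ 6 + R.h * B ^ 7 + R.i * B ^ 8
  ring

theorem okR_ok {R : R9} (h : okR R = true) : ∀ K < 9, R.at K ≤ 2 ^ 36 := by
  unfold okR at h
  obtain ⟨h0, h⟩ := andBt h
  obtain ⟨h1, h⟩ := andBt h
  obtain ⟨h2, h⟩ := andBt h
  obtain ⟨h3, h⟩ := andBt h
  obtain ⟨h4, h⟩ := andBt h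
  obtain ⟨h5, h⟩ := andBt h
  obtain ⟨h6, h⟩ := andBt h
  obtain ⟨h7, h8⟩ := andBt h
  intro K hK
  interval_cases K
  · exact le36_ok h0
  · exact le36_ok h1
  · exact le36_ok h2
  · exact le36_ok h3
  · exact le36_ok h4
  · exact le36_ok h5
  · exact le36_ok h6
  · exact le36_ok h7
  · exact le36_ok h8

theorem okB_ok {b : ℕ} {x : W9} (h : okB b x = true) : ∀ K < 9, (x.at K).B ≤ b := by
  unfold okB at h
  obtain ⟨h0, h⟩ := andBt h
  obtain ⟨h1, h⟩ := andBt h
  obtain ⟨h2, h⟩ := andBt h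
  obtain ⟨h3, h⟩ := andBt h
  obtain ⟨h4, h⟩ := andBt h
  obtain ⟨h5, h⟩ := andBt h
  obtain ⟨h6, h⟩ := andBt h
  obtain ⟨h7, h8⟩ := andBt h
  intro K hK
  interval_cases K
  · exact Nat.le_of_ble_eq_true h0
  · exact Nat.le_of_ble_eq_true h1
  · exact Nat.le_of_ble_eq_true h2
  · exact Nat.le_of_ble_eq_true h3
  · exact Nat.le_of_ble_eq_true h4
  · exact Nat.le_of_ble_eq_true h5
  · exact Nat.le_of_ble_eq_true h6
  · exact Nat.le_of_ble_eq_true h7
  · exact Nat.le_of_ble_eq_true h8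

/-- the rows -/
theorem mkWM_at (d p0 : ℕ) (l : List ℕ) (r : M9) (K : ℕ) (hK : K < 9) : (mkWM d p0 l r).at K =
    mkRw (384 * K) (384 * K + 6912) p0 (r.at K * 2 ^ d) l := by
  rw [← Nat.shiftLeft_eq]
  interval_cases K <;> rfl

theorem mkWX_at (d p0 : ℕ) (l : List ℕ) (r : M9) (K : ℕ) (hK : K < 9) : (mkWX d p0 l r).at K =
    mkRw (384 * (K + 9)) (384 * (K + 9) + 6912) p0 (r.at K * 2 ^ d) l := by
  rw [← Nat.shiftLeft_eq]
  interval_cases K <;> rfl

/-- the bound of a row: sum of the list -/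
theorem mkRw_B (o p p0 r : ℕ) (l : List ℕ) : ((mkRw o p p0 r l).B : ℝ) = (dgt p0 o : ℝ) +
    ((rlD (mdL o p l)).map (fun x => x.1 + 2 * x.2)).sum := by
  rw [← smL_sum]
  exact Nat.cast_add (dgt p0 o) (smL (mdL o p l))

end Pool.Agent.Helper17.N9
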