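import Pool.Agent.Helper17.N9.N9C
import Pool.Agent.Helper17.N9.N9L
import Pool.Agent.Helper17.N9.N9R
import Pool.Agent.Helper90.CX.KCT3

/-!
Row K9 of MP_c75db0 (plan W), version 2, part O: the rows of the radii from the packed controls.
-/

set_option autoImplicit false
set_option exponentiation.threshold 60000
noncomputable section
namespace Pool.Agent.Helper17.N9

open Pool.Agent.Helper86.C75 (Z)
open Pool.Agent.Helper90.C75 (Vt avg wtT)
open Pool.Agent.Helper90.KMT (DL NN PT DL_shift)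
open Pool.Agent.Helper90.K9 (G pk pz pk_cast pz_congr pk_congr)
open Finset

/-- the digits of a vector without offset -/
def qf (I : VA) (k : ℕ) : ℤ :=
  if k % 3 = 0 then I (k / 3) 0 else if k % 3 = 1 then I (k / 3) 1 else 0
/-- the offset -/
def qo (k : ℕ) : ℤ := if k % 3 < 2 then 2 ^ 100 else 0

theorem qd_eq (I : VA) (k : ℕ) : qd I k = qo k + qf I k := by
  unfold qd qo qf
  have h : k % 3 < 3 := Nat.mod_lt _ (by norm_num)
  by_cases h0 : k % 3 = 0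
  · rw [if_pos h0, if_pos h0, if_pos (by omega)]
  · rw [if_neg h0, if_neg h0]
    by_cases h1 : k % 3 = 1
    · rw [if_pos h1, if_pos h1, if_pos (by omega)]
    · rw [if_neg h1, if_neg h1, if_neg (by omega)]
      rfl

/-- digits of two vectors -/
def qf2 (I J : VA) (k : ℕ) : ℤ := if k < 27 then qf I k else qf J (k - 27)

theorem two_3456 : (2 : ℤ) ^ 3456 = BB ^ 27 := two_BB 27

theorem shl_cast (x y k : ℕ) {B : ℤ} (h : (2 : ℤ) ^ k = B) :
    ((x + y <<< k : ℕ) : ℤ) = (x : ℤ) + (y : ℤ) * B := by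
  rw [Nat.shiftLeft_eq]
  push_cast
  rw [h]

theorem qf2_lo (I J : VA) {k : ℕ} (hk : k < 27) : qf2 I J k = qf I k := if_pos hk
theorem qf2_hi (I J : VA) (k : ℕ) : qf2 I J (27 + k) = qf J k := by
  unfold qf2
  rw [if_neg (by omega), Nat.add_sub_cancel_left]
theorem qo_hi (k : ℕ) : qo (27 + k) = qo k := by
  unfold qo
  rw [show (27 + k) % 3 = k % 3 from by omega]

theorem zc0_pz {x y : ℕ} {I J : VA} (hx : (x : ℤ) = pz BB 27 (qd I))
    (hy : (y : ℤ) = pz BB 27 (qd J)) :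
    ((zc0 x y : ℕ) : ℤ) = pz BB 54 (fun k => qo k + qf2 I J k) := by
  have e : ((zc0 x y : ℕ) : ℤ) = (x : ℤ) + (y : ℤ) * BB ^ 27 := shl_cast x y 3456 two_3456
  rw [e, hx, hy, pz_sum, pz_sum, pz_sum, show (54 : ℕ) = 27 + 27 from rfl, sum_range_add, sum_mul]
  refine congrArg₂ (· + ·) ?_ ?_
  · refine sum_congr rfl fun k hk => ?_
    rw [qf2_lo _ _ (mem_range.1 hk), qd_eq]
  · refine sum_congr rfl fun k _ => ?_
    rw [qf2_hi, qo_hi, qd_eq, pow_add]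
    ring

theorem qf_le {I : VA} {b : ℤ} (hb : 0 ≤ b) (h : ∀ K < 9, ∀ e, |I K e| ≤ b) {k : ℕ} (hk : k < 27) :
    |qf I k| ≤ b := by
  unfold qf
  split_ifs
  · exact h _ (by omega) _
  · exact h _ (by omega) _
  · rw [abs_zero]
    exact hb

theorem qf2_le {I J : VA} {b : ℤ} (hb : 0 ≤ b) (h : ∀ K < 9, ∀ e, |I K e| ≤ b)
    (h' : ∀ K < 9, ∀ e, |J K e| ≤ b) {k : ℕ} (hk : k < 54) : |qf2 I J k| ≤ b := by
  unfold qf2
  by_cases hk2 : k < 27
  · rw [if_pos hk2]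
    exact qf_le hb h hk2
  · rw [if_neg hk2]
    exact qf_le hb h' (by omega)

theorem qf2_two (I J : VA) {k : ℕ} (h : k % 3 = 2) : qf2 I J k = 0 := by
  unfold qf2 qf
  by_cases hk2 : k < 27
  · rw [if_pos hk2, if_neg (by omega), if_neg (by omega)]
  · rw [if_neg hk2, if_neg (by omega), if_neg (by omega)]

/-- the entry `K`, `e` as an additive map -/
def vH (K : ℕ) (e : Fin 2) : VA →+ ℤ where
  toFun I := I K e
  map_zero' := rfl
  map_add' _ _ := rfl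

theorem qf2_M (I J : VA) {K : ℕ} (hK : K < 9) :
    qf2 I J (3 * K) = I K 0 ∧ qf2 I J (3 * K + 1) = I K 1 := by
  unfold qf2 qf
  constructor
  · rw [if_pos (by omega), if_pos (by omega), show 3 * K / 3 = K from by omega]
  · rw [if_pos (by omega), if_neg (by omega), if_pos (by omega), show (3 * K + 1) / 3 = K from by omega]

theorem qf2_X (I J : VA) {K : ℕ} (_hK : K < 9) :
    qf2 I J (3 * (K + 9)) = J K 0 ∧ qf2 I J (3 * (K + 9) + 1) = J K 1 := by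
  unfold qf2 qf
  constructor
  · rw [if_neg (by omega), if_pos (by omega), show (3 * (K + 9) - 27) / 3 = K from by omega]
  · rw [if_neg (by omega), if_neg (by omega), if_pos (by omega),
      show (3 * (K + 9) + 1 - 27) / 3 = K from by omega]

theorem cnI_zero (D : ℕ) (u : Vt D) : cnI D (fun _ => (0 : ℤ)) u = 0 := by
  have h := cnI_le D (fun _ => (0 : ℤ)) 0 (fun _ => by rw [abs_zero]) u
  rw [mul_zero] at h
  exact abs_nonpos_iff.1 h

/-- THE PACKED CONTROLS -/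
theorem ctl_ok {ν ζ κ : Type} {D : ℕ} {lv : ν → Vt D → ℕ} {lz : ζ → Vt D → Z} {lk : κ → Vt D → ℕ}
    {T : Tl ν ζ κ} (H : TlL D lv lz lk T) (hD : D ≤ 4) {x y : ν} {QM QX : Vt D → VA}
    (hx : ∀ u, ((lv x u : ℕ) : ℤ) = pz BB 27 (qd (QM u)))
    (hy : ∀ u, ((lv y u : ℕ) : ℤ) = pz BB 27 (qd (QX u)))
    (bx : ∀ u, ∀ K < 9, ∀ e, |QM u K e| ≤ 2 ^ 84) (bY : ∀ u, ∀ K < 9, ∀ e, |QX u K e| ≤ 2 ^ 84) :
    ∃ c : Vt D → ℕ → ℕ, (∀ u, lv (T.cn (T.zc x y)) u = pk (2 ^ 128) 54 (c u)) ∧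
      (∀ u, ∀ k < 54, c u k < 2 ^ 123) ∧ (∀ u, ∀ k < 54, k % 3 = 2 → c u k = 0) ∧
      (∀ u, ∀ K < 9, (⟨(c u (3 * K) : ℝ), (c u (3 * K + 1) : ℝ)⟩ : ℂ) =
        cnI D (fun w => ev K (QM w)) u + ⟨2 ^ (100 + D), 2 ^ (100 + D)⟩) ∧
      (∀ u, ∀ K < 9, (⟨(c u (3 * (K + 9)) : ℝ), (c u (3 * (K + 9) + 1) : ℝ)⟩ : ℂ) =
        cnI D (fun w => ev K (QX w)) u + ⟨2 ^ (100 + D), 2 ^ (100 + D)⟩) := by
  set F : Vt D → ℕ → ℤ := fun u k => 2 ^ D * qo k + cnI D (fun w => qf2 (QM w) (QX w) k) u with hF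
  have hz : ∀ u, ((lv (T.zc x y) u : ℕ) : ℤ) = pz BB 54 (fun k => qo k + qf2 (QM u) (QX u) k) :=
    fun u => by
      rw [H.zc]
      exact zc0_pz (hx u) (hy u)
  have b1 : ∀ u, ∀ k < 54, |qf2 (QM u) (QX u) k| ≤ 2 ^ 84 := fun u k hk =>
    qf2_le (by positivity) (bx u) (bY u) hk
  have d3 : (3 : ℤ) ^ D ≤ 3 ^ 4 := pow_le_pow_right₀ (by norm_num) hD
  have d6 : (6 : ℤ) ^ D ≤ 6 ^ 4 := pow_le_pow_right₀ (by norm_num) hD
  have dm : ∀ D : ℕ, (2 : ℤ) ^ D * 2 ^ 100 = 2 ^ (100 + D) := fun D => by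
    rw [← pow_add, Nat.add_comm]
  have dp : (2 : ℤ) ^ (100 + D) ≤ 2 ^ 104 := pow_le_pow_right₀ (by norm_num) (by omega)
  have dq : (2 : ℤ) ^ 100 ≤ 2 ^ (100 + D) := pow_le_pow_right₀ (by norm_num) (by omega)
  have hc := H.cn (T.zc x y) 54 qo (fun u k => qf2 (QM u) (QX u) k) hz (fun u k hk => by
    by_cases h2 : k % 3 = 2
    · rw [qf2_two _ _ h2, abs_zero, mul_zero]
      unfold qo
      split_ifs <;> norm_num
    · have : qo k = 2 ^ 100 := by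
        unfold qo
        rw [if_pos (by omega)]
      rw [this]
      have a4 : (3 : ℤ) ^ D * |qf2 (QM u) (QX u) k| ≤ 3 ^ 4 * 2 ^ 84 :=
        mul_le_mul d3 (b1 u k hk) (abs_nonneg _) (by norm_num)
      exact a4.trans (by norm_num))
  have c1 : ∀ u, ∀ k < 54, |cnI D (fun w => qf2 (QM w) (QX w) k) u| ≤ 2 ^ 95 := fun u k hk => by
    refine (cnI_le D _ (2 ^ 84) (fun w => b1 w k hk) u).trans ?_
    exact (mul_le_mul_of_nonneg_right d6 (by positivity)).trans (by norm_num)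
  have c0 : ∀ u, ∀ k < 54, k % 3 = 2 → F u k = 0 := fun u k hk h2 => by
    have e1 : (fun w => qf2 (QM w) (QX w) k) = fun _ => (0 : ℤ) := funext fun w => qf2_two _ _ h2
    show 2 ^ D * qo k + cnI D (fun w => qf2 (QM w) (QX w) k) u = 0
    rw [e1, cnI_zero]
    unfold qo
    rw [if_neg (by omega)]
    simp
  have cv : ∀ u, ∀ k < 54, k % 3 < 2 → F u k = 2 ^ (100 + D) +
      cnI D (fun w => qf2 (QM w) (QX w) k) u := fun u k hk h2 => by
    show 2 ^ D * qo k + _ = _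
    unfold qo
    rw [if_pos h2, dm]
  have c2 : ∀ u, ∀ k < 54, 0 ≤ F u k ∧ F u k < 2 ^ 123 := fun u k hk => by
    by_cases h2 : k % 3 = 2
    · rw [c0 u k hk h2]
      norm_num
    · rw [cv u k hk (by omega)]
      have a := abs_le.1 (c1 u k hk)
      have p1 : (2 : ℤ) ^ 95 ≤ 2 ^ 100 := by norm_num
      have p2 : (2 : ℤ) ^ 104 + 2 ^ 95 < 2 ^ 123 := by norm_num
      constructor
      · linarith [a.1]
      · linarith [a.2]
  have cast2 : ∀ D : ℕ, (((2 : ℤ) ^ (100 + D) : ℤ) : ℝ) = 2 ^ (100 + D) := fun D => by push_cast; rfl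
  have tn : ∀ u, ∀ k < 54, (((F u k).toNat : ℕ) : ℝ) = ((F u k : ℤ) : ℝ) := fun u k hk => by
    have := Int.toNat_of_nonneg (c2 u k hk).1
    exact_mod_cast this
  refine ⟨fun u k => (F u k).toNat, fun u => ?_, fun u k hk => ?_, fun u k hk h2 => ?_,
    fun u K hK => ?_, fun u K hK => ?_⟩
  · exact toNat_pk (hc u) (fun k hk => (c2 u k hk).1)
  · have := (c2 u k hk)
    have h3 : ((F u k).toNat : ℤ) < 2 ^ 123 := by
      rw [Int.toNat_of_nonneg this.1]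
      exact this.2
    exact_mod_cast h3
  · show (F u k).toNat = 0
    rw [c0 u k hk h2]
    rfl
  · have e0 : cnI D (fun w => ev K (QM w)) u = ev K (cnI D QM u) := (cnI_map (ev K) D QM u).symm
    have e1 : (fun w => qf2 (QM w) (QX w) (3 * K)) = fun w => vH K 0 (QM w) :=
      funext fun w => (qf2_M _ _ hK).1
    have e2 : (fun w => qf2 (QM w) (QX w) (3 * K + 1)) = fun w => vH K 1 (QM w) :=
      funext fun w => (qf2_M _ _ hK).2
    rw [e0, ev_apply]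
    apply Complex.ext
    · show (((F u (3 * K)).toNat : ℕ) : ℝ) = ((cnI D QM u K 0 : ℤ) : ℝ) + 2 ^ (100 + D)
      rw [tn u _ (by omega), cv u _ (by omega) (by omega), e1, ← cnI_map, Int.cast_add, cast2]
      exact add_comm _ _
    · show (((F u (3 * K + 1)).toNat : ℕ) : ℝ) = ((cnI D QM u K 1 : ℤ) : ℝ) + 2 ^ (100 + D)
      rw [tn u _ (by omega), cv u _ (by omega) (by omega), e2, ← cnI_map, Int.cast_add, cast2]
      exact add_comm _ _
  · have e0 : cnI D (fun w => ev K (QX w)) u = ev K (cnI D QX u) := (cnI_map (ev K) D QX u).symm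
    have e1 : (fun w => qf2 (QM w) (QX w) (3 * (K + 9))) = fun w => vH K 0 (QX w) :=
      funext fun w => (qf2_X _ _ hK).1
    have e2 : (fun w => qf2 (QM w) (QX w) (3 * (K + 9) + 1)) = fun w => vH K 1 (QX w) :=
      funext fun w => (qf2_X _ _ hK).2
    rw [e0, ev_apply]
    apply Complex.ext
    · show (((F u (3 * (K + 9))).toNat : ℕ) : ℝ) = ((cnI D QX u K 0 : ℤ) : ℝ) + 2 ^ (100 + D)
      rw [tn u _ (by omega), cv u _ (by omega) (by omega), e1, ← cnI_map, Int.cast_add, cast2]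
      exact add_comm _ _
    · show (((F u (3 * (K + 9) + 1)).toNat : ℕ) : ℝ) = ((cnI D QX u K 1 : ℤ) : ℝ) + 2 ^ (100 + D)
      rw [tn u _ (by omega), cv u _ (by omega) (by omega), e2, ← cnI_map, Int.cast_add, cast2]
      exact add_comm _ _

theorem len_pmL : ∀ l : List ℕ, (pmL l).length = l.length
  | [] => rfl
  | _ :: l => congrArg Nat.succ (len_pmL l)
theorem len_mdL (o p : ℕ) : ∀ l : List ℕ, (mdL o p l).length = l.length
  | [] => rfl
  | _ :: l => congrArg Nat.succ (len_mdL o p l)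

/-- one row -/
theorem row_ok {ν ζ κ : Type} {D : ℕ} {lv : ν → Vt D → ℕ} {T : Tl ν ζ κ} (HD : DlL D lv T)
    (hD : D ≤ 4) {t : ℕ → ℝ} {z : ν} {c : Vt D → ℕ → ℕ}
    (hc : ∀ u, lv z u = pk (2 ^ 128) 54 (c u)) (h1 : ∀ u, ∀ k < 54, c u k < 2 ^ 123)
    (h2 : ∀ u, ∀ k < 54, k % 3 = 2 → c u k = 0) (hl : T.ld z = lv z (vt0 D)) {K : ℕ} (hK : K < 18)
    {g : Vt D → ℂ} (hg : ∀ u, (⟨(c u (3 * K) : ℝ), (c u (3 * K + 1) : ℝ)⟩ : ℂ) =
      cnI D g u + ⟨2 ^ (100 + D), 2 ^ (100 + D)⟩) {m : ℂ} {ρ : ℕ}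
    (he : ‖m - avg (ndw D t) g‖ ≤ ρ) :
    RwL D t g m (mkRw (384 * K) (384 * K + 6912)
      (pmo (absd HZ LZ (T.ld z) (Nat.shiftLeft OQ2 D))) (ρ * 2 ^ D) (pmL (T.dl HZ LZ z))) where
  dl := by
    have a := DL_shift (⟨2 ^ (100 + D), 2 ^ (100 + D)⟩ : ℂ) (HD.dl z c hc h1 h2 K hK)
    have e : (fun v => (⟨(c v (3 * K) : ℝ), (c v (3 * K + 1) : ℝ)⟩ : ℂ) -
        ⟨2 ^ (100 + D), 2 ^ (100 + D)⟩) = cnI D g := by
      funext u
      rw [hg u]
      ring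
    rw [e] at a
    exact a
  len := by
    show (mdL _ _ (pmL (T.dl HZ LZ z))).length = D
    rw [len_mdL, len_pmL]
    exact HD.len z
  bd := by
    rw [mkRw_B]
    have a := p0_ok hD (hc (vt0 D)) (h1 (vt0 D)) (h2 (vt0 D)) K hK
    have e : (⟨(c (vt0 D) (3 * K) : ℝ) - 2 ^ (100 + D), (c (vt0 D) (3 * K + 1) : ℝ) -
        2 ^ (100 + D)⟩ : ℂ) = cnI D g (vt0 D) := by
      have h := hg (vt0 D)
      have h3 : (⟨(c (vt0 D) (3 * K) : ℝ) - 2 ^ (100 + D), (c (vt0 D) (3 * K + 1) : ℝ) -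
        2 ^ (100 + D)⟩ : ℂ) = (⟨(c (vt0 D) (3 * K) : ℝ), (c (vt0 D) (3 * K + 1) : ℝ)⟩ : ℂ) -
        ⟨2 ^ (100 + D), 2 ^ (100 + D)⟩ := rfl
      rw [h3, h]
      ring
    rw [e, ← hl] at a
    exact add_le_add_left a _
  er := by
    show 2 ^ D * _ ≤ ((ρ * 2 ^ D : ℕ) : ℝ)
    push_cast
    rw [mul_comm]
    exact mul_le_mul_of_nonneg_right he (by positivity)

end Pool.Agent.Helper17.N9
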