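import Pool.Agent.Helper17.N9.N9B

/-!
Row K9 of MP_c75db0 (plan W), version 2, row Q: the transformed blocks at the nodes.
-/

set_option autoImplicit false
set_option exponentiation.threshold 60000
noncomputable section
namespace Pool.Agent.Helper17.N9

open Pool.Agent.Helper86.C75 (Z)
open Pool.Agent.Helper86.CX (Cx andB)
open Pool.Agent.Helper86.CT (N3 Mo)
open Pool.Agent.Helper90.C75 (Vt avg wtT)
open Pool.Agent.Helper90.KMO (zv zv_add zv_sub zv_mul cz UU)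
open Pool.Agent.Helper90.KMT (nlf lf0 TOK PT DL NN)
open Pool.Agent.Helper90.K9 (G pk pz pk_cast pz_congr pk_congr pz_add pz_sub shl_pk)
open Pool.Agent.Helper17.K9 (V9)
open Pool.Agent.Helper62.TVM (TV)
open Pool.Agent.Helper6.MONO (V3)
open Pool.Agent.Helper6.MONO.W2 (Mt hr hv J1 NT)
open Finset Matrix

namespace RQ

/-! ### numbers -/

theorem castB : ((2 ^ 128 : ℕ) : ℤ) = BB := by
  rw [Nat.cast_pow]
  rfl

theorem nat_sub_cast {a b : ℕ} {c : ℤ} (h : (a : ℤ) - b = c) (hc : 0 ≤ c) :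
    ((a - b : ℕ) : ℤ) = c := by
  have h1 : b ≤ a := by
    have h2 : (b : ℤ) ≤ a := by linarith
    exact_mod_cast h2
  rw [Nat.cast_sub h1, h]

theorem zoff_cast {o : ℕ} {x : Z} {c : ℤ} (h : (o : ℤ) + zv x = c) (hc : 0 ≤ c) :
    ((zoff o x : ℕ) : ℤ) = c := by
  cases x with
  | p n =>
    show ((o + n : ℕ) : ℤ) = _
    rw [Nat.cast_add, ← h]
    rfl
  | m n =>
    have h2 : (o : ℤ) + -(n : ℤ) = c := h
    have h1 : n ≤ o := by
      have h3 : (n : ℤ) ≤ (o : ℤ) := by linarith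
      exact_mod_cast h3
    show ((o - n : ℕ) : ℤ) = _
    rw [Nat.cast_sub h1, ← h2]
    ring

/-- digit numbers -/
def g3 (r : ℕ) : Fin 3 := if r = 0 then 0 else if r = 1 then 1 else 2

/-- three digits per entry -/
def Q3 (Y : ℕ → Fin 3 → ℤ) : ℤ :=
  ∑ K ∈ range 9, (Y K 0 + Y K 1 * BB + Y K 2 * BB ^ 2) * (BB ^ 3) ^ K
def q3 (Y : ℕ → Fin 3 → ℤ) (k : ℕ) : ℤ := Y (k / 3) (g3 (k % 3))

theorem Q3_pz (Y : ℕ → Fin 3 → ℤ) : Q3 Y = pz BB 27 (q3 Y) := by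
  rw [pz_sum, show (27 : ℕ) = 3 * 9 from rfl, sum_nest]
  unfold Q3
  refine sum_congr rfl fun K _ => ?_
  have e : ∀ b, b < 3 → q3 Y (3 * K + b) = Y K (g3 b) := by
    intro b hb
    unfold q3
    rw [show (3 * K + b) / 3 = K by omega, show (3 * K + b) % 3 = b by omega]
  rw [sum_range_succ, sum_range_succ, sum_range_succ, sum_range_zero, zero_add,
    e 0 (by norm_num), e 1 (by norm_num), e 2 (by norm_num)]
  have g0 : g3 0 = 0 := rfl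
  have g1 : g3 1 = 1 := rfl
  have g2 : g3 2 = 2 := rfl
  rw [g0, g1, g2, pow_add, pow_add, pow_add, pow_mul, pow_zero, pow_one]
  ring

theorem QA_Q3 (I : VA) : QA I = Q3 (fun K => ![I K 0, I K 1, 0]) := by
  unfold QA Q3
  refine sum_congr rfl fun K _ => ?_
  show _ = (I K 0 + I K 1 * BB + 0 * BB ^ 2) * (BB ^ 3) ^ K
  ring

theorem Q3_sum (n : ℕ) (F : ℕ → ℕ → Fin 3 → ℤ) :
    Q3 (fun K e => ∑ k ∈ range n, F k K e) = ∑ k ∈ range n, Q3 (F k) := by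
  unfold Q3
  rw [sum_comm]
  refine sum_congr rfl fun K _ => ?_
  rw [← sum_mul, sum_add_distrib, sum_add_distrib, ← sum_mul, ← sum_mul]

/-- the digits of the product of two packed rows -/
def tw (a b : ℕ → Fin 2 → ℤ) : ℕ → Fin 3 → ℤ := fun K =>
  ![a (K / 3) 0 * b (K % 3) 0, a (K / 3) 0 * b (K % 3) 1 + a (K / 3) 1 * b (K % 3) 0,
    a (K / 3) 1 * b (K % 3) 1]

theorem rq_mul (a b : ℕ → Fin 2 → ℤ) : rq 3 a * rq 1 b = Q3 (tw a b) := by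
  unfold rq Q3
  rw [sum9', sum_mul_sum]
  refine sum_congr rfl fun i _ => sum_congr rfl fun j hj => ?_
  have hj' := mem_range.1 hj
  show _ = (a ((3 * i + j) / 3) 0 * b ((3 * i + j) % 3) 0 +
    (a ((3 * i + j) / 3) 0 * b ((3 * i + j) % 3) 1 + a ((3 * i + j) / 3) 1 * b ((3 * i + j) % 3) 0) * BB +
    a ((3 * i + j) / 3) 1 * b ((3 * i + j) % 3) 1 * BB ^ 2) * (BB ^ 3) ^ (3 * i + j)
  rw [div3 hj', mod3 hj', show (BB ^ 3) ^ (3 * i + j) = (BB ^ (3 * 3)) ^ i * (BB ^ (3 * 1)) ^ j by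
    rw [← pow_mul, ← pow_mul, ← pow_mul, ← pow_add]; congr 1; ring]
  ring

/-! ### decoding -/

theorem dec_eq (M01 M0 C y : ℕ) : dec M01 M0 C y = ((y &&& M01) + C) - ((y >>> 256) &&& M0) := rfl

theorem M01q_eq : M01q = pk (2 ^ 128) 27 (fun k => if decide (k % 3 = 0) = true ∨
    decide (k % 3 = 1) = true then 2 ^ 128 - 1 else 0) := by decide +kernel
theorem M0q_eq : M0q = pk (2 ^ 128) 27 (fun k => if decide (k % 3 = 0) = true then 2 ^ 128 - 1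
    else 0) := by decide +kernel
theorem CT_eq : CT = pk (2 ^ 128) 27 (fun k => if k % 3 = 0 then 2 ^ 40 else 0) := by decide +kernel
theorem CQ_eq : CQ = pk (2 ^ 128) 27 (fun k => if k % 3 = 0 then 2 ^ 100 else 0) := by decide +kernel
theorem OT_eq : OT = pk (2 ^ 128) 27 (fun k => if k % 3 = 1 then 2 ^ 40 else 2 ^ 42) := by
  decide +kernel
theorem OR3_eq : OR3 = pk (2 ^ 128) 27 (fun _ => 2 ^ 100) := by decide +kernel
theorem TE_eq : TE = pk (2 ^ 128) 27 (fun k => if k % 3 = 0 then 2 ^ 40 else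
    if k % 3 = 1 then 2 ^ 40 else 0) := by decide +kernel
theorem NCE_eq : NCE = 9 * (CO2 * TE) := by decide +kernel
theorem CO2_eq : CO2 = 2 ^ 40 + 2 ^ 40 * 2 ^ 128 := by decide +kernel
theorem MR2_eq : MR2 = pk (2 ^ 128) 2 (fun _ => 2 ^ 64 - 1) := by decide +kernel

/-- decoding of 27 digits with the offsets `o` -/
theorem dec27 {o : ℕ → ℕ} {c C y : ℕ} {Y : ℕ → Fin 3 → ℤ}
    (hC : C = pk (2 ^ 128) 27 (fun k => if k % 3 = 0 then c else 0))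
    (hy : (y : ℤ) = pz BB 27 (fun k => (o (k % 3) : ℤ) + q3 Y k)) (h02 : o 0 = o 2) {b : ℤ}
    (hb : ∀ K < 9, ∀ e, |Y K e| ≤ b) (ho : ∀ e < 3, b ≤ o e ∧ (o e : ℤ) + b < 2 ^ 128)
    (hc : 2 * b ≤ c) :
    ((dec M01q M0q C y : ℕ) : ℤ) = pz BB 27 (fun k => if k % 3 = 0 then c + (Y (k / 3) 0 - Y (k / 3) 2)
      else if k % 3 = 1 then o 1 + Y (k / 3) 1 else 0) := by
  set f : ℕ → ℕ := fun k => ((o (k % 3) : ℤ) + q3 Y k).toNat with hf
  have hq : ∀ k < 27, |q3 Y k| ≤ b := fun k hk => hb _ (by omega) _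
  have hm : ∀ k : ℕ, k % 3 < 3 := fun k => Nat.mod_lt _ (by norm_num)
  have hfz : ∀ k < 27, ((f k : ℕ) : ℤ) = (o (k % 3) : ℤ) + q3 Y k := by
    intro k hk
    have h1 := (abs_le.mp (hq k hk)).1
    have h2 := (ho (k % 3) (hm k)).1
    exact Int.toNat_of_nonneg (by linarith)
  have hfl : ∀ k < 27, f k < 2 ^ 128 := by
    intro k hk
    have h1 := (abs_le.mp (hq k hk)).2
    have h2 := (ho (k % 3) (hm k)).2
    have h3 : ((f k : ℕ) : ℤ) < ((2 ^ 128 : ℕ) : ℤ) := by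
      rw [hfz k hk, Nat.cast_pow]
      have h4 : ((2 : ℕ) : ℤ) ^ 128 = 2 ^ 128 := rfl
      rw [h4]
      linarith
    exact Nat.cast_lt.mp h3
  have hyf : y = pk (2 ^ 128) 27 f := by
    have h1 : (y : ℤ) = ((pk (2 ^ 128) 27 f : ℕ) : ℤ) := by
      rw [hy, pk_cast, castB]
      exact pz_congr _ _ _ _ fun k hk => (hfz k hk).symm
    exact Nat.cast_injective h1
  have h := Pool.Agent.Helper90.DG.decode (n := 27) (f := f)
    (c := fun k => if k % 3 = 0 then c else 0) (e0 := fun k => decide (k % 3 = 0))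
    (e1 := fun k => decide (k % 3 = 1)) hyf M01q_eq M0q_eq hC
    (fun k _ hk => by
      show (if k % 3 = 0 then c else 0) = 0
      rw [if_neg]
      intro h3
      exact hk (Or.inl (by simpa using h3)))
    hfl
    (fun k hk h3 => by
      have h4 : k % 3 = 0 := by simpa using h3
      omega)
    (fun k hk h3 => by
      have h4 : k % 3 = 0 := by simpa using h3
      have hk2 : k + 2 < 27 := by omega
      show f (k + 2) ≤ f k + (if k % 3 = 0 then c else 0)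
      rw [if_pos h4]
      have h5 := hfz k hk
      have h6 := hfz (k + 2) hk2
      rw [h4] at h5
      rw [show (k + 2) % 3 = 2 by omega] at h6
      have h7 := (abs_le.mp (hq k hk)).1
      have h8 := (abs_le.mp (hq (k + 2) hk2)).2
      have h9 : ((f (k + 2) : ℕ) : ℤ) ≤ ((f k + c : ℕ) : ℤ) := by
        rw [Nat.cast_add, h5, h6, h02]
        linarith
      exact Nat.cast_le.mp h9)
  rw [dec_eq, h, pk_cast, castB]
  refine pz_congr _ _ _ _ fun k hk => ?_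
  by_cases h3 : k % 3 = 0
  · have hk2 : k + 2 < 27 := by omega
    rw [if_pos (by simpa using h3), if_pos h3, if_pos h3]
    have h5 := hfz k hk
    have h6 := hfz (k + 2) hk2
    have h7 := (abs_le.mp (hq k hk)).1
    have h8 := (abs_le.mp (hq (k + 2) hk2)).2
    have e1 : q3 Y k = Y (k / 3) 0 := by
      unfold q3
      rw [h3]
      rfl
    have e2 : q3 Y (k + 2) = Y (k / 3) 2 := by
      unfold q3
      rw [show (k + 2) % 3 = 2 by omega, show (k + 2) / 3 = k / 3 by omega]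
      rfl
    rw [h3] at h5
    rw [show (k + 2) % 3 = 2 by omega] at h6
    refine nat_sub_cast ?_ ?_
    · rw [Nat.cast_add, h5, h6, h02, e1, e2]
      ring
    · rw [← e1, ← e2]
      linarith
  · rw [if_neg (by simpa using h3), if_neg h3, if_neg h3]
    by_cases h4 : k % 3 = 1
    · rw [if_pos (by simpa using h4), if_pos h4, Nat.add_zero, hfz k hk, h4]
      unfold q3
      rw [h4]
      rfl
    · rw [if_neg (by simpa using h4), if_neg h4]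
      rfl

/-! ### signs -/

theorem BB_pos : 0 < BB := by
  rw [BB_eq]
  positivity

theorem pz_nonneg {n : ℕ} {f : ℕ → ℤ} (h : ∀ k < n, 0 ≤ f k) : 0 ≤ pz BB n f := by
  rw [pz_sum]
  exact sum_nonneg fun k hk => mul_nonneg (h k (mem_range.1 hk)) (pow_nonneg BB_pos.le _)

theorem OR3_pz : (OR3 : ℤ) = pz BB 27 (fun _ => 2 ^ 100) := by
  rw [OR3_eq, pk_cast, castB]
  refine pz_congr _ _ _ _ fun k _ => ?_
  rw [Nat.cast_pow]
  rfl

theorem OR3_add (Y : ℕ → Fin 3 → ℤ) : (OR3 : ℤ) + Q3 Y = pz BB 27 (fun k => 2 ^ 100 + q3 Y k) := by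
  rw [OR3_pz, Q3_pz, pz_add]

theorem OR3_nonneg {Y : ℕ → Fin 3 → ℤ} (h : ∀ K < 9, ∀ e, |Y K e| ≤ 2 ^ 100) :
    0 ≤ (OR3 : ℤ) + Q3 Y := by
  rw [OR3_add]
  refine pz_nonneg fun k hk => ?_
  have h1 := (abs_le.mp (h (k / 3) (by omega) (g3 (k % 3)))).1
  show 0 ≤ 2 ^ 100 + Y (k / 3) (g3 (k % 3))
  linarith

/-! ### constant vectors -/

/-- the vector with all digits `c` -/
def cv (c : ℤ) : VA := fun _ _ => c

theorem QA_add (I J : VA) : QA (I + J) = QA I + QA J := by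
  unfold QA
  rw [← sum_add_distrib]
  refine sum_congr rfl fun K _ => ?_
  show ((I K 0 + J K 0) + (I K 1 + J K 1) * BB) * (BB ^ 3) ^ K = _
  ring

theorem QA_pz (I : VA) : QA I = pz BB 27 (fun k => if k % 3 = 0 then I (k / 3) 0 else
    if k % 3 = 1 then I (k / 3) 1 else 0) := by
  rw [QA_Q3, Q3_pz]
  refine pz_congr _ _ _ _ fun k _ => ?_
  unfold q3
  by_cases h0 : k % 3 = 0
  · rw [if_pos h0, h0]
    rfl
  · by_cases h1 : k % 3 = 1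
    · rw [if_neg h0, if_pos h1, h1]
      rfl
    · rw [if_neg h0, if_neg h1, show k % 3 = 2 by omega]
      rfl

theorem TE_cast : (TE : ℤ) = QA (cv (2 ^ 40)) := by
  rw [TE_eq, pk_cast, castB, QA_pz]
  refine pz_congr _ _ _ _ fun k _ => ?_
  by_cases h0 : k % 3 = 0
  · rw [if_pos h0, if_pos h0, Nat.cast_pow]
    rfl
  · by_cases h1 : k % 3 = 1
    · rw [if_neg h0, if_neg h0, if_pos h1, if_pos h1, Nat.cast_pow]
      rfl
    · rw [if_neg h0, if_neg h0, if_neg h1, if_neg h1, Nat.cast_zero]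

theorem CO2_cast : (CO2 : ℤ) = 2 ^ 40 * (1 + BB) := by
  rw [CO2_eq, Nat.cast_add, Nat.cast_mul, castB, Nat.cast_pow]
  have h : ((2 : ℕ) : ℤ) ^ 40 = 2 ^ 40 := rfl
  rw [h]
  ring

theorem NCE_cast : (NCE : ℤ) = 9 * ((CO2 : ℤ) * TE) := by
  rw [NCE_eq, Nat.cast_mul, Nat.cast_mul]
  rfl

/-! ### one vector of the transformation -/

/-- two digits from three -/
def dv (F : ℕ → Fin 3 → ℤ) : VA := fun K => ![F K 0 - F K 2, F K 1]

theorem tw_bd {a b : ℕ → Fin 2 → ℤ} (ha : ∀ l < 3, ∀ e, |a l e| ≤ 2 ^ 19)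
    (hb : ∀ l < 3, ∀ e, |b l e| ≤ 2 ^ 19) : ∀ K < 9, ∀ e, |tw a b K e| ≤ 2 ^ 39 := by
  intro K hK
  have h1 : K / 3 < 3 := by omega
  have h2 : K % 3 < 3 := by omega
  have hm : ∀ e e', |a (K / 3) e * b (K % 3) e'| ≤ 2 ^ 38 := by
    intro e e'
    rw [abs_mul]
    calc |a (K / 3) e| * |b (K % 3) e'| ≤ 2 ^ 19 * 2 ^ 19 :=
          mul_le_mul (ha _ h1 e) (hb _ h2 e') (abs_nonneg _) (by positivity)
      _ = 2 ^ 38 := by norm_num
  have h38 : (2 : ℤ) ^ 38 ≤ 2 ^ 39 := by norm_num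
  have e0 : |tw a b K 0| ≤ 2 ^ 39 := (hm 0 0).trans h38
  have e2 : |tw a b K 2| ≤ 2 ^ 39 := (hm 1 1).trans h38
  have e1 : |tw a b K 1| ≤ 2 ^ 39 := by
    show |a (K / 3) 0 * b (K % 3) 1 + a (K / 3) 1 * b (K % 3) 0| ≤ 2 ^ 39
    have h3 := abs_add_le (a (K / 3) 0 * b (K % 3) 1) (a (K / 3) 1 * b (K % 3) 0)
    have h4 := hm 0 1
    have h5 := hm 1 0
    have h6 : (2 : ℤ) ^ 39 = 2 ^ 38 + 2 ^ 38 := by norm_num
    linarith
  intro e
  fin_cases e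
  · exact e0
  · exact e1
  · exact e2

theorem tt_ok {w u : Z} {a b : ℕ → Fin 2 → ℤ} (hw : zv w = rq 3 a) (hu : zv u = rq 1 b)
    (ha : ∀ l < 3, ∀ e, |a l e| ≤ 2 ^ 19) (hb : ∀ l < 3, ∀ e, |b l e| ≤ 2 ^ 19) :
    ((tt w u : ℕ) : ℤ) = QA (dv (tw a b)) + TE := by
  have hbd := tw_bd ha hb
  set o : ℕ → ℕ := fun e => if e = 1 then 2 ^ 40 else 2 ^ 42 with ho
  have h39 : (2 : ℤ) ^ 39 ≤ 2 ^ 40 := by norm_num
  have h40 : (2 : ℤ) ^ 40 ≤ 2 ^ 42 := by norm_num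
  have h42 : (2 : ℤ) ^ 42 + 2 ^ 39 < 2 ^ 128 := by norm_num
  have hoz : ∀ e, (2 : ℤ) ^ 40 ≤ (o e : ℤ) ∧ (o e : ℤ) ≤ 2 ^ 42 := by
    intro e
    rw [ho]
    show (2 : ℤ) ^ 40 ≤ (((if e = 1 then 2 ^ 40 else 2 ^ 42 : ℕ)) : ℤ) ∧
      (((if e = 1 then 2 ^ 40 else 2 ^ 42 : ℕ)) : ℤ) ≤ 2 ^ 42
    by_cases h : e = 1
    · rw [if_pos h, Nat.cast_pow]
      exact ⟨le_refl _, h40⟩
    · rw [if_neg h, Nat.cast_pow]
      exact ⟨h40, le_refl _⟩
  have hOT : (OT : ℤ) = pz BB 27 (fun k => (o (k % 3) : ℤ)) := by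
    rw [OT_eq, pk_cast, castB]
  have h1 : (OT : ℤ) + zv (Z.mul w u) = pz BB 27 (fun k => (o (k % 3) : ℤ) + q3 (tw a b) k) := by
    rw [zv_mul, hw, hu, rq_mul, Q3_pz, hOT, pz_add]
  have h2 : 0 ≤ pz BB 27 (fun k => (o (k % 3) : ℤ) + q3 (tw a b) k) := by
    refine pz_nonneg fun k hk => ?_
    have h3 := (abs_le.mp (hbd (k / 3) (by omega) (g3 (k % 3)))).1
    have h4 := (hoz (k % 3)).1
    show 0 ≤ (o (k % 3) : ℤ) + tw a b (k / 3) (g3 (k % 3))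
    linarith
  have h3 := dec27 (o := o) (c := 2 ^ 40) (C := CT) (b := 2 ^ 39) CT_eq
    (zoff_cast h1 h2) rfl hbd (fun e _ => ⟨h39.trans (hoz e).1, by
      have := (hoz e).2
      linarith⟩) (by
      rw [Nat.cast_pow]
      show (2 : ℤ) * 2 ^ 39 ≤ 2 ^ 40
      norm_num)
  have h4 : (tt w u : ℤ) = _ := h3
  rw [h4, TE_cast, ← QA_add, QA_pz]
  refine pz_congr _ _ _ _ fun k _ => ?_
  by_cases h0 : k % 3 = 0
  · rw [if_pos h0, if_pos h0, Nat.cast_pow]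
    show (2 : ℤ) ^ 40 + (tw a b (k / 3) 0 - tw a b (k / 3) 2) =
      (tw a b (k / 3) 0 - tw a b (k / 3) 2) + 2 ^ 40
    ring
  · rw [if_neg h0, if_neg h0]
    by_cases h5 : k % 3 = 1
    · rw [if_pos h5, if_pos h5]
      show ((2 ^ 40 : ℕ) : ℤ) + tw a b (k / 3) 1 = tw a b (k / 3) 1 + 2 ^ 40
      rw [Nat.cast_pow, add_comm]
      rfl
    · rw [if_neg h5, if_neg h5]

/-! ### the nine vectors -/

def entT (t : TC) (k : ℕ) : ℕ := match k with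
  | 0 => t.a | 1 => t.b | 2 => t.c | 3 => t.d | 4 => t.e | 5 => t.f | 6 => t.g | 7 => t.h | _ => t.i

theorem ad9_sum (f : ℕ → ℕ) :
    ad9 (f 0) (f 1) (f 2) (f 3) (f 4) (f 5) (f 6) (f 7) (f 8) = ∑ k ∈ range 9, f k := by
  simp only [sum_range_succ, sum_range_zero]
  show f 0 + (f 1 + (f 2 + (f 3 + (f 4 + (f 5 + (f 6 + (f 7 + f 8))))))) = _
  ring

/-- the vector number `k` of the transformation -/
def tv (I J : VF) (k : ℕ) : VA := dv (tw (I (k / 3)) (J (k % 3)))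

theorem entT_ok {W U : Fr} {I J : VF} (hW : FrR 3 W I) (hU : FrR 1 U J)
    (bW : BF (2 ^ 19) I) (bU : BF (2 ^ 19) J) :
    ∀ k < 9, ((entT (mkTC W U) k : ℕ) : ℤ) = QA (tv I J k) + TE := by
  have h : ∀ {w u : Z} (i j : ℕ), i < 3 → j < 3 → zv w = rq 3 (I i) → zv u = rq 1 (J j) →
      ((tt w u : ℕ) : ℤ) = QA (dv (tw (I i) (J j))) + TE := fun i j hi hj hw hu =>
    tt_ok hw hu (fun l hl e => bW i hi l hl e) (fun l hl e => bU j hj l hl e)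
  intro k hk
  interval_cases k
  · exact h 0 0 (by norm_num) (by norm_num) hW.u0 hU.u0
  · exact h 0 1 (by norm_num) (by norm_num) hW.u0 hU.u1
  · exact h 0 2 (by norm_num) (by norm_num) hW.u0 hU.u2
  · exact h 1 0 (by norm_num) (by norm_num) hW.u1 hU.u0
  · exact h 1 1 (by norm_num) (by norm_num) hW.u1 hU.u1
  · exact h 1 2 (by norm_num) (by norm_num) hW.u1 hU.u2
  · exact h 2 0 (by norm_num) (by norm_num) hW.u2 hU.u0
  · exact h 2 1 (by norm_num) (by norm_num) hW.u2 hU.u1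
  · exact h 2 2 (by norm_num) (by norm_num) hW.u2 hU.u2

/-- number times vector -/
def nT (n : Fin 2 → ℤ) (T : VA) : ℕ → Fin 3 → ℤ := fun K =>
  ![n 0 * T K 0, n 0 * T K 1 + n 1 * T K 0, n 1 * T K 1]

theorem nT_ok (n : Fin 2 → ℤ) (T : VA) : (n 0 + n 1 * BB) * QA T = Q3 (nT n T) := by
  unfold QA Q3
  rw [mul_sum]
  refine sum_congr rfl fun K _ => ?_
  show _ = (n 0 * T K 0 + (n 0 * T K 1 + n 1 * T K 0) * BB + n 1 * T K 1 * BB ^ 2) * (BB ^ 3) ^ K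
  ring

theorem nT_bd {n : Fin 2 → ℤ} {T : VA} {b c : ℤ} (hn : ∀ e, |n e| ≤ b) (K : ℕ)
    (hT : ∀ e, |T K e| ≤ c) : ∀ e, |nT n T K e| ≤ 2 * (b * c) := by
  have hb : 0 ≤ b := (abs_nonneg _).trans (hn 0)
  have hc : 0 ≤ c := (abs_nonneg _).trans (hT 0)
  have hbc : 0 ≤ b * c := mul_nonneg hb hc
  have hm : ∀ e e', |n e * T K e'| ≤ b * c := by
    intro e e'
    rw [abs_mul]
    exact mul_le_mul (hn e) (hT e') (abs_nonneg _) hb
  have e0 : |nT n T K 0| ≤ 2 * (b * c) := (hm 0 0).trans (by linarith)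
  have e2 : |nT n T K 2| ≤ 2 * (b * c) := (hm 1 1).trans (by linarith)
  have e1 : |nT n T K 1| ≤ 2 * (b * c) := by
    show |n 0 * T K 1 + n 1 * T K 0| ≤ 2 * (b * c)
    have h3 := abs_add_le (n 0 * T K 1) (n 1 * T K 0)
    linarith [hm 0 1, hm 1 0]
  intro e
  fin_cases e
  · exact e0
  · exact e1
  · exact e2

theorem nT_bd02 {n : Fin 2 → ℤ} {T : VA} {b c : ℤ} (hn : ∀ e, |n e| ≤ b) (K : ℕ)
    (hT : ∀ e, |T K e| ≤ c) : |nT n T K 0| ≤ b * c ∧ |nT n T K 2| ≤ b * c := by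
  have hb : 0 ≤ b := (abs_nonneg _).trans (hn 0)
  have hm : ∀ e e', |n e * T K e'| ≤ b * c := by
    intro e e'
    rw [abs_mul]
    exact mul_le_mul (hn e) (hT e') (abs_nonneg _) hb
  exact ⟨hm 0 0, hm 1 1⟩

theorem tv_bd {I J : VF} (bW : BF (2 ^ 19) I) (bU : BF (2 ^ 19) J) {k : ℕ} (hk : k < 9) {K : ℕ}
    (hK : K < 9) : ∀ e, |tv I J k K e| ≤ 2 ^ 40 := by
  have h := tw_bd (a := I (k / 3)) (b := J (k % 3)) (fun l hl e => bW (k / 3) (by omega) l hl e)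
    (fun l hl e => bU (k % 3) (by omega) l hl e) K hK
  have e0 : |tv I J k K 0| ≤ 2 ^ 40 := by
    show |tw (I (k / 3)) (J (k % 3)) K 0 - tw (I (k / 3)) (J (k % 3)) K 2| ≤ 2 ^ 40
    have h1 := abs_sub (tw (I (k / 3)) (J (k % 3)) K 0) (tw (I (k / 3)) (J (k % 3)) K 2)
    have h2 := h 0
    have h3 := h 2
    have h4 : (2 : ℤ) ^ 40 = 2 ^ 39 + 2 ^ 39 := by norm_num
    linarith
  have e1 : |tv I J k K 1| ≤ 2 ^ 40 := (h 1).trans (by norm_num)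
  exact fun e => (Fin.forall_fin_two.2 ⟨e0, e1⟩ : ∀ e, |tv I J k K e| ≤ 2 ^ 40) e

theorem ev_nT {I J : VF} (k : ℕ) (n : Fin 2 → ℤ) (K : ℕ) :
    ev K (dv (nT n (tv I J k))) = ef (k / 3) (K / 3) I * ef (k % 3) (K % 3) J *
      ⟨((n 0 : ℤ) : ℝ), ((n 1 : ℤ) : ℝ)⟩ := by
  rw [ev_apply, ef_apply, ef_apply]
  apply Complex.ext
  · show ((n 0 * (I (k / 3) (K / 3) 0 * J (k % 3) (K % 3) 0 - I (k / 3) (K / 3) 1 * J (k % 3) (K % 3) 1) -
      n 1 * (I (k / 3) (K / 3) 0 * J (k % 3) (K % 3) 1 + I (k / 3) (K / 3) 1 * J (k % 3) (K % 3) 0) : ℤ) : ℝ)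
      = ((I (k / 3) (K / 3) 0 : ℝ) * J (k % 3) (K % 3) 0 - (I (k / 3) (K / 3) 1 : ℝ) * J (k % 3) (K % 3) 1) *
        (n 0 : ℝ) - ((I (k / 3) (K / 3) 0 : ℝ) * J (k % 3) (K % 3) 1 +
        (I (k / 3) (K / 3) 1 : ℝ) * J (k % 3) (K % 3) 0) * (n 1 : ℝ)
    push_cast
    ring
  · show ((n 0 * (I (k / 3) (K / 3) 0 * J (k % 3) (K % 3) 1 + I (k / 3) (K / 3) 1 * J (k % 3) (K % 3) 0) +
      n 1 * (I (k / 3) (K / 3) 0 * J (k % 3) (K % 3) 0 - I (k / 3) (K / 3) 1 * J (k % 3) (K % 3) 1) : ℤ) : ℝ)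
      = ((I (k / 3) (K / 3) 0 : ℝ) * J (k % 3) (K % 3) 0 - (I (k / 3) (K / 3) 1 : ℝ) * J (k % 3) (K % 3) 1) *
        (n 1 : ℝ) + ((I (k / 3) (K / 3) 0 : ℝ) * J (k % 3) (K % 3) 1 +
        (I (k / 3) (K / 3) 1 : ℝ) * J (k % 3) (K % 3) 0) * (n 0 : ℝ)
    push_cast
    ring

/-! ### the transformed vector -/

theorem CO2_QA (T : VA) : (CO2 : ℤ) * QA T = Q3 (nT ![2 ^ 40, 2 ^ 40] T) := by
  rw [← nT_ok, CO2_cast]
  show _ = (2 ^ 40 + 2 ^ 40 * BB) * QA T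
  ring

theorem tck_ok {W U : Fr} {I J : VF} (hW : FrR 3 W I) (hU : FrR 1 U J)
    (bW : BF (2 ^ 19) I) (bU : BF (2 ^ 19) J) :
    (((mkTC W U).k : ℕ) : ℤ) = OR3 - CO2 * ∑ k ∈ range 9, QA (tv I J k) := by
  have h1 := entT_ok hW hU bW bU
  have e : (mkTC W U).k = (OR3 + NCE) - CO2 * ∑ k ∈ range 9, entT (mkTC W U) k := by
    rw [← ad9_sum]
    rfl
  rw [e]
  refine nat_sub_cast ?_ ?_
  · rw [Nat.cast_add, Nat.cast_mul, Nat.cast_sum, sum_congr rfl fun k hk => h1 k (mem_range.1 hk),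
      sum_add_distrib, sum_const, card_range, NCE_cast, nsmul_eq_mul]
    push_cast
    ring
  · have h2 : (OR3 : ℤ) - CO2 * ∑ k ∈ range 9, QA (tv I J k) =
        OR3 + Q3 (fun K e => ∑ k ∈ range 9, nT ![-2 ^ 40, -2 ^ 40] (tv I J k) K e) := by
      rw [Q3_sum, mul_sum, sub_eq_add_neg, ← sum_neg_distrib]
      congr 1
      refine sum_congr rfl fun k _ => ?_
      rw [← nT_ok, CO2_cast]
      show _ = (-2 ^ 40 + -2 ^ 40 * BB) * QA (tv I J k)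
      ring
    rw [h2]
    refine OR3_nonneg fun K hK e => ?_
    refine (abs_sum_le_sum_abs _ _).trans ?_
    have h3 : ∀ k ∈ range 9, |nT ![-2 ^ 40, -2 ^ 40] (tv I J k) K e| ≤ 2 * (2 ^ 40 * 2 ^ 40) :=
      fun k hk => nT_bd (b := 2 ^ 40) (c := 2 ^ 40) (by
        have h4 : |(-2 ^ 40 : ℤ)| ≤ 2 ^ 40 := by norm_num
        exact fun e => (Fin.forall_fin_two.2 ⟨h4, h4⟩ :
          ∀ e, |(![-2 ^ 40, -2 ^ 40] : Fin 2 → ℤ) e| ≤ 2 ^ 40) e) K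
        (tv_bd bW bU (mem_range.1 hk) hK) e
    refine (sum_le_sum h3).trans ?_
    rw [sum_const, card_range, nsmul_eq_mul]
    norm_num

/-- THE VECTOR -/
theorem q2_ok0 {W U : Fr} {I J : VF} (hW : FrR 3 W I) (hU : FrR 1 U J)
    (bW : BF (2 ^ 19) I) (bU : BF (2 ^ 19) J) {x : NL} {n : ℕ → Fin 2 → ℤ}
    (hx : ∀ k < 9, ((x.at k : ℕ) : ℤ) = (n k 0 + n k 1 * BB) + CO2)
    (hv : x.v = TE * ∑ k ∈ range 9, x.at k) (hn : ∀ k < 9, ∀ e, |n k e| ≤ 2 ^ 39) :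
    ∃ Y : VA, ((q2 (mkTC W U) x : ℕ) : ℤ) = pz BB 27 (qd Y) ∧
      (∀ K < 9, ev K Y = ∑ k ∈ range 9, ef (k / 3) (K / 3) I * ef (k % 3) (K % 3) J *
        ⟨((n k 0 : ℤ) : ℝ), ((n k 1 : ℤ) : ℝ)⟩) ∧
      ∀ K < 9, ∀ e, |Y K e| ≤ 2 ^ 84 := by
  have h1 := entT_ok hW hU bW bU
  have h2 := tck_ok hW hU bW bU
  set F : ℕ → Fin 3 → ℤ := fun K e => ∑ k ∈ range 9, nT (n k) (tv I J k) K e with hF
  have hFb : ∀ K < 9, ∀ e, |F K e| ≤ 2 ^ 83 + 2 ^ 80 := by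
    intro K hK e
    refine (abs_sum_le_sum_abs _ _).trans ?_
    have h3 : ∀ k ∈ range 9, |nT (n k) (tv I J k) K e| ≤ 2 * (2 ^ 39 * 2 ^ 40) :=
      fun k hk => nT_bd (hn k (mem_range.1 hk)) K (tv_bd bW bU (mem_range.1 hk) hK) e
    refine (sum_le_sum h3).trans ?_
    rw [sum_const, card_range, nsmul_eq_mul]
    norm_num
  have e : q2 (mkTC W U) x = dec M01q M0q CQ ((∑ k ∈ range 9, x.at k * entT (mkTC W U) k +
      (mkTC W U).k) - x.v) := by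
    rw [← ad9_sum (fun k => x.at k * entT (mkTC W U) k)]
    rfl
  have hy : ((((∑ k ∈ range 9, x.at k * entT (mkTC W U) k + (mkTC W U).k) - x.v : ℕ)) : ℤ) =
      (OR3 : ℤ) + Q3 F := by
    refine nat_sub_cast ?_ (OR3_nonneg fun K hK e => (hFb K hK e).trans (by norm_num))
    rw [Nat.cast_add, hv, Nat.cast_mul, Nat.cast_sum, Nat.cast_sum, h2, hF, Q3_sum,
      sum_congr rfl fun k hk => hx k (mem_range.1 hk)]
    have e3 : ∀ k ∈ range 9, ((x.at k * entT (mkTC W U) k : ℕ) : ℤ) =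
        Q3 (nT (n k) (tv I J k)) + (CO2 * QA (tv I J k) + TE * ((n k 0 + n k 1 * BB) + CO2)) := by
      intro k hk
      rw [Nat.cast_mul, hx k (mem_range.1 hk), h1 k (mem_range.1 hk), ← nT_ok]
      ring
    rw [sum_congr rfl e3, sum_add_distrib, sum_add_distrib, ← mul_sum, ← mul_sum]
    ring
  have hy2 : ((((∑ k ∈ range 9, x.at k * entT (mkTC W U) k + (mkTC W U).k) - x.v : ℕ)) : ℤ) =
      pz BB 27 (fun k => (((fun _ => 2 ^ 100 : ℕ → ℕ) (k % 3) : ℕ) : ℤ) + q3 F k) := by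
    rw [hy, OR3_add]
    refine pz_congr _ _ _ _ fun k _ => ?_
    show _ = ((2 ^ 100 : ℕ) : ℤ) + q3 F k
    rw [Nat.cast_pow]
    rfl
  have h3 := dec27 (o := fun _ => 2 ^ 100) (c := 2 ^ 100) (b := 2 ^ 83 + 2 ^ 80) CQ_eq hy2 rfl hFb
    (fun e _ => by
      show (2 : ℤ) ^ 83 + 2 ^ 80 ≤ ((2 ^ 100 : ℕ) : ℤ) ∧ ((2 ^ 100 : ℕ) : ℤ) + (2 ^ 83 + 2 ^ 80) < 2 ^ 128
      rw [Nat.cast_pow]
      norm_num) (by
      rw [Nat.cast_pow]
      norm_num)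
  refine ⟨dv F, ?_, fun K hK => ?_, fun K hK e => ?_⟩
  · rw [e, h3]
    refine pz_congr _ _ _ _ fun k _ => ?_
    unfold qd
    by_cases h0 : k % 3 = 0
    · rw [if_pos h0, if_pos h0, Nat.cast_pow]
      rfl
    · rw [if_neg h0, if_neg h0]
      by_cases h5 : k % 3 = 1
      · rw [if_pos h5, if_pos h5, Nat.cast_pow]
        rfl
      · rw [if_neg h5, if_neg h5]
  · have e5 : dv F = ∑ k ∈ range 9, dv (nT (n k) (tv I J k)) := by
      funext K e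
      rw [Finset.sum_apply, Finset.sum_apply]
      fin_cases e
      · show ∑ k ∈ range 9, nT (n k) (tv I J k) K 0 - ∑ k ∈ range 9, nT (n k) (tv I J k) K 2 =
          ∑ k ∈ range 9, (nT (n k) (tv I J k) K 0 - nT (n k) (tv I J k) K 2)
        rw [sum_sub_distrib]
      · rfl
    rw [e5, map_sum]
    exact sum_congr rfl fun k _ => ev_nT k (n k) K
  · have h5 : ∀ k ∈ range 9, |nT (n k) (tv I J k) K 0 - nT (n k) (tv I J k) K 2| ≤
        2 * (2 ^ 39 * 2 ^ 40) := by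
      intro k hk
      have h6 := nT_bd02 (hn k (mem_range.1 hk)) K (tv_bd bW bU (mem_range.1 hk) hK)
      have h7 := abs_sub (nT (n k) (tv I J k) K 0) (nT (n k) (tv I J k) K 2)
      linarith [h6.1, h6.2]
    have h8 : |dv F K 0| ≤ 2 ^ 84 := by
      show |∑ k ∈ range 9, nT (n k) (tv I J k) K 0 - ∑ k ∈ range 9, nT (n k) (tv I J k) K 2| ≤ 2 ^ 84
      rw [← sum_sub_distrib]
      refine (abs_sum_le_sum_abs _ _).trans ((sum_le_sum h5).trans ?_)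
      rw [sum_const, card_range, nsmul_eq_mul]
      norm_num
    have h9 : |dv F K 1| ≤ 2 ^ 84 := (hFb K hK 1).trans (by norm_num)
    exact (Fin.forall_fin_two.2 ⟨h8, h9⟩ : ∀ e, |dv F K e| ≤ 2 ^ 84) e

/-! ### rounded node values -/

theorem ndI_bd : ∀ (D : ℕ) {C : Vt D → ℤ} {b : ℤ} (_ : ∀ v, |C v| ≤ b) (u : Vt D),
    |ndI D C u| ≤ 4 ^ D * b
  | 0, C, b, h, u => by
    show |C u| ≤ 4 ^ 0 * b
    rw [pow_zero, one_mul]
    exact h u
  | D + 1, C, b, h, u => by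
    obtain ⟨w, i⟩ := u
    have h0 := ndI_bd D (C := fun w => C (w, 0)) (fun v => h (v, 0)) w
    have h1 := ndI_bd D (C := fun w => C (w, 1)) (fun v => h (v, 1)) w
    have h2 := ndI_bd D (C := fun w => C (w, 2)) (fun v => h (v, 2)) w
    have e0 : |ndI (D + 1) C (w, 0)| ≤ 4 ^ (D + 1) * b := by
      show |4 * ndI D (fun w => C (w, 0)) w| ≤ _
      rw [abs_mul, pow_succ]
      have : |(4 : ℤ)| = 4 := by norm_num
      rw [this]
      linarith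
    have e1 : |ndI (D + 1) C (w, 1)| ≤ 4 ^ (D + 1) * b := by
      show |ndI D (fun w => C (w, 0)) w + ndI D (fun w => C (w, 2)) w +
        2 * ndI D (fun w => C (w, 1)) w| ≤ _
      rw [pow_succ, abs_le]
      have a0 := abs_le.mp h0
      have a1 := abs_le.mp h1
      have a2 := abs_le.mp h2
      constructor
      · linarith [a0.1, a1.1, a2.1]
      · linarith [a0.2, a1.2, a2.2]
    have e2 : |ndI (D + 1) C (w, 2)| ≤ 4 ^ (D + 1) * b := by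
      show |4 * ndI D (fun w => C (w, 2)) w| ≤ _
      rw [abs_mul, pow_succ]
      have : |(4 : ℤ)| = 4 := by norm_num
      rw [this]
      linarith
    fin_cases i
    · exact e0
    · exact e1
    · exact e2

theorem rd_eq (s o u : ℕ) : rd s o u = ((u >>> s) &&& MR2) + o := rfl

theorem CO2_shr {k : ℕ} (hk : k ≤ 20) :
    ((CO2 - CO2 >>> k : ℕ) : ℤ) = CO2 - 2 ^ (40 - k) * (1 + BB) := by
  have h1 : CO2 >>> k = 2 ^ (40 - k) * (1 + 2 ^ 128) := by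
    have h2 : CO2 = 2 ^ k * (2 ^ (40 - k) * (1 + 2 ^ 128)) := by
      rw [← Nat.mul_assoc, ← pow_add, show k + (40 - k) = 40 by omega, CO2_eq]
      ring
    rw [Nat.shiftRight_eq_div_pow, h2, Nat.mul_div_cancel_left _ (by positivity)]
  have h3 : 2 ^ (40 - k) * (1 + 2 ^ 128) ≤ CO2 := by
    rw [CO2_eq, show 2 ^ 40 + 2 ^ 40 * 2 ^ 128 = 2 ^ 40 * (1 + 2 ^ 128) by ring]
    exact Nat.mul_le_mul_right _ (Nat.pow_le_pow_right (by norm_num) (by omega))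
  rw [h1, Nat.cast_sub h3, Nat.cast_mul, Nat.cast_add, castB, Nat.cast_pow, Nat.cast_one]
  rfl

/-- rounding of two digits -/
theorem rd_ok {D k : ℕ} (hD : D ≤ 4) (hk : k ≤ 20) {u : ℕ} {a : Fin 2 → ℤ}
    (hu : (u : ℤ) = (4 ^ D * 2 ^ 60 + a 0) + (4 ^ D * 2 ^ 60 + a 1) * BB)
    (ha : ∀ e, |a e| ≤ 4 ^ D * 2 ^ 59) :
    ((rd (20 + 2 * D + k) (CO2 - CO2 >>> k) u : ℕ) : ℤ) =
      (a 0 / 2 ^ (20 + 2 * D + k) + a 1 / 2 ^ (20 + 2 * D + k) * BB) + CO2 ∧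
      ∀ e, |a e / 2 ^ (20 + 2 * D + k)| ≤ 2 ^ 39 := by
  set s := 20 + 2 * D + k with hs
  have h4 : (4 : ℤ) ^ D = 2 ^ (2 * D) := by rw [pow_mul]; norm_num
  have h60 : (4 : ℤ) ^ D * 2 ^ 60 = 2 ^ (40 - k) * 2 ^ s := by
    rw [h4, ← pow_add, ← pow_add]
    congr 1
    omega
  have h59 : (4 : ℤ) ^ D * 2 ^ 59 = 2 ^ (39 - k) * 2 ^ s := by
    rw [h4, ← pow_add, ← pow_add]
    congr 1
    omega
  have hs0 : (0 : ℤ) < 2 ^ s := by positivity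
  rw [h60] at hu
  rw [h59] at ha
  have h39 : (2 : ℤ) ^ (39 - k) ≤ 2 ^ 39 := pow_le_pow_right₀ (by norm_num) (by omega)
  have h39' : (2 : ℤ) ^ (40 - k) = 2 ^ (39 - k) + 2 ^ (39 - k) := by
    rw [show 40 - k = (39 - k) + 1 by omega, pow_succ]
    ring
  have hp39 : (0 : ℤ) < 2 ^ (39 - k) := by positivity
  have hdiv : ∀ e, |a e / 2 ^ s| ≤ 2 ^ (39 - k) := by
    intro e
    have h1 := abs_le.mp (ha e)
    rw [abs_le]
    constructor
    · rw [Int.le_ediv_iff_mul_le hs0]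
      linarith [h1.1]
    · have h2 : a e / 2 ^ s ≤ (2 ^ (39 - k) * 2 ^ s) / 2 ^ s := Int.ediv_le_ediv hs0 h1.2
      rwa [Int.mul_ediv_cancel _ hs0.ne'] at h2
  refine ⟨?_, fun e => (hdiv e).trans h39⟩
  set X : ℕ → ℕ := fun i => (2 ^ (40 - k) * 2 ^ s + (if i = 0 then a 0 else a 1)).toNat with hX
  have hmul : (2 : ℤ) ^ (40 - k) * 2 ^ s = 2 ^ (39 - k) * 2 ^ s + 2 ^ (39 - k) * 2 ^ s := by
    rw [h39']
    ring
  have hms : (0 : ℤ) < 2 ^ (39 - k) * 2 ^ s := mul_pos hp39 hs0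
  have hXz : ∀ i, ((X i : ℕ) : ℤ) = 2 ^ (40 - k) * 2 ^ s + (if i = 0 then a 0 else a 1) := by
    intro i
    refine Int.toNat_of_nonneg ?_
    by_cases h : i = 0
    · rw [if_pos h]
      linarith [(abs_le.mp (ha 0)).1]
    · rw [if_neg h]
      linarith [(abs_le.mp (ha 1)).1]
  have hXl : ∀ i, X i < 2 ^ (41 - k) * 2 ^ s := by
    intro i
    have h2 : ((X i : ℕ) : ℤ) < ((2 ^ (41 - k) * 2 ^ s : ℕ) : ℤ) := by
      rw [hXz, Nat.cast_mul, Nat.cast_pow, Nat.cast_pow]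
      have e2 : ((2 : ℕ) : ℤ) = 2 := rfl
      rw [e2]
      have h3 : (2 : ℤ) ^ (41 - k) * 2 ^ s = 2 ^ (40 - k) * 2 ^ s + 2 ^ (40 - k) * 2 ^ s := by
        rw [show 41 - k = (40 - k) + 1 by omega, pow_succ]
        ring
      by_cases h : i = 0
      · rw [if_pos h]
        linarith [(abs_le.mp (ha 0)).2]
      · rw [if_neg h]
        linarith [(abs_le.mp (ha 1)).2]
    exact Nat.cast_lt.mp h2
  have hs28 : s ≤ 48 := by omega
  have hu2 : u = pk (2 ^ 128) 2 X + (2 ^ 128) ^ 2 * 0 := by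
    have h1 : (u : ℤ) = ((pk (2 ^ 128) 2 X : ℕ) : ℤ) := by
      show (u : ℤ) = ((X 0 + 2 ^ 128 * (X 1 + 2 ^ 128 * 0) : ℕ) : ℤ)
      rw [hu, Nat.mul_zero, Nat.add_zero, Nat.cast_add, Nat.cast_mul, castB, hXz, hXz, if_pos rfl,
        if_neg one_ne_zero]
      ring
    rw [Nat.mul_zero, Nat.add_zero]
    exact Nat.cast_injective h1
  have hb1 : (2 : ℕ) ^ (41 - k) * 2 ^ s < 2 ^ 128 := by
    rw [← pow_add]
    exact Nat.pow_lt_pow_right (by norm_num) (by omega)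
  have h3 := shl_pk (e := 128) (k := s) (by omega) 2 X (fun _ => 2 ^ 64 - 1) 0
    (fun i _ => (hXl i).trans hb1) (fun i _ => by
      have h5 : (2 : ℕ) ^ 64 ≤ 2 ^ (128 - s) := Nat.pow_le_pow_right (by norm_num) (by omega)
      have h6 : (0 : ℕ) < 2 ^ 64 := by positivity
      show (2 : ℕ) ^ 64 - 1 < 2 ^ (128 - s)
      omega)
  rw [← hu2, ← MR2_eq] at h3
  have h7 : ∀ i, (X i >>> s) &&& (2 ^ 64 - 1) = X i / 2 ^ s := by
    intro i
    rw [Nat.shiftRight_eq_div_pow]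
    refine Pool.Agent.Helper90.DG.mask_full ?_
    rw [Nat.div_lt_iff_lt_mul (by positivity)]
    refine (hXl i).trans ?_
    exact Nat.mul_lt_mul_of_pos_right (Nat.pow_lt_pow_right (by norm_num) (by omega))
      (by positivity)
  have h8 : ∀ i, ((X i / 2 ^ s : ℕ) : ℤ) = 2 ^ (40 - k) + (if i = 0 then a 0 else a 1) / 2 ^ s := by
    intro i
    have e2 : ((2 ^ s : ℕ) : ℤ) = 2 ^ s := by
      rw [Nat.cast_pow]
      rfl
    rw [Int.natCast_ediv, e2, hXz, add_comm, Int.add_mul_ediv_right _ _ hs0.ne', add_comm]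
  rw [rd_eq, Nat.cast_add, CO2_shr hk, h3]
  show (((((X 0 >>> s) &&& (2 ^ 64 - 1)) + 2 ^ 128 * (((X 1 >>> s) &&& (2 ^ 64 - 1)) + 2 ^ 128 * 0) : ℕ)) : ℤ) + _ = _
  rw [h7, h7, Nat.mul_zero, Nat.add_zero, Nat.cast_add, Nat.cast_mul, castB, h8, h8, if_pos rfl,
    if_neg one_ne_zero]
  ring

/-! ### interpolation of the node values -/

theorem nd_avg : ∀ (D : ℕ) (t : ℕ → ℝ) (C : Vt D → ℤ),
    avg (ndw D t) (fun u => ((ndI D C u : ℤ) : ℂ)) = 4 ^ D * avg (wtT D t) (fun v => ((C v : ℤ) : ℂ))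
  | 0, t, C => by
    rw [avg_zero_dir, avg_zero_dir]
    show ((1 : ℝ) : ℂ) * ((C () : ℤ) : ℂ) = 4 ^ 0 * (((1 : ℝ) : ℂ) * ((C () : ℤ) : ℂ))
    rw [pow_zero, one_mul]
  | D + 1, t, C => by
    have h0 := nd_avg D t (fun w => C (w, 0))
    have h1 := nd_avg D t (fun w => C (w, 1))
    have h2 := nd_avg D t (fun w => C (w, 2))
    rw [avg_ndw_succ, avg_wt_succ]
    have e0 : avg (ndw D t) (fun v => ((ndI (D + 1) C (v, 0) : ℤ) : ℂ)) =
        4 * avg (ndw D t) (fun u => ((ndI D (fun w => C (w, 0)) u : ℤ) : ℂ)) := by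
      rw [← Pool.Agent.Helper90.C75.avg_smul]
      congr 1
      funext v
      show ((4 * ndI D (fun w => C (w, 0)) v : ℤ) : ℂ) = _
      push_cast
      ring
    have e2 : avg (ndw D t) (fun v => ((ndI (D + 1) C (v, 2) : ℤ) : ℂ)) =
        4 * avg (ndw D t) (fun u => ((ndI D (fun w => C (w, 2)) u : ℤ) : ℂ)) := by
      rw [← Pool.Agent.Helper90.C75.avg_smul]
      congr 1
      funext v
      show ((4 * ndI D (fun w => C (w, 2)) v : ℤ) : ℂ) = _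
      push_cast
      ring
    have e1 : avg (ndw D t) (fun v => ((ndI (D + 1) C (v, 1) : ℤ) : ℂ)) =
        avg (ndw D t) (fun u => ((ndI D (fun w => C (w, 0)) u : ℤ) : ℂ)) +
        avg (ndw D t) (fun u => ((ndI D (fun w => C (w, 2)) u : ℤ) : ℂ)) +
        2 * avg (ndw D t) (fun u => ((ndI D (fun w => C (w, 1)) u : ℤ) : ℂ)) := by
      rw [← Pool.Agent.Helper90.C75.avg_smul, ← Pool.Agent.Helper90.C75.avg_add,
        ← Pool.Agent.Helper90.C75.avg_add]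
      congr 1
      funext v
      show ((ndI D (fun w => C (w, 0)) v + ndI D (fun w => C (w, 2)) v +
        2 * ndI D (fun w => C (w, 1)) v : ℤ) : ℂ) = _
      push_cast
      ring
    rw [e0, e1, e2, h0, h1, h2, nlg_0, nlg_1, nlg_2]
    push_cast
    ring

theorem cz_eq (a b : ℝ) : (⟨a, b⟩ : ℂ) = (a : ℂ) + (b : ℂ) * Complex.I := by
  apply Complex.ext <;> simp

theorem avg_cz {V : Type} [Fintype V] (w : V → ℝ) (a b : V → ℝ) :
    avg w (fun v => (⟨a v, b v⟩ : ℂ)) = avg w (fun v => (a v : ℂ)) + Complex.I * avg w (fun v => (b v : ℂ)) := by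
  rw [← Pool.Agent.Helper90.C75.avg_smul, ← Pool.Agent.Helper90.C75.avg_add]
  congr 1
  funext v
  rw [cz_eq]
  ring

theorem norm_rt {a b : ℝ} (ha : |a| ≤ 1) (hb : |b| ≤ 1) : ‖(⟨a, b⟩ : ℂ)‖ ≤ 3 / 2 := by
  have h1 := abs_le.mp ha
  have h2 := abs_le.mp hb
  have h3 : ‖(⟨a, b⟩ : ℂ)‖ ^ 2 ≤ (3 / 2) ^ 2 := by
    rw [← Complex.normSq_eq_norm_sq, Complex.normSq_mk]
    nlinarith [h1.1, h1.2, h2.1, h2.2]
  exact abs_le_of_sq_le_sq' h3 (by norm_num) |>.2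

theorem fl_err (a : ℤ) (s : ℕ) : |(a : ℝ) / 2 ^ s - ((a / 2 ^ s : ℤ) : ℝ)| ≤ 1 := by
  have hs : (0 : ℤ) < 2 ^ s := by positivity
  have hsr : (0 : ℝ) < 2 ^ s := by positivity
  have h1 := Int.emod_add_mul_ediv a (2 ^ s)
  have h2 := Int.emod_nonneg a hs.ne'
  have h3 := Int.emod_lt_of_pos a hs
  have e1 : (a : ℝ) = ((a % 2 ^ s : ℤ) : ℝ) + 2 ^ s * ((a / 2 ^ s : ℤ) : ℝ) := by
    have h4 := congrArg (fun x : ℤ => (x : ℝ)) h1.symm
    push_cast at h4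
    exact h4
  have e2 : (a : ℝ) / 2 ^ s - ((a / 2 ^ s : ℤ) : ℝ) = ((a % 2 ^ s : ℤ) : ℝ) / 2 ^ s := by
    rw [e1, add_div, mul_div_cancel_left₀ _ hsr.ne']
    have : ((((a % 2 ^ s : ℤ) : ℝ) + 2 ^ s * ((a / 2 ^ s : ℤ) : ℝ))) = a := e1.symm
    ring
  have h2r : (0 : ℝ) ≤ ((a % 2 ^ s : ℤ) : ℝ) := by exact_mod_cast h2
  have h3r : ((a % 2 ^ s : ℤ) : ℝ) < 2 ^ s := by exact_mod_cast h3
  rw [e2, abs_of_nonneg (by positivity), div_le_one hsr]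
  exact h3r.le

theorem andB_t {x y : Bool} (h : andB x y = true) : x = true ∧ y = true := by
  cases x
  · exact absurd (show false = true from h) Bool.false_ne_true
  · exact ⟨rfl, h⟩

theorem le59_t {α : Type} {x : Mo α} (h : le59 x = true) : x.B ≤ 2 ^ 59 :=
  (Nat.le_of_ble_eq_true h).trans (by norm_num)

end RQ

/-- the rounded values of the entry number `K` of a block at the nodes, units `2 ^ (k - 28)` -/
def nI {α : Type} (D k : ℕ) (lC : α → Vt D → Cx) (V : V9 α) (u : Vt D) (K : ℕ) : Fin 2 → ℤ :=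
  ![ndI D (fun v => zv (lC (vat V K).v v).re) u / 2 ^ (20 + 2 * D + k),
    ndI D (fun v => zv (lC (vat V K).v v).im) u / 2 ^ (20 + 2 * D + k)]

/-- the leaves of a block -/
theorem nI_leaf {α ν μ ζ : Type} {D : ℕ} {lC : α → Vt D → Cx} {lv : ν → Vt D → ℕ}
    {lz : ζ → Vt D → Z} {lm : μ → Vt D → NL} {r : Vt D → Vt 3} {X : Mn α ν μ ζ}
    (H : MnL D lC lv lz lm r X) (hD : D ≤ 4) {k : ℕ} (hk : k ≤ 20) {V : V9 α}
    (hV : ∀ K < 9, ∀ v, |zv (lC (vat V K).v v).re| ≤ 2 ^ 59 ∧ |zv (lC (vat V K).v v).im| ≤ 2 ^ 59)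
    (u : Vt D) : NLR (lm (mkNV X k V).v u) (nI D k lC V u) := by
  have hle : (2 : ℤ) ^ 59 ≤ 2 ^ 60 := by norm_num
  set s := 20 + 2 * D + k with hs
  set o := CO2 - CO2 >>> k with ho
  have e1 : lm (mkNV X k V).v u = mkNL s o (lv (X.N.nd V.a.v) u) (lv (X.N.nd V.b.v) u)
      (lv (X.N.nd V.c.v) u) (lv (X.N.nd V.d.v) u) (lv (X.N.nd V.e.v) u) (lv (X.N.nd V.f.v) u)
      (lv (X.N.nd V.g.v) u) (lv (X.N.nd V.h.v) u) (lv (X.N.nd V.i.v) u) := by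
    have h1 := H.Q.z (20 + 2 * X.d + k) o (X.N.nd V.a.v) (X.N.nd V.b.v) (X.N.nd V.c.v)
      (X.N.nd V.d.v) (X.N.nd V.e.v) (X.N.nd V.f.v) (X.N.nd V.g.v) (X.N.nd V.h.v) (X.N.nd V.i.v) u
    rw [H.d, ← hs] at h1
    rw [← h1]
    show lm (X.Q.z (20 + 2 * X.d + k) o _ _ _ _ _ _ _ _ _) u = _
    rw [H.d]
  rw [e1]
  have hent : ∀ K < 9, (mkNL s o (lv (X.N.nd V.a.v) u) (lv (X.N.nd V.b.v) u)
      (lv (X.N.nd V.c.v) u) (lv (X.N.nd V.d.v) u) (lv (X.N.nd V.e.v) u) (lv (X.N.nd V.f.v) u)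
      (lv (X.N.nd V.g.v) u) (lv (X.N.nd V.h.v) u) (lv (X.N.nd V.i.v) u)).at K =
      rd s o (lv (X.N.nd (vat V K).v) u) := by
    intro K hK
    interval_cases K <;> rfl
  have hrd : ∀ K < 9, ((rd s o (lv (X.N.nd (vat V K).v) u) : ℕ) : ℤ) =
      (nI D k lC V u K 0 + nI D k lC V u K 1 * BB) + CO2 ∧ ∀ e, |nI D k lC V u K e| ≤ 2 ^ 39 := by
    intro K hK
    have h1 := H.N (vat V K).v (fun v => ⟨((hV K hK v).1).trans hle, ((hV K hK v).2).trans hle⟩) u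
    have h2 := RQ.ndI_bd D (C := fun v => zv (lC (vat V K).v v).re) (fun v => (hV K hK v).1) u
    have h3 := RQ.ndI_bd D (C := fun v => zv (lC (vat V K).v v).im) (fun v => (hV K hK v).2) u
    have h4 := RQ.rd_ok hD hk (a := ![ndI D (fun v => zv (lC (vat V K).v v).re) u,
      ndI D (fun v => zv (lC (vat V K).v v).im) u]) h1 (fun e =>
        (Fin.forall_fin_two.2 ⟨h2, h3⟩ : ∀ e, |(![ndI D (fun v => zv (lC (vat V K).v v).re) u,
          ndI D (fun v => zv (lC (vat V K).v v).im) u] : Fin 2 → ℤ) e| ≤ 4 ^ D * 2 ^ 59) e)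
    refine ⟨h4.1, fun e => ?_⟩
    exact (Fin.forall_fin_two.2 ⟨h4.2 0, h4.2 1⟩ : ∀ e, |nI D k lC V u K e| ≤ 2 ^ 39) e
  refine ⟨fun K hK => ?_, rfl, fun K hK e => (hrd K hK).2 e⟩
  rw [hent K hK, (hrd K hK).1, RQ.CO2_cast]
  ring

/-- the error of the rounded values -/
theorem nI_err {α : Type} {D : ℕ} (hD : D ≤ 4) {lC : α → Vt D → Cx} {lf : α → Vt D → ℂ}
    (hc : ∀ x v, cz (lC x v) = lf x v) {t : ℕ → ℝ} (hP : PT D t) (k : ℕ) {M : Mt} {V : V9 α}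
    (hV : TV D lf t M V) (K : ℕ) (hK : K < 9) :
    ‖(2 ^ 28 / 2 ^ k : ℂ) * en M (K / 3) (K % 3) - avg (ndw D t) (fun u =>
      (⟨((nI D k lC V u K 0 : ℤ) : ℝ), ((nI D k lC V u K 1 : ℤ) : ℝ)⟩ : ℂ))‖ ≤
      (r20 k (vat V K) : ℝ) := by
  have hT : TOK D lf t (en M (K / 3) (K % 3)) (vat V K) := by
    interval_cases K
    · exact hV.a
    · exact hV.b
    · exact hV.c
    · exact hV.d
    · exact hV.e
    · exact hV.f
    · exact hV.g
    · exact hV.h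
    · exact hV.i
  set f := en M (K / 3) (K % 3) with hf
  set C := vat V K with hC
  have h1 : ‖(UU : ℂ) * f - avg (wtT D t) (lf C.v)‖ ≤ (C.r : ℝ) := hT.mod
  set s := 20 + 2 * D + k with hs
  set re : Vt D → ℤ := fun v => zv (lC C.v v).re with hre
  set im : Vt D → ℤ := fun v => zv (lC C.v v).im with him
  have e1 : lf C.v = fun v => (⟨((re v : ℤ) : ℝ), ((im v : ℤ) : ℝ)⟩ : ℂ) := by
    funext v
    rw [← hc]
    rfl
  have e2 : avg (wtT D t) (lf C.v) = avg (ndw D t) (fun u =>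
      (⟨((ndI D re u : ℤ) : ℝ) / 4 ^ D, ((ndI D im u : ℤ) : ℝ) / 4 ^ D⟩ : ℂ)) := by
    have h4 : (4 : ℂ) ^ D ≠ 0 := pow_ne_zero _ (by norm_num)
    have a1 := RQ.nd_avg D t re
    have a2 := RQ.nd_avg D t im
    rw [e1, RQ.avg_cz (wtT D t) (fun v => ((re v : ℤ) : ℝ)) (fun v => ((im v : ℤ) : ℝ)),
      RQ.avg_cz (ndw D t) (fun u => ((ndI D re u : ℤ) : ℝ) / 4 ^ D)
        (fun u => ((ndI D im u : ℤ) : ℝ) / 4 ^ D)]
    have b1 : ∀ x : Vt D → ℤ, avg (ndw D t) (fun u => ((((x u : ℤ) : ℝ) / 4 ^ D : ℝ) : ℂ)) =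
        (4 ^ D)⁻¹ * avg (ndw D t) (fun u => ((x u : ℤ) : ℂ)) := by
      intro x
      rw [← Pool.Agent.Helper90.C75.avg_smul]
      congr 1
      funext v
      push_cast
      ring
    rw [b1, b1, a1, a2]
    have b2 : ∀ x : Vt D → ℤ, avg (wtT D t) (fun u => (((x u : ℤ) : ℝ) : ℂ)) =
        avg (wtT D t) (fun u => ((x u : ℤ) : ℂ)) := by
      intro x
      congr 1
    rw [b2, b2]
    field_simp
  have e3 : (2 ^ 28 / 2 ^ k : ℂ) * f - avg (ndw D t) (fun u =>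
      (⟨((nI D k lC V u K 0 : ℤ) : ℝ), ((nI D k lC V u K 1 : ℤ) : ℝ)⟩ : ℂ)) =
      (2 ^ 20 * 2 ^ k : ℂ)⁻¹ * ((UU : ℂ) * f - avg (wtT D t) (lf C.v)) +
      avg (ndw D t) (fun u => (⟨((ndI D re u : ℤ) : ℝ) / 2 ^ s - ((ndI D re u / 2 ^ s : ℤ) : ℝ),
        ((ndI D im u : ℤ) : ℝ) / 2 ^ s - ((ndI D im u / 2 ^ s : ℤ) : ℝ)⟩ : ℂ)) := by
    have c7 : (2 : ℂ) ^ k ≠ 0 := pow_ne_zero _ (by norm_num)
    have c1 : (fun u => (⟨((ndI D re u : ℤ) : ℝ) / 2 ^ s - ((ndI D re u / 2 ^ s : ℤ) : ℝ),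
        ((ndI D im u : ℤ) : ℝ) / 2 ^ s - ((ndI D im u / 2 ^ s : ℤ) : ℝ)⟩ : ℂ)) = fun u : Vt D =>
        (2 ^ 20 * 2 ^ k : ℂ)⁻¹ *
          (⟨((ndI D re u : ℤ) : ℝ) / 4 ^ D, ((ndI D im u : ℤ) : ℝ) / 4 ^ D⟩ : ℂ) -
        (⟨((nI D k lC V u K 0 : ℤ) : ℝ), ((nI D k lC V u K 1 : ℤ) : ℝ)⟩ : ℂ) := by
      funext u
      have c2 : (2 : ℝ) ^ s = 2 ^ 20 * 4 ^ D * 2 ^ k := by
        rw [hs, pow_add, pow_add, pow_mul]
        norm_num
      have c3 : nI D k lC V u K 0 = ndI D re u / 2 ^ s := rfl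
      have c4 : nI D k lC V u K 1 = ndI D im u / 2 ^ s := rfl
      rw [c3, c4, c2, RQ.cz_eq, RQ.cz_eq, RQ.cz_eq]
      have c5 : (4 : ℂ) ^ D ≠ 0 := pow_ne_zero _ (by norm_num)
      push_cast
      field_simp
      ring
    rw [c1, Pool.Agent.Helper90.C75.avg_sub, Pool.Agent.Helper90.C75.avg_smul, ← e2]
    have c6 : (UU : ℂ) = 2 ^ 20 * 2 ^ 28 := by
      unfold UU
      push_cast
      norm_num
    rw [c6]
    field_simp
    ring
  rw [e3]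
  have h2 : ‖(2 ^ 20 * 2 ^ k : ℂ)⁻¹ * ((UU : ℂ) * f - avg (wtT D t) (lf C.v))‖ ≤
      C.r / 2 ^ (20 + k) := by
    rw [← pow_add, norm_mul, norm_inv, norm_pow]
    have : ‖(2 : ℂ)‖ = 2 := by norm_num
    rw [this, div_eq_inv_mul]
    exact mul_le_mul_of_nonneg_left h1 (by positivity)
  have h3 : ‖avg (ndw D t) (fun u => (⟨((ndI D re u : ℤ) : ℝ) / 2 ^ s - ((ndI D re u / 2 ^ s : ℤ) : ℝ),
        ((ndI D im u : ℤ) : ℝ) / 2 ^ s - ((ndI D im u / 2 ^ s : ℤ) : ℝ)⟩ : ℂ))‖ ≤ (5 / 4) ^ D * (3 / 2) :=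
    norm_ndw_le hP fun u => RQ.norm_rt (RQ.fl_err _ _) (RQ.fl_err _ _)
  have h4 : (5 / 4 : ℝ) ^ D * (3 / 2) ≤ 4 := by
    have h5 : (5 / 4 : ℝ) ^ D ≤ (5 / 4) ^ 4 := pow_le_pow_right₀ (by norm_num) hD
    have h6 : (5 / 4 : ℝ) ^ 4 * (3 / 2) ≤ 4 := by norm_num
    linarith [mul_le_mul_of_nonneg_right h5 (by norm_num : (0 : ℝ) ≤ 3 / 2)]
  have h5 : (C.r : ℝ) / 2 ^ (20 + k) ≤ ((C.r >>> (20 + k) : ℕ) : ℝ) + 1 := by
    rw [Nat.shiftRight_eq_div_pow, div_le_iff₀ (by positivity)]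
    have h6 : C.r < 2 ^ (20 + k) * (C.r / 2 ^ (20 + k) + 1) :=
      Nat.lt_mul_div_succ _ (by positivity)
    have h7 : (C.r : ℝ) < ((2 ^ (20 + k) * (C.r / 2 ^ (20 + k) + 1) : ℕ) : ℝ) := Nat.cast_lt.mpr h6
    rw [Nat.cast_mul, Nat.cast_add, Nat.cast_pow, Nat.cast_one] at h7
    have e7 : ((2 : ℕ) : ℝ) = 2 := rfl
    rw [e7] at h7
    linarith
  have h6 : (r20 k C : ℝ) = ((C.r >>> (20 + k) : ℕ) : ℝ) + 5 := by
    show (((C.r >>> (20 + k)) + 5 : ℕ) : ℝ) = _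
    push_cast
    rfl
  rw [h6]
  refine (norm_add_le _ _).trans ?_
  linarith

/-- THE BLOCK OF MODELS -/
theorem mkNV_ok {α ν μ ζ : Type} {D : ℕ} {lC : α → Vt D → Cx} {lv : ν → Vt D → ℕ}
    {lz : ζ → Vt D → Z} {lm : μ → Vt D → NL} {r : Vt D → Vt 3} {X : Mn α ν μ ζ}
    (H : MnL D lC lv lz lm r X) {lf : α → Vt D → ℂ} (hc : ∀ x v, cz (lC x v) = lf x v) {t : ℕ → ℝ}
    (hP : PT D t) {k : ℕ} (hk : k ≤ 20) {M : Mt} {V : V9 α} (hV : TV D lf t M V) :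
    NVL D lm t k M (mkNV X k V) := by
  refine ⟨fun hok => ⟨fun u => nI D k lC V u, fun u => nI_leaf H hP.hD hk ?_ u, fun K hK => ?_⟩⟩
  · have hB : ∀ K < 9, (vat V K).B ≤ 2 ^ 59 := by
      have h1 := RQ.andB_t (x := le59 V.a) hok
      have h2 := RQ.andB_t h1.2
      have h3 := RQ.andB_t h2.2
      have h4 := RQ.andB_t h3.2
      have h5 := RQ.andB_t h4.2
      have h6 := RQ.andB_t h5.2
      have h7 := RQ.andB_t h6.2
      have h8 := RQ.andB_t h7.2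
      intro K hK
      interval_cases K
      · exact RQ.le59_t h1.1
      · exact RQ.le59_t h2.1
      · exact RQ.le59_t h3.1
      · exact RQ.le59_t h4.1
      · exact RQ.le59_t h5.1
      · exact RQ.le59_t h6.1
      · exact RQ.le59_t h7.1
      · exact RQ.le59_t h8.1
      · exact RQ.le59_t h8.2
    have hT : ∀ K < 9, TOK D lf t (en M (K / 3) (K % 3)) (vat V K) := by
      intro K hK
      interval_cases K
      · exact hV.a
      · exact hV.b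
      · exact hV.c
      · exact hV.d
      · exact hV.e
      · exact hV.f
      · exact hV.g
      · exact hV.h
      · exact hV.i
    intro K hK v
    have h1 := (hT K hK).val.bd v
    have h2 : (((vat V K).B : ℕ) : ℝ) ≤ ((2 ^ 59 : ℕ) : ℝ) := Nat.cast_le.mpr (hB K hK)
    have h3 := h1.trans h2
    rw [← hc] at h3
    have h4 := (Complex.abs_re_le_norm (cz (lC (vat V K).v v))).trans h3
    have h5 := (Complex.abs_im_le_norm (cz (lC (vat V K).v v))).trans h3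
    have h6 : ∀ x : ℤ, |(x : ℝ)| ≤ ((2 ^ 59 : ℕ) : ℝ) → |x| ≤ 2 ^ 59 := by
      intro x hx
      have h7 : ((|x| : ℤ) : ℝ) ≤ (((2 : ℤ) ^ 59 : ℤ) : ℝ) := by
        rw [Int.cast_abs]
        push_cast at hx ⊢
        exact hx
      exact_mod_cast h7
    exact ⟨h6 _ h4, h6 _ h5⟩
  · have h1 := nI_err hP.hD hc hP k hV K hK
    have h2 : (mkNV X k V).r.at K = r20 k (vat V K) := by
      interval_cases K <;> rfl
    rw [h2]
    exact h1

/-- the transformed vector of a leaf: digits `Y` -/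
theorem q2_ok {W U : Fr} {I J : VF} (hW : FrR 3 W I) (hU : FrR 1 U J) (bW : BF (2 ^ 19) I)
    (bU : BF (2 ^ 19) J) {y : NL} {n : ℕ → Fin 2 → ℤ} (hy : NLR y n) : ∃ Y : VA,
    ((q2 (mkTC W U) y : ℕ) : ℤ) = pz BB 27 (qd Y) ∧
    (∀ K < 9, ev K Y = ∑ k ∈ range 9, ef (k / 3) (K / 3) I * ef (k % 3) (K % 3) J *
      ⟨((n k 0 : ℤ) : ℝ), ((n k 1 : ℤ) : ℝ)⟩) ∧
    ∀ K < 9, ∀ e, |Y K e| ≤ 2 ^ 84 := by
  refine RQ.q2_ok0 hW hU bW bU (n := n) (fun k hk => ?_) ?_ (fun k hk e => hy.bd k hk e)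
  · rw [hy.dg k hk, RQ.CO2_cast]
    ring
  · rw [hy.vv, ← RQ.ad9_sum]
    rfl

/-- `W^t R U` -/
theorem rWU_at (R W U : M9) (K : ℕ) (hK : K < 9) : (rW W (rU R U)).at K =
    ∑ k ∈ range 9, W.at (3 * (k / 3) + K / 3) * U.at (3 * (k % 3) + K % 3) * R.at k := by
  have e : ∀ a b c x y z : ℕ, l3 a b c x y z = a * x + (b * y + c * z) := fun _ _ _ _ _ _ => rfl
  interval_cases K <;>
  · simp only [sum_range_succ, sum_range_zero, M9.at, rW, rU, e]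
    norm_num [M9.at]
    ring

end Pool.Agent.Helper17.N9
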