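import Pool.Agent.Helper17.N9.N9E
import Pool.Agent.Helper17.N9.N9O
import Pool.Agent.Helper17.N9.N9F
import Pool.Agent.Helper17.N9.N9G
import Pool.Agent.Helper17.N9.N9M
import Pool.Agent.Helper17.N9.N9Q

/-!
Row K9 of MP_c75db0 (plan W), version 2, part Z: THE TEST.
-/

set_option autoImplicit false
set_option exponentiation.threshold 60000
noncomputable section
namespace Pool.Agent.Helper17.N9

open Pool.Agent.Helper86.C75 (Z)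
open Pool.Agent.Helper86.CX (Cx andB)
open Pool.Agent.Helper86.CT (N3 Mo)
open Pool.Agent.Helper90.C75 (Vt avg wtT avg_sub avg_smul)
open Pool.Agent.Helper90.KMO (zv cz UU)
open Pool.Agent.Helper90.KMT (TOK PT DL NN)
open Pool.Agent.Helper90.K9 (G pk pz)
open Pool.Agent.Helper90.C9 (tfY RdC)
open Pool.Agent.Helper17.K9 (V9)
open Pool.Agent.Helper62.TVM (TV)
open Pool.Agent.Helper6.MONO (V3)
open Pool.Agent.Helper6.MONO.W2 (Mt hr hv J1 NT)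
open Finset Matrix

/-! ### the exact vector and the rounded one -/

theorem mwu_eq (W U M : Mt) {K : ℕ} : mwu W U M K =
    ∑ k ∈ range 9, en W (k / 3) (K / 3) * en U (k % 3) (K % 3) * en M (k / 3) (k % 3) := by
  rw [sum9]
  have e : ∀ i j : Fin 3, en W ((3 * i.1 + j.1) / 3) (K / 3) * en U ((3 * i.1 + j.1) % 3) (K % 3) *
      en M ((3 * i.1 + j.1) / 3) ((3 * i.1 + j.1) % 3) =
      W i (Fin.ofNat 3 (K / 3)) * U j (Fin.ofNat 3 (K % 3)) * M i j := by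
    intro i j
    rw [dv3, dm3, en_fin]
    unfold en
    rw [ofn, ofn]
  simp only [e]
  show (W.transpose * M * U) (Fin.ofNat 3 (K / 3)) (Fin.ofNat 3 (K % 3)) = _
  simp only [Matrix.mul_apply, Matrix.transpose_apply, Fin.sum_univ_three]
  ring

theorem avg_sumI {D : ℕ} (s : Finset ℕ) (w : Vt D → ℝ) (G : ℕ → Vt D → ℂ) :
    avg w (fun v => ∑ i ∈ s, G i v) = ∑ i ∈ s, avg w (G i) := by
  unfold avg
  rw [Finset.sum_comm]
  refine Finset.sum_congr rfl fun v _ => ?_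
  rw [Finset.mul_sum]

/-- the error of the transformed vector -/
theorem vec_err {D : ℕ} {t : ℕ → ℝ} {I J : VF} {bI bJ r : ℕ → ℕ}
    (hI : ∀ i < 3, ∀ j < 3, ‖ef i j I‖ ≤ (bI (3 * i + j) : ℝ))
    (hJ : ∀ i < 3, ∀ j < 3, ‖ef i j J‖ ≤ (bJ (3 * i + j) : ℝ)) {M : Mt} {n : Vt D → ℕ → Fin 2 → ℤ}
    (hn : ∀ K < 9, ‖en M (K / 3) (K % 3) - avg (ndw D t) (fun u =>
      (⟨((n u K 0 : ℤ) : ℝ), ((n u K 1 : ℤ) : ℝ)⟩ : ℂ))‖ ≤ (r K : ℝ)) {Q : Vt D → VA} {K : ℕ}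
    (hK : K < 9)
    (hQ : ∀ u, ev K (Q u) = ∑ k ∈ range 9, ef (k / 3) (K / 3) I * ef (k % 3) (K % 3) J *
      ⟨((n u k 0 : ℤ) : ℝ), ((n u k 1 : ℤ) : ℝ)⟩) :
    ‖mwu (mI I) (mI J) M K - avg (ndw D t) (fun u => ev K (Q u))‖ ≤
      ((∑ k ∈ range 9, bI (3 * (k / 3) + K / 3) * bJ (3 * (k % 3) + K % 3) * r k : ℕ) : ℝ) := by
  have e1 : (fun u => ev K (Q u)) = fun u => ∑ k ∈ range 9,
      (ef (k / 3) (K / 3) I * ef (k % 3) (K % 3) J) * ⟨((n u k 0 : ℤ) : ℝ), ((n u k 1 : ℤ) : ℝ)⟩ :=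
    funext hQ
  have k3 : K / 3 < 3 := by omega
  have km : K % 3 < 3 := by omega
  rw [e1, avg_sumI, mwu_eq, ← sum_sub_distrib]
  push_cast
  refine (norm_sum_le _ _).trans (sum_le_sum fun k hk => ?_)
  have hk9 := mem_range.1 hk
  have j3 : k / 3 < 3 := by omega
  have jm : k % 3 < 3 := by omega
  rw [en_mI I j3 k3, en_mI J jm km, avg_smul, ← mul_sub, norm_mul, norm_mul]
  exact mul_le_mul (mul_le_mul (hI _ j3 _ k3) (hJ _ jm _ km) (norm_nonneg _) (Nat.cast_nonneg _))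
    (hn k hk9) (norm_nonneg _) (by positivity)

theorem toM_at (R : R9) : ∀ K < 9, (toM R).at K = R.at K := by
  intro K hK
  interval_cases K <;> rfl

theorem mkMa_le (T : ℕ) : ∀ i < 3, ∀ j < 3, ‖ef i j (AI T)‖ ≤ ((mkMa T).at (3 * i + j) : ℝ) := by
  intro i hi j hj
  have h := mkMa_ok T (3 * i + j) (by omega)
  rwa [div3 hj, mod3 hj] at h

/-! ### bounds of the digits -/

theorem comp_le {K : ℕ} {I : VA} {b : ℕ} (h : ‖ev K I‖ ≤ (b : ℝ)) : ∀ e, |I K e| ≤ (b : ℤ) := by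
  intro e
  have h0 : |((I K 0 : ℤ) : ℝ)| ≤ b := (Complex.abs_re_le_norm (ev K I)).trans h
  have h1 : |((I K 1 : ℤ) : ℝ)| ≤ b := (Complex.abs_im_le_norm (ev K I)).trans h
  fin_cases e
  · exact_mod_cast h0
  · exact_mod_cast h1

theorem bnd_ok {D : ℕ} {g : ℝ} {B c : ℕ} (h1 : 2 ^ D * g ≤ (B : ℝ)) (h2 : B ≤ c * 2 ^ D) :
    g ≤ (c : ℝ) := by
  have h3 : (B : ℝ) ≤ c * 2 ^ D := by exact_mod_cast h2
  have pD : (0 : ℝ) < 2 ^ D := by positivity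
  have h4 : 2 ^ D * g ≤ 2 ^ D * c := by linarith
  exact le_of_mul_le_mul_left h4 pD

theorem c54 : ((2 ^ 54 : ℕ) : ℤ) = 2 ^ 54 := by norm_num

theorem compF_le {i j : ℕ} {X : VF} {b : ℝ} (h : ‖ef i j X‖ ≤ b) : ∀ e, |((X i j e : ℤ) : ℝ)| ≤ b := by
  intro e
  have h0 : |((X i j 0 : ℤ) : ℝ)| ≤ b := (Complex.abs_re_le_norm (ef i j X)).trans h
  have h1 : |((X i j 1 : ℤ) : ℝ)| ≤ b := (Complex.abs_im_le_norm (ef i j X)).trans h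
  fin_cases e
  · exact h0
  · exact h1

theorem abs_mul_le {a b x y : ℤ} (ha : |a| ≤ x) (hb : |b| ≤ y) : |a * b| ≤ x * y := by
  rw [abs_mul]
  exact mul_le_mul ha hb (abs_nonneg _) ((abs_nonneg _).trans ha)

theorem mw_le {I J : VA} {b : ℤ} (hI : ∀ K < 9, ∀ e, |I K e| ≤ b) (hJ : ∀ K < 9, ∀ e, |J K e| ≤ b) :
    Bc (4 * (b * b)) (mw I J) := by
  intro K L hK hL e
  have m : ∀ i j, |I K i * J L j| ≤ b * b := fun i j => abs_mul_le (hI K hK i) (hJ L hL j)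
  have m' : ∀ i j, |J K i * I L j| ≤ b * b := fun i j => abs_mul_le (hJ K hK i) (hI L hL j)
  have a00 := abs_le.1 (m 0 0)
  have a01 := abs_le.1 (m 0 1)
  have a10 := abs_le.1 (m 1 0)
  have a11 := abs_le.1 (m 1 1)
  have b00 := abs_le.1 (m' 0 0)
  have b01 := abs_le.1 (m' 0 1)
  have b10 := abs_le.1 (m' 1 0)
  have b11 := abs_le.1 (m' 1 1)
  have bb : 0 ≤ b * b := (abs_nonneg _).trans (m 0 0)
  fin_cases e
  · show |I K 0 * J L 0 + J K 0 * I L 0| ≤ _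
    rw [abs_le]
    constructor <;> linarith
  · show |I K 0 * J L 1 - I K 1 * J L 0 + (J K 0 * I L 1 - J K 1 * I L 0)| ≤ _
    rw [abs_le]
    constructor <;> linarith
  · show |-(I K 1 * J L 1) - J K 1 * I L 1| ≤ _
    rw [abs_le]
    constructor <;> linarith

theorem mk2_le {X Y : VF} {x y : ℤ} (hX : ∀ i < 3, ∀ j < 3, ∀ e, |X i j e| ≤ x)
    (hY : ∀ i < 3, ∀ j < 3, ∀ e, |Y i j e| ≤ y) : Bc (2 * (x * y)) (mk2 X Y) := by
  intro K L hK hL e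
  have m : ∀ i j, |X (K / 3) (L / 3) i * Y (K % 3) (L % 3) j| ≤ x * y := fun i j =>
    abs_mul_le (hX _ (by omega) _ (by omega) i) (hY _ (by omega) _ (by omega) j)
  have a00 := abs_le.1 (m 0 0)
  have a01 := abs_le.1 (m 0 1)
  have a10 := abs_le.1 (m 1 0)
  have a11 := abs_le.1 (m 1 1)
  have bb : 0 ≤ x * y := (abs_nonneg _).trans (m 0 0)
  fin_cases e
  · show |X (K / 3) (L / 3) 0 * Y (K % 3) (L % 3) 0| ≤ _
    rw [abs_le]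
    constructor <;> linarith
  · show |X (K / 3) (L / 3) 0 * Y (K % 3) (L % 3) 1 + X (K / 3) (L / 3) 1 * Y (K % 3) (L % 3) 0| ≤ _
    rw [abs_le]
    constructor <;> linarith
  · show |X (K / 3) (L / 3) 1 * Y (K % 3) (L % 3) 1| ≤ _
    rw [abs_le]
    constructor <;> linarith

theorem Bc_smul {b c : ℤ} {N : VC} (hc : 0 ≤ c) (h : Bc b N) : Bc (c * b) (c • N) := by
  intro K L hK hL e
  show |c * N K L e| ≤ _
  rw [abs_mul, abs_of_nonneg hc]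
  exact mul_le_mul_of_nonneg_left (h K L hK hL e) hc

theorem Bc_add {a b : ℤ} {M N : VC} (h : Bc a M) (h' : Bc b N) : Bc (a + b) (M + N) := by
  intro K L hK hL e
  show |M K L e + N K L e| ≤ _
  exact (abs_add_le _ _).trans (add_le_add (h K L hK hL e) (h' K L hK hL e))

theorem Bc_sub {a b : ℤ} {M N : VC} (h : Bc a M) (h' : Bc b N) : Bc (a + b) (M - N) := by
  intro K L hK hL e
  show |M K L e - N K L e| ≤ _
  exact (abs_sub _ _).trans (add_le_add (h K L hK hL e) (h' K L hK hL e))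

theorem Bc_mono {a b : ℤ} {M : VC} (h : Bc a M) (hab : a ≤ b) : Bc b M :=
  fun K L hK hL e => (h K L hK hL e).trans hab

/-- products with `J` -/
theorem sq_bd {a e : ℕ} (h : (a : ℝ) ^ 2 * 2 ^ (17 + e) ≤ 2 ^ 122) :
    (2 : ℤ) ^ e * (2 * ((a : ℤ) ^ 2 * 2 ^ 15)) ≤ 2 ^ 121 := by
  have h1 : (a : ℤ) ^ 2 * 2 ^ (17 + e) ≤ 2 ^ 122 := by exact_mod_cast h
  have h2 : (2 : ℤ) ^ (17 + e) = 2 ^ 17 * 2 ^ e := pow_add _ _ _
  rw [h2] at h1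
  have h3 : (2 : ℤ) ^ e * (2 * ((a : ℤ) ^ 2 * 2 ^ 15)) * 2 = (a : ℤ) ^ 2 * (2 ^ 17 * 2 ^ e) := by ring
  have h4 : (2 : ℤ) ^ 121 * 2 = 2 ^ 122 := by norm_num
  nlinarith [h1, h3, h4]

theorem sV_bd {pq cs : ℕ} {A B Ju Jw : VF} {a b : ℕ} (e0 : u8 cs 0 ≤ 54) (e8 : u8 cs 8 ≤ 54)
    (hb : (b : ℝ) ^ 2 * 2 ^ (17 + u8 cs 16) ≤ 2 ^ 122) (ha : (a : ℝ) ^ 2 * 2 ^ (17 + u8 cs 24) ≤ 2 ^ 122)
    (hA : ∀ i < 3, ∀ j < 3, ∀ e, |A i j e| ≤ 2 ^ 52) (hB : ∀ i < 3, ∀ j < 3, ∀ e, |B i j e| ≤ 2 ^ 52)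
    (hu : ∀ i < 3, ∀ j < 3, ∀ e, |Ju i j e| ≤ (a : ℤ) ^ 2)
    (hw : ∀ i < 3, ∀ j < 3, ∀ e, |Jw i j e| ≤ (b : ℤ) ^ 2) : Bc (2 ^ 125) (sV pq cs A B Ju Jw) := by
  have t : ∀ T, ∀ i < 3, ∀ j < 3, ∀ e, |tD T i j e| ≤ 2 ^ 15 := fun T => tD_bd T
  have p54 : ∀ e : ℕ, e ≤ 54 → (2 : ℤ) ^ e ≤ 2 ^ 54 := fun e he => pow_le_pow_right₀ (by norm_num) he
  have c1 := Bc_smul (c := 2 ^ u8 cs 0) (by positivity) (mk2_le (t pq) hA)
  have c2 := Bc_smul (c := 2 ^ u8 cs 8) (by positivity) (mk2_le hB (t (Nat.shiftRight pq 144)))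
  have c3 := Bc_smul (c := 2 ^ u8 cs 16) (by positivity) (mk2_le hw (t (Nat.shiftRight pq 288)))
  have c4 := Bc_smul (c := 2 ^ u8 cs 24) (by positivity) (mk2_le (t (Nat.shiftRight pq 432)) hu)
  have d1 : (2 : ℤ) ^ u8 cs 0 * (2 * (2 ^ 15 * 2 ^ 52)) ≤ 2 ^ 54 * (2 * (2 ^ 15 * 2 ^ 52)) :=
    mul_le_mul_of_nonneg_right (p54 _ e0) (by positivity)
  have d2 : (2 : ℤ) ^ u8 cs 8 * (2 * (2 ^ 52 * 2 ^ 15)) ≤ 2 ^ 54 * (2 * (2 ^ 52 * 2 ^ 15)) :=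
    mul_le_mul_of_nonneg_right (p54 _ e8) (by positivity)
  have d3 := sq_bd hb
  have d4 : (2 : ℤ) ^ u8 cs 24 * (2 * (2 ^ 15 * (a : ℤ) ^ 2)) ≤ 2 ^ 121 := by
    have := sq_bd ha
    rwa [mul_comm ((a : ℤ) ^ 2)] at this
  have f1 := Bc_add (Bc_add c1 c2) (Bc_add c3 c4)
  refine Bc_mono f1 ?_
  have k1 : (2 : ℤ) ^ 54 * (2 * (2 ^ 15 * 2 ^ 52)) + 2 ^ 54 * (2 * (2 ^ 52 * 2 ^ 15)) +
    (2 ^ 121 + 2 ^ 121) ≤ 2 ^ 125 := by norm_num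
  linarith

theorem N_bd {j pq cs : ℕ} (hj : j ≤ 4) {I J : VA} {A B Ju Jw : VF}
    (hI : ∀ K < 9, ∀ e, |I K e| ≤ 2 ^ 54) (hJ : ∀ K < 9, ∀ e, |J K e| ≤ 2 ^ 54)
    (hS : Bc (2 ^ 125) (sV pq cs A B Ju Jw)) :
    Bc (2 ^ 126) ((2 ^ j : ℤ) • mw I J - sV pq cs A B Ju Jw) := by
  have c1 := Bc_smul (c := 2 ^ j) (by positivity) (mw_le hI hJ)
  refine Bc_mono (Bc_sub c1 hS) ?_
  have h1 : (2 : ℤ) ^ j * (4 * (2 ^ 54 * 2 ^ 54)) ≤ 2 ^ 4 * (4 * (2 ^ 54 * 2 ^ 54)) :=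
    mul_le_mul_of_nonneg_right (pow_le_pow_right₀ (by norm_num) hj) (by positivity)
  have h2 : (2 : ℤ) ^ 4 * (4 * (2 ^ 54 * 2 ^ 54)) + 2 ^ 125 ≤ 2 ^ 126 := by norm_num
  linarith

theorem ble_le {a b : ℕ} (h : Nat.ble a b = true) : a ≤ b := Nat.le_of_ble_eq_true h

/-! ### THE TEST -/

/-- the test on the trees; `M`, `A`: blocks at the nodes -/
theorem tB_ok {α ν μ ζ : Type} {D : ℕ} {lC : α → Vt D → Cx} {lv : ν → Vt D → ℕ}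
    {lz : ζ → Vt D → Z} {lm : μ → Vt D → NL} {rr : Vt D → Vt 3} {X : Mn α ν μ ζ}
    (H : MnL D lC lv lz lm rr X) (HD : DlL D lv X.T) (hD : D ≤ 4) {t : ℕ → ℝ} (hP : PT D t)
    (hrr : ∀ G : Vt 3 → ℂ, avg (ndw D t) (fun u => G (rr u)) = avg (ndw 3 t) G) {k : ℕ}
    {M A : Mt} {VM VA' : NV μ} (hM : NVL D lm t k M VM) (hA : NVL D lm t k A VA') {k1 k2 : Kf}
    {te : Te} (h : tB X tfY VM VA' k1 k2 te = true) : NT (KfM k1 t) (KfM k2 t) A M := by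
  have h' : andB (andB VM.ok VA'.ok) (andB (okT te (Nat.shiftRight te.fr 360))
    (tA X tfY VM VA' k1 k2 te (Nat.shiftRight te.fr 360) (frW te.fr)
      (frU (Nat.shiftRight te.fr 360)))) = true := h
  obtain ⟨h1, h2⟩ := andB2 h'
  obtain ⟨okM, okA⟩ := andB2 h1
  obtain ⟨h3, h4⟩ := andB2 h2
  generalize hfu : Nat.shiftRight te.fr 360 = fu at h3 h4
  have h3' : andB (psd3 te.pq) (andB (psd3 (Nat.shiftRight te.pq 144))
    (andB (nz (det te.fr)) (nz (det fu)))) = true := h3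
  obtain ⟨s1, h5⟩ := andB2 h3'
  obtain ⟨s2, h6⟩ := andB2 h5
  obtain ⟨s3, s4⟩ := andB2 h6
  clear h h' h1 h2 h3 h3' h5 h6
  set kA := kNd (kE Lc1 (bsU Lc1 (frU fu))) k1 with hkA
  set kB := kNd (kE Lc3 (bsW Lc3 (frW te.fr))) k2 with hkB
  set C := mkTC (frW te.fr) (frU fu) with hC
  have h7 : andB (andB (okE (mkMa fu) (mkMa te.fr) te.cs) (andB (r52 Lc1 kA) (r52 Lc3 kB)))
    (ty X.T X.d tfY (mkSc te.pq te.cs (fmJ Lc1 (bsU Lc1 (frU fu))) (fmJ Lc3 (bsW Lc3 (frW te.fr))))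
      kA kB (X.Q.q (q2 C) VM.v) (X.Q.q (q2 C) VA'.v) (rW (mkMa te.fr) (rU (toM VM.r) (mkMa fu)))
      (rW (mkMa te.fr) (rU (toM VA'.r) (mkMa fu)))) = true := h4
  clear h4
  rw [H.d] at h7
  obtain ⟨h8, h9⟩ := andB2 h7
  obtain ⟨oE, h10⟩ := andB2 h8
  obtain ⟨rA, rB⟩ := andB2 h10
  clear h7 h8 h10
  have oE' : andB (Nat.ble (u8 te.cs 0) 54) (andB (Nat.ble (u8 te.cs 8) 54)
    (andB (okX (sm9 (mkMa te.fr)) (17 + u8 te.cs 16)) (okX (sm9 (mkMa fu)) (17 + u8 te.cs 24)))) =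
    true := oE
  obtain ⟨e0, h11⟩ := andB2 oE'
  obtain ⟨e8, h12⟩ := andB2 h11
  obtain ⟨e16, e24⟩ := andB2 h12
  clear oE oE' h11 h12
  -- the blocks at the nodes
  obtain ⟨nM, lM, bM⟩ := hM.ex okM
  obtain ⟨nX, lX, bX⟩ := hA.ex okA
  have FW := frW_ok te.fr
  have FU := frU_ok fu
  have iW := AI_bd te.fr
  have iU := AI_bd fu
  choose QM qM1 qM2 qM3 using fun u => q2_ok FW FU iW iU (lM u)
  choose QX qX1 qX2 qX3 using fun u => q2_ok FW FU iW iU (lX u)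
  have x1 : ∀ u, ((lv (X.Q.q (q2 C) VM.v) u : ℕ) : ℤ) = pz BB 27 (qd (QM u)) := fun u => by
    rw [H.Q.q]
    exact qM1 u
  have y1 : ∀ u, ((lv (X.Q.q (q2 C) VA'.v) u : ℕ) : ℤ) = pz BB 27 (qd (QX u)) := fun u => by
    rw [H.Q.q]
    exact qX1 u
  generalize X.Q.q (q2 C) VM.v = x at h9 x1
  generalize X.Q.q (q2 C) VA'.v = y at h9 y1
  -- the controls
  obtain ⟨c, c1, c2, c3, cM, cX⟩ := ctl_ok H.T hD x1 y1 qM3 qX3
  set z := X.T.cn (X.T.zc x y) with hz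
  set p0 := pmo (absd HZ LZ (X.T.ld z) (Nat.shiftLeft OQ2 D)) with hp0
  set l := pmL (X.T.dl HZ LZ z) with hl
  set rM := rW (mkMa te.fr) (rU (toM VM.r) (mkMa fu)) with hrM
  set rX := rW (mkMa te.fr) (rU (toM VA'.r) (mkMa fu)) with hrX
  set S := mkSc te.pq te.cs (fmJ Lc1 (bsU Lc1 (frU fu))) (fmJ Lc3 (bsW Lc3 (frW te.fr))) with hS
  set Mr := mkWM D p0 l rM with hMr
  set Xr := mkWX D p0 l rX with hXr
  set R := mkR (72 + 2 * D) Mr Xr (sW Mr) (sW Xr) with hR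
  have h13 : andB (andB (okB (Nat.shiftLeft 18014398509481984 D) Mr)
    (okB (Nat.shiftLeft 18014398509481984 D) Xr)) (andB (okR R)
    (t5 X.T (Nat.shiftRight OFN D) (tfY (pkR R)) (X.T.nn (ndN (4 - D) S) kA kB x y))) = true := h9
  clear h9
  obtain ⟨h14, h15⟩ := andB2 h13
  obtain ⟨oM, oX⟩ := andB2 h14
  obtain ⟨oR, T5⟩ := andB2 h15
  clear h13 h14 h15
  -- the rows
  have rowM : ∀ K < 9, RwL D t (fun u => ev K (QM u))
      (mwu (mI (AI te.fr)) (mI (AI fu)) ((2 ^ 28 / 2 ^ k : ℂ) • M) K) (Mr.at K) := fun K hK => by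
    rw [hMr, mkWM_at _ _ _ _ K hK]
    refine row_ok HD hD c1 c2 c3 (H.T.ld z) (by omega) (fun u => cM u K hK) ?_
    have a := vec_err (mkMa_le te.fr) (mkMa_le fu) (M := (2 ^ 28 / 2 ^ k : ℂ) • M) (n := nM)
      (r := VM.r.at) bM (Q := QM) hK (fun u => qM2 u K hK)
    rw [hrM, rWU_at _ _ _ K hK]
    have e : ∑ k ∈ range 9, (mkMa te.fr).at (3 * (k / 3) + K / 3) * (mkMa fu).at (3 * (k % 3) + K % 3) *
        (toM VM.r).at k = ∑ k ∈ range 9, (mkMa te.fr).at (3 * (k / 3) + K / 3) *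
        (mkMa fu).at (3 * (k % 3) + K % 3) * VM.r.at k :=
      sum_congr rfl fun i hi => by rw [toM_at _ i (mem_range.1 hi)]
    rw [e]
    exact a
  have rowX : ∀ K < 9, RwL D t (fun u => ev K (QX u))
      (mwu (mI (AI te.fr)) (mI (AI fu)) ((2 ^ 28 / 2 ^ k : ℂ) • A) K) (Xr.at K) := fun K hK => by
    rw [hXr, mkWX_at _ _ _ _ K hK]
    refine row_ok HD hD c1 c2 c3 (H.T.ld z) (by omega) (fun u => cX u K hK) ?_
    have a := vec_err (mkMa_le te.fr) (mkMa_le fu) (M := (2 ^ 28 / 2 ^ k : ℂ) • A) (n := nX)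
      (r := VA'.r.at) bX (Q := QX) hK (fun u => qX2 u K hK)
    rw [hrX, rWU_at _ _ _ K hK]
    have e : ∑ k ∈ range 9, (mkMa te.fr).at (3 * (k / 3) + K / 3) * (mkMa fu).at (3 * (k % 3) + K % 3) *
        (toM VA'.r).at k = ∑ k ∈ range 9, (mkMa te.fr).at (3 * (k / 3) + K / 3) *
        (mkMa fu).at (3 * (k % 3) + K % 3) * VA'.r.at k :=
      sum_congr rfl fun i hi => by rw [toM_at _ i (mem_range.1 hi)]
    rw [e]
    exact a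
  have hRs := fun K hK => mkR_ok (s := 72 + 2 * D) (M := Mr) (A := Xr)
    (fun K hK => (rowM K hK).len) (fun K hK => (rowX K hK).len) K hK
  -- bounds of the node values
  have sh54 : Nat.shiftLeft 18014398509481984 D = 2 ^ 54 * 2 ^ D := Nat.shiftLeft_eq _ _
  rw [sh54] at oM oX
  have mM : ∀ u, ∀ K < 9, ∀ e, |QM u K e| ≤ 2 ^ 54 := fun u K hK e =>
    (comp_le (bnd_ok ((rowM K hK).node u) (okB_ok oM K hK)) e).trans c54.le
  have mX : ∀ u, ∀ K < 9, ∀ e, |QX u K e| ≤ 2 ^ 54 := fun u K hK e =>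
    (comp_le (bnd_ok ((rowX K hK).node u) (okB_ok oX K hK)) e).trans c54.le
  -- the forms
  obtain ⟨T1, t1a, t1b⟩ := kNd_leaf (kE Lc1 (bsU Lc1 (frU fu))) k1
  obtain ⟨T2, t2a, t2b⟩ := kNd_leaf (kE Lc3 (bsW Lc3 (frW te.fr))) k2
  choose YA a1 a2 a3 using fun u => kU_ok fu (T1 u)
  choose YB b1 b2 b3 using fun u => kW_ok te.fr (T2 u)
  obtain ⟨Ju, ju1, ju2, ju3⟩ := jU_ok fu
  obtain ⟨Jw, jw1, jw2, jw3⟩ := jW_ok te.fr
  have a4 := r52_U rA (Y := YA) (fun u => by rw [t1a]; exact a1 u) a3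
  have b4 := r52_W rB (Y := YB) (fun u => by rw [t2a]; exact b1 u) b3
  have sBd : ∀ u, Bc (2 ^ 125) (sV te.pq te.cs (YA (rr u)) (YB (rr u)) Ju Jw) := fun u =>
    sV_bd (a := sm9 (mkMa fu)) (b := sm9 (mkMa te.fr)) (ble_le e0) (ble_le e8) (okX_ok e16)
      (okX_ok e24) (a4 (rr u)) (b4 (rr u))
      (fun i hi j hj e => by exact_mod_cast compF_le (ju3 i hi j hj) e)
      (fun i hi j hj e => by exact_mod_cast compF_le (jw3 i hi j hj) e)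
  refine final_ok (pq := te.pq) (cs := te.cs) hD hP hrr (t1b t) (t2b t) a2 b2 ju2 jw2 rowM rowX hRs
    (fun v => ?_) s1 s2 s3 s4
  rw [pkR_eq] at T5
  refine t5_ok H.T hD (F := fun u => (2 ^ (4 - D) : ℤ) • mw (QM u) (QX u) -
    sV te.pq te.cs (YA (rr u)) (YB (rr u)) Ju Jw) (fun u => ?_) (fun u => ?_) (okR_ok oR) T5 hP v
  · rw [H.T.nn]
    refine ndN_ok (Nat.sub_le _ _) (x1 u) (y1 u) (qM3 u) (qX3 u) ?_ ?_ ju1 jw1
    · rw [t1a]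
      exact a1 (rr u)
    · rw [t2a]
      exact b1 (rr u)
  · exact N_bd (Nat.sub_le _ _) (mM u) (mX u) (sBd u)

/-- THE TEST OF A BLOCK OF MODELS -/
theorem tBk_ok {α ν μ ζ : Type} {D : ℕ} {lC : α → Vt D → Cx} {lv : ν → Vt D → ℕ}
    {lz : ζ → Vt D → Z} {lm : μ → Vt D → NL} {rr : Vt D → Vt 3} {X : Mn α ν μ ζ}
    (H : MnL D lC lv lz lm rr X) (HD : DlL D lv X.T) (hD : D ≤ 4) {lf : α → Vt D → ℂ}
    (hc : ∀ x v, cz (lC x v) = lf x v) {t : ℕ → ℝ} (hP : PT D t)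
    (hrr : ∀ G : Vt 3 → ℂ, avg (ndw D t) (fun u => G (rr u)) = avg (ndw 3 t) G)
    {M A : Mt} {VM VA' : V9 α} (hM : TV D lf t M VM) (hA : TV D lf t A VA') {k1 k2 : Kf}
    {te : Te} (h : tBk X tfY VM VA' k1 k2 te = true) : NT (KfM k1 t) (KfM k2 t) A M := by
  have h' : andB (Nat.ble (u8 te.cs 32) 20) (tB X tfY (mkNV X (u8 te.cs 32) VM)
    (mkNV X (u8 te.cs 32) VA') k1 k2 te) = true := h
  obtain ⟨h1, h2⟩ := andB2 h'
  exact tB_ok H HD hD hP hrr (mkNV_ok H hc hP (ble_le h1) hM) (mkNV_ok H hc hP (ble_le h1) hA) h2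

end Pool.Agent.Helper17.N9
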