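import Pool.Agent.Helper17.N9.N9D
import Pool.Agent.Helper17.N9.N9J
import Pool.Agent.Helper90.C9.C9J
import Pool.Agent.Helper90.C9.DG
import Pool.Agent.Helper90.C9.RG

/-!
Row K9 of MP_c75db0 (plan W), version 2, part A: packed vectors, forms and matrices in base
`2 ^ 128`, complex values of the digits, value of a matrix of order nine.
-/

set_option autoImplicit false
set_option exponentiation.threshold 60000
noncomputable section
namespace Pool.Agent.Helper17.N9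

open Pool.Agent.Helper86.C75 (Z)
open Pool.Agent.Helper86.CX (Cx andB)
open Pool.Agent.Helper90.C75 (Vt avg wtT bt Wts sum_Vt_succ)
open Pool.Agent.Helper90.KMO (zv zv_add zv_sub zv_mul zv_p zv_m)
open Pool.Agent.Helper90.K9 (G G_succ G_congr G_add pk pz pk_cast pz_last pz_succ pz_congr pk_congr)
open Finset

/-! ### signed numbers -/

theorem zv_sh (k : ℕ) (x : Z) : zv (sh k x) = 2 ^ k * zv x := by
  cases x with
  | p n =>
    show ((n <<< k : ℕ) : ℤ) = 2 ^ k * (n : ℤ)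
    rw [Nat.shiftLeft_eq]
    push_cast
    ring
  | m n =>
    show -((n <<< k : ℕ) : ℤ) = 2 ^ k * (-(n : ℤ))
    rw [Nat.shiftLeft_eq]
    push_cast
    ring

/-- the base -/
def BB : ℤ := 2 ^ 128

theorem BB_eq : BB = 2 ^ 128 := rfl

theorem two_BB (k : ℕ) : (2 : ℤ) ^ (128 * k) = BB ^ k := by rw [BB_eq, pow_mul]

theorem two_128 : (2 : ℤ) ^ 128 = BB := rfl
theorem two_384 : (2 : ℤ) ^ 384 = BB ^ 3 := two_BB 3
theorem two_3840 : (2 : ℤ) ^ 3840 = BB ^ 30 := two_BB 30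

/-! ### digit spaces -/

/-- complex integers: real and imaginary parts -/
abbrev VA : Type := ℕ → Fin 2 → ℤ
/-- products -/
abbrev VC : Type := ℕ → ℕ → Fin 3 → ℤ

/-- conjugate entries in the slots `30 K` -/
def PA (I : VA) : ℤ := ∑ K ∈ range 9, (I K 0 - I K 1 * BB) * (BB ^ 30) ^ K
/-- entries in the slots `3 K` -/
def QA (I : VA) : ℤ := ∑ K ∈ range 9, (I K 0 + I K 1 * BB) * (BB ^ 3) ^ K
/-- a matrix -/
def PC (N : VC) : ℤ := ∑ K ∈ range 9, ∑ L ∈ range 9,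
  (N K L 0 + N K L 1 * BB + N K L 2 * BB ^ 2) * ((BB ^ 30) ^ K * (BB ^ 3) ^ L)

/-- product -/
def mw (I J : VA) : VC := fun K L =>
  ![I K 0 * J L 0 + J K 0 * I L 0,
    I K 0 * J L 1 - I K 1 * J L 0 + (J K 0 * I L 1 - J K 1 * I L 0),
    -(I K 1 * J L 1) - J K 1 * I L 1]

theorem PA_sub (I J : VA) : PA (I - J) = PA I - PA J := by
  unfold PA
  rw [← sum_sub_distrib]
  refine sum_congr rfl fun K _ => ?_
  show ((I K 0 - J K 0) - (I K 1 - J K 1) * BB) * (BB ^ 30) ^ K = _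
  ring

theorem QA_sub (I J : VA) : QA (I - J) = QA I - QA J := by
  unfold QA
  rw [← sum_sub_distrib]
  refine sum_congr rfl fun K _ => ?_
  show ((I K 0 - J K 0) + (I K 1 - J K 1) * BB) * (BB ^ 3) ^ K = _
  ring

theorem PC_sub (M N : VC) : PC (M - N) = PC M - PC N := by
  unfold PC
  rw [← sum_sub_distrib]
  refine sum_congr rfl fun K _ => ?_
  rw [← sum_sub_distrib]
  refine sum_congr rfl fun L _ => ?_
  show ((M K L 0 - N K L 0) + (M K L 1 - N K L 1) * BB + (M K L 2 - N K L 2) * BB ^ 2) *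
    ((BB ^ 30) ^ K * (BB ^ 3) ^ L) = _
  ring

theorem PC_add (M N : VC) : PC (M + N) = PC M + PC N := by
  unfold PC
  rw [← sum_add_distrib]
  refine sum_congr rfl fun K _ => ?_
  rw [← sum_add_distrib]
  refine sum_congr rfl fun L _ => ?_
  show ((M K L 0 + N K L 0) + (M K L 1 + N K L 1) * BB + (M K L 2 + N K L 2) * BB ^ 2) *
    ((BB ^ 30) ^ K * (BB ^ 3) ^ L) = _
  ring

theorem PC_smul (c : ℤ) (N : VC) : PC (c • N) = c * PC N := by
  unfold PC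
  rw [mul_sum]
  refine sum_congr rfl fun K _ => ?_
  rw [mul_sum]
  refine sum_congr rfl fun L _ => ?_
  show (c * N K L 0 + c * N K L 1 * BB + c * N K L 2 * BB ^ 2) *
    ((BB ^ 30) ^ K * (BB ^ 3) ^ L) = _
  ring

theorem PC_mw (I J : VA) : PC (mw I J) = PA I * QA J + PA J * QA I := by
  unfold PC PA QA
  rw [sum_mul_sum, sum_mul_sum, ← sum_add_distrib]
  refine sum_congr rfl fun K _ => ?_
  rw [← sum_add_distrib]
  refine sum_congr rfl fun L _ => ?_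
  show ((I K 0 * J L 0 + J K 0 * I L 0) +
    (I K 0 * J L 1 - I K 1 * J L 0 + (J K 0 * I L 1 - J K 1 * I L 0)) * BB +
    (-(I K 1 * J L 1) - J K 1 * I L 1) * BB ^ 2) * ((BB ^ 30) ^ K * (BB ^ 3) ^ L) = _
  ring

/-! ### relations -/

def RC (x : Z) (N : VC) : Prop := zv x = PC N

theorem RC.sub {x y : Z} {M N : VC} (hx : RC x M) (hy : RC y N) : RC (Z.sub x y) (M - N) := by
  unfold RC at *
  rw [zv_sub, hx, hy, PC_sub]

theorem RC.add {x y : Z} {M N : VC} (hx : RC x M) (hy : RC y N) : RC (Z.add x y) (M + N) := by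
  unfold RC at *
  rw [zv_add, hx, hy, PC_add]

theorem RC.sh {x : Z} {M : VC} (k : ℕ) (hx : RC x M) : RC (N9.sh k x) ((2 ^ k : ℤ) • M) := by
  unfold RC at *
  rw [zv_sh, hx, PC_smul]

theorem RC.smul {x : Z} {M : VC} (c : ℕ) (hx : RC x M) : RC (Z.mul (Z.p c) x) ((c : ℤ) • M) := by
  unfold RC at *
  rw [zv_mul, hx, PC_smul, zv_p]

/-- digits of a form of order 3 -/
abbrev VF : Type := ℕ → ℕ → Fin 2 → ℤ

/-- the packed form -/
def PF (m : ℕ) (X : VF) : ℤ := ∑ j ∈ range 3, ∑ l ∈ range 3,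
  (X j l 0 + X j l 1 * BB) * ((BB ^ (30 * m)) ^ j * (BB ^ (3 * m)) ^ l)

theorem PF_sub (m : ℕ) (X Y : VF) : PF m (X - Y) = PF m X - PF m Y := by
  unfold PF
  rw [← sum_sub_distrib]
  refine sum_congr rfl fun j _ => ?_
  rw [← sum_sub_distrib]
  refine sum_congr rfl fun l _ => ?_
  show ((X j l 0 - Y j l 0) + (X j l 1 - Y j l 1) * BB) *
    ((BB ^ (30 * m)) ^ j * (BB ^ (3 * m)) ^ l) = _
  ring

/-- product: the first form is on the first index -/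
def mk2 (X Y : VF) : VC := fun K L =>
  ![X (K / 3) (L / 3) 0 * Y (K % 3) (L % 3) 0,
    X (K / 3) (L / 3) 0 * Y (K % 3) (L % 3) 1 + X (K / 3) (L / 3) 1 * Y (K % 3) (L % 3) 0,
    X (K / 3) (L / 3) 1 * Y (K % 3) (L % 3) 1]

theorem sum9' (f : ℕ → ℤ) : ∑ K ∈ range 9, f K = ∑ i ∈ range 3, ∑ j ∈ range 3, f (3 * i + j) := by
  simp only [sum_range_succ, sum_range_zero]
  ring

theorem div3 {i j : ℕ} (h : j < 3) : (3 * i + j) / 3 = i := by omega
theorem mod3 {i j : ℕ} (h : j < 3) : (3 * i + j) % 3 = j := by omega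

theorem PC_mk2 (X Y : VF) : PC (mk2 X Y) = PF 3 X * PF 1 Y := by
  have e1 : PC (mk2 X Y) = ∑ i ∈ range 3, ∑ j ∈ range 3, ∑ k ∈ range 3, ∑ l ∈ range 3,
      ((X i k 0 + X i k 1 * BB) * ((BB ^ (30 * 3)) ^ i * (BB ^ (3 * 3)) ^ k)) *
        ((Y j l 0 + Y j l 1 * BB) * ((BB ^ (30 * 1)) ^ j * (BB ^ (3 * 1)) ^ l)) := by
    unfold PC
    rw [sum9']
    refine sum_congr rfl fun i _ => sum_congr rfl fun j hj => ?_
    rw [sum9']
    refine sum_congr rfl fun k _ => sum_congr rfl fun l hl => ?_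
    have hj' := mem_range.1 hj
    have hl' := mem_range.1 hl
    show (X ((3 * i + j) / 3) ((3 * k + l) / 3) 0 * Y ((3 * i + j) % 3) ((3 * k + l) % 3) 0 +
      (X ((3 * i + j) / 3) ((3 * k + l) / 3) 0 * Y ((3 * i + j) % 3) ((3 * k + l) % 3) 1 +
      X ((3 * i + j) / 3) ((3 * k + l) / 3) 1 * Y ((3 * i + j) % 3) ((3 * k + l) % 3) 0) * BB +
      X ((3 * i + j) / 3) ((3 * k + l) / 3) 1 * Y ((3 * i + j) % 3) ((3 * k + l) % 3) 1 *
        BB ^ 2) * ((BB ^ 30) ^ (3 * i + j) * (BB ^ 3) ^ (3 * k + l)) = _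
    rw [div3 hj', div3 hl', mod3 hj', mod3 hl']
    rw [show (BB ^ 30) ^ (3 * i + j) = (BB ^ (30 * 3)) ^ i * (BB ^ (30 * 1)) ^ j by
        rw [← pow_mul, ← pow_mul, ← pow_mul, ← pow_add]; congr 1; ring,
      show (BB ^ 3) ^ (3 * k + l) = (BB ^ (3 * 3)) ^ k * (BB ^ (3 * 1)) ^ l by
        rw [← pow_mul, ← pow_mul, ← pow_mul, ← pow_add]; congr 1; ring]
    ring
  rw [e1]
  unfold PF
  rw [sum_mul_sum]
  -- both sides as fourfold sums
  refine sum_congr rfl fun i _ => ?_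
  have e2 : ∀ j ∈ range 3, ∑ k ∈ range 3, ∑ l ∈ range 3,
      ((X i k 0 + X i k 1 * BB) * ((BB ^ (30 * 3)) ^ i * (BB ^ (3 * 3)) ^ k)) *
        ((Y j l 0 + Y j l 1 * BB) * ((BB ^ (30 * 1)) ^ j * (BB ^ (3 * 1)) ^ l)) =
      (∑ k ∈ range 3, (X i k 0 + X i k 1 * BB) * ((BB ^ (30 * 3)) ^ i * (BB ^ (3 * 3)) ^ k)) *
        ∑ l ∈ range 3, (Y j l 0 + Y j l 1 * BB) * ((BB ^ (30 * 1)) ^ j * (BB ^ (3 * 1)) ^ l) := by
    intro j _
    rw [sum_mul_sum]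
  exact sum_congr rfl e2

/-! ### relations -/

def RF (m : ℕ) (x : Z) (X : VF) : Prop := zv x = PF m X

theorem RF.sub {m : ℕ} {x y : Z} {X Y : VF} (hx : RF m x X) (hy : RF m y Y) :
    RF m (Z.sub x y) (X - Y) := by
  unfold RF at *
  rw [zv_sub, hx, hy, PF_sub]

theorem RF.mul {x y : Z} {X Y : VF} (hx : RF 3 x X) (hy : RF 1 y Y) :
    RC (Z.mul x y) (mk2 X Y) := by
  unfold RF RC at *
  rw [zv_mul, hx, hy, PC_mk2]

/-! ### tables -/

/-- the field number `k` of a table -/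
def fl (T k : ℕ) : ℤ := (u16 T (16 * k) : ℤ) - 2 ^ 15

/-- digits from nine numbers: `s` is the sign pattern of `J T^t J` if `true` -/
def dF (a b c x x' y y' w w' : ℤ) : VF
  | 0, 0 => ![a, 0]
  | 1, 1 => ![b, 0]
  | 2, 2 => ![c, 0]
  | 0, 1 => ![x, x']
  | 1, 0 => ![x, -x']
  | 0, 2 => ![y, y']
  | 2, 0 => ![y, -y']
  | 1, 2 => ![w, w']
  | 2, 1 => ![w, -w']
  | _, _ => 0

/-- the form of a table -/
def tD (T : ℕ) : VF := dF (fl T 0) (fl T 1) (fl T 2) (fl T 3) (fl T 4) (fl T 5) (fl T 6) (fl T 7)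
  (fl T 8)
/-- the form `J T^t J` -/
def tC (T : ℕ) : VF := dF (fl T 0) (fl T 1) (fl T 2) (fl T 3) (-fl T 4) (-fl T 5) (fl T 6)
  (-fl T 7) (fl T 8)

theorem sl_eq (m k n : ℕ) : sl m k n = n * 2 ^ (m * k) := Nat.shiftLeft_eq _ _
theorem sl'_eq (m k n : ℕ) : sl' m k n = n * 2 ^ (m * k + 128) := Nat.shiftLeft_eq _ _

theorem pw (m k : ℕ) : (2 : ℤ) ^ (m * (128 * k)) = BB ^ (k * m) := by
  rw [← two_BB]
  congr 1
  ring

theorem pw' (m k : ℕ) : (2 : ℤ) ^ (m * (128 * k) + 128) = BB ^ (k * m) * BB := by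
  rw [pow_add, pw]
  rfl

theorem zv_hat1 (m : ℕ) (a b c x x' y y' w w' : ℕ) :
    zv (hat1 m (hpos m a b c x x' y y' w w') (hneg m x' y' w')) =
      PF m (dF ((a : ℤ) - 2 ^ 15) ((b : ℤ) - 2 ^ 15) ((c : ℤ) - 2 ^ 15) ((x : ℤ) - 2 ^ 15)
        ((x' : ℤ) - 2 ^ 15) ((y : ℤ) - 2 ^ 15) ((y' : ℤ) - 2 ^ 15) ((w : ℤ) - 2 ^ 15)
        ((w' : ℤ) - 2 ^ 15)) := by
  have hp : ∀ a b c x x' y y' w w' : ℕ, ((hpos m a b c x x' y y' w w' : ℕ) : ℤ) =
      a + b * BB ^ (33 * m) + c * BB ^ (66 * m) + (x * BB ^ (3 * m) + x * BB ^ (30 * m) +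
        x' * (BB ^ (3 * m) * BB)) + (y * BB ^ (6 * m) + y * BB ^ (60 * m) +
        y' * (BB ^ (6 * m) * BB) + (w * BB ^ (36 * m) + w * BB ^ (63 * m) +
        w' * (BB ^ (36 * m) * BB))) := by
    intro a b c x x' y y' w w'
    show (((a + sl m 4224 b + sl m 8448 c + (sl m 384 x + sl m 3840 x + sl' m 384 x')) +
      (sl m 768 y + sl m 7680 y + sl' m 768 y' + (sl m 4608 w + sl m 8064 w +
        sl' m 4608 w')) : ℕ) : ℤ) = _
    simp only [sl_eq, sl'_eq]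
    push_cast
    rw [show (4224 : ℕ) = 128 * 33 from rfl, show (8448 : ℕ) = 128 * 66 from rfl,
      show (384 : ℕ) = 128 * 3 from rfl, show (3840 : ℕ) = 128 * 30 from rfl,
      show (768 : ℕ) = 128 * 6 from rfl, show (7680 : ℕ) = 128 * 60 from rfl,
      show (4608 : ℕ) = 128 * 36 from rfl, show (8064 : ℕ) = 128 * 63 from rfl]
    simp only [pw, pw']
  have hn : ∀ x' y' w' : ℕ, ((hneg m x' y' w' : ℕ) : ℤ) =
      x' * (BB ^ (30 * m) * BB) + (y' * (BB ^ (60 * m) * BB) + w' * (BB ^ (63 * m) * BB)) := by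
    intro x' y' w'
    show ((sl' m 3840 x' + (sl' m 7680 y' + sl' m 8064 w') : ℕ) : ℤ) = _
    simp only [sl'_eq]
    push_cast
    rw [show (3840 : ℕ) = 128 * 30 from rfl,
      show (7680 : ℕ) = 128 * 60 from rfl, show (8064 : ℕ) = 128 * 63 from rfl]
    simp only [pw']
  have e : zv (hat1 m (hpos m a b c x x' y y' w w') (hneg m x' y' w')) =
      ((hpos m a b c x x' y y' w w' + hcn m : ℕ) : ℤ) - ((hneg m x' y' w' + hcp m : ℕ) : ℤ) :=
    Pool.Agent.Helper90.KMO.zv_br _ _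
  rw [e]
  push_cast
  have hcp' := hp H15 H15 H15 H15 H15 H15 H15 H15 H15
  have hcn' := hn H15 H15 H15
  have h31 : ((H15 : ℕ) : ℤ) = 2 ^ 15 := rfl
  rw [h31] at hcp' hcn'
  rw [show ((hcp m : ℕ) : ℤ) = ((hpos m H15 H15 H15 H15 H15 H15 H15 H15 H15 : ℕ) : ℤ) from rfl,
    show ((hcn m : ℕ) : ℤ) = ((hneg m H15 H15 H15 : ℕ) : ℤ) from rfl, hcp', hcn', hp, hn]
  unfold PF
  simp only [sum_range_succ, sum_range_zero, dF, Matrix.cons_val_zero, Matrix.cons_val_one]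
  rw [show BB ^ (33 * m) = BB ^ (30 * m) * BB ^ (3 * m) by rw [← pow_add]; congr 1; ring,
    show BB ^ (66 * m) = (BB ^ (30 * m)) ^ 2 * (BB ^ (3 * m)) ^ 2 by
      rw [← pow_mul, ← pow_mul, ← pow_add]; congr 1; ring,
    show BB ^ (6 * m) = (BB ^ (3 * m)) ^ 2 by rw [← pow_mul]; congr 1; ring,
    show BB ^ (60 * m) = (BB ^ (30 * m)) ^ 2 by rw [← pow_mul]; congr 1; ring,
    show BB ^ (36 * m) = BB ^ (30 * m) * (BB ^ (3 * m)) ^ 2 by
      rw [← pow_mul, ← pow_add]; congr 1; ring,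
    show BB ^ (63 * m) = (BB ^ (30 * m)) ^ 2 * BB ^ (3 * m) by
      rw [← pow_mul, ← pow_add]; congr 1; ring]
  generalize BB ^ (30 * m) = Y
  generalize BB ^ (3 * m) = X
  ring

theorem hat_ok (m T : ℕ) : RF m (hat m T) (tD T) := zv_hat1 m _ _ _ _ _ _ _ _ _

theorem cadd' (a b c d : ℝ) : (⟨a + b, c + d⟩ : ℂ) = ⟨a, c⟩ + ⟨b, d⟩ := rfl

/-- entry of a vector -/
def ev (K : ℕ) : VA →+ ℂ where
  toFun I := ⟨(I K 0 : ℝ), (I K 1 : ℝ)⟩
  map_zero' := by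
    apply Complex.ext
    · show ((0 : ℤ) : ℝ) = 0
      exact Int.cast_zero
    · show ((0 : ℤ) : ℝ) = 0
      exact Int.cast_zero
  map_add' I J := by
    show (⟨((I K 0 + J K 0 : ℤ) : ℝ), ((I K 1 + J K 1 : ℤ) : ℝ)⟩ : ℂ) = _
    rw [Int.cast_add, Int.cast_add]
    rfl

/-- conjugate of the entry -/
def evc (K : ℕ) : VA →+ ℂ where
  toFun I := ⟨(I K 0 : ℝ), -(I K 1 : ℝ)⟩
  map_zero' := by
    apply Complex.ext
    · show ((0 : ℤ) : ℝ) = 0
      exact Int.cast_zero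
    · show -((0 : ℤ) : ℝ) = 0
      rw [Int.cast_zero, neg_zero]
  map_add' I J := by
    show (⟨((I K 0 + J K 0 : ℤ) : ℝ), -((I K 1 + J K 1 : ℤ) : ℝ)⟩ : ℂ) = _
    rw [Int.cast_add, Int.cast_add, neg_add]
    rfl

/-- entry of a matrix -/
def fv (K L : ℕ) : VC →+ ℂ where
  toFun N := ⟨((N K L 0 - N K L 2 : ℤ) : ℝ), ((N K L 1 : ℤ) : ℝ)⟩
  map_zero' := by
    apply Complex.ext
    · show (((0 : ℤ) - 0 : ℤ) : ℝ) = 0
      rw [sub_zero]
      exact Int.cast_zero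
    · show ((0 : ℤ) : ℝ) = 0
      exact Int.cast_zero
  map_add' M N := by
    apply Complex.ext
    · show (((M K L 0 + N K L 0) - (M K L 2 + N K L 2) : ℤ) : ℝ) =
        ((M K L 0 - M K L 2 : ℤ) : ℝ) + ((N K L 0 - N K L 2 : ℤ) : ℝ)
      push_cast
      ring
    · show ((M K L 1 + N K L 1 : ℤ) : ℝ) = _
      rw [Int.cast_add]
      rfl

/-- entry of a form of order 3 -/
def ef (j l : ℕ) : VF →+ ℂ where
  toFun X := ⟨(X j l 0 : ℝ), (X j l 1 : ℝ)⟩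
  map_zero' := by
    apply Complex.ext
    · show ((0 : ℤ) : ℝ) = 0
      exact Int.cast_zero
    · show ((0 : ℤ) : ℝ) = 0
      exact Int.cast_zero
  map_add' I J := by
    show (⟨((I j l 0 + J j l 0 : ℤ) : ℝ), ((I j l 1 + J j l 1 : ℤ) : ℝ)⟩ : ℂ) = _
    rw [Int.cast_add, Int.cast_add]
    rfl

theorem ev_apply (K : ℕ) (I : VA) : ev K I = ⟨(I K 0 : ℝ), (I K 1 : ℝ)⟩ := rfl
theorem evc_apply (K : ℕ) (I : VA) : evc K I = ⟨(I K 0 : ℝ), -(I K 1 : ℝ)⟩ := rfl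
theorem fv_apply (K L : ℕ) (N : VC) : fv K L N =
    ⟨((N K L 0 - N K L 2 : ℤ) : ℝ), ((N K L 1 : ℤ) : ℝ)⟩ := rfl
theorem ef_apply (j l : ℕ) (X : VF) : ef j l X = ⟨(X j l 0 : ℝ), (X j l 1 : ℝ)⟩ := rfl

theorem ev_star (K : ℕ) (I : VA) : evc K I = star (ev K I) := rfl

theorem fv_mw (K L : ℕ) (I J : VA) : fv K L (mw I J) =
    ∑ k : Fin 2, (![evc K, ev L] : Fin 2 → VA →+ ℂ) k I * (![ev L, evc K] : Fin 2 → VA →+ ℂ) k J := by
  rw [Fin.sum_univ_two]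
  show fv K L (mw I J) = evc K I * ev L J + ev L I * evc K J
  rw [fv_apply, evc_apply, ev_apply, ev_apply, evc_apply]
  apply Complex.ext
  · show (((I K 0 * J L 0 + J K 0 * I L 0) - (-(I K 1 * J L 1) - J K 1 * I L 1) : ℤ) : ℝ) =
      ((I K 0 : ℝ) * J L 0 - -(I K 1 : ℝ) * J L 1) + ((I L 0 : ℝ) * J K 0 - (I L 1 : ℝ) * -(J K 1 : ℝ))
    push_cast
    ring
  · show ((I K 0 * J L 1 - I K 1 * J L 0 + (J K 0 * I L 1 - J K 1 * I L 0) : ℤ) : ℝ) =
      ((I K 0 : ℝ) * J L 1 + -(I K 1 : ℝ) * J L 0) + ((I L 0 : ℝ) * -(J K 1 : ℝ) + (I L 1 : ℝ) * J K 0)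
    push_cast
    ring

theorem fv_mk2 (K L : ℕ) (X Y : VF) : fv K L (mk2 X Y) =
    ef (K / 3) (L / 3) X * ef (K % 3) (L % 3) Y := by
  rw [fv_apply, ef_apply, ef_apply]
  apply Complex.ext
  · show ((X (K / 3) (L / 3) 0 * Y (K % 3) (L % 3) 0 - X (K / 3) (L / 3) 1 * Y (K % 3) (L % 3) 1 : ℤ) : ℝ) =
      (X (K / 3) (L / 3) 0 : ℝ) * Y (K % 3) (L % 3) 0 - (X (K / 3) (L / 3) 1 : ℝ) * Y (K % 3) (L % 3) 1
    push_cast
    ring
  · show ((X (K / 3) (L / 3) 0 * Y (K % 3) (L % 3) 1 + X (K / 3) (L / 3) 1 * Y (K % 3) (L % 3) 0 : ℤ) : ℝ) =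
      (X (K / 3) (L / 3) 0 : ℝ) * Y (K % 3) (L % 3) 1 + (X (K / 3) (L / 3) 1 : ℝ) * Y (K % 3) (L % 3) 0
    push_cast
    ring

theorem fv_mk2' (K L : ℕ) (X Y : VF) : fv K L (mk2 X Y) =
    ∑ k : Fin 1, (fun _ => ef (K / 3) (L / 3) : Fin 1 → VF →+ ℂ) k X *
      (fun _ => ef (K % 3) (L % 3) : Fin 1 → VF →+ ℂ) k Y := by
  rw [Fin.sum_univ_one]
  exact fv_mk2 K L X Y

theorem fv_smul (K L : ℕ) (c : ℤ) (N : VC) : fv K L (c • N) = (c : ℂ) * fv K L N := by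
  rw [map_zsmul, zsmul_eq_mul]

/-! ### the form -/

theorem G_smul : ∀ (n : ℕ) (c : ℝ) (M : ℕ → ℕ → ℂ) (v : ℕ → ℂ),
    G n (fun i j => (c : ℂ) * M i j) v = c * G n M v
  | 0, c, _, _ => (mul_zero c).symm
  | n + 1, c, M, v => by
    rw [G_succ, G_succ, G_smul n]
    have e : ∑ j ∈ range n, (c : ℂ) * M 0 (j + 1) * v (j + 1) =
        (c : ℂ) * ∑ j ∈ range n, M 0 (j + 1) * v (j + 1) := by
      rw [Finset.mul_sum]
      exact Finset.sum_congr rfl fun j _ => mul_assoc _ _ _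
    rw [e, mul_left_comm, Complex.re_ofReal_mul, Complex.re_ofReal_mul]
    ring

/-- the value as a linear function of the matrix -/
def Gl9 (v : ℕ → ℂ) : (ℕ → ℕ → ℂ) →ₗ[ℝ] ℝ where
  toFun M := G 9 M v
  map_add' M M' := G_add 9 M M' v
  map_smul' c M := by
    have e : c • M = fun i j => (c : ℂ) * M i j := by
      funext i j
      exact Complex.real_smul
    rw [e, G_smul]
    rfl

theorem Gl9_apply (v : ℕ → ℂ) (M : ℕ → ℕ → ℂ) : Gl9 v M = G 9 M v := rfl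

/-- value of digits -/
def Ph (v : ℕ → ℂ) : VC →+ ℝ where
  toFun N := G 9 (fun K L => fv K L N) v
  map_zero' := by
    have e : (fun K L => fv K L (0 : VC)) = (0 : ℕ → ℕ → ℂ) := by
      funext K L
      exact map_zero _
    rw [e]
    exact map_zero (Gl9 v)
  map_add' M N := by
    have e : (fun K L => fv K L (M + N)) = fun K L => fv K L M + fv K L N := by
      funext K L
      exact map_add _ _ _
    rw [e]
    exact G_add 9 _ _ v

theorem Ph_apply (v : ℕ → ℂ) (N : VC) : Ph v N = G 9 (fun K L => fv K L N) v := rfl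

/-- averages -/
theorem Ph_avg {ι : Type} [Fintype ι] (v : ℕ → ℂ) (w : ι → ℝ) (N : ι → VC) :
    ∑ u, w u * Ph v (N u) = G 9 (fun K L => avg w (fun u => fv K L (N u))) v := by
  have e : (fun K L => avg w (fun u => fv K L (N u))) =
      ∑ u, w u • (fun K L => fv K L (N u) : ℕ → ℕ → ℂ) := by
    funext K L
    rw [Finset.sum_apply, Finset.sum_apply]
    exact Finset.sum_congr rfl fun u _ => Complex.real_smul.symm
  rw [e]
  have h := map_sum (Gl9 v) (fun u => w u • (fun K L => fv K L (N u) : ℕ → ℕ → ℂ)) univ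
  refine Eq.trans ?_ h.symm
  refine Finset.sum_congr rfl fun u _ => ?_
  rw [map_smul]
  rfl

/-- the value of a matrix with small entries -/
theorem G_rho : ∀ (n : ℕ) (E : ℕ → ℕ → ℂ) (ρ : ℕ → ℕ → ℝ) (v : ℕ → ℂ),
    (∀ i < n, ∀ j < n, i ≤ j → ‖E i j‖ ≤ ρ i j) → (∀ i j, ρ i j = ρ j i) →
    -(∑ i ∈ range n, (∑ j ∈ range n, ρ i j) * ‖v i‖ ^ 2) ≤ G n E v
  | 0, E, ρ, v, _, _ => by
    show -(∑ i ∈ range 0, _) ≤ (0 : ℝ)
    simp
  | n + 1, E, ρ, v, h, hs => by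
    have ih := G_rho n (fun i j => E (i + 1) (j + 1)) (fun i j => ρ (i + 1) (j + 1))
      (fun i => v (i + 1)) (fun i hi j hj hij => h (i + 1) (Nat.succ_lt_succ hi) (j + 1)
        (Nat.succ_lt_succ hj) (Nat.succ_le_succ hij)) (fun i j => hs _ _)
    rw [G_succ, Finset.sum_range_succ']
    have e1 : ∀ i, ∑ j ∈ range (n + 1), ρ i j = ∑ j ∈ range n, ρ i (j + 1) + ρ i 0 := fun i =>
      Finset.sum_range_succ' _ _
    simp only [e1]
    have e2 : ∑ k ∈ range n, (∑ j ∈ range n, ρ (k + 1) (j + 1) + ρ (k + 1) 0) * ‖v (k + 1)‖ ^ 2 =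
        ∑ k ∈ range n, (∑ j ∈ range n, ρ (k + 1) (j + 1)) * ‖v (k + 1)‖ ^ 2 +
        ∑ k ∈ range n, ρ (k + 1) 0 * ‖v (k + 1)‖ ^ 2 := by
      rw [← Finset.sum_add_distrib]
      exact Finset.sum_congr rfl fun k _ => add_mul _ _ _
    rw [e2]
    have h1 : -(ρ 0 0 * ‖v 0‖ ^ 2) ≤ (E 0 0).re * ‖v 0‖ ^ 2 := by
      have h2 : |(E 0 0).re| ≤ ρ 0 0 := (Complex.abs_re_le_norm _).trans
        (h 0 (Nat.succ_pos n) 0 (Nat.succ_pos n) le_rfl)
      have h3 := (abs_le.mp h2).1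
      have h4 : (0 : ℝ) ≤ ‖v 0‖ ^ 2 := by positivity
      have h5 := mul_le_mul_of_nonneg_right h3 h4
      linarith
    have h2 : -(∑ j ∈ range n, ρ 0 (j + 1) * ‖v 0‖ ^ 2 + ∑ j ∈ range n, ρ (j + 1) 0 * ‖v (j + 1)‖ ^ 2) ≤
        2 * (star (v 0) * ∑ j ∈ range n, E 0 (j + 1) * v (j + 1)).re := by
      have h3 : ‖∑ j ∈ range n, E 0 (j + 1) * v (j + 1)‖ ≤ ∑ j ∈ range n, ρ 0 (j + 1) * ‖v (j + 1)‖ := by
        refine (norm_sum_le _ _).trans (Finset.sum_le_sum fun j hj => ?_)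
        rw [norm_mul]
        exact mul_le_mul_of_nonneg_right (h 0 (Nat.succ_pos n) (j + 1)
          (Nat.succ_lt_succ (Finset.mem_range.mp hj)) (Nat.zero_le _)) (norm_nonneg _)
      have h4 := (Complex.abs_re_le_norm (star (v 0) * ∑ j ∈ range n, E 0 (j + 1) * v (j + 1)))
      rw [norm_mul, norm_star] at h4
      have h5 := mul_le_mul_of_nonneg_left h3 (norm_nonneg (v 0))
      have h6 := (abs_le.mp (h4.trans h5)).1
      have h7 : 2 * (‖v 0‖ * ∑ j ∈ range n, ρ 0 (j + 1) * ‖v (j + 1)‖) ≤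
          ∑ j ∈ range n, ρ 0 (j + 1) * ‖v 0‖ ^ 2 + ∑ j ∈ range n, ρ (j + 1) 0 * ‖v (j + 1)‖ ^ 2 := by
        rw [Finset.mul_sum, Finset.mul_sum, ← Finset.sum_add_distrib]
        refine Finset.sum_le_sum fun j hj => ?_
        rw [hs (j + 1) 0]
        have h8 : 0 ≤ ρ 0 (j + 1) := (norm_nonneg _).trans (h 0 (Nat.succ_pos n) (j + 1)
          (Nat.succ_lt_succ (Finset.mem_range.mp hj)) (Nat.zero_le _))
        have h9 := mul_nonneg h8 (sq_nonneg (‖v 0‖ - ‖v (j + 1)‖))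
        nlinarith [h9]
      linarith
    have h3 : (∑ j ∈ range n, ρ 0 (j + 1) + ρ 0 0) * ‖v 0‖ ^ 2 =
        ∑ j ∈ range n, ρ 0 (j + 1) * ‖v 0‖ ^ 2 + ρ 0 0 * ‖v 0‖ ^ 2 := by
      rw [add_mul, Finset.sum_mul]
    rw [h3]
    linarith

theorem sum_wt_step (D : ℕ) (t : ℕ → ℝ) (f : Vt (D + 1) → ℝ) :
    ∑ u, wtT (D + 1) t u * f u = bt (t D) 0 * ∑ u, wtT D t u * f (u, 0) +
      bt (t D) 1 * ∑ u, wtT D t u * f (u, 1) + bt (t D) 2 * ∑ u, wtT D t u * f (u, 2) := by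
  rw [sum_Vt_succ, Finset.mul_sum, Finset.mul_sum, Finset.mul_sum, ← Finset.sum_add_distrib,
    ← Finset.sum_add_distrib]
  refine Finset.sum_congr rfl fun u _ => ?_
  rw [Fin.sum_univ_three]
  show wtT D t u * bt (t D) 0 * f (u, 0) + wtT D t u * bt (t D) 1 * f (u, 1) +
    wtT D t u * bt (t D) 2 * f (u, 2) = _
  ring

/-! ### sums -/

theorem pz_sum (b : ℤ) : ∀ (n : ℕ) (f : ℕ → ℤ), pz b n f = ∑ i ∈ range n, f i * b ^ i
  | 0, f => rfl
  | n + 1, f => by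
    rw [pz_last, pz_sum b n f, sum_range_succ]
    ring

theorem sum_nest (m : ℕ) (f : ℕ → ℤ) : ∀ n : ℕ,
    ∑ i ∈ range (m * n), f i = ∑ a ∈ range n, ∑ b ∈ range m, f (m * a + b)
  | 0 => by simp
  | n + 1 => by
    rw [Nat.mul_succ, sum_range_add, sum_nest m f n, sum_range_succ]

/-- the digit number `k` -/
def dg (N : VC) (k : ℕ) : ℤ :=
  if k % 30 < 27 then N (k / 30) (k % 30 / 3) (if k % 3 = 0 then 0 else if k % 3 = 1 then 1 else 2)
  else 0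

theorem dg_at (N : VC) {K L : ℕ} (hL : L < 9) (e : Fin 3) :
    dg N (30 * K + (3 * L + e)) = N K L e := by
  have he := e.2
  have h1 : (30 * K + (3 * L + (e : ℕ))) % 30 = 3 * L + e := by omega
  have h2 : (30 * K + (3 * L + (e : ℕ))) / 30 = K := by omega
  have h3 : (30 * K + (3 * L + (e : ℕ))) % 3 = e := by omega
  have h4 : (3 * L + (e : ℕ)) / 3 = L := by omega
  unfold dg
  rw [h1, h2, h3, h4, if_pos (by omega)]
  congr 1
  fin_cases e <;> rfl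

theorem dg_pad (N : VC) {K s : ℕ} (h : 27 ≤ s) (h' : s < 30) : dg N (30 * K + s) = 0 := by
  unfold dg
  rw [if_neg (by omega)]

theorem sum30 (f : ℕ → ℤ) (h : ∀ s, 27 ≤ s → s < 30 → f s = 0) :
    ∑ s ∈ range 30, f s = ∑ L ∈ range 9, (f (3 * L) + f (3 * L + 1) + f (3 * L + 2)) := by
  have e : (30 : ℕ) = 27 + 3 := rfl
  have e3 : ∑ s ∈ range 3, f (27 + s) = 0 := sum_eq_zero fun s hs => by
    have h1 := mem_range.1 hs
    exact h _ (by omega) (by omega)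
  rw [e, sum_range_add, e3, add_zero]
  rw [show (27 : ℕ) = 3 * 9 from rfl, sum_nest]
  refine sum_congr rfl fun L _ => ?_
  rw [sum_range_succ, sum_range_succ, sum_range_succ, sum_range_zero, zero_add, Nat.add_zero]

theorem PC_pz (N : VC) : PC N = pz BB 270 (dg N) := by
  rw [pz_sum, show (270 : ℕ) = 30 * 9 from rfl, sum_nest]
  unfold PC
  refine sum_congr rfl fun K _ => ?_
  rw [sum30 _ (fun s h h' => by rw [dg_pad N h h', zero_mul])]
  refine sum_congr rfl fun L hL => ?_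
  have hL' := mem_range.1 hL
  have e0 := dg_at N (K := K) hL' 0
  have e1 := dg_at N (K := K) hL' 1
  have e2 := dg_at N (K := K) hL' 2
  rw [show ((0 : Fin 3) : ℕ) = 0 from rfl, Nat.add_zero] at e0
  rw [show ((1 : Fin 3) : ℕ) = 1 from rfl] at e1
  rw [show ((2 : Fin 3) : ℕ) = 2 from rfl] at e2
  rw [e0, e1, e2, pow_add, pow_add BB (30 * K) (3 * L + 1), pow_add BB (30 * K) (3 * L + 2),
    pow_add BB (3 * L) 1, pow_add BB (3 * L) 2, pow_mul, pow_mul, pow_one]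
  ring

/-! ### the number with offset -/

/-- all digits of the entries are less than `b` -/
def Bc (b : ℤ) (N : VC) : Prop := ∀ K L, K < 9 → L < 9 → ∀ e, |N K L e| ≤ b

theorem dg_bd {b : ℤ} {N : VC} (hb : 0 ≤ b) (h : Bc b N) {k : ℕ} (hk : k < 270) : |dg N k| ≤ b := by
  unfold dg
  by_cases h1 : k % 30 < 27
  · rw [if_pos h1]
    exact h _ _ (by omega) (by omega) _
  · rw [if_neg h1, abs_zero]
    exact hb


end Pool.Agent.Helper17.N9
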