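import Pool.Agent.Helper17.N9.N9A
import Pool.Agent.Helper17.N9.N9K
import Pool.Agent.Helper82.CW.NTG
import Pool.Agent.Helper62.C75.TVM

/-!
Row K9 of MP_c75db0 (plan W), version 2, part B: leaves of the trees, laws of the machines, integer
frames (definitions).
-/

set_option autoImplicit false
set_option exponentiation.threshold 60000
noncomputable section
namespace Pool.Agent.Helper17.N9

open Pool.Agent.Helper86.C75 (Z)
open Pool.Agent.Helper86.CX (Cx andB)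
open Pool.Agent.Helper86.CT (N3)
open Pool.Agent.Helper90.C75 (Vt avg wtT)
open Pool.Agent.Helper90.KMO (zv cz UU)
open Pool.Agent.Helper90.KMT (nlf lf0 TOK PT)
open Pool.Agent.Helper90.K9 (pk pz)
open Pool.Agent.Helper17.K9 (V9)
open Pool.Agent.Helper6.MONO (V3)
open Pool.Agent.Helper6.MONO.W2 (Mt hr hv)
open Finset

/-! ### leaves -/

/-- leaves of a level: nodes (or controls) `0`, `1/2`, `1` = components `a`, `c`, `b` -/
def tlf {α β : Type} {D : ℕ} (l : α → Vt D → β) : Tr α → Vt (D + 1) → β :=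
  fun x u => l ((![x.a, x.c, x.b] : Fin 3 → α) u.2) u.1

def lv0 : ℕ → Vt 0 → ℕ := fun x _ => x
def lz0 : Z → Vt 0 → Z := fun x _ => x
def lm0 : NL → Vt 0 → NL := fun x _ => x
def lc0 : Cx → Vt 0 → Cx := fun x _ => x
def lu0 : Ut → Vt 0 → Ut := fun x _ => x
def lv3 : Tr (Tr (Tr ℕ)) → Vt 3 → ℕ := tlf (tlf (tlf lv0))
/-- components of a tree of controls -/
def ct3 {α : Type} (x : N3 α) : Fin 3 → α :=
  match x with
  | .k x => fun _ => x
  | .q a c b => ![a, c, b]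
/-- leaves of a level of a tree of controls -/
def clf {α β : Type} {D : ℕ} (l : α → Vt D → β) : N3 α → Vt (D + 1) → β := fun x u => l (ct3 x u.2) u.1

/-! ### laws of the machines -/

/-- laws of the operations on trees of numbers; `lk`: leaves of the forms -/
structure TlL {ν ζ κ : Type} (D : ℕ) (lv : ν → Vt D → ℕ) (lz : ζ → Vt D → Z) (lk : κ → Vt D → ℕ)
    (T : Tl ν ζ κ) : Prop where
  ad : ∀ (x y : ν) (u : Vt D), lv (T.ad x y) u = lv x u + lv y u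
  sb : ∀ (x y : ν) (u : Vt D), lv (T.sb x y) u = lv x u - lv y u
  sl : ∀ (k : ℕ) (x : ν) (u : Vt D), lv (T.sl k x) u = lv x u * 2 ^ k
  zc : ∀ (x y : ν) (u : Vt D), lv (T.zc x y) u = zc0 (lv x u) (lv y u)
  nn : ∀ (f : ℕ → ℕ → ℕ → ℕ → Z) (k l : κ) (x y : ν) (u : Vt D),
    lz (T.nn f k l x y) u = f (lk k u) (lk l u) (lv x u) (lv y u)
  az : ∀ (f : Z → Bool) (x : ζ), T.az f x = true → ∀ u, f (lz x u) = true
  mz : ∀ (f : Z → ℕ) (x : ζ) (u : Vt D), lv (T.mz f x) u = f (lz x u)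
  al : ∀ (f : ℕ → Bool) (x : ν), T.al f x = true → ∀ u, f (lv x u) = true
  ld : ∀ x : ν, T.ld x = lv x (vt0 D)
  cn : ∀ (x : ν) (n : ℕ) (o : ℕ → ℤ) (f : Vt D → ℕ → ℤ),
    (∀ u, (lv x u : ℤ) = pz BB n (fun k => o k + f u k)) →
    (∀ u, ∀ k < n, 3 ^ D * |f u k| ≤ o k) →
    ∀ u, (lv (T.cn x) u : ℤ) = pz BB n (fun k => 2 ^ D * o k + cnI D (fun w => f w k) u)

/-- `4 ^ D` times the values at the nodes of the function with the controls `C` -/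
def ndI : (D : ℕ) → (Vt D → ℤ) → Vt D → ℤ
  | 0, C => C
  | D + 1, C => fun u => (![4 * ndI D (fun w => C (w, 0)) u.1,
      ndI D (fun w => C (w, 0)) u.1 + ndI D (fun w => C (w, 2)) u.1 +
        2 * ndI D (fun w => C (w, 1)) u.1,
      4 * ndI D (fun w => C (w, 2)) u.1] : Fin 3 → ℤ) u.2

def NdL {α ν : Type} (D : ℕ) (lC : α → Vt D → Cx) (lv : ν → Vt D → ℕ) (N : Nd α ν) : Prop :=
  ∀ (x : α), (∀ v, |zv (lC x v).re| ≤ 2 ^ 60 ∧ |zv (lC x v).im| ≤ 2 ^ 60) → ∀ u,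
    (lv (N.nd x) u : ℤ) = (4 ^ D * 2 ^ 60 + ndI D (fun v => zv (lC x v).re) u) +
      (4 ^ D * 2 ^ 60 + ndI D (fun v => zv (lC x v).im) u) * BB

structure ZqL {ν μ : Type} (D : ℕ) (lv : ν → Vt D → ℕ) (lm : μ → Vt D → NL) (F : Zq ν μ) : Prop where
  z : ∀ (s o : ℕ) (a b c d e f g h i : ν) (u : Vt D), lm (F.z s o a b c d e f g h i) u =
    mkNL s o (lv a u) (lv b u) (lv c u) (lv d u) (lv e u) (lv f u) (lv g u) (lv h u) (lv i u)
  q : ∀ (f : NL → ℕ) (x : μ) (u : Vt D), lv (F.q f x) u = f (lm x u)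

/-- the laws of a machine; `r`: parameters of the forms in the parameters of the machine -/
structure MnL {α ν μ ζ : Type} (D : ℕ) (lC : α → Vt D → Cx) (lv : ν → Vt D → ℕ)
    (lz : ζ → Vt D → Z) (lm : μ → Vt D → NL) (r : Vt D → Vt 3) (X : Mn α ν μ ζ) : Prop where
  d : X.d = D
  N : NdL D lC lv X.N
  Q : ZqL D lv lm X.Q
  T : TlL D lv lz (fun k u => lv3 k (r u)) X.T

def lC3 : N3 (N3 (N3 Cx)) → Vt 3 → Cx := clf (clf (clf lc0))
def lC4 : N3 (N3 (N3 (N3 Cx))) → Vt 4 → Cx := clf lC3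
def lz3 : Tr (Tr (Tr Z)) → Vt 3 → Z := tlf (tlf (tlf lz0))
def lz4 : Tr (Tr (Tr (Tr Z))) → Vt 4 → Z := tlf lz3
def lv4 : Tr (Tr (Tr (Tr ℕ))) → Vt 4 → ℕ := tlf lv3
def lm3 : Tr (Tr (Tr NL)) → Vt 3 → NL := tlf (tlf (tlf lm0))
def lm4 : Tr (Tr (Tr (Tr NL))) → Vt 4 → NL := tlf lm3

/-! ### integer frames -/

/-- the entries of a frame: fields of 20 bits -/
def AI (T : ℕ) : VF := fun i j =>
  ![(u20 T (40 * (3 * i + j)) : ℤ) - 2 ^ 19, (u20 T (40 * (3 * i + j) + 20) : ℤ) - 2 ^ 19]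

/-- digits of a vector with offset `2 ^ 100` -/
def qd (I : VA) (k : ℕ) : ℤ :=
  if k % 3 = 0 then 2 ^ 100 + I (k / 3) 0 else if k % 3 = 1 then 2 ^ 100 + I (k / 3) 1 else 0

/-- packed rows -/
def rq (m : ℕ) (r : ℕ → Fin 2 → ℤ) : ℤ := ∑ l ∈ range 3, (r l 0 + r l 1 * BB) * (BB ^ (3 * m)) ^ l
def ri (m : ℕ) (r : ℕ → Fin 2 → ℤ) : ℤ := ∑ l ∈ range 3, (-r l 1 + r l 0 * BB) * (BB ^ (3 * m)) ^ l
def rp30 (m : ℕ) (r : ℕ → Fin 2 → ℤ) : ℤ :=
  ∑ l ∈ range 3, (r l 0 - r l 1 * BB) * (BB ^ (30 * m)) ^ l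

/-- the packed frame `A` has the entries `I` -/
structure FrR (m : ℕ) (A : Fr) (I : VF) : Prop where
  u0 : zv A.u0 = rq m (I 0)
  u1 : zv A.u1 = rq m (I 1)
  u2 : zv A.u2 = rq m (I 2)
  v0 : zv A.v0 = ri m (I 0)
  v1 : zv A.v1 = ri m (I 1)
  v2 : zv A.v2 = ri m (I 2)
  p0 : zv A.p0 = rp30 m (I 0)
  p1 : zv A.p1 = rp30 m (I 1)
  p2 : zv A.p2 = rp30 m (I 2)

/-- all digits are at most `b` -/
def BF (b : ℤ) (I : VF) : Prop := ∀ i < 3, ∀ j < 3, ∀ e, |I i j e| ≤ b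

/-- entries of a complex matrix -/
def en (A : Mt) (i j : ℕ) : ℂ := A (Fin.ofNat 3 i) (Fin.ofNat 3 j)
/-- the complex matrix of integer entries -/
def mI (I : VF) : Mt := Matrix.of fun i j => ef i j I
/-- the hermitian matrix of the fields of a table, units `1` -/
def kap (T : ℕ) : Mt := (2 ^ 23 : ℂ) • tabM T
/-- `J K^t J` -/
def cvM (K : Mt) : Mt := Pool.Agent.Helper6.MONO.W2.J1 * K.transpose * Pool.Agent.Helper6.MONO.W2.J1

/-- number of the entry `K` of a list of nine -/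
def M9.at (R : M9) (K : ℕ) : ℕ := match K with
  | 0 => R.a | 1 => R.b | 2 => R.c | 3 => R.d | 4 => R.e | 5 => R.f | 6 => R.g | 7 => R.h | _ => R.i
def R9.at (R : R9) (K : ℕ) : ℕ := match K with
  | 0 => R.a | 1 => R.b | 2 => R.c | 3 => R.d | 4 => R.e | 5 => R.f | 6 => R.g | 7 => R.h | _ => R.i
def W9.at (R : W9) (K : ℕ) : Rw := match K with
  | 0 => R.a | 1 => R.b | 2 => R.c | 3 => R.d | 4 => R.e | 5 => R.f | 6 => R.g | 7 => R.h | _ => R.i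
def vat {α : Type} (V : V9 α) (K : ℕ) : Pool.Agent.Helper86.CT.Mo α := match K with
  | 0 => V.a | 1 => V.b | 2 => V.c | 3 => V.d | 4 => V.e | 5 => V.f | 6 => V.g | 7 => V.h | _ => V.i

/-- entry number `K` of a leaf -/
def NL.at (x : NL) (K : ℕ) : ℕ := match K with
  | 0 => x.a | 1 => x.b | 2 => x.c | 3 => x.d | 4 => x.e | 5 => x.f | 6 => x.g | 7 => x.h | _ => x.i

/-- a leaf of a block: nine complex integers `n` -/
structure NLR (y : NL) (n : ℕ → Fin 2 → ℤ) : Prop where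
  dg : ∀ K < 9, (y.at K : ℤ) = (2 ^ 40 + n K 0) + (2 ^ 40 + n K 1) * BB
  vv : y.v = TE * (y.a + (y.b + (y.c + (y.d + (y.e + (y.f + (y.g + (y.h + y.i))))))))
  bd : ∀ K < 9, ∀ e, |n K e| ≤ 2 ^ 39

/-- A BLOCK AT THE NODES: complex integers `n` at the nodes, unit `2 ^ (k - 28)`; errors of the
entries: `V.r` -/
structure NVL {μ : Type} (D : ℕ) (lm : μ → Vt D → NL) (t : ℕ → ℝ) (k : ℕ) (M : Mt) (V : NV μ) :
    Prop where
  ex : V.ok = true → ∃ n : Vt D → ℕ → Fin 2 → ℤ, (∀ u, NLR (lm V.v u) (n u)) ∧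
    ∀ K < 9, ‖(2 ^ 28 / 2 ^ k : ℂ) * en M (K / 3) (K % 3) - avg (ndw D t) (fun u =>
      (⟨((n u K 0 : ℤ) : ℝ), ((n u K 1 : ℤ) : ℝ)⟩ : ℂ))‖ ≤ (V.r.at K : ℝ)

/-- real lists -/
def rlD (l : List DG) : List (ℝ × ℝ) := l.map fun x => ((x.D : ℝ), (x.G : ℝ) / 2)
/-- error of the product of two rows (all scaled by `2 ^ D`) -/
def rrR (x y : Rw) : ℝ := x.r * y.B + y.r * x.B + x.r * y.r + ern (rlD x.l) (rlD y.l)

end Pool.Agent.Helper17.N9
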