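import Pool.Agent.Helper17.N9.N9N

/-!
Row K9 of MP_c75db0 (plan W), version 2, part C: the matrix of the test from the node values
(everything but the kernel functions).
-/

set_option autoImplicit false
set_option exponentiation.threshold 60000
noncomputable section
namespace Pool.Agent.Helper17.N9

open Pool.Agent.Helper90.C75 (Vt avg wtT avg_sub avg_star avg_smul)
open Pool.Agent.Helper90.KMT (DL NN PT DL_star)
open Pool.Agent.Helper90.K9 (G G_congr G_add)
open Finset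

theorem cnI_star (D : ℕ) (g : Vt D → ℂ) (u : Vt D) :
    cnI D (fun w => star (g w)) u = star (cnI D g u) :=
  (cnI_map ((starAddEquiv : ℂ ≃+ ℂ).toAddMonoidHom) D g u).symm

theorem ern_comm : ∀ l l' : List (ℝ × ℝ), ern l l' = ern l' l
  | [], [] => rfl
  | [], _ :: _ => rfl
  | _ :: _, [] => rfl
  | (D, F) :: l, (D', F') :: l' => by
    have ih := ern_comm l l'
    simp only [ern]
    rw [ih]
    ring

theorem rrR_comm (x y : Rw) : rrR x y = rrR y x := by
  unfold rrR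
  rw [ern_comm]
  ring

theorem NN_rlD (l : List DG) : NN (rlD l) := by
  intro x hx
  obtain ⟨y, _, rfl⟩ := List.mem_map.1 hx
  exact ⟨Nat.cast_nonneg _, div_nonneg (Nat.cast_nonneg _) (by norm_num)⟩

theorem sum_NN : ∀ {l : List (ℝ × ℝ)}, NN l → 0 ≤ (l.map (fun x => x.1 + 2 * x.2)).sum
  | [], _ => le_rfl
  | x :: l, h => by
    have h1 := h x (List.mem_cons_self ..)
    have h2 := sum_NN h.tail
    rw [List.map_cons, List.sum_cons]
    linarith [h1.1, h1.2]

/-- a row: node values `g` (multiplied by `2 ^ D`), exact value `m` -/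
structure RwL (D : ℕ) (t : ℕ → ℝ) (g : Vt D → ℂ) (m : ℂ) (x : Rw) : Prop where
  dl : DL D (cnI D g) (rlD x.l)
  len : x.l.length = D
  bd : ‖cnI D g (vt0 D)‖ + ((rlD x.l).map (fun x => x.1 + 2 * x.2)).sum ≤ x.B
  er : 2 ^ D * ‖m - avg (ndw D t) g‖ ≤ x.r

theorem RwL.star {D : ℕ} {t : ℕ → ℝ} {g : Vt D → ℂ} {m : ℂ} {x : Rw} (h : RwL D t g m x) :
    RwL D t (fun u => star (g u)) (Star.star m) x where
  dl := DL_star h.dl fun v => cnI_star D g v
  len := h.len
  bd := by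
    rw [cnI_star, norm_star]
    exact h.bd
  er := by
    have e : Star.star m - avg (ndw D t) (fun u => Star.star (g u)) =
        Star.star (m - avg (ndw D t) g) := by
      rw [star_sub, avg_star]
    rw [e, norm_star]
    exact h.er

theorem rr_ok {D : ℕ} {t : ℕ → ℝ} (hP : PT D t) {g h : Vt D → ℂ} {m n : ℂ} {x y : Rw}
    (hx : RwL D t g m x) (hy : RwL D t h n y) :
    4 ^ D * ‖m * n - avg (ndw D t) (fun u => g u * h u)‖ ≤ rrR x y := by
  have lx : (rlD x.l).length = D := by rw [rlD, List.length_map]; exact hx.len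
  have ly : (rlD y.l).length = D := by rw [rlD, List.length_map]; exact hy.len
  have p := prod_ern hP hx.dl hy.dl (NN_rlD _) (NN_rlD _) lx ly
  have bx := (nd_bd hP hx.dl (NN_rlD _) lx).trans hx.bd
  have bY := (nd_bd hP hy.dl (NN_rlD _) ly).trans hy.bd
  have ex := hx.er
  have ey := hy.er
  set μ := avg (ndw D t) g
  set ν := avg (ndw D t) h
  set q := avg (ndw D t) (fun u => g u * h u)
  have e : m * n - q = (m - μ) * ν + (n - ν) * μ + (m - μ) * (n - ν) + (μ * ν - q) := by ring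
  have h1 : ‖m * n - q‖ ≤ ‖m - μ‖ * ‖ν‖ + ‖n - ν‖ * ‖μ‖ + ‖m - μ‖ * ‖n - ν‖ + ‖μ * ν - q‖ := by
    rw [e]
    refine (norm_add_le _ _).trans (add_le_add_left ?_ _)
    refine (norm_add_le _ _).trans ?_
    refine add_le_add ((norm_add_le _ _).trans ?_) (norm_mul _ _).le
    rw [norm_mul, norm_mul]
  have h4 : (4 : ℝ) ^ D = 2 ^ D * 2 ^ D := by rw [← mul_pow]; norm_num
  have hp : (0 : ℝ) ≤ 2 ^ D := by positivity
  have a1 : 2 ^ D * ‖m - μ‖ * (2 ^ D * ‖ν‖) ≤ x.r * y.B :=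
    mul_le_mul ex bY (by positivity) (Nat.cast_nonneg _)
  have a2 : 2 ^ D * ‖n - ν‖ * (2 ^ D * ‖μ‖) ≤ y.r * x.B :=
    mul_le_mul ey bx (by positivity) (Nat.cast_nonneg _)
  have a3 : 2 ^ D * ‖m - μ‖ * (2 ^ D * ‖n - ν‖) ≤ x.r * y.r :=
    mul_le_mul ex ey (by positivity) (Nat.cast_nonneg _)
  have h5 := mul_le_mul_of_nonneg_left h1 (by positivity : (0 : ℝ) ≤ 4 ^ D)
  unfold rrR
  rw [h4] at h5 p ⊢
  nlinarith [h5, a1, a2, a3, p]

/-- THE MATRIX OF THE TEST is nonnegative: `m`, `x`: exact vectors, `QM`, `QX`: node values, `S`: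
constant part at the nodes, `R`: radii of the rows -/
theorem core_ok {D : ℕ} (hD : D ≤ 4) {t : ℕ → ℝ} (hP : PT D t) {QM QX : Vt D → VA}
    {S : Vt D → VC} {m x : ℕ → ℂ} {Mr Xr : W9}
    (hM : ∀ K < 9, RwL D t (fun u => ev K (QM u)) (m K) (Mr.at K))
    (hX : ∀ K < 9, RwL D t (fun u => ev K (QX u)) (x K) (Xr.at K)) {R : ℕ → ℕ}
    (hR : ∀ K < 9, ∑ L ∈ range 9, (rrR (Mr.at K) (Xr.at L) + rrR (Xr.at K) (Mr.at L)) ≤
      2 ^ (72 + 2 * D) * ((R K : ℝ) - 1241)) (v : ℕ → ℂ)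
    (h : ∑ K ∈ range 9, ((R K : ℝ) - 1238) * ‖v K‖ ^ 2 ≤ 2 ^ D / 2 ^ 76 *
      G 9 (fun K L => avg (ndw D t) (fun u => fv K L ((2 ^ (4 - D) : ℤ) • mw (QM u) (QX u) - S u))) v) :
    0 ≤ G 9 (fun K L => (2 ^ (4 - D) : ℂ) * (star (m K) * x L + star (x K) * m L) -
      avg (ndw D t) (fun u => fv K L (S u))) v := by
  set j := 4 - D with hj
  set E : ℕ → ℕ → ℂ := fun K L => (star (m K) * x L + star (x K) * m L) -
    avg (ndw D t) (fun u => fv K L (mw (QM u) (QX u))) with hE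
  set ρ : ℕ → ℕ → ℝ := fun K L => (rrR (Mr.at K) (Xr.at L) + rrR (Xr.at K) (Mr.at L)) / 4 ^ D with hρ
  have p4 : (0 : ℝ) < 4 ^ D := by positivity
  have e1 : ∀ i < 9, ∀ l < 9, i ≤ l → ‖E i l‖ ≤ ρ i l := by
    intro K hK L hL _
    have r1 := rr_ok hP (hM K hK).star (hX L hL)
    have r2 := rr_ok hP (hX K hK).star (hM L hL)
    have ea : avg (ndw D t) (fun u => fv K L (mw (QM u) (QX u))) =
        avg (ndw D t) (fun u => star (ev K (QM u)) * ev L (QX u)) +
          avg (ndw D t) (fun u => star (ev K (QX u)) * ev L (QM u)) := by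
      rw [← Pool.Agent.Helper90.C75.avg_add]
      refine congrArg (avg (ndw D t)) (funext fun u => ?_)
      rw [fv_mw, Fin.sum_univ_two]
      show evc K (QM u) * ev L (QX u) + ev L (QM u) * evc K (QX u) = _
      rw [ev_star, ev_star]
      ring
    have e2 : E K L = (star (m K) * x L - avg (ndw D t) (fun u => star (ev K (QM u)) * ev L (QX u))) +
        (star (x K) * m L - avg (ndw D t) (fun u => star (ev K (QX u)) * ev L (QM u))) := by
      show (star (m K) * x L + star (x K) * m L) - avg (ndw D t) _ = _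
      rw [ea]
      ring
    show _ ≤ (rrR (Mr.at K) (Xr.at L) + rrR (Xr.at K) (Mr.at L)) / 4 ^ D
    rw [le_div_iff₀ p4, e2]
    have n1 := norm_add_le
      (star (m K) * x L - avg (ndw D t) (fun u => star (ev K (QM u)) * ev L (QX u)))
      (star (x K) * m L - avg (ndw D t) (fun u => star (ev K (QX u)) * ev L (QM u)))
    nlinarith [n1, r1, r2]
  have e2 : ∀ i l, ρ i l = ρ l i := by
    intro i l
    show (rrR _ _ + rrR _ _) / _ = (rrR _ _ + rrR _ _) / _
    rw [rrR_comm (Mr.at i) (Xr.at l), rrR_comm (Xr.at i) (Mr.at l), add_comm]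
  have e3 := G_rho 9 E ρ v e1 e2
  have e4 : ∀ K < 9, ∑ L ∈ range 9, ρ K L ≤ 2 ^ 72 * ((R K : ℝ) - 1241) := by
    intro K hK
    have h1 := hR K hK
    have h2 : (2 : ℝ) ^ (72 + 2 * D) = 2 ^ 72 * 4 ^ D := by
      rw [pow_add, pow_mul]
      norm_num
    show ∑ L ∈ range 9, (rrR (Mr.at K) (Xr.at L) + rrR (Xr.at K) (Mr.at L)) / 4 ^ D ≤ _
    rw [← sum_div, div_le_iff₀ p4]
    rw [h2] at h1
    linarith
  have e5 : ∑ K ∈ range 9, (∑ L ∈ range 9, ρ K L) * ‖v K‖ ^ 2 ≤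
      ∑ K ∈ range 9, 2 ^ 72 * ((R K : ℝ) - 1241) * ‖v K‖ ^ 2 :=
    sum_le_sum fun K hK => mul_le_mul_of_nonneg_right (e4 K (mem_range.1 hK)) (by positivity)
  have eG : G 9 (fun K L => (2 ^ j : ℂ) * (star (m K) * x L + star (x K) * m L) -
      avg (ndw D t) (fun u => fv K L (S u))) v =
      G 9 (fun K L => avg (ndw D t) (fun u => fv K L ((2 ^ j : ℤ) • mw (QM u) (QX u) - S u))) v +
        2 ^ j * G 9 E v := by
    rw [← G_smul, ← G_add]
    refine G_congr 9 _ _ v fun K _ L _ _ => ?_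
    have ea : avg (ndw D t) (fun u => fv K L ((2 ^ j : ℤ) • mw (QM u) (QX u) - S u)) =
        (2 ^ j : ℂ) * avg (ndw D t) (fun u => fv K L (mw (QM u) (QX u))) -
          avg (ndw D t) (fun u => fv K L (S u)) := by
      rw [← avg_smul, ← avg_sub]
      refine congrArg (avg (ndw D t)) (funext fun u => ?_)
      rw [map_sub, fv_smul]
      push_cast
      rfl
    rw [ea]
    show _ = _ + ((2 ^ j : ℝ) : ℂ) * ((star (m K) * x L + star (x K) * m L) -
      avg (ndw D t) (fun u => fv K L (mw (QM u) (QX u))))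
    push_cast
    ring
  rw [eG]
  have q1 : (2 : ℝ) ^ j * 2 ^ D = 2 ^ 4 := by
    rw [← pow_add]
    congr 1
    omega
  have pj : (0 : ℝ) < 2 ^ j := by positivity
  have pD : (0 : ℝ) < 2 ^ D := by positivity
  have q2 : 2 ^ j * (2 ^ 72 * ∑ K ∈ range 9, ((R K : ℝ) - 1238) * ‖v K‖ ^ 2) ≤
      G 9 (fun K L => avg (ndw D t) (fun u => fv K L ((2 ^ j : ℤ) • mw (QM u) (QX u) - S u))) v := by
    have h2 := mul_le_mul_of_nonneg_left h (by positivity : (0 : ℝ) ≤ 2 ^ j * 2 ^ 72)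
    set g := G 9 (fun K L => avg (ndw D t) (fun u => fv K L ((2 ^ j : ℤ) • mw (QM u) (QX u) - S u))) v
    have h3 : 2 ^ j * 2 ^ 72 * (2 ^ D / 2 ^ 76 * g) = g := by
      have : 2 ^ j * 2 ^ 72 * (2 ^ D / 2 ^ 76 * g) = (2 ^ j * 2 ^ D) * (2 ^ 72 / 2 ^ 76) * g := by ring
      rw [this, q1]
      norm_num
    linarith
  have q3 : ∑ K ∈ range 9, 2 ^ 72 * ((R K : ℝ) - 1241) * ‖v K‖ ^ 2 ≤
      2 ^ 72 * ∑ K ∈ range 9, ((R K : ℝ) - 1238) * ‖v K‖ ^ 2 := by
    rw [mul_sum]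
    refine sum_le_sum fun K _ => ?_
    have : (0 : ℝ) ≤ ‖v K‖ ^ 2 := by positivity
    nlinarith
  have q4 : -(2 ^ 72 * ∑ K ∈ range 9, ((R K : ℝ) - 1238) * ‖v K‖ ^ 2) ≤ G 9 E v := by
    linarith
  have q5 := mul_le_mul_of_nonneg_left q4 pj.le
  linarith

/-- node values are bounded by the controls -/
theorem nd_node : ∀ {D : ℕ} {g : Vt D → ℂ} {b : ℝ}, (∀ v, ‖cnI D g v‖ ≤ b) → ∀ u,
    2 ^ D * ‖g u‖ ≤ b
  | 0, g, b, h, u => by
    have := h u
    rw [pow_zero, one_mul]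
    exact this
  | D + 1, g, b, h, u => by
    obtain ⟨u, i⟩ := u
    have n2 : ‖(2 : ℂ)‖ = 2 := by norm_num
    have h0 : ∀ v, ‖cnI D (fun w => g (w, 0)) v‖ ≤ b / 2 := fun v => by
      have a := h (v, 0)
      rw [cnI_s0, zsmul_eq_mul] at a
      push_cast at a
      rw [norm_mul, n2] at a
      linarith
    have h2 : ∀ v, ‖cnI D (fun w => g (w, 2)) v‖ ≤ b / 2 := fun v => by
      have a := h (v, 2)
      rw [cnI_s2, zsmul_eq_mul] at a
      push_cast at a
      rw [norm_mul, n2] at a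
      linarith
    have h1 : ∀ v, ‖cnI D (fun w => g (w, 1)) v‖ ≤ b / 2 := fun v => by
      have a := h (v, 1)
      rw [cnI_s1, zsmul_eq_mul] at a
      push_cast at a
      have e : (4 : ℂ) * cnI D (fun w => g (w, 1)) v =
          (4 * cnI D (fun w => g (w, 1)) v - (cnI D (fun w => g (w, 0)) v +
            cnI D (fun w => g (w, 2)) v)) + (cnI D (fun w => g (w, 0)) v +
            cnI D (fun w => g (w, 2)) v) := by ring
      have n4 : ‖(4 : ℂ)‖ = 4 := by norm_num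
      have b1 : ‖(4 : ℂ) * cnI D (fun w => g (w, 1)) v‖ ≤ b + (b / 2 + b / 2) := by
        rw [e]
        refine (norm_add_le _ _).trans (add_le_add a ?_)
        exact (norm_add_le _ _).trans (add_le_add (h0 v) (h2 v))
      rw [norm_mul, n4] at b1
      linarith
    have k : ∀ i : Fin 3, ∀ v, ‖cnI D (fun w => g (w, i)) v‖ ≤ b / 2 := by
      intro i
      fin_cases i
      · exact h0
      · exact h1
      · exact h2
    have r := nd_node (k i) u
    rw [pow_succ]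
    linarith

/-- node values of a row -/
theorem RwL.node {D : ℕ} {t : ℕ → ℝ} {g : Vt D → ℂ} {m : ℂ} {x : Rw} (h : RwL D t g m x)
    (u : Vt D) : 2 ^ D * ‖g u‖ ≤ x.B := by
  have lx : (rlD x.l).length = D := by rw [rlD, List.length_map]; exact h.len
  exact nd_node (fun v => (DL_bd h.dl (NN_rlD _) lx v).trans h.bd) u

end Pool.Agent.Helper17.N9
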