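import Pool.Agent.Helper17.N9.N9B

/-!
Row K9 of MP_c75db0 (plan W), version 2, row F, first part: packed frames, moduli of a frame, tree
of a form.
-/

set_option autoImplicit false
set_option exponentiation.threshold 60000
noncomputable section
namespace Pool.Agent.Helper17.N9

open Pool.Agent.Helper86.C75 (Z)
open Pool.Agent.Helper90.C75 (Vt avg wtT)
open Pool.Agent.Helper90.KMO (zv)
open Pool.Agent.Helper6.MONO.W2 (Mt)
open Finset Matrix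

theorem u20_lt (T k : ℕ) : u20 T k < 2 ^ 20 := Nat.mod_lt _ (by norm_num)

theorem u20_sh (T a k : ℕ) : u20 (Nat.shiftRight T a) k = u20 T (a + k) := by
  show (T >>> a) >>> k % 1048576 = T >>> (a + k) % 1048576
  rw [Nat.shiftRight_add]

theorem u20_z (T k : ℕ) : |(u20 T k : ℤ) - 2 ^ 19| ≤ 2 ^ 19 := by
  have h1 := u20_lt T k
  have h2 : (u20 T k : ℤ) < 2 ^ 20 := by exact_mod_cast h1
  have h3 : (0 : ℤ) ≤ (u20 T k : ℤ) := Int.natCast_nonneg _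
  rw [abs_le]
  constructor
  · linarith
  · have : (2 : ℤ) ^ 20 = 2 ^ 19 + 2 ^ 19 := by norm_num
    linarith

theorem AI_bd (T : ℕ) : BF (2 ^ 19) (AI T) := by
  intro i _ j _ e
  have h1 := u20_z T (40 * (3 * i + j))
  have h2 := u20_z T (40 * (3 * i + j) + 20)
  match e with
  | 0 => exact h1
  | 1 => exact h2

/-! ### rows -/

theorem nas (a b k : ℕ) : ((Nat.add a (Nat.shiftLeft b k) : ℕ) : ℤ) = a + b * 2 ^ k := by
  show ((a + b <<< k : ℕ) : ℤ) = _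
  rw [Nat.shiftLeft_eq]
  push_cast
  rfl

theorem zv_sub' (a b : ℕ) : zv (Z.sub' a b) = (a : ℤ) - b := Pool.Agent.Helper90.KMO.zv_br a b

theorem zv_rZ (x y x' y' : ℕ) :
    zv (rZ x y x' y') = ((x : ℤ) + y * BB) - (x' + y' * BB) := by
  unfold rZ
  rw [zv_sub', nas, nas]
  rfl

theorem cw3_eq (k x0 x1 x2 : ℕ) :
    ((cw3 k x0 x1 x2 : ℕ) : ℤ) = x0 + (x1 + x2 * 2 ^ k) * 2 ^ k := by
  show ((x0 + (x1 + x2 <<< k) <<< k : ℕ) : ℤ) = _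
  rw [Nat.shiftLeft_eq, Nat.shiftLeft_eq]
  push_cast
  rfl

theorem cH_eq (k : ℕ) : ((cH k : ℕ) : ℤ) = 2 ^ 19 + (2 ^ 19 + 2 ^ 19 * 2 ^ k) * 2 ^ k := by
  have h := cw3_eq k H19 H19 H19
  have h2 : ((H19 : ℕ) : ℤ) = 2 ^ 19 := rfl
  rw [h2] at h
  exact h

/-- a row is given by the fields of `t` -/
def Rof (t : ℕ) (r : ℕ → Fin 2 → ℤ) : Prop :=
  ∀ l < 3, r l 0 = (u20 t (40 * l) : ℤ) - 2 ^ 19 ∧ r l 1 = (u20 t (40 * l + 20) : ℤ) - 2 ^ 19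

theorem cR_eq (k t : ℕ) (r : ℕ → Fin 2 → ℤ) (h : Rof t r) : ((cR k t : ℕ) : ℤ) - ((cH k : ℕ) : ℤ) =
    r 0 0 + (r 1 0 + r 2 0 * 2 ^ k) * 2 ^ k := by
  have h0 := (h 0 (by norm_num)).1
  have h1 := (h 1 (by norm_num)).1
  have h2 := (h 2 (by norm_num)).1
  rw [cH_eq, show ((cR k t : ℕ) : ℤ) = _ from cw3_eq k _ _ _, h0, h1, h2]
  show (u20 t 0 : ℤ) + ((u20 t 40 : ℤ) + (u20 t 80 : ℤ) * 2 ^ k) * 2 ^ k - _ =
    (u20 t 0 : ℤ) - 2 ^ 19 + ((u20 t 40 : ℤ) - 2 ^ 19 + ((u20 t 80 : ℤ) - 2 ^ 19) * 2 ^ k) * 2 ^ k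
  ring

theorem cI_eq (k t : ℕ) (r : ℕ → Fin 2 → ℤ) (h : Rof t r) : ((cI k t : ℕ) : ℤ) - ((cH k : ℕ) : ℤ) =
    r 0 1 + (r 1 1 + r 2 1 * 2 ^ k) * 2 ^ k := by
  have h0 := (h 0 (by norm_num)).2
  have h1 := (h 1 (by norm_num)).2
  have h2 := (h 2 (by norm_num)).2
  rw [cH_eq, show ((cI k t : ℕ) : ℤ) = _ from cw3_eq k _ _ _, h0, h1, h2]
  show (u20 t 20 : ℤ) + ((u20 t 60 : ℤ) + (u20 t 100 : ℤ) * 2 ^ k) * 2 ^ k - _ =
    (u20 t 20 : ℤ) - 2 ^ 19 + ((u20 t 60 : ℤ) - 2 ^ 19 + ((u20 t 100 : ℤ) - 2 ^ 19) * 2 ^ k) * 2 ^ k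
  ring

theorem row3_ok (m k t : ℕ) (r : ℕ → Fin 2 → ℤ) (hk : (2 : ℤ) ^ k = BB ^ (3 * m))
    (h : Rof t r) : zv (row3 k t) = rq m r := by
  have e : zv (row3 k t) = ((cR k t : ℕ) : ℤ) + (cI k t : ℕ) * BB - ((cH k : ℕ) + (cH k : ℕ) * BB) :=
    zv_rZ (cR k t) (cI k t) (cH k) (cH k)
  have h1 := cR_eq k t r h
  have h2 := cI_eq k t r h
  rw [hk] at h1 h2
  rw [e]
  unfold rq
  simp only [sum_range_succ, sum_range_zero, pow_zero, pow_one]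
  linear_combination h1 + h2 * BB

theorem rowi_ok (m k t : ℕ) (r : ℕ → Fin 2 → ℤ) (hk : (2 : ℤ) ^ k = BB ^ (3 * m))
    (h : Rof t r) : zv (rowi k t) = ri m r := by
  have e : zv (rowi k t) = ((cH k : ℕ) : ℤ) + (cR k t : ℕ) * BB - ((cI k t : ℕ) + (cH k : ℕ) * BB) :=
    zv_rZ (cH k) (cR k t) (cI k t) (cH k)
  have h1 := cR_eq k t r h
  have h2 := cI_eq k t r h
  rw [hk] at h1 h2
  rw [e]
  unfold ri
  simp only [sum_range_succ, sum_range_zero, pow_zero, pow_one]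
  linear_combination h1 * BB - h2

theorem row30_ok (m k t : ℕ) (r : ℕ → Fin 2 → ℤ) (hk : (2 : ℤ) ^ k = BB ^ (30 * m))
    (h : Rof t r) : zv (row30 k t) = rp30 m r := by
  have e : zv (row30 k t) = ((cR k t : ℕ) : ℤ) + (cH k : ℕ) * BB - ((cH k : ℕ) + (cI k t : ℕ) * BB) :=
    zv_rZ (cR k t) (cH k) (cH k) (cI k t)
  have h1 := cR_eq k t r h
  have h2 := cI_eq k t r h
  rw [hk] at h1 h2
  rw [e]
  unfold rp30
  simp only [sum_range_succ, sum_range_zero, pow_zero, pow_one]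
  linear_combination h1 - h2 * BB

theorem Rof_AI (T i : ℕ) : Rof (Nat.shiftRight T (120 * i)) (AI T i) := by
  intro l _
  constructor
  · rw [u20_sh]
    show (u20 T (40 * (3 * i + l)) : ℤ) - 2 ^ 19 = _
    rw [show 40 * (3 * i + l) = 120 * i + 40 * l by ring]
  · rw [u20_sh]
    show (u20 T (40 * (3 * i + l) + 20) : ℤ) - 2 ^ 19 = _
    rw [show 40 * (3 * i + l) + 20 = 120 * i + (40 * l + 20) by ring]

theorem FrR_mk (m : ℕ) (I : VF) (x0 x1 x2 y0 y1 y2 z0 z1 z2 : Z) (a0 : zv x0 = rq m (I 0))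
    (a1 : zv x1 = rq m (I 1)) (a2 : zv x2 = rq m (I 2)) (b0 : zv y0 = ri m (I 0))
    (b1 : zv y1 = ri m (I 1)) (b2 : zv y2 = ri m (I 2)) (c0 : zv z0 = rp30 m (I 0))
    (c1 : zv z1 = rp30 m (I 1)) (c2 : zv z2 = rp30 m (I 2)) :
    FrR m ⟨x0, x1, x2, y0, y1, y2, z0, z1, z2⟩ I := ⟨a0, a1, a2, b0, b1, b2, c0, c1, c2⟩

theorem mkFr_ok (m k k' : ℕ) (I : VF) (t0 t1 t2 : ℕ) (hk : (2 : ℤ) ^ k = BB ^ (3 * m))
    (hk' : (2 : ℤ) ^ k' = BB ^ (30 * m)) (h0 : Rof t0 (I 0)) (h1 : Rof t1 (I 1))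
    (h2 : Rof t2 (I 2)) : FrR m (mkFr k k' t0 t1 t2) I := by
  have a0 := row3_ok m k _ _ hk h0
  have a1 := row3_ok m k _ _ hk h1
  have a2 := row3_ok m k _ _ hk h2
  have b0 := rowi_ok m k _ _ hk h0
  have b1 := rowi_ok m k _ _ hk h1
  have b2 := rowi_ok m k _ _ hk h2
  have c0 := row30_ok m k' _ _ hk' h0
  have c1 := row30_ok m k' _ _ hk' h1
  have c2 := row30_ok m k' _ _ hk' h2
  have h := FrR_mk m I _ _ _ _ _ _ _ _ _ a0 a1 a2 b0 b1 b2 c0 c1 c2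
  unfold mkFr
  exact h

theorem Rof0 (T : ℕ) : Rof T (AI T 0) := Rof_AI T 0
theorem Rof1 (T : ℕ) : Rof (Nat.shiftRight T (nat_lit 120)) (AI T 1) := Rof_AI T 1
theorem Rof2 (T : ℕ) : Rof (Nat.shiftRight T (nat_lit 240)) (AI T 2) := Rof_AI T 2

theorem frU_ok (T : ℕ) : FrR 1 (frU T) (AI T) :=
  mkFr_ok 1 (nat_lit 384) (nat_lit 3840) (AI T) _ _ _ (two_BB 3) (two_BB 30) (Rof0 T) (Rof1 T) (Rof2 T)
theorem frW_ok (T : ℕ) : FrR 3 (frW T) (AI T) :=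
  mkFr_ok 3 (nat_lit 1152) (nat_lit 11520) (AI T) _ _ _ (two_BB 9) (two_BB 90) (Rof0 T) (Rof1 T) (Rof2 T)

/-! ### moduli -/

theorem mx2_eq (x y : ℕ) : x ≤ mx2 x y ∧ y ≤ mx2 x y := by
  show x ≤ x + (y - x) ∧ y ≤ x + (y - x)
  omega

/-- bound of the modulus -/
theorem mo_ok (a b : ℕ) (x y : ℝ) (hx : |x| ≤ a) (hy : |y| ≤ b) :
    ‖(⟨x, y⟩ : ℂ)‖ ≤ ((mo a b : ℕ) : ℝ) := by
  have h1 : ((mo a b : ℕ) : ℝ) = ((mx2 (a + b >>> 1) (b + a >>> 1) : ℕ) : ℝ) + 2 := by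
    show (((mx2 (a + b >>> 1) (b + a >>> 1) + 2 : ℕ)) : ℝ) = _
    push_cast
    ring
  obtain ⟨h2, h3⟩ := mx2_eq (a + b >>> 1) (b + a >>> 1)
  have hb : b ≤ 2 * (b >>> 1) + 1 := by rw [Nat.shiftRight_eq_div_pow]; omega
  have ha : a ≤ 2 * (a >>> 1) + 1 := by rw [Nat.shiftRight_eq_div_pow]; omega
  have h4 : (a : ℝ) + ((b >>> 1 : ℕ) : ℝ) ≤ ((mx2 (a + b >>> 1) (b + a >>> 1) : ℕ) : ℝ) := by
    exact_mod_cast h2
  have h5 : (b : ℝ) + ((a >>> 1 : ℕ) : ℝ) ≤ ((mx2 (a + b >>> 1) (b + a >>> 1) : ℕ) : ℝ) := by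
    exact_mod_cast h3
  have h6 : (b : ℝ) ≤ (2 : ℝ) * ((b >>> 1 : ℕ) : ℝ) + 1 := by exact_mod_cast hb
  have h7 : (a : ℝ) ≤ (2 : ℝ) * ((a >>> 1 : ℕ) : ℝ) + 1 := by exact_mod_cast ha
  set M := ((mo a b : ℕ) : ℝ) with hM
  have a0 : (0 : ℝ) ≤ a := Nat.cast_nonneg _
  have b0 : (0 : ℝ) ≤ b := Nat.cast_nonneg _
  have g1 : (a : ℝ) + b / 2 ≤ M := by linarith
  have g2 : (b : ℝ) + a / 2 ≤ M := by linarith
  have M0 : 0 ≤ M := by linarith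
  have h8 : ‖(⟨x, y⟩ : ℂ)‖ ^ 2 ≤ M ^ 2 := by
    rw [← Complex.normSq_eq_norm_sq, Complex.normSq_mk]
    have hx2 : x * x ≤ a ^ 2 := by
      rw [← abs_mul_abs_self]; nlinarith [abs_nonneg x]
    have hy2 : y * y ≤ b ^ 2 := by
      rw [← abs_mul_abs_self]; nlinarith [abs_nonneg y]
    rcases le_total (a : ℝ) b with h | h
    · have : (b : ℝ) ^ 2 + a ^ 2 ≤ (b + a / 2) ^ 2 := by nlinarith
      have h9 : ((b : ℝ) + a / 2) ^ 2 ≤ M ^ 2 := pow_le_pow_left₀ (by positivity) g2 2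
      linarith
    · have : (a : ℝ) ^ 2 + b ^ 2 ≤ (a + b / 2) ^ 2 := by nlinarith
      have h9 : ((a : ℝ) + b / 2) ^ 2 ≤ M ^ 2 := pow_le_pow_left₀ (by positivity) g1 2
      linarith
  exact abs_le_of_sq_le_sq' h8 M0 |>.2

theorem adf_eq (x : ℕ) : |((x : ℝ) - 2 ^ 19)| = ((adf x : ℕ) : ℝ) := by
  have e : adf x = (x - 524288) + (524288 - x) := rfl
  rcases le_total x 524288 with h | h
  · have h1 : adf x = 524288 - x := by omega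
    have h2 : (x : ℝ) ≤ 524288 := by exact_mod_cast h
    rw [h1, Nat.cast_sub h, abs_of_nonpos (by norm_num; linarith)]
    norm_num
  · have h1 : adf x = x - 524288 := by omega
    have h2 : (524288 : ℝ) ≤ x := by exact_mod_cast h
    rw [h1, Nat.cast_sub h, abs_of_nonneg (by norm_num; linarith)]
    norm_num

theorem ma_ok (T k k' : ℕ) :
    ‖(⟨(((u20 T k : ℤ) - 2 ^ 19 : ℤ) : ℝ), (((u20 T k' : ℤ) - 2 ^ 19 : ℤ) : ℝ)⟩ : ℂ)‖ ≤
      ((ma T k k' : ℕ) : ℝ) := by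
  have e : ∀ n : ℕ, (((n : ℤ) - 2 ^ 19 : ℤ) : ℝ) = (n : ℝ) - 2 ^ 19 := by
    intro n
    push_cast
    ring
  refine mo_ok _ _ _ _ ?_ ?_
  · rw [e]
    exact (adf_eq _).le
  · rw [e]
    exact (adf_eq _).le

/-- moduli of the entries of a frame -/
theorem mkMa_ok (T K : ℕ) (hK : K < 9) : ‖ef (K / 3) (K % 3) (AI T)‖ ≤ ((mkMa T).at K : ℝ) := by
  have h : ∀ k k', k = 40 * (3 * (K / 3) + K % 3) → k' = k + 20 → ma T k k' = (mkMa T).at K →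
      ‖ef (K / 3) (K % 3) (AI T)‖ ≤ ((mkMa T).at K : ℝ) := by
    intro k k' h1 h2 h3
    rw [← h3]
    have h4 := ma_ok T k k'
    rw [h2, h1] at h4 ⊢
    exact h4
  interval_cases K
  · exact h 0 20 rfl rfl rfl
  · exact h 40 60 rfl rfl rfl
  · exact h 80 100 rfl rfl rfl
  · exact h 120 140 rfl rfl rfl
  · exact h 160 180 rfl rfl rfl
  · exact h 200 220 rfl rfl rfl
  · exact h 240 260 rfl rfl rfl
  · exact h 280 300 rfl rfl rfl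
  · exact h 320 340 rfl rfl rfl

/-! ### the tree of a form -/

/-- component of a tree -/
def c3 {α : Type} (x : Tr α) (i : Fin 3) : α := (![x.a, x.c, x.b] : Fin 3 → α) i

theorem kc1_at {α : Type} (x : α) (i : Fin 3) : c3 (kc1 x) i = x := by
  match i with
  | 0 => rfl
  | 1 => rfl
  | 2 => rfl

theorem tm1_at (f : Ut → ℕ) (x : Tr Ut) (u : Vt 0) (i : Fin 3) :
    tlf lv0 (tm1 f x) (u, i) = f (c3 x i) := by
  match i with
  | 0 => rfl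
  | 1 => rfl
  | 2 => rfl
theorem tm2_at (f : Ut → ℕ) (x : Tr (Tr Ut)) (u : Vt 0) (i j : Fin 3) :
    tlf (tlf lv0) (tm2 f x) ((u, i), j) = f (c3 (c3 x j) i) := by
  match j with
  | 0 => exact tm1_at f _ u i
  | 1 => exact tm1_at f _ u i
  | 2 => exact tm1_at f _ u i
theorem tm3_at (f : Ut → ℕ) (x : Tr (Tr (Tr Ut))) (u : Vt 0) (i j k : Fin 3) :
    lv3 (tm3 f x) (((u, i), j), k) = f (c3 (c3 (c3 x k) j) i) := by
  match k with
  | 0 => exact tm2_at f _ u i j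
  | 1 => exact tm2_at f _ u i j
  | 2 => exact tm2_at f _ u i j

theorem kq1_at (T : ℕ) (i : Fin 3) :
    c3 (kq1 T) i = mkUt (Nat.shiftRight T ((![nat_lit 0, nat_lit 216, nat_lit 432] : Fin 3 → ℕ) i)) := by
  match i with
  | 0 => rfl
  | 1 => rfl
  | 2 => rfl
theorem kq2_at (T : ℕ) (i : Fin 3) :
    c3 (kq2 T) i = kq1 (Nat.shiftRight T ((![nat_lit 0, nat_lit 648, nat_lit 1296] : Fin 3 → ℕ) i)) := by
  match i with
  | 0 => rfl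
  | 1 => rfl
  | 2 => rfl
theorem kq3_at (T : ℕ) (i : Fin 3) :
    c3 (kq3 T) i = kq2 (Nat.shiftRight T ((![nat_lit 0, nat_lit 1944, nat_lit 3888] : Fin 3 → ℕ) i)) := by
  match i with
  | 0 => rfl
  | 1 => rfl
  | 2 => rfl

theorem n3_at (a b : ℕ) (h : b = 2 * a) (i : Fin 3) :
    (![nat_lit 0, a, b] : Fin 3 → ℕ) i = a * i := by
  match i with
  | 0 => exact (Nat.mul_zero a).symm
  | 1 => exact (Nat.mul_one a).symm
  | 2 => exact h.trans (Nat.mul_comm _ _)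

/-- THE TREE OF A FORM: value at the node `(i0, i1, i2)` and interpolation of the real form -/
theorem kNd_leaf (f : Ut → ℕ) (K : Kf) : ∃ T : Vt 3 → ℕ,
    (∀ u, lv3 (kNd f K) u = f (mkUt (T u))) ∧
    ∀ t : ℕ → ℝ, ∀ i j, KfM K t i j = avg (ndw 3 t) (fun u => tabM (T u) i j) := by
  cases K with
  | c k =>
    refine ⟨fun _ => k, ?_, ?_⟩
    · rintro ⟨⟨⟨u, i0⟩, i1⟩, i2⟩
      have h : lv3 (kNd f (Kf.c k)) (((u, i0), i1), i2) =
          c3 (c3 (c3 (kc1 (kc1 (kc1 (f (mkUt k))))) i2) i1) i0 := rfl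
      rw [h, kc1_at, kc1_at, kc1_at]
    · intro t i j
      rw [KfM_c]
      have h : avg (ndw 3 t) (fun _ => tabM k i j) = ((∑ u, ndw 3 t u : ℝ) : ℂ) * tabM k i j := by
        show ∑ u, ((ndw 3 t u : ℝ) : ℂ) * tabM k i j = _
        rw [← Finset.sum_mul, Complex.ofReal_sum]
      rw [h, ndw_sum, Complex.ofReal_one, one_mul]
  | q k =>
    refine ⟨fun u => ndT k u.1.1.2 u.1.2 u.2, ?_, ?_⟩
    · have hs : ∀ a b : ℕ, Nat.shiftRight (Nat.shiftRight k a) b = Nat.shiftRight k (a + b) :=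
        fun a b => (Nat.shiftRight_add k a b).symm
      rintro ⟨⟨⟨u, i0⟩, i1⟩, i2⟩
      have h : lv3 (kNd f (Kf.q k)) (((u, i0), i1), i2) =
        lv3 (tm3 f (kq3 k)) (((u, i0), i1), i2) := rfl
      rw [h, tm3_at, kq3_at, kq2_at, kq1_at, hs, hs, n3_at (nat_lit 216) (nat_lit 432) rfl,
        n3_at (nat_lit 648) (nat_lit 1296) rfl, n3_at (nat_lit 1944) (nat_lit 3888) rfl]
      have e : (nat_lit 1944) * (i2 : ℕ) + (nat_lit 648) * (i1 : ℕ) + (nat_lit 216) * (i0 : ℕ) =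
          216 * ((i0 : ℕ) + 3 * (i1 : ℕ) + 9 * (i2 : ℕ)) := by
        show 1944 * (i2 : ℕ) + 648 * (i1 : ℕ) + 216 * (i0 : ℕ) = _
        ring
      rw [e]
      rfl
    · intro t i j
      have h3 := avg_ndw_succ 2 t
      have h2 := avg_ndw_succ 1 t
      have h1 := avg_ndw_succ 0 t
      rw [h3]
      simp only [h2, h1, avg_zero_dir]
      rw [KfM_q]
      simp only [sum_range_succ, sum_range_zero, Matrix.add_apply, Matrix.smul_apply, smul_eq_mul,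
        zero_add]
      have w : ∀ v : Vt 0, ndw 0 t v = 1 := fun _ => rfl
      simp only [w]
      push_cast
      have c0 : ((0 : Fin 3) : ℕ) = 0 := rfl
      have c1 : ((1 : Fin 3) : ℕ) = 1 := rfl
      have c2 : ((2 : Fin 3) : ℕ) = 2 := rfl
      simp only [c0, c1, c2]
      ring

end Pool.Agent.Helper17.N9
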