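import Pool.Agent.Helper17.N9.N9F0

/-!
Row K9 of MP_c75db0 (plan W), version 2, row F, second part: forms in the frames, generic in the
layout `m`.
-/

set_option autoImplicit false
set_option exponentiation.threshold 60000
noncomputable section
namespace Pool.Agent.Helper17.N9.F1

open Pool.Agent.Helper86.C75 (Z)
open Pool.Agent.Helper90.KMO (zv zv_add zv_sub zv_mul)
open Pool.Agent.Helper6.MONO.W2 (Mt J1)
open Finset Matrix

/-! ### digits -/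

/-- three digits per entry -/
def P3 (m : ℕ) (Y : VC) : ℤ := ∑ j ∈ range 3, ∑ l ∈ range 3,
  (Y j l 0 + Y j l 1 * BB + Y j l 2 * BB ^ 2) * ((BB ^ (30 * m)) ^ j * (BB ^ (3 * m)) ^ l)

theorem P3_add (m : ℕ) (X Y : VC) : P3 m (X + Y) = P3 m X + P3 m Y := by
  unfold P3
  rw [← sum_add_distrib]
  refine sum_congr rfl fun j _ => ?_
  rw [← sum_add_distrib]
  refine sum_congr rfl fun l _ => ?_
  show ((X j l 0 + Y j l 0) + (X j l 1 + Y j l 1) * BB + (X j l 2 + Y j l 2) * BB ^ 2) *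
    ((BB ^ (30 * m)) ^ j * (BB ^ (3 * m)) ^ l) = _
  ring

theorem P3_sub (m : ℕ) (X Y : VC) : P3 m (X - Y) = P3 m X - P3 m Y := by
  unfold P3
  rw [← sum_sub_distrib]
  refine sum_congr rfl fun j _ => ?_
  rw [← sum_sub_distrib]
  refine sum_congr rfl fun l _ => ?_
  show ((X j l 0 - Y j l 0) + (X j l 1 - Y j l 1) * BB + (X j l 2 - Y j l 2) * BB ^ 2) *
    ((BB ^ (30 * m)) ^ j * (BB ^ (3 * m)) ^ l) = _
  ring

theorem P3_neg (m : ℕ) (X : VC) : P3 m (-X) = -P3 m X := by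
  unfold P3
  rw [← sum_neg_distrib]
  refine sum_congr rfl fun j _ => ?_
  rw [← sum_neg_distrib]
  refine sum_congr rfl fun l _ => ?_
  show (-(X j l 0) + -(X j l 1) * BB + -(X j l 2) * BB ^ 2) *
    ((BB ^ (30 * m)) ^ j * (BB ^ (3 * m)) ^ l) = _
  ring

/-- `conj a_j b_l` -/
def cm (a b : ℕ → Fin 2 → ℤ) : VC := fun j l =>
  ![a j 0 * b l 0, a j 0 * b l 1 - a j 1 * b l 0, -(a j 1 * b l 1)]

/-- times `i` -/
def iv (a : ℕ → Fin 2 → ℤ) : ℕ → Fin 2 → ℤ := fun l => ![-(a l 1), a l 0]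

theorem ri_iv (m : ℕ) (a : ℕ → Fin 2 → ℤ) : ri m a = rq m (iv a) := rfl

theorem P3_cm (m : ℕ) (a b : ℕ → Fin 2 → ℤ) : P3 m (cm a b) = rp30 m a * rq m b := by
  unfold P3 rp30 rq
  rw [sum_mul_sum]
  refine sum_congr rfl fun j _ => sum_congr rfl fun l _ => ?_
  show (a j 0 * b l 0 + (a j 0 * b l 1 - a j 1 * b l 0) * BB + -(a j 1 * b l 1) * BB ^ 2) *
    ((BB ^ (30 * m)) ^ j * (BB ^ (3 * m)) ^ l) = _
  ring

/-- two digits from three -/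
def dV : VC →+ VF where
  toFun Y := fun j l => ![Y j l 0 - Y j l 2, Y j l 1]
  map_zero' := by
    funext j l e
    match e with
    | 0 => exact sub_self (0 : ℤ)
    | 1 => rfl
  map_add' X Y := by
    funext j l e
    match e with
    | 0 =>
      show (X j l 0 + Y j l 0) - (X j l 2 + Y j l 2) = (X j l 0 - X j l 2) + (Y j l 0 - Y j l 2)
      ring
    | 1 => rfl

theorem dV_0 (Y : VC) (j l : ℕ) : dV Y j l 0 = Y j l 0 - Y j l 2 := rfl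
theorem dV_1 (Y : VC) (j l : ℕ) : dV Y j l 1 = Y j l 1 := rfl

/-- value of an entry of a row -/
def ce (a : ℕ → Fin 2 → ℤ) (j : ℕ) : ℂ := ⟨(a j 0 : ℝ), (a j 1 : ℝ)⟩

theorem ce_iv (a : ℕ → Fin 2 → ℤ) (j : ℕ) : ce (iv a) j = Complex.I * ce a j := by
  apply Complex.ext
  · show ((-(a j 1) : ℤ) : ℝ) = 0 * (a j 0 : ℝ) - 1 * (a j 1 : ℝ)
    push_cast
    ring
  · show ((a j 0 : ℤ) : ℝ) = 0 * (a j 1 : ℝ) + 1 * (a j 0 : ℝ)
    ring

theorem ef_cm (j l : ℕ) (a b : ℕ → Fin 2 → ℤ) :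
    ef j l (dV (cm a b)) = star (ce a j) * ce b l := by
  rw [ef_apply]
  apply Complex.ext
  · show ((a j 0 * b l 0 - -(a j 1 * b l 1) : ℤ) : ℝ) =
      (a j 0 : ℝ) * b l 0 - -(a j 1 : ℝ) * b l 1
    push_cast
    ring
  · show ((a j 0 * b l 1 - a j 1 * b l 0 : ℤ) : ℝ) = (a j 0 : ℝ) * b l 1 + -(a j 1 : ℝ) * b l 0
    rw [Int.cast_sub, Int.cast_mul, Int.cast_mul]
    ring

/-! ### the nine forms of a frame -/

def EF (I : VF) (K : ℕ) : VC := match K with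
  | 0 => cm (I 0) (I 0)
  | 1 => cm (I 1) (I 1)
  | 2 => cm (I 2) (I 2)
  | 3 => cm (I 0) (I 1) + cm (I 1) (I 0)
  | 4 => cm (I 0) (iv (I 1)) - cm (I 1) (iv (I 0))
  | 5 => cm (I 0) (I 2) + cm (I 2) (I 0)
  | 6 => cm (I 0) (iv (I 2)) - cm (I 2) (iv (I 0))
  | 7 => cm (I 1) (I 2) + cm (I 2) (I 1)
  | _ => cm (I 1) (iv (I 2)) - cm (I 2) (iv (I 1))

theorem cm_bd {a b : ℕ → Fin 2 → ℤ} (ha : ∀ j < 3, ∀ e, |a j e| ≤ 2 ^ 19)
    (hb : ∀ j < 3, ∀ e, |b j e| ≤ 2 ^ 19) : ∀ j < 3, ∀ l < 3, ∀ e, |cm a b j l e| ≤ 2 ^ 39 := by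
  intro j hj l hl e
  have h : ∀ e e', |a j e * b l e'| ≤ 2 ^ 38 := by
    intro e e'
    rw [abs_mul]
    calc |a j e| * |b l e'| ≤ 2 ^ 19 * 2 ^ 19 :=
          mul_le_mul (ha j hj e) (hb l hl e') (abs_nonneg _) (by positivity)
      _ = 2 ^ 38 := by norm_num
  have h38 : (2 : ℤ) ^ 38 + 2 ^ 38 = 2 ^ 39 := by norm_num
  have h0 : (0 : ℤ) ≤ 2 ^ 38 := by positivity
  match e with
  | 0 =>
    show |a j 0 * b l 0| ≤ 2 ^ 39
    have := h 0 0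
    linarith
  | 1 =>
    show |a j 0 * b l 1 - a j 1 * b l 0| ≤ 2 ^ 39
    have h1 := h 0 1
    have h2 := h 1 0
    have h3 := abs_sub (a j 0 * b l 1) (a j 1 * b l 0)
    linarith
  | 2 =>
    show |-(a j 1 * b l 1)| ≤ 2 ^ 39
    rw [abs_neg]
    have := h 1 1
    linarith

theorem iv_bd {a : ℕ → Fin 2 → ℤ} (ha : ∀ j < 3, ∀ e, |a j e| ≤ 2 ^ 19) :
    ∀ j < 3, ∀ e, |iv a j e| ≤ 2 ^ 19 := by
  intro j hj e
  match e with
  | 0 =>
    show |-(a j 1)| ≤ 2 ^ 19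
    rw [abs_neg]
    exact ha j hj 1
  | 1 => exact ha j hj 0

theorem add_bd {X Y : VC} (hX : ∀ j < 3, ∀ l < 3, ∀ e, |X j l e| ≤ 2 ^ 39)
    (hY : ∀ j < 3, ∀ l < 3, ∀ e, |Y j l e| ≤ 2 ^ 39) :
    ∀ j < 3, ∀ l < 3, ∀ e, |(X + Y) j l e| ≤ 2 ^ 40 := by
  intro j hj l hl e
  show |X j l e + Y j l e| ≤ 2 ^ 40
  have h1 := hX j hj l hl e
  have h2 := hY j hj l hl e
  have h3 := abs_add_le (X j l e) (Y j l e)
  have h4 : (2 : ℤ) ^ 39 + 2 ^ 39 = 2 ^ 40 := by norm_num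
  linarith

theorem sub_bd {X Y : VC} (hX : ∀ j < 3, ∀ l < 3, ∀ e, |X j l e| ≤ 2 ^ 39)
    (hY : ∀ j < 3, ∀ l < 3, ∀ e, |Y j l e| ≤ 2 ^ 39) :
    ∀ j < 3, ∀ l < 3, ∀ e, |(X - Y) j l e| ≤ 2 ^ 40 := by
  intro j hj l hl e
  show |X j l e - Y j l e| ≤ 2 ^ 40
  have h1 := hX j hj l hl e
  have h2 := hY j hj l hl e
  have h3 := abs_sub (X j l e) (Y j l e)
  have h4 : (2 : ℤ) ^ 39 + 2 ^ 39 = 2 ^ 40 := by norm_num
  linarith

theorem up_bd {X : VC} (hX : ∀ j < 3, ∀ l < 3, ∀ e, |X j l e| ≤ 2 ^ 39) :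
    ∀ j < 3, ∀ l < 3, ∀ e, |X j l e| ≤ 2 ^ 40 := fun j hj l hl e =>
  (hX j hj l hl e).trans (by norm_num)

theorem EF_bd {I : VF} (hI : BF (2 ^ 19) I) (K : ℕ) :
    ∀ j < 3, ∀ l < 3, ∀ e, |EF I K j l e| ≤ 2 ^ 40 := by
  have h0 : ∀ j < 3, ∀ e, |I 0 j e| ≤ 2 ^ 19 := fun j hj e => hI 0 (by norm_num) j hj e
  have h1 : ∀ j < 3, ∀ e, |I 1 j e| ≤ 2 ^ 19 := fun j hj e => hI 1 (by norm_num) j hj e
  have h2 : ∀ j < 3, ∀ e, |I 2 j e| ≤ 2 ^ 19 := fun j hj e => hI 2 (by norm_num) j hj e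
  match K with
  | 0 => exact up_bd (cm_bd h0 h0)
  | 1 => exact up_bd (cm_bd h1 h1)
  | 2 => exact up_bd (cm_bd h2 h2)
  | 3 => exact add_bd (cm_bd h0 h1) (cm_bd h1 h0)
  | 4 => exact sub_bd (cm_bd h0 (iv_bd h1)) (cm_bd h1 (iv_bd h0))
  | 5 => exact add_bd (cm_bd h0 h2) (cm_bd h2 h0)
  | 6 => exact sub_bd (cm_bd h0 (iv_bd h2)) (cm_bd h2 (iv_bd h0))
  | 7 => exact add_bd (cm_bd h1 h2) (cm_bd h2 h1)
  | (_ + 8) => exact sub_bd (cm_bd h1 (iv_bd h2)) (cm_bd h2 (iv_bd h1))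

/-! ### laws of a layout -/

/-- all digits equal to `c` -/
def cF (c : ℤ) : VF := fun _ _ _ => c

structure LcL (m : ℕ) (L : Lc) : Prop where
  og : (L.OG : ℤ) = PF m (cF (2 ^ 44))
  oc : (L.OC : ℤ) = PF m (cF (2 ^ 100 + 2 ^ 52))
  bp : ∀ (x : Z) (Y : VC), zv x = P3 m Y → (∀ j < 3, ∀ l < 3, ∀ e, |Y j l e| ≤ 2 ^ 41) →
    ((bP L x : ℕ) : ℤ) = (L.OG : ℤ) + PF m (dV Y)

/-- number of the entry `K` -/
def bsA (R : Bs) (K : ℕ) : ℕ := match K with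
  | 0 => R.a | 1 => R.b | 2 => R.c | 3 => R.d | 4 => R.e | 5 => R.f | 6 => R.g | 7 => R.h | _ => R.i
def utA (R : Ut) (K : ℕ) : ℕ := match K with
  | 0 => R.a | 1 => R.b | 2 => R.c | 3 => R.d | 4 => R.e | 5 => R.f | 6 => R.g | 7 => R.h | _ => R.i

theorem ad9_sum (f : ℕ → ℕ) :
    ad9 (f 0) (f 1) (f 2) (f 3) (f 4) (f 5) (f 6) (f 7) (f 8) = ∑ K ∈ range 9, f K := by
  simp only [sum_range_succ, sum_range_zero]
  show f 0 + (f 1 + (f 2 + (f 3 + (f 4 + (f 5 + (f 6 + (f 7 + f 8))))))) = _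
  ring

theorem zv_zng (x : Z) : zv (zng x) = -zv x := by
  cases x with
  | p n => rfl
  | m n => exact (neg_neg _).symm

/-- signs of the forms `J E^t J` -/
def sg (K : ℕ) : ℤ := match K with
  | 4 => -1 | 5 => -1 | 7 => -1 | _ => 1

section
variable {m : ℕ} {L : Lc} {A : Fr} {I : VF}

theorem b_mul (hL : LcL m L) {p u : Z} {a b : ℕ → Fin 2 → ℤ} (hp : zv p = rp30 m a)
    (hu : zv u = rq m b) (ha : ∀ j < 3, ∀ e, |a j e| ≤ 2 ^ 19) (hb : ∀ j < 3, ∀ e, |b j e| ≤ 2 ^ 19) :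
    ((bP L (Z.mul p u) : ℕ) : ℤ) = (L.OG : ℤ) + PF m (dV (cm a b)) := by
  refine hL.bp _ _ ?_ ?_
  · rw [zv_mul, hp, hu, P3_cm]
  · exact fun j hj l hl e => (cm_bd ha hb j hj l hl e).trans (by norm_num)

theorem z_add {p u q w : Z} {a b c d : ℕ → Fin 2 → ℤ} (hp : zv p = rp30 m a)
    (hu : zv u = rq m b) (hq : zv q = rp30 m c) (hw : zv w = rq m d) :
    zv (Z.add (Z.mul p u) (Z.mul q w)) = P3 m (cm a b + cm c d) := by
  rw [zv_add, zv_mul, zv_mul, hp, hu, hq, hw, P3_add, P3_cm, P3_cm]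

theorem z_sub {p u q w : Z} {a b c d : ℕ → Fin 2 → ℤ} (hp : zv p = rp30 m a)
    (hu : zv u = rq m b) (hq : zv q = rp30 m c) (hw : zv w = rq m d) :
    zv (Z.sub (Z.mul p u) (Z.mul q w)) = P3 m (cm a b - cm c d) := by
  rw [zv_sub, zv_mul, zv_mul, hp, hu, hq, hw, P3_sub, P3_cm, P3_cm]

theorem neg_bd {X : VC} {b : ℤ} (hX : ∀ j < 3, ∀ l < 3, ∀ e, |X j l e| ≤ b) :
    ∀ j < 3, ∀ l < 3, ∀ e, |(-X) j l e| ≤ b := by
  intro j hj l hl e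
  show |-(X j l e)| ≤ b
  rw [abs_neg]
  exact hX j hj l hl e

theorem bd41 {X : VC} (hX : ∀ j < 3, ∀ l < 3, ∀ e, |X j l e| ≤ 2 ^ 40) :
    ∀ j < 3, ∀ l < 3, ∀ e, |X j l e| ≤ 2 ^ 41 := fun j hj l hl e =>
  (hX j hj l hl e).trans (by norm_num)

/-- THE FORMS OF A FRAME OF VECTORS -/
theorem bsU_dg (hL : LcL m L) (hA : FrR m A I) (hI : BF (2 ^ 19) I) : ∀ K < 9,
    ((bsA (bsU L A) K : ℕ) : ℤ) = (L.OG : ℤ) + PF m (dV (EF I K)) := by
  have v0 := hA.v0; have v1 := hA.v1; have v2 := hA.v2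
  rw [ri_iv] at v0 v1 v2
  have hb := fun K => bd41 (EF_bd hI K)
  intro K hK
  interval_cases K
  · exact hL.bp _ _ (by rw [zv_mul, hA.p0, hA.u0, ← P3_cm]; rfl) (hb 0)
  · exact hL.bp _ _ (by rw [zv_mul, hA.p1, hA.u1, ← P3_cm]; rfl) (hb 1)
  · exact hL.bp _ _ (by rw [zv_mul, hA.p2, hA.u2, ← P3_cm]; rfl) (hb 2)
  · exact hL.bp _ _ (z_add hA.p0 hA.u1 hA.p1 hA.u0) (hb 3)
  · exact hL.bp _ _ (z_sub hA.p0 v1 hA.p1 v0) (hb 4)
  · exact hL.bp _ _ (z_add hA.p0 hA.u2 hA.p2 hA.u0) (hb 5)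
  · exact hL.bp _ _ (z_sub hA.p0 v2 hA.p2 v0) (hb 6)
  · exact hL.bp _ _ (z_add hA.p1 hA.u2 hA.p2 hA.u1) (hb 7)
  · exact hL.bp _ _ (z_sub hA.p1 v2 hA.p2 v1) (hb 8)

/-- THE FORMS OF A FRAME OF COVECTORS -/
theorem bsW_dg (hL : LcL m L) (hA : FrR m A I) (hI : BF (2 ^ 19) I) : ∀ K < 9,
    ((bsA (bsW L A) K : ℕ) : ℤ) = (L.OG : ℤ) + PF m (dV (sg K • EF I K)) := by
  have v0 := hA.v0; have v1 := hA.v1; have v2 := hA.v2
  rw [ri_iv] at v0 v1 v2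
  have hb := fun K => bd41 (EF_bd hI K)
  have hn := fun K => neg_bd (bd41 (EF_bd hI K))
  have s1 : ∀ K, sg K = 1 → sg K • EF I K = EF I K := fun K h => by rw [h, one_smul]
  have s2 : ∀ K, sg K = -1 → sg K • EF I K = -EF I K := fun K h => by rw [h, neg_one_smul]
  intro K hK
  interval_cases K
  · rw [s1 0 rfl]
    exact hL.bp _ _ (by rw [zv_mul, hA.p0, hA.u0, ← P3_cm]; rfl) (hb 0)
  · rw [s1 1 rfl]
    exact hL.bp _ _ (by rw [zv_mul, hA.p1, hA.u1, ← P3_cm]; rfl) (hb 1)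
  · rw [s1 2 rfl]
    exact hL.bp _ _ (by rw [zv_mul, hA.p2, hA.u2, ← P3_cm]; rfl) (hb 2)
  · rw [s1 3 rfl]
    exact hL.bp _ _ (z_add hA.p0 hA.u1 hA.p1 hA.u0) (hb 3)
  · rw [s2 4 rfl]
    refine hL.bp _ _ ((z_sub hA.p1 v0 hA.p0 v1).trans ?_) (hn 4)
    rw [P3_sub, P3_neg]
    show _ = -P3 m (cm (I 0) (iv (I 1)) - cm (I 1) (iv (I 0)))
    rw [P3_sub]
    ring
  · rw [s2 5 rfl]
    refine hL.bp _ _ ?_ (hn 5)
    rw [zv_zng, z_add hA.p0 hA.u2 hA.p2 hA.u0, P3_neg]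
    rfl
  · rw [s1 6 rfl]
    exact hL.bp _ _ (z_sub hA.p0 v2 hA.p2 v0) (hb 6)
  · rw [s2 7 rfl]
    refine hL.bp _ _ ?_ (hn 7)
    rw [zv_zng, z_add hA.p1 hA.u2 hA.p2 hA.u1, P3_neg]
    rfl
  · rw [s1 8 rfl]
    exact hL.bp _ _ (z_sub hA.p1 v2 hA.p2 v1) (hb 8)

/-! ### the form of a table -/

def PFh (m : ℕ) : VF →+ ℤ where
  toFun := PF m
  map_zero' := by
    have h := PF_sub m 0 0
    rw [sub_self, sub_self] at h
    exact h
  map_add' X Y := by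
    have h := PF_sub m (X + Y) Y
    rw [add_sub_cancel_right] at h
    rw [h]
    ring

theorem PF_nonneg (m : ℕ) {X : VF} (h : ∀ j < 3, ∀ l < 3, ∀ e, 0 ≤ X j l e) : 0 ≤ PF m X := by
  have B0 : (0 : ℤ) ≤ BB := by rw [BB_eq]; positivity
  unfold PF
  refine sum_nonneg fun j hj => sum_nonneg fun l hl => ?_
  have hj' := mem_range.1 hj
  have hl' := mem_range.1 hl
  exact mul_nonneg (add_nonneg (h j hj' l hl' 0) (mul_nonneg (h j hj' l hl' 1) B0))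
    (mul_nonneg (pow_nonneg (pow_nonneg B0 _) _) (pow_nonneg (pow_nonneg B0 _) _))

theorem PF_off (m : ℕ) {X : VF} {c : ℤ} (h : ∀ j < 3, ∀ l < 3, ∀ e, |X j l e| ≤ c) :
    0 ≤ PF m (cF c) + PF m X := by
  have h1 := (PFh m).map_add (cF c) X
  rw [show (PFh m) (cF c) = PF m (cF c) from rfl, show (PFh m) X = PF m X from rfl] at h1
  rw [← h1]
  refine PF_nonneg m fun j hj l hl e => ?_
  show 0 ≤ c + X j l e
  have := (abs_le.1 (h j hj l hl e)).1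
  linarith

/-- fields of a table -/
def fT (T K : ℕ) : ℤ := (u24 T (24 * K) : ℤ) - 2 ^ 23

theorem u24_lt (T k : ℕ) : u24 T k < 2 ^ 24 := Nat.mod_lt _ (by norm_num)

theorem fT_bd (T K : ℕ) : |fT T K| ≤ 2 ^ 23 := by
  have h1 := u24_lt T (24 * K)
  have h2 : (u24 T (24 * K) : ℤ) < 2 ^ 24 := by exact_mod_cast h1
  have h3 : (0 : ℤ) ≤ (u24 T (24 * K) : ℤ) := Int.natCast_nonneg _
  have h4 : (2 : ℤ) ^ 24 = 2 ^ 23 + 2 ^ 23 := by norm_num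
  unfold fT
  rw [abs_le]
  constructor <;> linarith

/-- the combination of nine forms -/
def sF (f : ℕ → ℤ) (E : ℕ → VF) : VF := ∑ K ∈ range 9, f K • E K

theorem PF_sF (m : ℕ) (f : ℕ → ℤ) (E : ℕ → VF) :
    PF m (sF f E) = ∑ K ∈ range 9, f K * PF m (E K) := by
  have h := map_sum (PFh m) (fun K => f K • E K) (range 9)
  rw [show PF m (sF f E) = (PFh m) (∑ K ∈ range 9, f K • E K) from rfl, h]
  refine sum_congr rfl fun K _ => ?_
  rw [map_zsmul, smul_eq_mul]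
  rfl

theorem sF_apply (f : ℕ → ℤ) (E : ℕ → VF) (j l : ℕ) (e : Fin 2) :
    sF f E j l e = ∑ K ∈ range 9, f K * E K j l e := by
  unfold sF
  rw [Finset.sum_apply, Finset.sum_apply, Finset.sum_apply]
  rfl

theorem sF_bd {f : ℕ → ℤ} {E : ℕ → VF} {c b : ℤ} (hf : ∀ K < 9, |f K| ≤ c) (c0 : 0 ≤ c)
    (hE : ∀ K < 9, ∀ j < 3, ∀ l < 3, ∀ e, |E K j l e| ≤ b) :
    ∀ j < 3, ∀ l < 3, ∀ e, |sF f E j l e| ≤ 9 * (c * b) := by
  intro j hj l hl e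
  rw [sF_apply]
  refine (abs_sum_le_sum_abs _ _).trans ?_
  have h : ∀ K ∈ range 9, |f K * E K j l e| ≤ c * b := by
    intro K hK
    have hK' := mem_range.1 hK
    rw [abs_mul]
    exact mul_le_mul (hf K hK') (hE K hK' j hj l hl e) (abs_nonneg _) c0
  refine (sum_le_sum h).trans ?_
  rw [sum_const, card_range, nsmul_eq_mul]
  norm_num

/-- the constant of a list of forms -/
def IsB (L : Lc) (B : Bs) : Prop := ∃ a b c d e f g h i, B = bs1 L a b c d e f g h i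

theorem IsB.k {B : Bs} (h : IsB L B) : B.k = (L.OC + 75497472 * L.OG) -
    (ad9 B.a B.b B.c B.d B.e B.f B.g B.h B.i) <<< 23 := by
  obtain ⟨a, b, c, d, e, f, g, h, i, rfl⟩ := h
  unfold bs1
  rfl

theorem isU (L : Lc) (A : Fr) : IsB L (bsU L A) := by
  unfold bsU
  exact ⟨_, _, _, _, _, _, _, _, _, rfl⟩
theorem isW (L : Lc) (A : Fr) : IsB L (bsW L A) := by
  unfold bsW
  exact ⟨_, _, _, _, _, _, _, _, _, rfl⟩

/-- THE FORM OF A TABLE, generic -/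
theorem kE_gen (hL : LcL m L) {B : Bs} {E : ℕ → VF}
    (hB : ∀ K < 9, ((bsA B K : ℕ) : ℤ) = (L.OG : ℤ) + PF m (E K))
    (hk : IsB L B)
    (hE : ∀ K < 9, ∀ j < 3, ∀ l < 3, ∀ e, |E K j l e| ≤ 2 ^ 42) (T : ℕ) :
    ((kE L B (mkUt T) : ℕ) : ℤ) = (L.OC : ℤ) + PF m (sF (fT T) E) ∧
    ∀ j < 3, ∀ l < 3, ∀ e, |sF (fT T) E j l e| ≤ 2 ^ 69 := by
  have hS : ((ad9 B.a B.b B.c B.d B.e B.f B.g B.h B.i : ℕ) : ℤ) =
      ∑ K ∈ range 9, ((L.OG : ℤ) + PF m (E K)) := by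
    have h := ad9_sum (bsA B)
    rw [show ad9 B.a B.b B.c B.d B.e B.f B.g B.h B.i = ∑ K ∈ range 9, bsA B K from h]
    rw [Nat.cast_sum]
    exact sum_congr rfl fun K hK => hB K (mem_range.1 hK)
  -- the constant
  have hk1 : ((B.k : ℕ) : ℤ) = (L.OC : ℤ) - 2 ^ 23 * ∑ K ∈ range 9, PF m (E K) := by
    have e1 : (2 ^ 23 : ℤ) * ∑ K ∈ range 9, PF m (E K) = PF m (sF (fun _ => 2 ^ 23) E) := by
      rw [PF_sF, mul_sum]
    have hpos : (0 : ℤ) ≤ (L.OC : ℤ) - 2 ^ 23 * ∑ K ∈ range 9, PF m (E K) := by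
      have h1 := PF_off m (X := -sF (fun _ => 2 ^ 23) E) (c := 2 ^ 100 + 2 ^ 52) (by
        intro j hj l hl e
        show |-(sF (fun _ => 2 ^ 23) E j l e)| ≤ 2 ^ 100 + 2 ^ 52
        rw [abs_neg]
        refine (sF_bd (c := 2 ^ 23) (b := 2 ^ 42) (fun K _ => ?_) (by positivity) hE j hj l hl
          e).trans (by norm_num)
        rw [abs_of_nonneg (by positivity)])
      have h2 := (PFh m).map_neg (sF (fun _ => 2 ^ 23) E)
      rw [show (PFh m) (-sF (fun _ => 2 ^ 23) E) = PF m (-sF (fun _ => 2 ^ 23) E) from rfl,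
        show (PFh m) (sF (fun _ => 2 ^ 23) E) = PF m (sF (fun _ => 2 ^ 23) E) from rfl] at h2
      rw [h2, ← e1, ← hL.oc] at h1
      linarith
    have hX : ((L.OC + 75497472 * L.OG : ℕ) : ℤ) = L.OC + 9 * 2 ^ 23 * L.OG := by
      push_cast
      norm_num
    have hY : ((ad9 B.a B.b B.c B.d B.e B.f B.g B.h B.i <<< 23 : ℕ) : ℤ) =
        2 ^ 23 * (9 * L.OG + ∑ K ∈ range 9, PF m (E K)) := by
      rw [Nat.shiftLeft_eq, Nat.cast_mul, hS, sum_add_distrib, sum_const, card_range,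
        nsmul_eq_mul]
      push_cast
      ring
    have hXY : ((L.OC + 75497472 * L.OG : ℕ) : ℤ) -
        (ad9 B.a B.b B.c B.d B.e B.f B.g B.h B.i <<< 23 : ℕ) =
        (L.OC : ℤ) - 2 ^ 23 * ∑ K ∈ range 9, PF m (E K) := by
      rw [hX, hY]
      ring
    have h3 : (ad9 B.a B.b B.c B.d B.e B.f B.g B.h B.i <<< 23 : ℕ) ≤
        L.OC + 75497472 * L.OG := by
      have h4 : (0 : ℤ) ≤ ((L.OC + 75497472 * L.OG : ℕ) : ℤ) -
        (ad9 B.a B.b B.c B.d B.e B.f B.g B.h B.i <<< 23 : ℕ) := by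
        rw [hXY]
        exact hpos
      exact Int.ofNat_le.1 (sub_nonneg.1 h4)
    rw [hk.k, Nat.cast_sub h3, hXY]
  have hbd : ∀ j < 3, ∀ l < 3, ∀ e, |sF (fT T) E j l e| ≤ 2 ^ 69 := by
    intro j hj l hl e
    exact (sF_bd (c := 2 ^ 23) (b := 2 ^ 42) (fun K _ => fT_bd T K) (by positivity) hE j hj l hl
      e).trans (by norm_num)
  refine ⟨?_, hbd⟩
  have hpos2 : (0 : ℤ) ≤ (L.OC : ℤ) + PF m (sF (fT T) E) := by
    rw [hL.oc]
    exact PF_off m fun j hj l hl e => (hbd j hj l hl e).trans (by norm_num)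
  -- the sums
  have hs : (((mkUt T).s : ℕ) : ℤ) = ∑ K ∈ range 9, (u24 T (24 * K) : ℤ) := by
    have h := ad9_sum (fun K => u24 T (24 * K))
    rw [show (mkUt T).s = ∑ K ∈ range 9, u24 T (24 * K) from h, Nat.cast_sum]
  have hm : ((ad9 (Nat.mul (mkUt T).a B.a) (Nat.mul (mkUt T).b B.b) (Nat.mul (mkUt T).c B.c)
      (Nat.mul (mkUt T).d B.d) (Nat.mul (mkUt T).e B.e) (Nat.mul (mkUt T).f B.f)
      (Nat.mul (mkUt T).g B.g) (Nat.mul (mkUt T).h B.h) (Nat.mul (mkUt T).i B.i) : ℕ) : ℤ) =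
      ∑ K ∈ range 9, (u24 T (24 * K) : ℤ) * (L.OG + PF m (E K)) := by
    have h := ad9_sum (fun K => u24 T (24 * K) * bsA B K)
    have h' : ad9 (Nat.mul (mkUt T).a B.a) (Nat.mul (mkUt T).b B.b) (Nat.mul (mkUt T).c B.c)
      (Nat.mul (mkUt T).d B.d) (Nat.mul (mkUt T).e B.e) (Nat.mul (mkUt T).f B.f)
      (Nat.mul (mkUt T).g B.g) (Nat.mul (mkUt T).h B.h) (Nat.mul (mkUt T).i B.i) =
      ∑ K ∈ range 9, u24 T (24 * K) * bsA B K := h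
    rw [h', Nat.cast_sum]
    refine sum_congr rfl fun K hK => ?_
    rw [Nat.cast_mul, hB K (mem_range.1 hK)]
  have hfin : ((ad9 (Nat.mul (mkUt T).a B.a) (Nat.mul (mkUt T).b B.b) (Nat.mul (mkUt T).c B.c)
      (Nat.mul (mkUt T).d B.d) (Nat.mul (mkUt T).e B.e) (Nat.mul (mkUt T).f B.f)
      (Nat.mul (mkUt T).g B.g) (Nat.mul (mkUt T).h B.h) (Nat.mul (mkUt T).i B.i) : ℕ) : ℤ) +
      (B.k : ℕ) - ((mkUt T).s : ℕ) * (L.OG : ℕ) = (L.OC : ℤ) + PF m (sF (fT T) E) := by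
    rw [hm, hk1, hs, PF_sF]
    have h1 : ∑ K ∈ range 9, (u24 T (24 * K) : ℤ) * ((L.OG : ℤ) + PF m (E K)) =
        (∑ K ∈ range 9, (u24 T (24 * K) : ℤ)) * L.OG +
        ∑ K ∈ range 9, (u24 T (24 * K) : ℤ) * PF m (E K) := by
      rw [sum_mul, ← sum_add_distrib]
      exact sum_congr rfl fun K _ => by ring
    have h2 : ∑ K ∈ range 9, fT T K * PF m (E K) =
        ∑ K ∈ range 9, (u24 T (24 * K) : ℤ) * PF m (E K) - 2 ^ 23 * ∑ K ∈ range 9, PF m (E K) := by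
      rw [mul_sum, ← sum_sub_distrib]
      exact sum_congr rfl fun K _ => by unfold fT; ring
    rw [h1, h2]
    ring
  rw [← hfin]
  show (((ad9 (Nat.mul (mkUt T).a B.a) (Nat.mul (mkUt T).b B.b) (Nat.mul (mkUt T).c B.c)
      (Nat.mul (mkUt T).d B.d) (Nat.mul (mkUt T).e B.e) (Nat.mul (mkUt T).f B.f)
      (Nat.mul (mkUt T).g B.g) (Nat.mul (mkUt T).h B.h) (Nat.mul (mkUt T).i B.i) + B.k) -
      (mkUt T).s * L.OG : ℕ) : ℤ) = _
  rw [← hfin] at hpos2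
  rw [Nat.cast_sub, Nat.cast_add, Nat.cast_mul]
  have h3 : (((mkUt T).s : ℕ) : ℤ) * (L.OG : ℕ) ≤ ((ad9 (Nat.mul (mkUt T).a B.a)
      (Nat.mul (mkUt T).b B.b) (Nat.mul (mkUt T).c B.c)
      (Nat.mul (mkUt T).d B.d) (Nat.mul (mkUt T).e B.e) (Nat.mul (mkUt T).f B.f)
      (Nat.mul (mkUt T).g B.g) (Nat.mul (mkUt T).h B.h) (Nat.mul (mkUt T).i B.i) : ℕ) : ℤ) +
      (B.k : ℕ) := by linarith
  exact_mod_cast h3

end

/-! ### matrices -/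

theorem mI_apply (I : VF) (i j : Fin 3) : mI I i j = ce (I i) j := rfl
theorem mI_ef (Y : VF) (i j : Fin 3) : mI Y i j = ef i j Y := rfl

theorem cx_sm (x y : ℝ) : (2 ^ 23 : ℂ) * (⟨x, y⟩ : ℂ) =
    ((2 ^ 23 * x : ℝ) : ℂ) + ((2 ^ 23 * y : ℝ) : ℂ) * Complex.I := by
  have h1 : (2 ^ 23 : ℂ) = ((2 ^ 23 : ℝ) : ℂ) := by push_cast; rfl
  apply Complex.ext
  · rw [h1, Complex.re_ofReal_mul]
    show (2 ^ 23 : ℝ) * x = 2 ^ 23 * x + ((2 ^ 23 * y) * 0 - 0 * 1)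
    ring
  · rw [h1, Complex.im_ofReal_mul]
    show (2 ^ 23 : ℝ) * y = 0 + ((2 ^ 23 * y) * 1 + 0 * 0)
    ring

theorem fr_sm (T a : ℕ) : (2 ^ 23 * frl T a : ℝ) = (fT T a : ℝ) := by
  unfold frl fT
  push_cast
  ring

theorem kap_eq (T : ℕ) : kap T =
    !![(fT T 0 : ℂ), fT T 3 + fT T 4 * Complex.I, fT T 5 + fT T 6 * Complex.I;
      fT T 3 - fT T 4 * Complex.I, fT T 1, fT T 7 + fT T 8 * Complex.I;
      fT T 5 - fT T 6 * Complex.I, fT T 7 - fT T 8 * Complex.I, fT T 2] := by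
  have h0 : ∀ a, (2 ^ 23 : ℂ) * (⟨frl T a, 0⟩ : ℂ) = (fT T a : ℂ) := fun a => by
    rw [cx_sm, fr_sm, mul_zero, Complex.ofReal_zero, zero_mul, add_zero]
    push_cast
    rfl
  have h1 : ∀ a b, (2 ^ 23 : ℂ) * (⟨frl T a, frl T b⟩ : ℂ) = fT T a + fT T b * Complex.I :=
    fun a b => by
      rw [cx_sm, fr_sm, fr_sm]
      push_cast
      rfl
  have h2 : ∀ a b, (2 ^ 23 : ℂ) * (⟨frl T a, -frl T b⟩ : ℂ) = fT T a - fT T b * Complex.I :=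
    fun a b => by
      rw [cx_sm, fr_sm, mul_neg, fr_sm]
      push_cast
      ring
  ext i j
  fin_cases i <;> fin_cases j
  · exact h0 0
  · exact h1 3 4
  · exact h1 5 6
  · exact h2 3 4
  · exact h0 1
  · exact h1 7 8
  · exact h2 5 6
  · exact h2 7 8
  · exact h0 2

theorem cv_eq (k00 k01 k02 k10 k11 k12 k20 k21 k22 : ℂ) :
    cvM !![k00, k01, k02; k10, k11, k12; k20, k21, k22] =
      !![k00, k10, -k20; k01, k11, -k21; -k02, -k12, k22] := by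
  have ht : (!![k00, k01, k02; k10, k11, k12; k20, k21, k22] : Mt).transpose =
      !![k00, k10, k20; k01, k11, k21; k02, k12, k22] := by
    ext i j
    fin_cases i <;> fin_cases j <;> rfl
  unfold cvM J1
  rw [ht]
  ext i j
  fin_cases i <;> fin_cases j <;>
    simp [Matrix.mul_apply, Fin.sum_univ_three]

theorem ef_sF (f : ℕ → ℤ) (E : ℕ → VF) (j l : ℕ) :
    ef j l (sF f E) = ∑ K ∈ range 9, (f K : ℂ) * ef j l (E K) := by
  unfold sF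
  rw [map_sum]
  refine sum_congr rfl fun K _ => ?_
  rw [map_zsmul, zsmul_eq_mul]

theorem ef_EF (I : VF) (j l : ℕ) (f : ℕ → ℤ) :
    ∑ K ∈ range 9, (f K : ℂ) * ef j l (dV (EF I K)) =
      f 0 * (star (ce (I 0) j) * ce (I 0) l) + f 1 * (star (ce (I 1) j) * ce (I 1) l) +
      f 2 * (star (ce (I 2) j) * ce (I 2) l) +
      f 3 * (star (ce (I 0) j) * ce (I 1) l + star (ce (I 1) j) * ce (I 0) l) +
      f 4 * (star (ce (I 0) j) * (Complex.I * ce (I 1) l) -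
        star (ce (I 1) j) * (Complex.I * ce (I 0) l)) +
      f 5 * (star (ce (I 0) j) * ce (I 2) l + star (ce (I 2) j) * ce (I 0) l) +
      f 6 * (star (ce (I 0) j) * (Complex.I * ce (I 2) l) -
        star (ce (I 2) j) * (Complex.I * ce (I 0) l)) +
      f 7 * (star (ce (I 1) j) * ce (I 2) l + star (ce (I 2) j) * ce (I 1) l) +
      f 8 * (star (ce (I 1) j) * (Complex.I * ce (I 2) l) -
        star (ce (I 2) j) * (Complex.I * ce (I 1) l)) := by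
  simp only [sum_range_succ, sum_range_zero, EF, map_add, map_sub, ef_cm, ce_iv, zero_add]

/-- matrix of the combination -/
theorem mI_sF (I : VF) (f : ℕ → ℤ) : mI (sF f (fun K => dV (EF I K))) =
    (mI I).conjTranspose *
      !![(f 0 : ℂ), f 3 + f 4 * Complex.I, f 5 + f 6 * Complex.I;
        f 3 - f 4 * Complex.I, f 1, f 7 + f 8 * Complex.I;
        f 5 - f 6 * Complex.I, f 7 - f 8 * Complex.I, f 2] * mI I := by
  ext i j
  rw [mI_ef, ef_sF, ef_EF]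
  simp only [Matrix.mul_apply, Fin.sum_univ_three, Matrix.conjTranspose_apply, mI_apply,
    Matrix.of_apply, Matrix.cons_val_zero, Matrix.cons_val_one, Matrix.cons_val_two,
    Matrix.cons_val', Matrix.empty_val', Matrix.cons_val_fin_one, Matrix.head_cons,
    Matrix.tail_cons, Matrix.head_fin_const]
  have c0 : ((0 : Fin 3) : ℕ) = 0 := rfl
  have c1 : ((1 : Fin 3) : ℕ) = 1 := rfl
  have c2 : ((2 : Fin 3) : ℕ) = 2 := rfl
  rw [c0, c1, c2]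
  ring

theorem dV_bd {Y : VC} (h : ∀ j < 3, ∀ l < 3, ∀ e, |Y j l e| ≤ 2 ^ 40) :
    ∀ j < 3, ∀ l < 3, ∀ e, |dV Y j l e| ≤ 2 ^ 42 := by
  intro j hj l hl e
  match e with
  | 0 =>
    rw [dV_0]
    have h1 := h j hj l hl 0
    have h2 := h j hj l hl 2
    have h3 := abs_sub (Y j l 0) (Y j l 2)
    have h4 : (2 : ℤ) ^ 40 + 2 ^ 40 ≤ 2 ^ 42 := by norm_num
    linarith
  | 1 =>
    rw [dV_1]
    exact (h j hj l hl 1).trans (by norm_num)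

section
variable {m : ℕ} {L : Lc} {A : Fr} {I : VF}

/-- A FORM OF VECTORS IN THE FRAME -/
theorem kU_gen (hL : LcL m L) (hA : FrR m A I) (hI : BF (2 ^ 19) I) (T : ℕ) : ∃ Y : VF,
    ((kE L (bsU L A) (mkUt T) : ℕ) : ℤ) = (L.OC : ℤ) + PF m Y ∧
    mI Y = (mI I).conjTranspose * kap T * mI I ∧
    ∀ i < 3, ∀ j < 3, ∀ e, |Y i j e| ≤ 2 ^ 80 := by
  obtain ⟨h1, h2⟩ := kE_gen hL (B := bsU L A) (E := fun K => dV (EF I K)) (bsU_dg hL hA hI) (isU L A)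
    (fun K _ => dV_bd (EF_bd hI K)) T
  refine ⟨_, h1, ?_, fun i hi j hj e => (h2 i hi j hj e).trans (by norm_num)⟩
  rw [mI_sF, kap_eq]

/-- A FORM OF COVECTORS IN THE FRAME -/
theorem kW_gen (hL : LcL m L) (hA : FrR m A I) (hI : BF (2 ^ 19) I) (T : ℕ) : ∃ Y : VF,
    ((kE L (bsW L A) (mkUt T) : ℕ) : ℤ) = (L.OC : ℤ) + PF m Y ∧
    mI Y = (mI I).conjTranspose * cvM (kap T) * mI I ∧
    ∀ i < 3, ∀ j < 3, ∀ e, |Y i j e| ≤ 2 ^ 80 := by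
  have hs : ∀ K, sg K = 1 ∨ sg K = -1 := by
    intro K
    unfold sg
    split
    · exact Or.inr rfl
    · exact Or.inr rfl
    · exact Or.inr rfl
    · exact Or.inl rfl
  have hb : ∀ K < 9, ∀ j < 3, ∀ l < 3, ∀ e, |dV (sg K • EF I K) j l e| ≤ 2 ^ 42 := by
    intro K _
    refine dV_bd ?_
    rcases hs K with h | h
    · rw [h, one_smul]
      exact EF_bd hI K
    · rw [h, neg_one_smul]
      exact neg_bd (EF_bd hI K)
  obtain ⟨h1, h2⟩ := kE_gen hL (B := bsW L A) (E := fun K => dV (sg K • EF I K))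
    (bsW_dg hL hA hI) (isW L A) hb T
  refine ⟨_, h1, ?_, fun i hi j hj e => (h2 i hi j hj e).trans (by norm_num)⟩
  have e1 : sF (fT T) (fun K => dV (sg K • EF I K)) =
      sF (fun K => fT T K * sg K) (fun K => dV (EF I K)) := by
    unfold sF
    refine sum_congr rfl fun K _ => ?_
    show fT T K • dV (sg K • EF I K) = (fT T K * sg K) • dV (EF I K)
    rw [map_zsmul, smul_smul]
  rw [e1, mI_sF, kap_eq, cv_eq]
  have s0 : sg 0 = 1 := rfl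
  have s1 : sg 1 = 1 := rfl
  have s2 : sg 2 = 1 := rfl
  have s3 : sg 3 = 1 := rfl
  have s4 : sg 4 = -1 := rfl
  have s5 : sg 5 = -1 := rfl
  have s6 : sg 6 = 1 := rfl
  have s7 : sg 7 = -1 := rfl
  have s8 : sg 8 = 1 := rfl
  rw [s0, s1, s2, s3, s4, s5, s6, s7, s8]
  push_cast
  congr 2
  ext i j
  fin_cases i <;> fin_cases j <;> simp <;> ring

/-- the form `J` in the frames -/
theorem jE_gen {B : Bs} (h0 : ((B.a : ℕ) : ℤ) = (L.OG : ℤ) + PF m (dV (EF I 0)))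
    (h1 : ((B.b : ℕ) : ℤ) = (L.OG : ℤ) + PF m (dV (EF I 1)))
    (h2 : ((B.c : ℕ) : ℤ) = (L.OG : ℤ) + PF m (dV (EF I 2))) (R : M9)
    (hR : ∀ K < 9, ‖ef (K / 3) (K % 3) I‖ ≤ (R.at K : ℝ)) : ∃ Y : VF, RF m (fmJ L B) Y ∧
    mI Y = (mI I).conjTranspose * J1 * mI I ∧
    ∀ i < 3, ∀ j < 3, ‖ef i j Y‖ ≤ (sm9 R : ℝ) ^ 2 := by
  set f : ℕ → ℤ := fun K => match K with | 0 => 1 | 1 => 1 | 2 => -1 | _ => 0 with hf
  refine ⟨sF f (fun K => dV (EF I K)), ?_, ?_, ?_⟩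
  · unfold RF
    have e : zv (fmJ L B) = ((Nat.add B.a B.b : ℕ) : ℤ) - ((Nat.add B.c L.OG : ℕ) : ℤ) :=
      zv_sub' _ _
    rw [e, PF_sF]
    show ((B.a + B.b : ℕ) : ℤ) - ((B.c + L.OG : ℕ) : ℤ) = _
    push_cast
    rw [h0, h1, h2]
    simp only [sum_range_succ, sum_range_zero, hf]
    ring
  · rw [mI_sF]
    congr 2
    unfold J1
    ext i j
    fin_cases i <;> fin_cases j <;> simp [hf]
  · intro i hi j hj
    rw [ef_sF, ef_EF]
    simp only [hf]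
    push_cast
    have hc : ∀ a < 3, ∀ b < 3, ‖ce (I a) b‖ ≤ (R.at (3 * a + b) : ℝ) := by
      intro a _ b hb
      have h := hR (3 * a + b) (by omega)
      rw [div3 hb, mod3 hb] at h
      exact h
    have hpos : ∀ K, (0 : ℝ) ≤ (R.at K : ℝ) := fun K => Nat.cast_nonneg _
    have hsum : (sm9 R : ℝ) = ∑ K ∈ range 9, (R.at K : ℝ) := by
      have h := ad9_sum (fun K => R.at K)
      rw [show sm9 R = ∑ K ∈ range 9, R.at K from h, Nat.cast_sum]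
    have hle : ∀ a < 3, ∀ b < 3, ‖ce (I a) b‖ ≤ (sm9 R : ℝ) := by
      intro a ha b hb
      refine (hc a ha b hb).trans ?_
      rw [hsum]
      exact Finset.single_le_sum (f := fun K => (R.at K : ℝ)) (fun K _ => hpos K)
        (mem_range.2 (by omega))
    have hcol : ∀ b < 3, ‖ce (I 0) b‖ + ‖ce (I 1) b‖ + ‖ce (I 2) b‖ ≤ (sm9 R : ℝ) := by
      intro b hb
      have g0 := hc 0 (by norm_num) b hb
      have g1 := hc 1 (by norm_num) b hb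
      have g2 := hc 2 (by norm_num) b hb
      rw [hsum]
      simp only [sum_range_succ, sum_range_zero]
      have p0 := hpos 0; have p1 := hpos 1; have p2 := hpos 2; have p3 := hpos 3
      have p4 := hpos 4; have p5 := hpos 5; have p6 := hpos 6; have p7 := hpos 7
      have p8 := hpos 8
      interval_cases b
      · simp only [Nat.mul_zero, Nat.mul_one, Nat.add_zero, Nat.zero_add] at g0 g1 g2
        linarith
      · simp only [Nat.mul_zero, Nat.mul_one, Nat.add_zero, Nat.zero_add] at g0 g1 g2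
        norm_num at g0 g1 g2
        linarith
      · simp only [Nat.mul_zero, Nat.mul_one, Nat.add_zero, Nat.zero_add] at g0 g1 g2
        norm_num at g0 g1 g2
        linarith
    have hn : ∀ a b : ℕ, ‖star (ce (I a) i) * ce (I a) j‖ = ‖ce (I a) i‖ * ‖ce (I a) j‖ := by
      intro a _
      rw [norm_mul, norm_star]
    have t1 : ‖(1 : ℂ) * (star (ce (I 0) i) * ce (I 0) j) + 1 * (star (ce (I 1) i) * ce (I 1) j) +
        -1 * (star (ce (I 2) i) * ce (I 2) j)‖ ≤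
        ‖ce (I 0) i‖ * ‖ce (I 0) j‖ + ‖ce (I 1) i‖ * ‖ce (I 1) j‖ + ‖ce (I 2) i‖ * ‖ce (I 2) j‖ := by
      rw [one_mul, one_mul, neg_one_mul]
      refine (norm_add_le _ _).trans (add_le_add ((norm_add_le _ _).trans (add_le_add ?_ ?_)) ?_)
      · exact (hn 0 0).le
      · exact (hn 1 0).le
      · rw [norm_neg]
        exact (hn 2 0).le
    simp only [zero_mul, add_zero]
    refine t1.trans ?_
    have k0 := norm_nonneg (ce (I 0) i); have k1 := norm_nonneg (ce (I 1) i)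
    have k2 := norm_nonneg (ce (I 2) i)
    have l0 := hle 0 (by norm_num) j hj
    have l1 := hle 1 (by norm_num) j hj
    have l2 := hle 2 (by norm_num) j hj
    have hci := hcol i hi
    have sp : (0 : ℝ) ≤ (sm9 R : ℝ) := Nat.cast_nonneg _
    calc ‖ce (I 0) i‖ * ‖ce (I 0) j‖ + ‖ce (I 1) i‖ * ‖ce (I 1) j‖ + ‖ce (I 2) i‖ * ‖ce (I 2) j‖
        ≤ ‖ce (I 0) i‖ * (sm9 R : ℝ) + ‖ce (I 1) i‖ * (sm9 R : ℝ) + ‖ce (I 2) i‖ * (sm9 R : ℝ) :=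
          add_le_add (add_le_add (mul_le_mul_of_nonneg_left l0 k0)
            (mul_le_mul_of_nonneg_left l1 k1)) (mul_le_mul_of_nonneg_left l2 k2)
      _ = (‖ce (I 0) i‖ + ‖ce (I 1) i‖ + ‖ce (I 2) i‖) * (sm9 R : ℝ) := by ring
      _ ≤ (sm9 R : ℝ) * (sm9 R : ℝ) := mul_le_mul_of_nonneg_right hci sp
      _ = (sm9 R : ℝ) ^ 2 := by ring

theorem jU_gen (hL : LcL m L) (hA : FrR m A I) (hI : BF (2 ^ 19) I) (R : M9)
    (hR : ∀ K < 9, ‖ef (K / 3) (K % 3) I‖ ≤ (R.at K : ℝ)) : ∃ Y : VF, RF m (fmJ L (bsU L A)) Y ∧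
    mI Y = (mI I).conjTranspose * J1 * mI I ∧
    ∀ i < 3, ∀ j < 3, ‖ef i j Y‖ ≤ (sm9 R : ℝ) ^ 2 := by
  have h := bsU_dg hL hA hI
  exact jE_gen (h 0 (by norm_num)) (h 1 (by norm_num)) (h 2 (by norm_num)) R hR

theorem jW_gen (hL : LcL m L) (hA : FrR m A I) (hI : BF (2 ^ 19) I) (R : M9)
    (hR : ∀ K < 9, ‖ef (K / 3) (K % 3) I‖ ≤ (R.at K : ℝ)) : ∃ Y : VF, RF m (fmJ L (bsW L A)) Y ∧
    mI Y = (mI I).conjTranspose * J1 * mI I ∧
    ∀ i < 3, ∀ j < 3, ‖ef i j Y‖ ≤ (sm9 R : ℝ) ^ 2 := by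
  have h := bsW_dg hL hA hI
  have s0 : sg 0 • EF I 0 = EF I 0 := one_smul _ _
  have s1 : sg 1 • EF I 1 = EF I 1 := one_smul _ _
  have s2 : sg 2 • EF I 2 = EF I 2 := one_smul _ _
  have h0 := h 0 (by norm_num)
  have h1 := h 1 (by norm_num)
  have h2 := h 2 (by norm_num)
  rw [s0] at h0
  rw [s1] at h1
  rw [s2] at h2
  exact jE_gen h0 h1 h2 R hR

end
end Pool.Agent.Helper17.N9.F1
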