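import Pool.Agent.Helper17.N9.N9B

/-!
Row K9 of MP_c75db0 (plan W), version 2, row N: the test of the tree of matrices.
-/

set_option autoImplicit false
set_option exponentiation.threshold 60000
noncomputable section
namespace Pool.Agent.Helper17.N9

open Pool.Agent.Helper86.C75 (Z)
open Pool.Agent.Helper86.CX (Cx andB)
open Pool.Agent.Helper86.CT (N3 Mo)
open Pool.Agent.Helper90.C75 (Vt avg wtT Wts)
open Pool.Agent.Helper90.KMO (zv cz UU)
open Pool.Agent.Helper90.KMT (nlf lf0 TOK PT DL NN)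
open Pool.Agent.Helper90.K9 (G G_congr pk pz pk_cast pz_congr pk_congr)
open Pool.Agent.Helper90.C9 (dgC RdC tfY tfY_ok)
open Finset

/-! ### digits -/

theorem dg_eq (N : VC) (k : ℕ) : dg N k = dgC N k := rfl

/-- the digit as an additive map -/
def dgH (k : ℕ) : VC →+ ℤ where
  toFun N := dg N k
  map_zero' := by
    unfold dg
    split_ifs <;> rfl
  map_add' M N := by
    unfold dg
    by_cases h : k % 30 < 27
    · rw [if_pos h, if_pos h, if_pos h]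
      rfl
    · rw [if_neg h, if_neg h, if_neg h, add_zero]

theorem cnI_dg (D : ℕ) (F : Vt D → VC) (u : Vt D) (k : ℕ) :
    cnI D (fun w => dg (F w) k) u = dg (cnI D F u) k := (cnI_map (dgH k) D F u).symm

/-- the digit `K L e` as an additive map -/
def eH (K L : ℕ) (e : Fin 3) : VC →+ ℤ where
  toFun N := N K L e
  map_zero' := rfl
  map_add' _ _ := rfl

theorem cnI_le : ∀ (D : ℕ) (G : Vt D → ℤ) (b : ℤ), (∀ u, |G u| ≤ b) → ∀ u, |cnI D G u| ≤ 6 ^ D * b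
  | 0, G, b, h, u => by
    show |G u| ≤ 6 ^ 0 * b
    rw [pow_zero, one_mul]
    exact h u
  | D + 1, G, b, h, u => by
    obtain ⟨u, i⟩ := u
    have h0 := abs_le.1 (cnI_le D (fun w => G (w, 0)) b (fun w => h _) u)
    have h1 := abs_le.1 (cnI_le D (fun w => G (w, 1)) b (fun w => h _) u)
    have h2 := abs_le.1 (cnI_le D (fun w => G (w, 2)) b (fun w => h _) u)
    have hp : (6 : ℤ) ^ (D + 1) * b = 6 * (6 ^ D * b) := by rw [pow_succ]; ring
    have hb : 0 ≤ 6 ^ D * b := (abs_nonneg _).trans (cnI_le D (fun w => G (w, 0)) b (fun w => h _) u)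
    rw [hp]
    fin_cases i
    · show |(2 : ℤ) • cnI D (fun w => G (w, 0)) u| ≤ _
      rw [smul_eq_mul, abs_le]
      constructor <;> linarith
    · show |(4 : ℤ) • cnI D (fun w => G (w, 1)) u -
        (cnI D (fun w => G (w, 0)) u + cnI D (fun w => G (w, 2)) u)| ≤ _
      rw [smul_eq_mul, abs_le]
      constructor <;> linarith
    · show |(2 : ℤ) • cnI D (fun w => G (w, 2)) u| ≤ _
      rw [smul_eq_mul, abs_le]
      constructor <;> linarith

/-! ### the range test -/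

theorem ONEN_eq : ONEN = pk (2 ^ 128) 270 (fun _ => 1) := by decide +kernel
theorem OFN_eq : OFN = pk (2 ^ 128) 270 (fun _ => 2 ^ 122) := by decide +kernel

theorem andB2 {x y : Bool} (h : andB x y = true) : x = true ∧ y = true := by
  cases x <;> cases y <;> first | exact ⟨rfl, rfl⟩ | exact absurd h (by decide)

theorem andB_sel (x y : Bool) (h : andB x y = true) :
    Pool.Agent.Helper90.C9.sel x y = true := by
  cases x <;> cases y <;> first | rfl | exact absurd h (by decide)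

theorem rz_ok {h : ℕ} (hh : h ≤ 125) {x : Z} {N : VC} (hx : RC x N) (hb : Bc (2 ^ 126) N)
    (ht : rz ONEN h x = true) : ∀ k < 270, |dg N k| ≤ 2 ^ h := by
  have hz : zv x = pz (2 ^ 128) 270 (dg N) := by
    have h1 : zv x = PC N := hx
    rw [h1, PC_pz]
    rfl
  have ht' : Pool.Agent.Helper90.DG.rzG ONEN h x = true := by
    cases x with
    | p n => exact ht
    | m n => exact andB_sel _ _ ht
  exact Pool.Agent.Helper90.DG.rzG_ok hh ONEN_eq (fun _ _ => Or.inl rfl) hz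
    (fun k hk => dg_bd (by positivity) hb hk) ht'

/-! ### the offset -/

theorem OFN_shift {D : ℕ} (hD : D ≤ 4) :
    Nat.shiftRight OFN D = pk (2 ^ 128) 270 (fun _ => 2 ^ (122 - D)) := by
  have e : pk (2 ^ 128) 270 (fun _ => 2 ^ 122) = 2 ^ D * pk (2 ^ 128) 270 (fun _ => 2 ^ (122 - D)) := by
    rw [Pool.Agent.Helper90.K9.pk_smul]
    refine pk_congr _ _ _ _ fun k _ => ?_
    rw [← pow_add]
    congr 1
    omega
  show OFN >>> D = _
  rw [OFN_eq, e, Nat.shiftRight_eq_div_pow, Nat.mul_div_cancel_left _ (by positivity)]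

theorem pz_const (o : ℤ) (n : ℕ) (f : ℕ → ℤ) :
    pz (2 ^ 128) n (fun _ => o) + pz (2 ^ 128) n f = pz (2 ^ 128) n (fun k => o + f k) := by
  rw [pz_sum, pz_sum, pz_sum, ← sum_add_distrib]
  exact sum_congr rfl fun i _ => by ring

theorem zoff_cast' {o : ℕ} {x : Z} (h : 0 ≤ (o : ℤ) + zv x) : ((zoff o x : ℕ) : ℤ) = (o : ℤ) + zv x := by
  cases x with
  | p n =>
    show ((o + n : ℕ) : ℤ) = _
    rw [Nat.cast_add]
    rfl
  | m n =>
    have h1 : n ≤ o := by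
      have h2 : (0 : ℤ) ≤ (o : ℤ) + -(n : ℤ) := h
      have h3 : (n : ℤ) ≤ (o : ℤ) := by linarith
      exact_mod_cast h3
    show ((o - n : ℕ) : ℤ) = _
    rw [Nat.cast_sub h1]
    rfl

theorem pz_nonneg' (n : ℕ) (f : ℕ → ℤ) (h : ∀ k < n, 0 ≤ f k) : 0 ≤ pz (2 ^ 128) n f := by
  rw [pz_sum]
  exact sum_nonneg fun i hi => mul_nonneg (h i (mem_range.1 hi)) (by positivity)

/-- the number with offset at a node -/
theorem off_node {D : ℕ} (hD : D ≤ 4) {x : Z} {N : VC} (hx : RC x N)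
    (hb : ∀ k < 270, |dg N k| ≤ 2 ^ 110) :
    ((zoff (Nat.shiftRight OFN D) x : ℕ) : ℤ) = pz BB 270 (fun k => 2 ^ (122 - D) + dg N k) := by
  have h1 : zv x = PC N := hx
  have e : ((Nat.shiftRight OFN D : ℕ) : ℤ) + zv x = pz (2 ^ 128) 270 (fun k => 2 ^ (122 - D) + dg N k) := by
    rw [h1, PC_pz, OFN_shift hD, pk_cast]
    have e2 := pz_const (2 ^ (122 - D)) 270 (dg N)
    rw [← e2]
    push_cast
    rfl
  rw [zoff_cast', e]
  · rfl
  · rw [e]
    refine pz_nonneg' _ _ fun k hk => ?_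
    have h2 := abs_le.1 (hb k hk)
    have h3 : (2 : ℤ) ^ 118 ≤ 2 ^ (122 - D) := pow_le_pow_right₀ (by norm_num) (by omega)
    have h4 : (2 : ℤ) ^ 110 ≤ 2 ^ 118 := pow_le_pow_right₀ (by norm_num) (by norm_num)
    linarith [h2.1]

/-! ### a leaf -/

theorem toNat_pk {n : ℕ} {Y : ℕ} {f : ℕ → ℤ} (hY : (Y : ℤ) = pz BB n f) (hf : ∀ k < n, 0 ≤ f k) :
    Y = pk (2 ^ 128) n (fun k => (f k).toNat) := by
  have h : (Y : ℤ) = ((pk (2 ^ 128) n (fun k => (f k).toNat) : ℕ) : ℤ) := by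
    rw [hY, pk_cast]
    push_cast
    exact pz_congr _ _ _ _ fun k hk => (Int.toNat_of_nonneg (hf k hk)).symm
  exact_mod_cast h

theorem leaf_ok {N : VC} {Y : ℕ} (hY : (Y : ℤ) = pz BB 270 (fun k => 2 ^ 122 + dg N k))
    (hb : ∀ K L, K < 9 → L < 9 → ∀ e, |N K L e| ≤ 2 ^ 121) {R : ℕ → ℕ} (hR : ∀ K < 9, R K ≤ 2 ^ 36)
    (ht : tfY (RdC R) Y = true) (v : ℕ → ℂ) :
    ∑ K ∈ range 9, ((R K : ℝ) - 1238) * ‖v K‖ ^ 2 ≤ Ph v N / 2 ^ 76 := by
  have hd : ∀ k < 270, |dg N k| ≤ 2 ^ 121 := fun k hk => dg_bd (by positivity) hb hk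
  have h0 : ∀ k < 270, 0 ≤ 2 ^ 122 + dg N k := fun k hk => by
    have h2 := abs_le.1 (hd k hk)
    have h4 : (2 : ℤ) ^ 121 ≤ 2 ^ 122 := pow_le_pow_right₀ (by norm_num) (by norm_num)
    linarith [h2.1]
  have h := tfY_ok (toNat_pk hY h0) hb hR ht v
  refine h.trans (le_of_eq ?_)
  rw [Ph_apply, div_eq_inv_mul, ← G_smul]
  refine G_congr 9 _ _ v fun i _ j _ _ => ?_
  rw [fv_apply, div_eq_inv_mul]
  have e : ((2 : ℂ) ^ 76)⁻¹ = (((2 : ℝ) ^ 76)⁻¹ : ℝ) := by push_cast; rfl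
  rw [e]
  congr 1
  apply Complex.ext
  · simp
  · simp

/-! ### THE TREE -/

theorem t5_ok {ν ζ κ : Type} {D : ℕ} {lv : ν → Vt D → ℕ} {lz : ζ → Vt D → Z} {lk : κ → Vt D → ℕ}
    {T : Tl ν ζ κ} (H : TlL D lv lz lk T) (hD : D ≤ 4) {N : ζ} {F : Vt D → VC}
    (hN : ∀ u, RC (lz N u) (F u)) (hb : ∀ u, Bc (2 ^ 126) (F u)) {R : ℕ → ℕ}
    (hR : ∀ K < 9, R K ≤ 2 ^ 36) (h : t5 T (Nat.shiftRight OFN D) (tfY (RdC R)) N = true)
    {t : ℕ → ℝ} (hP : PT D t) (v : ℕ → ℂ) :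
    ∑ K ∈ range 9, ((R K : ℝ) - 1238) * ‖v K‖ ^ 2 ≤
      2 ^ D / 2 ^ 76 * G 9 (fun K L => avg (ndw D t) (fun u => fv K L (F u))) v := by
  have h' : andB (T.az (rz ONEN 110) N) (T.al (tfY (RdC R)) (T.cn (T.mz (zoff (Nat.shiftRight OFN D)) N))) =
      true := h
  obtain ⟨h1, h2⟩ := andB2 h'
  have d1 : ∀ u, ∀ k < 270, |dg (F u) k| ≤ 2 ^ 110 := fun u =>
    rz_ok (by norm_num) (hN u) (hb u) (H.az _ _ h1 u)
  have d2 : ∀ u, (lv (T.mz (zoff (Nat.shiftRight OFN D)) N) u : ℤ) =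
      pz BB 270 (fun k => 2 ^ (122 - D) + dg (F u) k) := fun u => by
    rw [H.mz]
    exact off_node hD (hN u) (d1 u)
  have d3 : ∀ u, ((lv (T.cn (T.mz (zoff (Nat.shiftRight OFN D)) N)) u : ℕ) : ℤ) =
      pz BB 270 (fun k => 2 ^ 122 + dg (cnI D F u) k) := fun u => by
    rw [H.cn _ 270 (fun _ => 2 ^ (122 - D)) (fun u k => dg (F u) k) d2 (fun u k hk => ?_) u]
    · refine pz_congr _ _ _ _ fun k _ => ?_
      show 2 ^ D * 2 ^ (122 - D) + cnI D (fun w => dg (F w) k) u = _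
      rw [cnI_dg, ← pow_add]
      congr 2
      omega
    · have a1 := d1 u k hk
      have a2 : (3 : ℤ) ^ D ≤ 3 ^ 4 := pow_le_pow_right₀ (by norm_num) hD
      have a3 : (2 : ℤ) ^ 118 ≤ 2 ^ (122 - D) := pow_le_pow_right₀ (by norm_num) (by omega)
      have a4 : (3 : ℤ) ^ D * |dg (F u) k| ≤ 3 ^ 4 * 2 ^ 110 :=
        mul_le_mul a2 a1 (abs_nonneg _) (by norm_num)
      have a5 : (3 : ℤ) ^ 4 * 2 ^ 110 ≤ 2 ^ 118 := by norm_num
      exact (a4.trans a5).trans a3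
  have d4 : ∀ u K L, K < 9 → L < 9 → ∀ e, |cnI D F u K L e| ≤ 2 ^ 121 := by
    intro u K L hK hL e
    have e1 : cnI D F u K L e = cnI D (fun w => F w K L e) u := cnI_map (eH K L e) D F u
    rw [e1]
    have e2 : ∀ w, |F w K L e| ≤ 2 ^ 110 := fun w => by
      have a := d1 w (30 * K + (3 * L + e)) (by have := e.2; omega)
      rwa [dg_at _ hL] at a
    refine (cnI_le D _ _ e2 u).trans ?_
    have a2 : (6 : ℤ) ^ D ≤ 6 ^ 4 := pow_le_pow_right₀ (by norm_num) hD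
    have a3 : (6 : ℤ) ^ D * 2 ^ 110 ≤ 6 ^ 4 * 2 ^ 110 := mul_le_mul_of_nonneg_right a2 (by positivity)
    exact a3.trans (by norm_num)
  have d5 : ∀ u, ∑ K ∈ range 9, ((R K : ℝ) - 1238) * ‖v K‖ ^ 2 ≤ Ph v (cnI D F u) / 2 ^ 76 := fun u =>
    leaf_ok (d3 u) (d4 u) hR (H.al _ _ h2 u) v
  have w : Wts (wtT D t) := hP.w
  have d6 : ∑ K ∈ range 9, ((R K : ℝ) - 1238) * ‖v K‖ ^ 2 ≤
      ∑ u, wtT D t u * (Ph v (cnI D F u) / 2 ^ 76) := by
    calc ∑ K ∈ range 9, ((R K : ℝ) - 1238) * ‖v K‖ ^ 2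
        = ∑ u, wtT D t u * ∑ K ∈ range 9, ((R K : ℝ) - 1238) * ‖v K‖ ^ 2 := by
          rw [← sum_mul, w.sum, one_mul]
      _ ≤ _ := sum_le_sum fun u _ => mul_le_mul_of_nonneg_left (d5 u) (w.nonneg u)
  refine d6.trans (le_of_eq ?_)
  have e3 : ∀ u, Ph v (cnI D F u) = cnI D (fun w => Ph v (F w)) u := fun u => cnI_map (Ph v) D F u
  calc ∑ u, wtT D t u * (Ph v (cnI D F u) / 2 ^ 76)
      = (∑ u, wtT D t u * cnI D (fun w => Ph v (F w)) u) / 2 ^ 76 := by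
        rw [sum_div]
        exact sum_congr rfl fun u _ => by rw [e3]; ring
    _ = 2 ^ D * (∑ u, ndw D t u * Ph v (F u)) / 2 ^ 76 := by rw [cn_avgR]
    _ = _ := by rw [Ph_avg]; ring

end Pool.Agent.Helper17.N9
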