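/-!
Row K9 of MP_c75db0 (plan W), version 2: hermitian forms on a box of three parameters.
A table: nine fields of `24` bits, offset `2 ^ 23`: entries `00`, `11`, `22`, real and imaginary
part of `01`, of `02`, of `12`. A form: a constant table, or the tables at the `27` nodes
`(i0 / 2, i1 / 2, i2 / 2)`, node number `i0 + 3 i1 + 9 i2`, `216` bits each.
-/

set_option autoImplicit false
namespace Pool.Agent.Helper17.N9

/-- a form: constant (`c`), or tensor quadratic with given values at the `27` nodes (`q`) -/
inductive Kf where
  | c (k : Nat)
  | q (k : Nat)

/-- field of `24` bits -/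
def u24 (T k : Nat) : Nat := Nat.mod (Nat.shiftRight T k) (nat_lit 16777216)

end Pool.Agent.Helper17.N9
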